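import Mathlib
import Pool.Agent.Lib.MP_f9aece_nt.EM

/-!
The function `F(s) = (s-1) ζ(s) / (s+1)` and its linear growth on `Re s ≥ 1/2`.
-/

set_option autoImplicit false

namespace Pool.Agent.Lib.MP_f9aece_nt_h40

open Complex Set Filter Topology
open Pool.Agent.Lib.MP_f9aece_nt

/-- the entire function `(s-1) ζ(s)` -/
noncomputable def Z1 : ℂ → ℂ := DirichletCharacter.LFunctionTrivChar₁ 1

lemma Z1_differentiable : Differentiable ℂ Z1 :=
  DirichletCharacter.differentiable_LFunctionTrivChar₁ 1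

lemma Z1_eq {s : ℂ} (hs : s ≠ 1) : Z1 s = (s - 1) * riemannZeta s := by
  unfold Z1
  rw [DirichletCharacter.LFunctionTrivChar₁, Function.update_of_ne hs]
  simp [DirichletCharacter.LFunctionTrivChar]

/-- `F(s) = (s-1) ζ(s) / (s+1)`. -/
noncomputable def F (s : ℂ) : ℂ := Z1 s / (s + 1)

lemma add_one_ne_zero {s : ℂ} (hs : 0 < s.re) : s + 1 ≠ 0 := by
  intro h
  have := congrArg Complex.re h
  simp at this
  linarith

lemma F_analyticAt {s : ℂ} (hs : 0 < s.re) : AnalyticAt ℂ F s := by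
  have h1 : AnalyticAt ℂ Z1 s := Z1_differentiable.analyticAt s
  exact h1.div (by fun_prop) (add_one_ne_zero hs)

lemma F_continuousAt {s : ℂ} (hs : 0 < s.re) : ContinuousAt F s := (F_analyticAt hs).continuousAt

lemma norm_sub_one_le {s : ℂ} (hs : 0 < s.re) : ‖s - 1‖ ≤ ‖s + 1‖ := by
  rw [← sq_le_sq₀ (norm_nonneg _) (norm_nonneg _), ← Complex.normSq_eq_norm_sq,
    ← Complex.normSq_eq_norm_sq, Complex.normSq_apply, Complex.normSq_apply]
  simp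
  nlinarith

lemma one_le_norm_add_one {s : ℂ} (hs : 0 < s.re) : 1 ≤ ‖s + 1‖ := by
  have h1 : |(s + 1).re| ≤ ‖s + 1‖ := Complex.abs_re_le_norm _
  have h2 : (s + 1).re = s.re + 1 := by simp
  rw [h2, abs_of_pos (by linarith)] at h1
  linarith

lemma zeta_bound_quad {s : ℂ} (hs : s ∈ quad) {N : ℕ} (hN : 1 ≤ N) (hNs : ‖s‖ ≤ N) :
    ‖riemannZeta s‖ ≤ (N + 1 / 2) + N / ‖s - 1‖ + ‖s + 1‖ := by
  have hN0 : (0 : ℝ) < N := by exact_mod_cast hN
  have hN1 : (1 : ℝ) ≤ N := by exact_mod_cast hN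
  have hs1 := quad_ne_one hs
  rw [zeta_eq_sum hs hN]
  have hsum : Summable (fun n : ℕ => 1 / ((n + N : ℕ) : ℝ) ^ 2) := by
    exact (summable_nat_add_iff (f := fun n : ℕ => 1 / ((n : ℕ) : ℝ) ^ 2) N).mpr
      (Real.summable_one_div_nat_pow.mpr (by norm_num : 1 < 2))
  have htail : ‖∑' n : ℕ, trap (n + N) s‖ ≤ ‖s + 1‖ := by
    calc ‖∑' n : ℕ, trap (n + N) s‖
        ≤ ∑' n : ℕ, (‖s‖ * ‖s + 1‖ / 2) * (1 / ((n + N : ℕ) : ℝ) ^ 2) :=
          tsum_of_norm_bounded ((hsum.mul_left _).hasSum)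
            (fun n => trap_bound' (by omega) hs.1.le hs1)
      _ = (‖s‖ * ‖s + 1‖ / 2) * ∑' n : ℕ, (1 / ((n + N : ℕ) : ℝ) ^ 2) := tsum_mul_left
      _ ≤ (‖s‖ * ‖s + 1‖ / 2) * (2 / N) := by
          gcongr
          exact tail_sum_sq N hN
      _ = ‖s‖ / N * ‖s + 1‖ := by ring
      _ ≤ 1 * ‖s + 1‖ := by
          gcongr
          exact (div_le_one hN0).mpr hNs
      _ = _ := one_mul _
  have hterm : ∀ n : ℕ, 1 ≤ n → ‖(n : ℂ) ^ (-s)‖ ≤ 1 := by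
    intro n hn
    rw [Complex.norm_natCast_cpow_of_pos hn]
    apply Real.rpow_le_one_of_one_le_of_nonpos
    · exact_mod_cast hn
    · simp; exact hs.1.le
  have hS : ‖∑ n ∈ Finset.Icc 1 N, (n : ℂ) ^ (-s)‖ ≤ N := by
    refine (norm_sum_le _ _).trans ?_
    refine (Finset.sum_le_sum (g := fun _ => (1 : ℝ)) ?_).trans ?_
    · intro n hn
      exact hterm n (Finset.mem_Icc.mp hn).1
    · simp
  have h2 : ‖(N : ℂ) ^ (-s) / 2‖ ≤ 1 / 2 := by
    rw [norm_div]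
    have := hterm N hN
    simp only [Complex.norm_ofNat]
    linarith
  have h3 : ‖(N : ℂ) ^ (1 - s) / (s - 1)‖ ≤ N / ‖s - 1‖ := by
    rw [norm_div]
    gcongr
    rw [Complex.norm_natCast_cpow_of_pos hN]
    calc (N : ℝ) ^ (1 - s).re ≤ (N : ℝ) ^ (1 : ℝ) := by
          apply Real.rpow_le_rpow_of_exponent_le hN1
          simp; exact hs.1.le
      _ = N := Real.rpow_one _
  calc ‖∑ n ∈ Finset.Icc 1 N, (n : ℂ) ^ (-s) - (N : ℂ) ^ (-s) / 2
      + (N : ℂ) ^ (1 - s) / (s - 1) + ∑' n : ℕ, trap (n + N) s‖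
      ≤ ‖∑ n ∈ Finset.Icc 1 N, (n : ℂ) ^ (-s)‖ + ‖(N : ℂ) ^ (-s) / 2‖
        + ‖(N : ℂ) ^ (1 - s) / (s - 1)‖ + ‖∑' n : ℕ, trap (n + N) s‖ := by
        refine (norm_add_le _ _).trans ?_
        gcongr
        refine (norm_add_le _ _).trans ?_
        gcongr
        exact norm_sub_le _ _
    _ ≤ _ := by linarith

lemma F_bound_quad {s : ℂ} (hs : s ∈ quad) : ‖F s‖ ≤ 6 * (1 + ‖s‖) := by
  have hs1 := quad_ne_one hs
  have hre : 0 < s.re := hs.1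
  obtain ⟨N, hN⟩ : ∃ N : ℕ, ‖s‖ ≤ N ∧ (N : ℝ) ≤ ‖s‖ + 2 ∧ 1 ≤ N := by
    refine ⟨⌈‖s‖⌉₊ + 1, ?_, ?_, by omega⟩
    · push_cast
      linarith [Nat.le_ceil ‖s‖]
    · push_cast
      linarith [Nat.ceil_lt_add_one (norm_nonneg s)]
  have hz := zeta_bound_quad hs hN.2.2 hN.1
  have hd : 0 < ‖s - 1‖ := norm_pos_iff.mpr (sub_ne_zero.mpr hs1)
  have hp : 0 < ‖s + 1‖ := norm_pos_iff.mpr (add_one_ne_zero hre)
  rw [F, Z1_eq hs1, norm_div, norm_mul, div_le_iff₀ hp]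
  have h1 := norm_sub_one_le hre
  have h2 := one_le_norm_add_one hre
  have hN0 : (0 : ℝ) ≤ N := Nat.cast_nonneg _
  have h4 : ‖s + 1‖ ≤ ‖s‖ + 1 := by
    refine (norm_add_le _ _).trans ?_
    simp
  have h5 : ‖s - 1‖ * (N / ‖s - 1‖) = N := by field_simp
  calc ‖s - 1‖ * ‖riemannZeta s‖ ≤ ‖s - 1‖ * ((N + 1 / 2) + N / ‖s - 1‖ + ‖s + 1‖) := by gcongr
    _ = ‖s - 1‖ * (N + 1 / 2) + ‖s - 1‖ * (N / ‖s - 1‖) + ‖s - 1‖ * ‖s + 1‖ := by ring
    _ = ‖s - 1‖ * (N + 1 / 2) + N + ‖s - 1‖ * ‖s + 1‖ := by rw [h5]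
    _ ≤ ‖s + 1‖ * (N + 1 / 2) + N * ‖s + 1‖ + ‖s + 1‖ * ‖s + 1‖ := by
        gcongr
        nlinarith
    _ = (2 * N + 1 / 2 + ‖s + 1‖) * ‖s + 1‖ := by ring
    _ ≤ 6 * (1 + ‖s‖) * ‖s + 1‖ := by
        gcongr
        linarith [hN.2.1, norm_nonneg s]

lemma F_conj {s : ℂ} : F ((starRingEnd ℂ) s) = (starRingEnd ℂ) (F s) := by
  by_cases hs : s = 1
  · subst hs
    unfold F Z1 DirichletCharacter.LFunctionTrivChar₁
    simp
  · have h1 : (starRingEnd ℂ) s ≠ 1 := by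
      intro h
      apply hs
      have := congrArg (starRingEnd ℂ) h
      simpa using this
    rw [F, F, Z1_eq hs, Z1_eq h1, riemannZeta_conj]
    simp

lemma F_bound {s : ℂ} (hs : 0 < s.re) : ‖F s‖ ≤ 6 * (1 + ‖s‖) := by
  rcases lt_trichotomy s.im 0 with h | h | h
  · have h1 : (starRingEnd ℂ) s ∈ quad := by
      constructor
      · simpa using hs
      · simpa using h
    have h2 := F_bound_quad h1
    rw [F_conj] at h2
    simpa using h2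
  · -- limit
    have hcl : Tendsto (fun ε : ℝ => s + ε * I) (𝓝[>] 0) (𝓝 s) := by
      have : Tendsto (fun ε : ℝ => s + (ε : ℂ) * I) (𝓝 0) (𝓝 (s + ((0 : ℝ) : ℂ) * I)) := by
        apply Continuous.tendsto
        fun_prop
      simp only [Complex.ofReal_zero, zero_mul, add_zero] at this
      exact this.mono_left nhdsWithin_le_nhds
    have h1 : Tendsto (fun ε : ℝ => ‖F (s + ε * I)‖) (𝓝[>] 0) (𝓝 ‖F s‖) :=
      ((F_continuousAt hs).norm.tendsto).comp hcl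
    have h2 : Tendsto (fun ε : ℝ => 6 * (1 + ‖s + ε * I‖)) (𝓝[>] 0) (𝓝 (6 * (1 + ‖s‖))) := by
      have : ContinuousAt (fun w : ℂ => 6 * (1 + ‖w‖)) s := by fun_prop
      exact this.tendsto.comp hcl
    refine le_of_tendsto_of_tendsto h1 h2 ?_
    filter_upwards [self_mem_nhdsWithin] with ε hε
    apply F_bound_quad
    constructor
    · simpa using hs
    · have : (0 : ℝ) < ε := hε
      simpa [h] using this
  · exact F_bound_quad ⟨hs, h⟩

end Pool.Agent.Lib.MP_f9aece_nt_h40
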