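import Mathlib
import Pool.Agent.Lib.MP_f9aece_nt_h97.OffDefs

/-!
Bounds for the quadratic forms with kernels `K2` and `Kg` at the mollifier `Dm`.
-/

set_option autoImplicit false

namespace Pool.Agent.Lib.MP_f9aece_nt_h40

open MeasureTheory Set Filter Topology Complex
open Pool.Agent.Lib.MP_f9aece_nt
open Pool.Agent.Lib.MP_f9aece_nt_h97

/-- derivation kernels over `K2` -/
structure LogKer (L : ℕ → ℕ → ℝ) : Prop where
  nonneg : ∀ a b, 0 ≤ L a b
  le : ∀ a b, 1 ≤ a → 1 ≤ b → L a b ≤ K2 a b * (Real.log a + Real.log b)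
  one : L 1 1 = 0
  mul : ∀ A B : Set ℕ, Disjoint A B → ∀ a ∈ Smo A, ∀ a' ∈ Smo A, ∀ b ∈ Smo B, ∀ b' ∈ Smo B,
    L (a * b) (a' * b') = L a a' * K2 b b' + K2 a a' * L b b'

lemma logKer_Kg : LogKer Kg where
  nonneg := fun a b => mul_nonneg (K2_nonneg _ _) (Real.log_natCast_nonneg _)
  le := by
    intro a b ha hb
    unfold Kg
    refine mul_le_mul_of_nonneg_left ?_ (K2_nonneg _ _)
    have h1 : 1 ≤ Nat.gcd a b := Nat.gcd_pos_of_pos_left b ha
    have h2 : Nat.gcd a b ≤ a := Nat.gcd_le_left b ha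
    have h3 : Real.log (Nat.gcd a b) ≤ Real.log a := by
      apply Real.log_le_log (by exact_mod_cast h1)
      exact_mod_cast h2
    have h4 : 0 ≤ Real.log b := Real.log_natCast_nonneg _
    linarith
  one := by simp [Kg]
  mul := by
    intro A B hAB a ha a' ha' b hb b' hb'
    have h1 : Nat.Coprime a' b' := coprime_of_Smo hAB ha' hb'
    have h2 : Nat.Coprime a' b := coprime_of_Smo hAB ha' hb
    have h3 : Nat.Coprime a b' := coprime_of_Smo hAB ha hb'
    have e : Nat.gcd (a * b) (a' * b') = Nat.gcd a a' * Nat.gcd b b' := by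
      rw [Nat.Coprime.gcd_mul _ h1, Nat.Coprime.gcd_mul_right_cancel a h2.symm,
        Nat.Coprime.gcd_mul_left_cancel b h3]
    have ha0 := Nat.pos_of_ne_zero ha.1
    have hb0 := Nat.pos_of_ne_zero hb.1
    have hg1 : 0 < Nat.gcd a a' := Nat.gcd_pos_of_pos_left a' ha0
    have hg2 : 0 < Nat.gcd b b' := Nat.gcd_pos_of_pos_left b' hb0
    unfold Kg
    rw [K2_mul hAB ha ha' hb hb', e]
    push_cast
    rw [Real.log_mul (by exact_mod_cast hg1.ne') (by exact_mod_cast hg2.ne')]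
    ring

section generic

variable {L : ℕ → ℕ → ℝ} (hL : LogKer L)

include hL

lemma L_pow_le {p : ℕ} (hp : p.Prime) (i l : ℕ) :
    L (p ^ i) (p ^ l) ≤ (p : ℝ)⁻¹ * Real.log p * (i + l) := by
  have h1 : 1 ≤ p := hp.one_le
  have hlog : 0 ≤ Real.log p := Real.log_nonneg (by exact_mod_cast h1)
  have hp0 : (0 : ℝ) < p := by exact_mod_cast hp.pos
  have hpinv : (p : ℝ)⁻¹ ≤ 1 := inv_le_one_of_one_le₀ (by exact_mod_cast h1)
  rcases Nat.eq_zero_or_pos (max i l) with h | h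
  · have hi : i = 0 := by omega
    have hl : l = 0 := by omega
    subst hi; subst hl
    simp [hL.one]
  · refine (hL.le _ _ (Nat.one_le_pow _ _ hp.pos) (Nat.one_le_pow _ _ hp.pos)).trans ?_
    rw [K2_pow hp]
    push_cast
    rw [Real.log_pow, Real.log_pow]
    have h2 : ((p : ℝ)⁻¹) ^ max i l ≤ ((p : ℝ)⁻¹) ^ 1 :=
      pow_le_pow_of_le_one (by positivity) hpinv h
    rw [pow_one] at h2
    calc ((p : ℝ)⁻¹) ^ max i l * (i * Real.log p + l * Real.log p)
        ≤ (p : ℝ)⁻¹ * (i * Real.log p + l * Real.log p) := by gcongr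
      _ = _ := by ring


lemma local_L {p : ℕ} (hp : p.Prime) (c : ℝ) (M : ℕ) :
    |BK L (expo c M {p}) (expo c M {p})|
      ≤ 2 * |c| * Real.exp (2 * |c|) * ((p : ℝ)⁻¹ * Real.log p) := by
  rw [BK_local]
  have hlog : 0 ≤ Real.log p := Real.log_nonneg (by exact_mod_cast hp.one_le)
  have hp0 : (0 : ℝ) < p := by exact_mod_cast hp.pos
  set x := |c| with hx
  have hx0 : 0 ≤ x := abs_nonneg _
  have h1 : |∑ i ∈ Finset.range (M + 1), ∑ l ∈ Finset.range (M + 1),
        (c ^ i / (i.factorial : ℝ)) * (c ^ l / (l.factorial : ℝ)) * L (p ^ i) (p ^ l)|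
      ≤ ∑ i ∈ Finset.range (M + 1), ∑ l ∈ Finset.range (M + 1),
        (x ^ i / (i.factorial : ℝ)) * (x ^ l / (l.factorial : ℝ)) *
          ((p : ℝ)⁻¹ * Real.log p * (i + l)) := by
    refine (Finset.abs_sum_le_sum_abs _ _).trans (Finset.sum_le_sum fun i _ => ?_)
    refine (Finset.abs_sum_le_sum_abs _ _).trans (Finset.sum_le_sum fun l _ => ?_)
    rw [abs_mul, abs_mul, abs_div, abs_div, abs_pow, abs_pow, abs_of_nonneg (hL.nonneg _ _),
      abs_of_pos (by positivity : (0 : ℝ) < (i.factorial : ℝ)),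
      abs_of_pos (by positivity : (0 : ℝ) < (l.factorial : ℝ))]
    have := L_pow_le hL hp i l
    gcongr
  refine h1.trans ?_
  have h2 : ∑ i ∈ Finset.range (M + 1), ∑ l ∈ Finset.range (M + 1),
        (x ^ i / (i.factorial : ℝ)) * (x ^ l / (l.factorial : ℝ)) *
          ((p : ℝ)⁻¹ * Real.log p * (i + l))
      = ((p : ℝ)⁻¹ * Real.log p) * (2 * ((∑ i ∈ Finset.range (M + 1), (i : ℝ) * (x ^ i / (i.factorial : ℝ)))
        * ∑ l ∈ Finset.range (M + 1), x ^ l / (l.factorial : ℝ))) := by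
    have e1 : (∑ i ∈ Finset.range (M + 1), (i : ℝ) * (x ^ i / (i.factorial : ℝ)))
        * ∑ l ∈ Finset.range (M + 1), x ^ l / (l.factorial : ℝ)
        = ∑ i ∈ Finset.range (M + 1), ∑ l ∈ Finset.range (M + 1),
          (i : ℝ) * (x ^ i / (i.factorial : ℝ)) * (x ^ l / (l.factorial : ℝ)) := by
      rw [Finset.sum_mul_sum]
    have e2 : (∑ i ∈ Finset.range (M + 1), (i : ℝ) * (x ^ i / (i.factorial : ℝ)))
        * ∑ l ∈ Finset.range (M + 1), x ^ l / (l.factorial : ℝ)
        = ∑ i ∈ Finset.range (M + 1), ∑ l ∈ Finset.range (M + 1),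
          (x ^ i / (i.factorial : ℝ)) * ((l : ℝ) * (x ^ l / (l.factorial : ℝ))) := by
      rw [mul_comm, Finset.sum_mul_sum]
    have e3 : 2 * ((∑ i ∈ Finset.range (M + 1), (i : ℝ) * (x ^ i / (i.factorial : ℝ)))
        * ∑ l ∈ Finset.range (M + 1), x ^ l / (l.factorial : ℝ))
        = ∑ i ∈ Finset.range (M + 1), ∑ l ∈ Finset.range (M + 1),
          (x ^ i / (i.factorial : ℝ)) * (x ^ l / (l.factorial : ℝ)) * (i + l) := by
      rw [two_mul]
      nth_rewrite 1 [e1]
      rw [e2, ← Finset.sum_add_distrib]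
      refine Finset.sum_congr rfl fun i _ => ?_
      rw [← Finset.sum_add_distrib]
      refine Finset.sum_congr rfl fun l _ => ?_
      ring
    rw [e3, Finset.mul_sum]
    refine Finset.sum_congr rfl fun i _ => ?_
    rw [Finset.mul_sum]
    refine Finset.sum_congr rfl fun l _ => ?_
    ring
  rw [h2]
  have h3 := sum_mul_exp_le hx0 M
  have h4 : ∑ l ∈ Finset.range (M + 1), x ^ l / (l.factorial : ℝ) ≤ Real.exp x :=
    Real.sum_le_exp_of_nonneg hx0 _
  have h5 : 0 ≤ ∑ l ∈ Finset.range (M + 1), x ^ l / (l.factorial : ℝ) :=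
    Finset.sum_nonneg fun l _ => by positivity
  calc ((p : ℝ)⁻¹ * Real.log p) * (2 * ((∑ i ∈ Finset.range (M + 1), (i : ℝ) * (x ^ i / (i.factorial : ℝ)))
        * ∑ l ∈ Finset.range (M + 1), x ^ l / (l.factorial : ℝ)))
      ≤ ((p : ℝ)⁻¹ * Real.log p) * (2 * ((x * Real.exp x) * Real.exp x)) := by gcongr
    _ = _ := by
        have : Real.exp (2 * x) = Real.exp x * Real.exp x := by rw [← Real.exp_add]; congr 1; ring
        rw [this]; ring


/-- bounds for both quadratic forms of a product over coprime supports -/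
lemma prod_boundsL (s : Finset ℕ) (I : ℕ → Finset ℕ)
    (hI : ∀ i ∈ s, ∀ j ∈ s, i ≠ j → Disjoint (I i) (I j)) (f : ℕ → DP)
    (hf : ∀ j ∈ s, Sup (Smo (I j)) (f j)) (U κ : ℕ → ℝ) (hU : ∀ j ∈ s, 0 ≤ U j)
    (hκ : ∀ j ∈ s, 0 ≤ κ j)
    (h1 : ∀ j ∈ s, |BK K2 (f j) (f j)| ≤ U j)
    (h2 : ∀ j ∈ s, |BK L (f j) (f j)| ≤ κ j * U j) :
    |BK K2 (∏ j ∈ s, f j) (∏ j ∈ s, f j)| ≤ ∏ j ∈ s, U j ∧
    |BK L (∏ j ∈ s, f j) (∏ j ∈ s, f j)| ≤ (∑ j ∈ s, κ j) * ∏ j ∈ s, U j := by
  classical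
  induction s using Finset.induction_on with
  | empty =>
    simp only [Finset.prod_empty, Finset.sum_empty, zero_mul]
    rw [MonoidAlgebra.one_def, BK_single, BK_single]
    constructor
    · simp [K2]
    · simp [hL.one]
  | insert a s ha ih =>
    rw [Finset.prod_insert ha, Finset.prod_insert ha, Finset.sum_insert ha]
    have hf' : ∀ j ∈ s, Sup (Smo (I j)) (f j) := fun j hj => hf j (Finset.mem_insert_of_mem hj)
    have hdis : Disjoint (I a : Set ℕ) (⋃ j ∈ s, (I j : Set ℕ)) := by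
      rw [Set.disjoint_iUnion₂_right]
      intro j hj
      rw [Finset.disjoint_coe]
      exact hI a (Finset.mem_insert_self _ _) j (Finset.mem_insert_of_mem hj)
        (by rintro rfl; exact ha hj)
    obtain ⟨ih1, ih2⟩ := ih
      (fun i hi j hj hij => hI i (Finset.mem_insert_of_mem hi) j (Finset.mem_insert_of_mem hj) hij)
      hf' (fun j hj => hU j (Finset.mem_insert_of_mem hj))
      (fun j hj => hκ j (Finset.mem_insert_of_mem hj))
      (fun j hj => h1 j (Finset.mem_insert_of_mem hj))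
      (fun j hj => h2 j (Finset.mem_insert_of_mem hj))
    have hsa := hf a (Finset.mem_insert_self _ _)
    have hss := sup_prod_Smo s I f hf'
    have a1 := h1 a (Finset.mem_insert_self _ _)
    have a2 := h2 a (Finset.mem_insert_self _ _)
    have a3 := hU a (Finset.mem_insert_self _ _)
    have a4 := hκ a (Finset.mem_insert_self _ _)
    rw [BK_mul_sup K2 hsa hsa hss hss fun x hx x' hx' y hy y' hy' => K2_mul hdis hx hx' hy hy',
      BK_mul_der K2 L hsa hsa hss hss fun x hx x' hx' y hy y' hy' => hL.mul _ _ hdis x hx x' hx' y hy y' hy']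
    have hP : 0 ≤ ∏ j ∈ s, U j := Finset.prod_nonneg fun j hj => hU j (Finset.mem_insert_of_mem hj)
    have hS : 0 ≤ ∑ j ∈ s, κ j := Finset.sum_nonneg fun j hj => hκ j (Finset.mem_insert_of_mem hj)
    constructor
    · rw [abs_mul]
      gcongr
    · calc |BK L (f a) (f a) * BK K2 (∏ j ∈ s, f j) (∏ j ∈ s, f j)
            + BK K2 (f a) (f a) * BK L (∏ j ∈ s, f j) (∏ j ∈ s, f j)|
          ≤ |BK L (f a) (f a)| * |BK K2 (∏ j ∈ s, f j) (∏ j ∈ s, f j)|
            + |BK K2 (f a) (f a)| * |BK L (∏ j ∈ s, f j) (∏ j ∈ s, f j)| := by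
            refine (abs_add_le _ _).trans (le_of_eq ?_)
            rw [abs_mul, abs_mul]
        _ ≤ (κ a * U a) * (∏ j ∈ s, U j) + U a * ((∑ j ∈ s, κ j) * ∏ j ∈ s, U j) := by
            gcongr
        _ = _ := by ring


/-- forms of the product of local factors -/
lemma FF_boundsL {I : Finset ℕ} (hI : ∀ p ∈ I, p.Prime) {a : ℝ} (ha0 : 0 ≤ a) (ha : a ≤ 1) {M : ℕ}
    (hM : 1 ≤ M) :
    |BK K2 (FF (-a) M I) (FF (-a) M I)| ≤ Real.exp ((a ^ 2 - 2 * a) * VV I + 3.4 * a ^ 2 * V2 I) ∧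
    |BK L (FF (-a) M I) (FF (-a) M I)|
      ≤ 25 * a * LL I * Real.exp ((a ^ 2 - 2 * a) * VV I + 3.4 * a ^ 2 * V2 I) := by
  have h := prod_boundsL hL I (fun p => {p}) disj_single (fun p => expo (-a) M {p})
    (fun p hp => sup_expo (prime_single (hI p hp)) _ _)
    (fun p => Real.exp ((a ^ 2 - 2 * a) * (p : ℝ)⁻¹ + 3.4 * a ^ 2 * ((p : ℝ)⁻¹) ^ 2))
    (fun p => 25 * a * ((p : ℝ)⁻¹ * Real.log p))
    (fun p _ => (Real.exp_pos _).le)
    (fun p _ => mul_nonneg (by positivity) (mul_nonneg (by positivity) (Real.log_natCast_nonneg p)))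
    ?_ ?_
  · rw [← Real.exp_sum, Finset.sum_add_distrib, ← Finset.mul_sum, ← Finset.mul_sum,
      ← Finset.mul_sum] at h
    exact h
  · intro p hp
    have hpp := hI p hp
    have h1 := local_K2 hpp (c := -a) (by rw [abs_neg, abs_of_nonneg ha0]; exact ha) hM
    have hp2 : (2 : ℝ) ≤ p := by exact_mod_cast hpp.two_le
    set q := (p : ℝ)⁻¹ with hq
    have hq0 : 0 < q := by positivity
    have hq1 : q ≤ 1 / 2 := by
      rw [hq, one_div]; exact inv_anti₀ (by norm_num) hp2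
    rw [abs_le] at h1 ⊢
    set B := BK K2 (expo (-a) M {p}) (expo (-a) M {p}) with hB
    have h2 := Real.add_one_le_exp ((a ^ 2 - 2 * a) * q + 3.4 * a ^ 2 * q ^ 2)
    have e1 : (2 * -a + (-a) ^ 2) * q = (a ^ 2 - 2 * a) * q := by ring
    have e2 : 3.4 * (-a) ^ 2 * q ^ 2 = 3.4 * a ^ 2 * q ^ 2 := by ring
    rw [e1, e2] at h1
    constructor
    · have h3 : (0 : ℝ) ≤ 1 + (a ^ 2 - 2 * a) * q := by
        have : -(1 : ℝ) ≤ a ^ 2 - 2 * a := by nlinarith [sq_nonneg (a - 1)]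
        nlinarith
      linarith
    · linarith
  · intro p hp
    have hpp := hI p hp
    have h1 := local_L hL hpp (-a) M
    rw [abs_neg, abs_of_nonneg ha0] at h1
    refine h1.trans ?_
    have hp2 : (2 : ℝ) ≤ p := by exact_mod_cast hpp.two_le
    have hlog : 0 ≤ Real.log p := Real.log_natCast_nonneg p
    set q := (p : ℝ)⁻¹ with hq
    have hq0 : 0 < q := by positivity
    have hq1 : q ≤ 1 / 2 := by
      rw [hq, one_div]; exact inv_anti₀ (by norm_num) hp2
    have h2 : Real.exp (2 * a) ≤ 7.4 := by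
      refine le_trans (Real.exp_le_exp.mpr (by linarith)) exp_two_lt.le
    have h3 : 0.6 ≤ Real.exp ((a ^ 2 - 2 * a) * q + 3.4 * a ^ 2 * q ^ 2) := by
      have h4 : -(1 / 2 : ℝ) ≤ (a ^ 2 - 2 * a) * q + 3.4 * a ^ 2 * q ^ 2 := by
        have h5 : -(1 : ℝ) ≤ a ^ 2 - 2 * a := by nlinarith [sq_nonneg (a - 1)]
        have h6 : 0 ≤ 3.4 * a ^ 2 * q ^ 2 := by positivity
        nlinarith
      have h7 : (0.6 : ℝ) ≤ Real.exp (-(1 / 2)) := by
        have h8 : Real.exp (1 / 2) ≤ 1.65 := by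
          have e : Real.exp (1 / 2) ^ 2 = Real.exp 1 := by rw [← Real.exp_nat_mul]; norm_num
          have h9 := Real.exp_one_lt_d9
          have h10 := Real.exp_pos (1 / 2 : ℝ)
          nlinarith
        rw [Real.exp_neg, le_inv_comm₀ (by norm_num) (Real.exp_pos _)]
        refine h8.trans ?_
        norm_num
      exact h7.trans (Real.exp_le_exp.mpr h4)
    have hql : 0 ≤ q * Real.log p := by positivity
    calc 2 * a * Real.exp (2 * a) * (q * Real.log p)
        ≤ 2 * a * 7.4 * (q * Real.log p) := by gcongr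
      _ = 14.8 * a * (q * Real.log p) := by ring
      _ ≤ 25 * a * (q * Real.log p) * 0.6 := by
          have : 0 ≤ a * (q * Real.log p) := by positivity
          linarith
      _ ≤ _ := by gcongr

lemma FF_bounds_twoL {I : Finset ℕ} (hI : ∀ p ∈ I, p.Prime) (M : ℕ) :
    |BK K2 (FF 2 M I) (FF 2 M I)| ≤ Real.exp (54 * VV I) ∧
    |BK L (FF 2 M I) (FF 2 M I)| ≤ 220 * LL I * Real.exp (54 * VV I) := by
  have h := prod_boundsL hL I (fun p => {p}) disj_single (fun p => expo 2 M {p})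
    (fun p hp => sup_expo (prime_single (hI p hp)) _ _)
    (fun p => Real.exp (54 * (p : ℝ)⁻¹))
    (fun p => 220 * ((p : ℝ)⁻¹ * Real.log p))
    (fun p _ => (Real.exp_pos _).le)
    (fun p _ => mul_nonneg (by positivity) (mul_nonneg (by positivity) (Real.log_natCast_nonneg p)))
    ?_ ?_
  · rw [← Real.exp_sum, ← Finset.mul_sum, ← Finset.mul_sum] at h
    exact h
  · intro p hp
    exact local_K2_two (hI p hp) M
  · intro p hp
    have h1 := local_L hL (hI p hp) 2 M
    rw [abs_two] at h1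
    refine h1.trans ?_
    have h2 : Real.exp (2 * 2) ≤ 55 := by
      have := exp_four_lt
      norm_num at this ⊢
      exact this.le
    have hlog : 0 ≤ Real.log p := Real.log_natCast_nonneg p
    have h3 : 1 ≤ Real.exp (54 * (p : ℝ)⁻¹) := Real.one_le_exp (by positivity)
    have hql : 0 ≤ (p : ℝ)⁻¹ * Real.log p := by positivity
    calc 2 * 2 * Real.exp (2 * 2) * ((p : ℝ)⁻¹ * Real.log p)
        ≤ 2 * 2 * 55 * ((p : ℝ)⁻¹ * Real.log p) := by gcongr
      _ = 220 * ((p : ℝ)⁻¹ * Real.log p) * 1 := by ring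
      _ ≤ _ := by gcongr

/-- forms of the truncated exponential with parameter `-a` -/
lemma expo_boundsL {I : Finset ℕ} (hI : ∀ p ∈ I, p.Prime) {a : ℝ} (ha0 : 0 ≤ a) (ha : a ≤ 1) {M : ℕ}
    (hM : 1 ≤ M) (hV : VV I ≤ 12) :
    |BK K2 (expo (-a) M I) (expo (-a) M I)|
      ≤ Real.exp ((a ^ 2 - 2 * a) * VV I + 3.4 * a ^ 2 * V2 I + 3 * (a / 2 ^ M) * Real.exp 660) ∧
    |BK L (expo (-a) M I) (expo (-a) M I)|
      ≤ LL I * (25 * a + 660 * (a / 2 ^ M) * Real.exp 660)
        * Real.exp ((a ^ 2 - 2 * a) * VV I + 3.4 * a ^ 2 * V2 I + 3 * (a / 2 ^ M) * Real.exp 660) := by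
  have hac : |(-a)| ≤ 1 := by rw [abs_neg, abs_of_nonneg ha0]; exact ha
  have hd := dom_diff hI hac M M le_rfl
  rw [abs_neg, abs_of_nonneg ha0] at hd
  set F := FF (-a) M I with hF
  set A := expo (-a) M I with hA
  set G := FF 2 M I with hG
  set δ := a / 2 ^ M with hδ
  have hδ0 : 0 ≤ δ := by positivity
  have hδ1 : δ ≤ 1 := by
    rw [hδ, div_le_one (by positivity)]
    exact ha.trans (one_le_pow₀ (by norm_num))
  set R := F - A with hR
  have hFG : Dom F G := dom_FF hI (by linarith) M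
  have hGG : Dom G G := dom_FF hI (by norm_num) M
  have hAe : A = F + (-1 : ℝ) • R := by rw [hR, neg_one_smul]; abel
  have key : ∀ K : ℕ → ℕ → ℝ, (∀ a b, 0 ≤ K a b) → |BK K A A| ≤ |BK K F F| + 3 * δ * |BK K G G| := by
    intro K hK
    have h1 : |BK K F R| ≤ BK K G (δ • G) := abs_BK_le_of_dom hK hFG hd
    have h2 : |BK K R F| ≤ BK K (δ • G) G := abs_BK_le_of_dom hK hd hFG
    have h3 : |BK K R R| ≤ BK K (δ • G) (δ • G) := abs_BK_le_of_dom hK hd hd
    rw [BK_smul_right] at h1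
    rw [BK_smul_left] at h2
    rw [BK_smul_left, BK_smul_right] at h3
    have h4 : BK K G G ≤ |BK K G G| := le_abs_self _
    have h5 : 0 ≤ |BK K G G| := abs_nonneg _
    have e1 : BK K A A = BK K F F - BK K F R - BK K R F + BK K R R := by
      rw [hAe, BK_add_left, BK_add_right, BK_add_right, BK_smul_left, BK_smul_right, BK_smul_left,
        BK_smul_right]
      ring
    rw [e1]
    have h6 : |BK K F F - BK K F R - BK K R F + BK K R R|
        ≤ |BK K F F| + |BK K F R| + |BK K R F| + |BK K R R| := by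
      refine (abs_add_le _ _).trans ?_
      gcongr
      refine (abs_sub _ _).trans ?_
      gcongr
      exact abs_sub _ _
    refine h6.trans ?_
    have h7 : |BK K F R| ≤ δ * |BK K G G| := h1.trans (by gcongr)
    have h8 : |BK K R F| ≤ δ * |BK K G G| := h2.trans (by gcongr)
    have h9 : |BK K R R| ≤ δ * |BK K G G| := by
      refine h3.trans ?_
      calc δ * (δ * BK K G G) ≤ δ * (δ * |BK K G G|) := by gcongr
        _ ≤ δ * (1 * |BK K G G|) := by gcongr
        _ = _ := by ring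
    linarith
  obtain ⟨f1, f2⟩ := FF_boundsL hL hI ha0 ha hM
  obtain ⟨g1, g2⟩ := FF_bounds_twoL hL hI M
  set E := Real.exp ((a ^ 2 - 2 * a) * VV I + 3.4 * a ^ 2 * V2 I) with hE
  have hE0 : 0 < E := Real.exp_pos _
  have hVn := VV_nonneg I
  have hV2 := V2_nonneg I
  have hLL := LL_nonneg I
  have hG12 : Real.exp (54 * VV I) ≤ Real.exp 660 * E := by
    rw [hE, ← Real.exp_add]
    apply Real.exp_le_exp.mpr
    have h5 : -(1 : ℝ) ≤ a ^ 2 - 2 * a := by nlinarith [sq_nonneg (a - 1)]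
    have h6 : 0 ≤ 3.4 * a ^ 2 * V2 I := by positivity
    nlinarith
  have hsum : Real.exp ((a ^ 2 - 2 * a) * VV I + 3.4 * a ^ 2 * V2 I + 3 * δ * Real.exp 660)
      = E * Real.exp (3 * δ * Real.exp 660) := by
    rw [hE, ← Real.exp_add]
  rw [hsum]
  have hx0 : 0 ≤ 3 * δ * Real.exp 660 := by positivity
  have hx1 : 1 ≤ Real.exp (3 * δ * Real.exp 660) := Real.one_le_exp hx0
  have hx2 := Real.add_one_le_exp (3 * δ * Real.exp 660)
  constructor
  · refine (key K2 K2_nonneg).trans ?_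
    calc |BK K2 F F| + 3 * δ * |BK K2 G G| ≤ E + 3 * δ * (Real.exp 660 * E) := by
          gcongr
          exact g1.trans hG12
      _ = E * (3 * δ * Real.exp 660 + 1) := by ring
      _ ≤ _ := by gcongr
  · refine (key L hL.nonneg).trans ?_
    calc |BK L F F| + 3 * δ * |BK L G G|
        ≤ 25 * a * LL I * E + 3 * δ * (220 * LL I * (Real.exp 660 * E)) := by
          gcongr
          exact g2.trans (by gcongr)
      _ = LL I * (25 * a + 660 * δ * Real.exp 660) * (E * 1) := by ring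
      _ ≤ _ := by gcongr


end generic

end Pool.Agent.Lib.MP_f9aece_nt_h40
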