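import Mathlib
import Pool.Agent.Lib.MP_f9aece_nt_h97.OffDefs

/-!
Bounds for the quadratic forms with kernels `K2` and `Kg` at the mollifier `Dm`.
-/

set_option autoImplicit false

namespace Pool.Agent.Lib.MP_f9aece_nt_h40

open MeasureTheory Set Filter Topology Complex
open Pool.Agent.Lib.MP_f9aece_nt
open Pool.Agent.Lib.MP_f9aece_nt_h97

section scales

lemma sum_V2_sc_le {Y : ℝ} (hY : 0 < Y) {p0 : ℕ} (hp0 : 1 ≤ p0) (J : ℕ) :
    ∑ j ∈ Finset.range J, V2 (sc Y p0 j) ≤ 1 := by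
  have h := sum_sq_sc_le hY hp0 J
  have h2 : (1 : ℝ) / p0 ≤ 1 := by
    rw [div_le_one (by exact_mod_cast hp0)]
    exact_mod_cast hp0
  exact h.trans h2

lemma sum_LL_sc_le {Y : ℝ} (hY : 0 < Y) (p0 J : ℕ) :
    ∑ j ∈ Finset.range J, LL (sc Y p0 j) ≤ Y + 2 := by
  classical
  set n := ⌊Real.exp Y⌋₊ with hn
  have hn1 : 1 ≤ n := Nat.floor_pos.mpr (Real.one_le_exp hY.le)
  have h1 : ∑ j ∈ Finset.range J, LL (sc Y p0 j)
      = ∑ p ∈ (Finset.range J).biUnion (sc Y p0), (p : ℝ)⁻¹ * Real.log p := by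
    rw [Finset.sum_biUnion]
    · rfl
    · intro i _ j _ hij
      exact sc_disjoint hY hij
  rw [h1]
  have hsub : (Finset.range J).biUnion (sc Y p0) ⊆ (Finset.Ioc 0 n).filter Nat.Prime := by
    intro p hp
    rw [Finset.mem_biUnion] at hp
    obtain ⟨j, _, hj⟩ := hp
    have h2 := (mem_sc.mp hj).1
    rw [Finset.mem_Icc] at h2
    rw [Finset.mem_filter, Finset.mem_Ioc]
    exact ⟨⟨by omega, h2.2⟩, sc_prime hj⟩
  calc ∑ p ∈ (Finset.range J).biUnion (sc Y p0), (p : ℝ)⁻¹ * Real.log p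
      ≤ ∑ p ∈ (Finset.Ioc 0 n).filter Nat.Prime, (p : ℝ)⁻¹ * Real.log p :=
        Finset.sum_le_sum_of_subset_of_nonneg hsub fun p _ _ =>
          mul_nonneg (by positivity) (Real.log_natCast_nonneg p)
    _ = ∑ p ∈ (Finset.Ioc 0 n).filter Nat.Prime, Real.log p / p :=
        Finset.sum_congr rfl fun p _ => by ring
    _ ≤ Real.log n + Real.log 4 := sum_log_div_le hn1
    _ ≤ Y + 2 := by
        have h3 : Real.log n ≤ Y := by
          rw [Real.log_le_iff_le_exp (by exact_mod_cast hn1)]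
          exact Nat.floor_le (Real.exp_pos Y).le
        have h4 : Real.log 4 ≤ 2 := by
          have : Real.log 4 = 2 * Real.log 2 := by
            rw [show (4 : ℝ) = 2 ^ 2 by norm_num, Real.log_pow]; norm_num
          rw [this]
          have := Real.log_two_lt_d9
          linarith
        linarith

lemma sum_lenm (m : ℕ) {Y : ℝ} (hY : 0 < Y) (J : ℕ) :
    ∑ i ∈ Finset.range J, (Mm m i : ℝ) * (Y / 4 ^ i) ≤ 2 * m * Y := by
  have h : ∑ i ∈ Finset.range J, (Mm m i : ℝ) * (Y / 4 ^ i) = 2 * m * Y - 2 * m * Y / 2 ^ J := by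
    induction J with
    | zero => simp
    | succ J ih =>
      rw [Finset.sum_range_succ, ih]
      unfold Mm
      have : (4 : ℝ) ^ J = 2 ^ J * 2 ^ J := by rw [← mul_pow]; norm_num
      rw [this, pow_succ]
      push_cast
      field_simp
      ring
  rw [h]
  have : 0 ≤ 2 * m * Y / 2 ^ J := by positivity
  linarith

/-- bound for the `K2` form of one factor -/
noncomputable def Um (a Y : ℝ) (p0 i : ℕ) : ℝ :=
  Real.exp ((a ^ 2 - 2 * a) * VV (sc Y p0 i) + 3.4 * a ^ 2 * V2 (sc Y p0 i)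
    + 3 * a * (1 / 2) ^ (i + 21))

lemma Um_pos (a Y : ℝ) (p0 i : ℕ) : 0 < Um a Y p0 i := Real.exp_pos _

lemma Mm_ge {m : ℕ} (hm : 4000 ≤ m) (j : ℕ) : Mj j ≤ Mm m j := by
  unfold Mj Mm
  exact Nat.mul_le_mul_right _ hm

end scales

section small

lemma Psm_prime {p0 p : ℕ} (hp : p ∈ Psm p0) : p.Prime := (Finset.mem_filter.mp hp).2

lemma Psm_le {p0 p : ℕ} (hp : p ∈ Psm p0) : p ≤ p0 := by
  have := (Finset.mem_filter.mp hp).1
  rw [Finset.mem_Ioc] at this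
  exact this.2

lemma card_Psm (p0 : ℕ) : (Psm p0).card ≤ p0 := by
  refine (Finset.card_filter_le _ _).trans ?_
  simp

/-- a majorant of `Dsm` -/
noncomputable def Dsm' (p0 : ℕ) : DP := ∏ p ∈ Psm p0, (1 + MonoidAlgebra.single p 1)

lemma dom_Dsm (p0 : ℕ) : Dom (Dsm p0) (Dsm' p0) := by
  unfold Dsm Dsm'
  refine Dom.prod _ fun p _ => ?_
  have e : (1 : DP) - MonoidAlgebra.single p 1 = 1 + MonoidAlgebra.single p (-1) := by
    rw [sub_eq_add_neg]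
    congr 1
    rw [← MonoidAlgebra.single_neg]
  rw [e]
  exact Dom.one.add (Dom.single p (by simp))

lemma aug_Dsm' (p0 : ℕ) : aug (Dsm' p0) ≤ 2 ^ p0 := by
  unfold Dsm'
  rw [aug_prod]
  have h : ∀ p ∈ Psm p0, aug (1 + MonoidAlgebra.single p (1 : ℝ)) = 2 := by
    intro p _
    have : aug (1 + MonoidAlgebra.single p (1 : ℝ)) = aug 1 + aug (MonoidAlgebra.single p (1 : ℝ)) := by
      unfold aug
      rw [pair_add]
    rw [this, aug_one, aug_single]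
    norm_num
  rw [Finset.prod_congr rfl h, Finset.prod_const]
  exact pow_le_pow_right₀ (by norm_num) (card_Psm p0)

lemma sup_Dsm (p0 : ℕ) : Sup (Smo (Psm p0 : Set ℕ)) (Dsm p0) := by
  unfold Dsm
  refine Sup.prod _ (fun p hp => ?_) (one_mem_Smo _) (fun a ha b hb => mul_mem_Smo ha hb)
  exact (Sup.one (one_mem_Smo _)).sub (Sup.single (prime_mem_Smo (Psm_prime hp) (by exact_mod_cast hp)) 1)

lemma sup_DD (m p0 : ℕ) (c Y : ℝ) (J : ℕ) :
    Sup (Smo (⋃ j ∈ Finset.range J, (sc Y p0 j : Set ℕ))) (DD m p0 c Y J) :=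
  sup_prod_Smo _ _ _ fun j _ => sup_expo (fun p hp => sc_prime hp) _ _

lemma disj_Psm (p0 : ℕ) (Y : ℝ) (J : ℕ) :
    Disjoint (Psm p0 : Set ℕ) (⋃ j ∈ Finset.range J, (sc Y p0 j : Set ℕ)) := by
  rw [Set.disjoint_left]
  intro p hp hq
  rw [Set.mem_iUnion₂] at hq
  obtain ⟨j, _, hj⟩ := hq
  have h1 := Psm_le (by exact_mod_cast hp : p ∈ Psm p0)
  have h2 := (mem_sc.mp (by exact_mod_cast hj : p ∈ sc Y p0 j)).2.2.1
  omega

/-- lengths of the small prime factor -/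
lemma cone_Dsm' {p0 : ℕ} (hp0 : 1 ≤ p0) : Cone (Len (p0 * Real.log p0)) (Dsm' p0) := by
  have hlog : 0 ≤ Real.log p0 := Real.log_natCast_nonneg _
  have h := cone_len_prod (Psm p0) (fun p => 1 + MonoidAlgebra.single p (1 : ℝ))
    (fun _ => Real.log p0) (fun p hp => by
      have h1 : (1 : ℕ) ∈ Len (Real.log p0) := ⟨le_rfl, by simpa using hlog⟩
      have h2 : p ∈ Len (Real.log p0) := by
        refine ⟨(Psm_prime hp).one_le, ?_⟩
        apply Real.log_le_log (by exact_mod_cast (Psm_prime hp).pos)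
        exact_mod_cast Psm_le hp
      exact Cone.add (Cone.one h1) (Cone.single h2 zero_le_one))
  refine h.mono (Len.mono ?_)
  rw [Finset.sum_const, nsmul_eq_mul]
  have := card_Psm p0
  gcongr

end small

section lengths

lemma dom_DD (m p0 : ℕ) {c : ℝ} (hc : |c| ≤ 1) (Y : ℝ) (J : ℕ) :
    Dom (DD m p0 c Y J) (DD m p0 1 Y J) :=
  Dom.prod _ fun _ _ => dom_expo (fun _ hp => sc_prime hp) hc _

lemma cone_DD1 (m p0 : ℕ) {Y : ℝ} (hY : 0 < Y) (J : ℕ) : Cone (Len (2 * m * Y)) (DD m p0 1 Y J) := by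
  unfold DD
  refine (cone_len_prod _ _ (fun j => (Mm m j : ℝ) * (Y / 4 ^ j)) fun j _ => ?_).mono
    (Len.mono (sum_lenm m hY J))
  refine (cone_expo (fun p hp => sc_prime hp) zero_le_one (Mm m j)).mono fun n hn => ?_
  exact ⟨Smo_pos hn.1, log_le_of_Omega (fun p hp => sc_log_le hp) (by positivity) hn.1 hn.2⟩

lemma aug_nonneg' {A : Set ℕ} {f : DP} (hf : Cone A f) : 0 ≤ aug f :=
  pair_nonneg hf fun _ _ => zero_le_one

lemma aug_DD1 (m p0 : ℕ) {Y : ℝ} (hY : 0 < Y) (J : ℕ) :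
    aug (DD m p0 1 Y J) ≤ Real.exp (J + 2 * m * Y) := by
  unfold DD
  rw [aug_prod]
  have hcard : ∀ j, ((sc Y p0 j).card : ℝ) ≤ Real.exp (Y / 4 ^ j) := fun j =>
    card_le_exp fun p hp => ⟨(sc_prime hp).one_le, sc_log_le hp⟩
  calc ∏ i ∈ Finset.range J, aug (expo 1 (Mm m i) (sc Y p0 i))
      ≤ ∏ i ∈ Finset.range J, Real.exp (1 + Mm m i * (Y / 4 ^ i)) :=
        Finset.prod_le_prod (fun i _ => aug_nonneg' (cone_expo (fun p hp => sc_prime hp)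
          zero_le_one (Mm m i))) fun i _ => aug_expo_le (by positivity) (hcard i)
    _ = Real.exp (∑ i ∈ Finset.range J, (1 + Mm m i * (Y / 4 ^ i))) := by rw [Real.exp_sum]
    _ ≤ _ := by
        apply Real.exp_le_exp.mpr
        rw [Finset.sum_add_distrib]
        simp only [Finset.sum_const, Finset.card_range, nsmul_eq_mul, mul_one]
        have := sum_lenm m hY J
        linarith

lemma len_B (m p0 : ℕ) {k Y : ℝ} (hk : |k| ≤ 1) (hY : 0 < Y) (J : ℕ) :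
    ∀ n, (Bm m p0 k Y J).coeff n ≠ 0 → 1 ≤ n ∧ (n : ℝ) ≤ Real.exp (2 * m * Y) :=
  sup_len_floor ((dom_DD m p0 hk Y J).sup (cone_DD1 m p0 hY J))

lemma nrm_B (m p0 : ℕ) {k Y : ℝ} (hk : |k| ≤ 1) (hY : 0 < Y) (J : ℕ) :
    nrm (Bm m p0 k Y J) ≤ Real.exp (J + 2 * m * Y) :=
  (nrm_le_aug (dom_DD m p0 hk Y J)).trans (aug_DD1 m p0 hY J)

lemma dom_Dm (m p0 : ℕ) {a : ℝ} (ha : |a| ≤ 1) (Y : ℝ) (J : ℕ) :
    Dom (Dm m p0 a Y J) (Dsm' p0 * DD m p0 1 Y J) :=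
  (dom_Dsm p0).mul (dom_DD m p0 (by rwa [abs_neg]) Y J)

lemma len_D (m : ℕ) {p0 : ℕ} (hp0 : 1 ≤ p0) {a Y : ℝ} (ha : |a| ≤ 1) (hY : 0 < Y) (J : ℕ) :
    ∀ n, (Dm m p0 a Y J).coeff n ≠ 0 → 1 ≤ n ∧ (n : ℝ) ≤ (p0 : ℝ) ^ p0 * Real.exp (2 * m * Y) := by
  have hc : Cone (Len (p0 * Real.log p0 + 2 * m * Y)) (Dsm' p0 * DD m p0 1 Y J) :=
    (cone_Dsm' hp0).mul (cone_DD1 m p0 hY J) fun x hx y hy => Len.mul hx hy
  have h := sup_len_floor ((dom_Dm m p0 ha Y J).sup hc)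
  intro n hn
  obtain ⟨h1, h2⟩ := h n hn
  refine ⟨h1, h2.trans (le_of_eq ?_)⟩
  rw [Real.exp_add, Real.exp_nat_mul, Real.exp_log (by exact_mod_cast hp0)]

lemma nrm_D (m p0 : ℕ) {a Y : ℝ} (ha : |a| ≤ 1) (hY : 0 < Y) (J : ℕ) :
    nrm (Dm m p0 a Y J) ≤ 2 ^ p0 * Real.exp (J + 2 * m * Y) := by
  refine (nrm_le_aug (dom_Dm m p0 ha Y J)).trans ?_
  rw [aug_mul]
  have h1 := aug_Dsm' p0
  have h2 := aug_DD1 m p0 hY J
  have h3 : 0 ≤ aug (DD m p0 1 Y J) := aug_nonneg' (cone_DD1 m p0 hY J)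
  gcongr

end lengths

end Pool.Agent.Lib.MP_f9aece_nt_h40
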