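import Mathlib
import Pool.Agent.Lib.MP_f9aece_nt_h40.GFormsA
import Pool.Agent.Lib.MP_f9aece_nt_h40.GFormsB

/-!
Bounds for the quadratic forms with kernels `K2` and `Kg` at the mollifier `Dm`.
-/

set_option autoImplicit false

namespace Pool.Agent.Lib.MP_f9aece_nt_h40

open MeasureTheory Set Filter Topology Complex
open Pool.Agent.Lib.MP_f9aece_nt
open Pool.Agent.Lib.MP_f9aece_nt_h97

section scales

variable {L : ℕ → ℕ → ℝ} (hL : LogKer L)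

include hL

lemma Am_bounds {m p0 : ℕ} (hm : 4000 ≤ m) {Y a : ℝ} (hY : 0 < Y) (ha0 : 0 ≤ a) (ha : a ≤ 1) (i : ℕ) :
    |BK K2 (expo (-a) (Mm m i) (sc Y p0 i)) (expo (-a) (Mm m i) (sc Y p0 i))| ≤ Um a Y p0 i ∧
    |BK L (expo (-a) (Mm m i) (sc Y p0 i)) (expo (-a) (Mm m i) (sc Y p0 i))|
      ≤ (26 * a * LL (sc Y p0 i)) * Um a Y p0 i := by
  have hMM := Mm_ge hm i
  have hM : 1 ≤ Mm m i := by have := Mj_ge i; omega
  obtain ⟨h1, h2⟩ := expo_boundsL hL (I := sc Y p0 i) (fun p hp => sc_prime hp) ha0 ha hM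
    (VV_sc_le hY p0 i)
  have ht := tiny_le i
  have e0 : Real.exp 660 / 2 ^ Mm m i ≤ (1 / 2) ^ (i + 21) := by
    refine le_trans ?_ ht
    have : (2 : ℝ) ^ Mj i ≤ 2 ^ Mm m i := pow_le_pow_right₀ (by norm_num) hMM
    gcongr
  have e1 : a / 2 ^ Mm m i * Real.exp 660 ≤ a * (1 / 2) ^ (i + 21) := by
    have : a / 2 ^ Mm m i * Real.exp 660 = a * (Real.exp 660 / 2 ^ Mm m i) := by ring
    rw [this]
    gcongr
  have e2 : (1 / 2 : ℝ) ^ (i + 21) ≤ 1 / 2000000 := by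
    calc (1 / 2 : ℝ) ^ (i + 21) ≤ (1 / 2) ^ 21 :=
          pow_le_pow_of_le_one (by norm_num) (by norm_num) (by omega)
      _ ≤ _ := by norm_num
  have hexp : Real.exp ((a ^ 2 - 2 * a) * VV (sc Y p0 i) + 3.4 * a ^ 2 * V2 (sc Y p0 i)
      + 3 * (a / 2 ^ Mm m i) * Real.exp 660) ≤ Um a Y p0 i := by
    unfold Um
    apply Real.exp_le_exp.mpr
    linarith
  have hLL := LL_nonneg (sc Y p0 i)
  refine ⟨h1.trans hexp, h2.trans ?_⟩
  have h3 : 25 * a + 660 * (a / 2 ^ Mm m i) * Real.exp 660 ≤ 26 * a := by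
    have : a * (1 / 2) ^ (i + 21) ≤ a * (1 / 2000000) := by gcongr
    linarith
  calc LL (sc Y p0 i) * (25 * a + 660 * (a / 2 ^ Mm m i) * Real.exp 660)
        * Real.exp ((a ^ 2 - 2 * a) * VV (sc Y p0 i) + 3.4 * a ^ 2 * V2 (sc Y p0 i)
          + 3 * (a / 2 ^ Mm m i) * Real.exp 660)
      ≤ LL (sc Y p0 i) * (26 * a) * Um a Y p0 i := by gcongr
    _ = _ := by ring

omit hL in
lemma prod_Um_le {p0 : ℕ} (hp0 : 1 ≤ p0) {Y a : ℝ} (hY : 0 < Y) (ha0 : 0 ≤ a) (ha : a ≤ 1) (J : ℕ) :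
    ∏ i ∈ Finset.range J, Um a Y p0 i
      ≤ Real.exp ((a ^ 2 - 2 * a) * ∑ j ∈ Finset.range J, VV (sc Y p0 j) + 3.401 * a) := by
  unfold Um
  rw [← Real.exp_sum]
  apply Real.exp_le_exp.mpr
  rw [Finset.sum_add_distrib, Finset.sum_add_distrib, ← Finset.mul_sum, ← Finset.mul_sum,
    ← Finset.mul_sum]
  have h1 := sum_V2_sc_le hY hp0 J
  have h2 := sum_half21 J
  have h3 : 0 ≤ ∑ j ∈ Finset.range J, V2 (sc Y p0 j) := Finset.sum_nonneg fun j _ => V2_nonneg _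
  have h4 : 3.4 * a ^ 2 * ∑ j ∈ Finset.range J, V2 (sc Y p0 j) ≤ 3.4 * a := by
    calc 3.4 * a ^ 2 * ∑ j ∈ Finset.range J, V2 (sc Y p0 j) ≤ 3.4 * a ^ 2 * 1 := by gcongr
      _ ≤ 3.4 * a := by nlinarith
  have h5 : 3 * a * ∑ j ∈ Finset.range J, (1 / 2 : ℝ) ^ (j + 21) ≤ 3 * a * (1 / 1000000) := by gcongr
  linarith

lemma DD_bounds {m p0 : ℕ} (hm : 4000 ≤ m) (hp0 : 1 ≤ p0) {Y a : ℝ} (hY : 0 < Y) (ha0 : 0 ≤ a)
    (ha : a ≤ 1) (J : ℕ) :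
    |BK K2 (DD m p0 (-a) Y J) (DD m p0 (-a) Y J)|
      ≤ Real.exp ((a ^ 2 - 2 * a) * ∑ j ∈ Finset.range J, VV (sc Y p0 j) + 3.401 * a) ∧
    |BK L (DD m p0 (-a) Y J) (DD m p0 (-a) Y J)| ≤ (26 * a * (Y + 2)) *
      Real.exp ((a ^ 2 - 2 * a) * ∑ j ∈ Finset.range J, VV (sc Y p0 j) + 3.401 * a) := by
  obtain ⟨h1, h2⟩ := prod_boundsL hL (Finset.range J) (sc Y p0)
    (fun _ _ _ _ h => sc_disjoint hY h) (fun j => expo (-a) (Mm m j) (sc Y p0 j))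
    (fun j _ => sup_expo (fun p hp => sc_prime hp) _ _) (Um a Y p0)
    (fun i => 26 * a * LL (sc Y p0 i)) (fun i _ => (Um_pos a Y p0 i).le)
    (fun i _ => mul_nonneg (by positivity) (LL_nonneg _))
    (fun i _ => (Am_bounds hL hm hY ha0 ha i).1) (fun i _ => (Am_bounds hL hm hY ha0 ha i).2)
  have h3 := prod_Um_le hp0 hY ha0 ha J
  have h4 : ∑ i ∈ Finset.range J, 26 * a * LL (sc Y p0 i) ≤ 26 * a * (Y + 2) := by
    rw [← Finset.mul_sum]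
    have := sum_LL_sc_le hY p0 J
    gcongr
  have h5 : 0 ≤ ∏ i ∈ Finset.range J, Um a Y p0 i := Finset.prod_nonneg fun i _ => (Um_pos a Y p0 i).le
  refine ⟨h1.trans h3, h2.trans ?_⟩
  gcongr

end scales

/-- the quadratic forms of the mollifier -/
theorem forms_small (m p0 : ℕ) (hm : 4000 ≤ m) (hp0 : 1 ≤ p0) : ∃ C : ℝ, 0 ≤ C ∧ ∀ k : ℝ, 0 ≤ k →
    k ≤ 1 / 2 → ∀ Y : ℝ, 1 ≤ Y → ∀ J : ℕ, Y / 4 ^ J < Real.log 2 →
    |BK K2 (Dm m p0 (1 - k) Y J) (Dm m p0 (1 - k) Y J)| ≤ C * Y ^ (k ^ 2 - 1) ∧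
    |BK Kg (Dm m p0 (1 - k) Y J) (Dm m p0 (1 - k) Y J)| ≤ C * Y ^ (k ^ 2) := by
  set c1 := |BK K2 (Dsm p0) (Dsm p0)| with hc1
  set c2 := |BK Kg (Dsm p0) (Dsm p0)| with hc2
  have hc10 : 0 ≤ c1 := abs_nonneg _
  have hc20 : 0 ≤ c2 := abs_nonneg _
  set E := Real.exp (2 + Real.log p0 + 3.401) with hE
  have hE0 : 0 < E := Real.exp_pos _
  refine ⟨(c2 + 78 * c1 + c1) * E, by positivity, ?_⟩
  intro k hk0 hk1 Y hY J hJ
  have hY0 : 0 < Y := by linarith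
  have ha0 : 0 ≤ 1 - k := by linarith
  have ha1 : 1 - k ≤ 1 := by linarith
  obtain ⟨d1, d2⟩ := DD_bounds logKer_Kg hm hp0 hY0 ha0 ha1 J
  have hV := sum_VV_ge hY hp0 hJ
  set S := ∑ j ∈ Finset.range J, VV (sc Y p0 j) with hS
  have hlogp : 0 ≤ Real.log p0 := Real.log_natCast_nonneg _
  have hexp : Real.exp (((1 - k) ^ 2 - 2 * (1 - k)) * S + 3.401 * (1 - k)) ≤ E * Y ^ (k ^ 2 - 1) := by
    rw [hE, Real.rpow_def_of_pos hY0, ← Real.exp_add]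
    apply Real.exp_le_exp.mpr
    have e : (1 - k) ^ 2 - 2 * (1 - k) = k ^ 2 - 1 := by ring
    rw [e]
    have hk2 : k ^ 2 - 1 ≤ 0 := by nlinarith
    have h1 : (k ^ 2 - 1) * S ≤ (k ^ 2 - 1) * (Real.log Y - 2 - Real.log p0) :=
      mul_le_mul_of_nonpos_left hV hk2
    have h2 : 0 ≤ k ^ 2 * (2 + Real.log p0) := by positivity
    nlinarith
  have hds : Disjoint (Psm p0 : Set ℕ) (⋃ j ∈ Finset.range J, (sc Y p0 j : Set ℕ)) := disj_Psm p0 Y J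
  have hs1 := sup_Dsm p0
  have hs2 := sup_DD m p0 (-(1 - k)) Y J
  have hYk : 0 < Y ^ (k ^ 2 - 1) := Real.rpow_pos_of_pos hY0 _
  have hYk2 : Y ^ (k ^ 2) = Y * Y ^ (k ^ 2 - 1) := by
    rw [Real.rpow_sub hY0, Real.rpow_one]
    field_simp
  set W := E * Y ^ (k ^ 2 - 1) with hW
  have hW0 : 0 < W := by positivity
  have b1 : |BK K2 (DD m p0 (-(1 - k)) Y J) (DD m p0 (-(1 - k)) Y J)| ≤ W := d1.trans hexp
  have b2 : |BK Kg (DD m p0 (-(1 - k)) Y J) (DD m p0 (-(1 - k)) Y J)| ≤ (78 * Y) * W := by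
    refine d2.trans ?_
    have : 26 * (1 - k) * (Y + 2) ≤ 78 * Y := by nlinarith
    gcongr
  unfold Dm
  rw [BK_mul_sup K2 hs1 hs1 hs2 hs2 fun x hx x' hx' y hy y' hy' => K2_mul hds hx hx' hy hy',
    BK_mul_der K2 Kg hs1 hs1 hs2 hs2 fun x hx x' hx' y hy y' hy' =>
      logKer_Kg.mul _ _ hds x hx x' hx' y hy y' hy']
  constructor
  · rw [abs_mul]
    calc c1 * |BK K2 (DD m p0 (-(1 - k)) Y J) (DD m p0 (-(1 - k)) Y J)| ≤ c1 * W := by gcongr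
      _ ≤ (c2 + 78 * c1 + c1) * W := by
          gcongr
          linarith
      _ = _ := by rw [hW]; ring
  · refine (abs_add_le _ _).trans ?_
    rw [abs_mul, abs_mul]
    calc c2 * |BK K2 (DD m p0 (-(1 - k)) Y J) (DD m p0 (-(1 - k)) Y J)|
          + c1 * |BK Kg (DD m p0 (-(1 - k)) Y J) (DD m p0 (-(1 - k)) Y J)|
        ≤ c2 * W + c1 * (78 * Y * W) := by gcongr
      _ ≤ c2 * (Y * W) + c1 * (78 * Y * W) + c1 * (Y * W) := by
          have h1 : c2 * W ≤ c2 * (Y * W) := by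
            gcongr
            nlinarith
          have h2 : 0 ≤ c1 * (Y * W) := by positivity
          linarith
      _ = (c2 + 78 * c1 + c1) * E * Y ^ (k ^ 2) := by
          rw [hYk2, hW]; ring

end Pool.Agent.Lib.MP_f9aece_nt_h40
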