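import Mathlib
import Pool.Agent.Lib.MP_f9aece_nt_h40.GFormsA
import Pool.Agent.Lib.MP_f9aece_nt_h40.GFormsB
import Pool.Agent.Lib.MP_f9aece_nt_h97.OffF3

/-!
Quadratic forms at products of up to three truncated exponentials: local factors.
-/

set_option autoImplicit false

namespace Pool.Agent.Lib.MP_f9aece_nt_h40

open MeasureTheory Set Filter Topology Complex
open Pool.Agent.Lib.MP_f9aece_nt
open Pool.Agent.Lib.MP_f9aece_nt_h97

/-- polynomials whose coefficients are bounded by those of `exp (A X)` -/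
structure Cf (A c : ℝ) (Q : Polynomial ℝ) : Prop where
  zero : Q.coeff 0 = 1
  one : Q.coeff 1 = c
  le : ∀ i, |Q.coeff i| ≤ A ^ i / (i.factorial : ℝ)

lemma Cf.nonneg {A c : ℝ} {Q : Polynomial ℝ} (h : Cf A c Q) : 0 ≤ A := by
  have := (abs_nonneg _).trans (h.le 1)
  simpa using this

lemma Cf.mul {A B c d : ℝ} {Q R : Polynomial ℝ} (hQ : Cf A c Q) (hR : Cf B d R) :
    Cf (A + B) (c + d) (Q * R) := by
  refine ⟨?_, ?_, ?_⟩
  · rw [Polynomial.mul_coeff_zero, hQ.zero, hR.zero, one_mul]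
  · rw [Polynomial.coeff_mul, Finset.Nat.antidiagonal_succ]
    simp [hQ.zero, hR.zero, hQ.one, hR.one]
    ring
  · intro i
    rw [Polynomial.coeff_mul]
    refine (Finset.abs_sum_le_sum_abs _ _).trans ?_
    have hA := hQ.nonneg
    have hB := hR.nonneg
    have e : (A + B) ^ i / (i.factorial : ℝ)
        = ∑ x ∈ Finset.HasAntidiagonal.antidiagonal i, (A ^ x.1 / (x.1.factorial : ℝ)) * (B ^ x.2 / (x.2.factorial : ℝ)) := by
      rw [(Commute.all A B).add_pow', Finset.sum_div]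
      refine Finset.sum_congr rfl fun x hx => ?_
      rw [Finset.HasAntidiagonal.mem_antidiagonal] at hx
      have h1 := Nat.add_choose_mul_factorial_mul_factorial x.1 x.2
      rw [hx] at h1
      rw [← Nat.choose_symm_of_eq_add hx.symm] at h1
      have h2 : (i.factorial : ℝ) = (i.choose x.1 : ℝ) * (x.1.factorial : ℝ) * (x.2.factorial : ℝ) := by
        exact_mod_cast h1.symm
      have h3 : (0 : ℝ) < (x.1.factorial : ℝ) := by positivity
      have h4 : (0 : ℝ) < (x.2.factorial : ℝ) := by positivity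
      have h5 : (0 : ℝ) < (i.factorial : ℝ) := by positivity
      rw [nsmul_eq_mul, div_eq_iff h5.ne', h2]
      field_simp
    rw [e]
    refine Finset.sum_le_sum fun x _ => ?_
    rw [abs_mul]
    exact mul_le_mul (hQ.le _) (hR.le _) (abs_nonneg _) (by positivity)

/-- truncated exponential polynomial -/
noncomputable def TE (c : ℝ) (M : ℕ) : Polynomial ℝ :=
  ∑ r ∈ Finset.range (M + 1), Polynomial.monomial r (c ^ r / (r.factorial : ℝ))

lemma coeff_TE (c : ℝ) (M i : ℕ) :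
    (TE c M).coeff i = if i ≤ M then c ^ i / (i.factorial : ℝ) else 0 := by
  unfold TE
  rw [Polynomial.finsetSum_coeff]
  simp_rw [Polynomial.coeff_monomial]
  by_cases h : i ≤ M
  · rw [if_pos h, Finset.sum_eq_single i]
    · simp
    · intro b _ hb
      rw [if_neg hb]
    · intro h1
      exact absurd (Finset.mem_range.mpr (by omega)) h1
  · rw [if_neg h]
    refine Finset.sum_eq_zero fun r hr => ?_
    rw [Finset.mem_range] at hr
    rw [if_neg (by omega)]

lemma cf_TE (c : ℝ) {M : ℕ} (hM : 1 ≤ M) : Cf |c| c (TE c M) := by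
  refine ⟨?_, ?_, ?_⟩
  · rw [coeff_TE, if_pos (by omega)]; simp
  · rw [coeff_TE, if_pos hM]; simp
  · intro i
    rw [coeff_TE]
    split_ifs with h
    · rw [abs_div, abs_pow, abs_of_pos (by positivity : (0 : ℝ) < (i.factorial : ℝ))]
    · rw [abs_zero]; positivity

/-- local factor at `p` -/
noncomputable def loc (p : ℕ) (Q : Polynomial ℝ) : DP :=
  Polynomial.aeval (MonoidAlgebra.single p (1 : ℝ) : DP) Q

lemma loc_mul (p : ℕ) (Q R : Polynomial ℝ) : loc p (Q * R) = loc p Q * loc p R := by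
  unfold loc; rw [map_mul]

lemma loc_TE (p : ℕ) (c : ℝ) (M : ℕ) : loc p (TE c M) = expo c M {p} := by
  unfold loc TE expo
  rw [map_sum]
  refine Finset.sum_congr rfl fun r _ => ?_
  rw [Polynomial.aeval_monomial, PP_singleton, Algebra.smul_def]

lemma loc_eq_sum (p : ℕ) (Q : Polynomial ℝ) {N : ℕ} (hN : Q.natDegree < N) :
    loc p Q = ∑ i ∈ Finset.range N, Q.coeff i • MonoidAlgebra.single (p ^ i) (1 : ℝ) := by
  unfold loc
  rw [Polynomial.aeval_eq_sum_range' hN]
  refine Finset.sum_congr rfl fun i _ => ?_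
  rw [MonoidAlgebra.single_pow, one_pow]

lemma BK_loc (K : ℕ → ℕ → ℝ) (p : ℕ) (Q R : Polynomial ℝ) {N : ℕ} (hQ : Q.natDegree < N)
    (hR : R.natDegree < N) :
    BK K (loc p Q) (loc p R)
      = ∑ i ∈ Finset.range N, ∑ l ∈ Finset.range N, Q.coeff i * R.coeff l * K (p ^ i) (p ^ l) := by
  rw [loc_eq_sum p Q hQ, loc_eq_sum p R hR, BK_sum_left]
  refine Finset.sum_congr rfl fun i _ => ?_
  rw [BK_sum_right]
  refine Finset.sum_congr rfl fun l _ => ?_
  rw [BK_smul_left, BK_smul_right, BK_single]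
  ring

lemma sup_loc' {p : ℕ} (hp : p.Prime) (Q : Polynomial ℝ) :
    Sup (Smo (({p} : Finset ℕ) : Set ℕ)) (loc p Q) := by
  rw [loc_eq_sum p Q (Nat.lt_succ_self _)]
  have h1 : p ∈ Smo (({p} : Finset ℕ) : Set ℕ) := prime_mem_Smo hp (by simp)
  have h2 : ∀ i : ℕ, p ^ i ∈ Smo (({p} : Finset ℕ) : Set ℕ) := by
    intro i
    induction i with
    | zero => simpa using one_mem_Smo _
    | succ i ih => rw [pow_succ]; exact mul_mem_Smo ih h1
  exact Sup.sum _ fun i _ => Sup.smul (Sup.single (h2 i) 1) _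

/-- generic expansion of a local factor -/
lemma local_genQ {A B c d : ℝ} {Q R : Polynomial ℝ} (hQ : Cf A c Q) (hR : Cf B d R) {N : ℕ} (hN : 2 ≤ N)
    (κ : ℕ → ℕ → ℝ) {S : ℝ} (hκ : ∀ i l : ℕ, 2 ≤ i ∨ 2 ≤ l → |κ i l| ≤ S) (hS : 0 ≤ S) :
    |(∑ i ∈ Finset.range N, ∑ l ∈ Finset.range N, Q.coeff i * R.coeff l * κ i l)
      - (κ 0 0 + c * κ 1 0 + d * κ 0 1 + c * d * κ 1 1)| ≤ S * Real.exp (A + B) := by
  have hA := hQ.nonneg
  have hB := hR.nonneg
  set t : ℕ × ℕ → ℝ := fun x => Q.coeff x.1 * R.coeff x.2 * κ x.1 x.2 with ht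
  set w : ℕ × ℕ → ℝ := fun x => (A ^ x.1 / (x.1.factorial : ℝ)) * (B ^ x.2 / (x.2.factorial : ℝ)) with hw
  have e1 : ∑ i ∈ Finset.range N, ∑ l ∈ Finset.range N, Q.coeff i * R.coeff l * κ i l
      = ∑ x ∈ Finset.range N ×ˢ Finset.range N, t x := by
    rw [Finset.sum_product]
  rw [e1]
  have hsub : Finset.range 2 ×ˢ Finset.range 2 ⊆ Finset.range N ×ˢ Finset.range N := by
    apply Finset.product_subset_product <;> exact Finset.range_subset_range.mpr hN
  rw [← Finset.sum_sdiff hsub]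
  have e2 : ∑ x ∈ Finset.range 2 ×ˢ Finset.range 2, t x
      = κ 0 0 + c * κ 1 0 + d * κ 0 1 + c * d * κ 1 1 := by
    rw [Finset.sum_product]
    simp [ht, Finset.sum_range_succ, hQ.zero, hQ.one, hR.zero, hR.one]
    ring
  rw [e2, add_sub_cancel_right]
  have h1 : ∀ x ∈ (Finset.range N ×ˢ Finset.range N) \ (Finset.range 2 ×ˢ Finset.range 2),
      |t x| ≤ S * w x := by
    intro x hx
    rw [Finset.mem_sdiff, Finset.mem_product, Finset.mem_product] at hx
    simp only [Finset.mem_range] at hx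
    rw [ht, hw]
    simp only
    rw [abs_mul, abs_mul, mul_comm S]
    have := hκ x.1 x.2 (by omega)
    exact mul_le_mul (mul_le_mul (hQ.le _) (hR.le _) (abs_nonneg _) (by positivity)) this
      (abs_nonneg _) (by positivity)
  refine (Finset.abs_sum_le_sum_abs _ _).trans ((Finset.sum_le_sum h1).trans ?_)
  rw [← Finset.mul_sum]
  refine mul_le_mul_of_nonneg_left ?_ hS
  have h2 : ∑ x ∈ Finset.range N ×ˢ Finset.range N, w x ≤ Real.exp (A + B) := by
    rw [Finset.sum_product]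
    have h3 : ∑ i ∈ Finset.range N, ∑ l ∈ Finset.range N, w (i, l)
        = (∑ i ∈ Finset.range N, A ^ i / (i.factorial : ℝ))
          * ∑ l ∈ Finset.range N, B ^ l / (l.factorial : ℝ) := by
      rw [Finset.sum_mul_sum]
    rw [h3, Real.exp_add]
    have h4 : 0 ≤ ∑ l ∈ Finset.range N, B ^ l / (l.factorial : ℝ) :=
      Finset.sum_nonneg fun l _ => by positivity
    exact mul_le_mul (Real.sum_le_exp_of_nonneg hA _) (Real.sum_le_exp_of_nonneg hB _) h4
      (Real.exp_pos _).le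
  refine le_trans ?_ h2
  exact Finset.sum_le_sum_of_subset_of_nonneg Finset.sdiff_subset fun x _ _ => by positivity

lemma K_pow_le {K : ℕ → ℕ → ℝ} (hK : MK K) {p : ℕ} (hp : p.Prime) {i l : ℕ} (h : 2 ≤ i ∨ 2 ≤ l) :
    |K (p ^ i) (p ^ l)| ≤ ((p : ℝ)⁻¹) ^ 2 := by
  rw [abs_of_nonneg (hK.1 _ _)]
  refine (hK.2.1 _ _).trans ?_
  rw [K2_pow hp]
  have h1 : (p : ℝ)⁻¹ ≤ 1 := inv_le_one_of_one_le₀ (by exact_mod_cast hp.one_le)
  exact pow_le_pow_of_le_one (by positivity) h1 (by omega)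

/-- local factor of a multiplicative form -/
lemma local_form {K : ℕ → ℕ → ℝ} (hK : MK K) {p : ℕ} (hp : p.Prime) {A B c d : ℝ} {Q R : Polynomial ℝ}
    (hQ : Cf A c Q) (hR : Cf B d R) :
    |BK K (loc p Q) (loc p R) - (1 + c * K p 1 + d * K 1 p + c * d * K p p)|
      ≤ Real.exp (A + B) * ((p : ℝ)⁻¹) ^ 2 := by
  rw [BK_loc K p Q R (N := max Q.natDegree R.natDegree + 2) (by omega) (by omega)]
  have h := local_genQ hQ hR (N := max Q.natDegree R.natDegree + 2) (by omega)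
    (fun i l => K (p ^ i) (p ^ l)) (S := ((p : ℝ)⁻¹) ^ 2) (fun i l hil => K_pow_le hK hp hil)
    (by positivity)
  simp only [pow_zero, pow_one] at h
  rw [hK.2.2.1] at h
  rw [mul_comm (Real.exp (A + B))]
  exact h

/-- local factor of a derivation form -/
lemma local_formL {L : ℕ → ℕ → ℝ} (hL : LogKer L) {p : ℕ} (hp : p.Prime) {A c : ℝ} {Q : Polynomial ℝ}
    (hQ : Cf A c Q) :
    |BK L (loc p Q) (loc p Q)| ≤ 2 * A * Real.exp (2 * A) * ((p : ℝ)⁻¹ * Real.log p) := by
  have hA := hQ.nonneg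
  have hlog : 0 ≤ Real.log p := Real.log_nonneg (by exact_mod_cast hp.one_le)
  rw [BK_loc L p Q Q (N := Q.natDegree + 1) (by omega) (by omega)]
  set M := Q.natDegree with hM
  have h1 : |∑ i ∈ Finset.range (M + 1), ∑ l ∈ Finset.range (M + 1),
        Q.coeff i * Q.coeff l * L (p ^ i) (p ^ l)|
      ≤ ∑ i ∈ Finset.range (M + 1), ∑ l ∈ Finset.range (M + 1),
        (A ^ i / (i.factorial : ℝ)) * (A ^ l / (l.factorial : ℝ)) *
          ((p : ℝ)⁻¹ * Real.log p * (i + l)) := by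
    refine (Finset.abs_sum_le_sum_abs _ _).trans (Finset.sum_le_sum fun i _ => ?_)
    refine (Finset.abs_sum_le_sum_abs _ _).trans (Finset.sum_le_sum fun l _ => ?_)
    rw [abs_mul, abs_mul, abs_of_nonneg (hL.nonneg _ _)]
    exact mul_le_mul (mul_le_mul (hQ.le _) (hQ.le _) (abs_nonneg _) (by positivity))
      (L_pow_le hL hp i l) (hL.nonneg _ _) (by positivity)
  refine h1.trans ?_
  have h2 : ∑ i ∈ Finset.range (M + 1), ∑ l ∈ Finset.range (M + 1),
        (A ^ i / (i.factorial : ℝ)) * (A ^ l / (l.factorial : ℝ)) *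
          ((p : ℝ)⁻¹ * Real.log p * (i + l))
      = ((p : ℝ)⁻¹ * Real.log p) * (2 * ((∑ i ∈ Finset.range (M + 1), (i : ℝ) * (A ^ i / (i.factorial : ℝ)))
        * ∑ l ∈ Finset.range (M + 1), A ^ l / (l.factorial : ℝ))) := by
    have e1 : (∑ i ∈ Finset.range (M + 1), (i : ℝ) * (A ^ i / (i.factorial : ℝ)))
        * ∑ l ∈ Finset.range (M + 1), A ^ l / (l.factorial : ℝ)
        = ∑ i ∈ Finset.range (M + 1), ∑ l ∈ Finset.range (M + 1),
          (i : ℝ) * (A ^ i / (i.factorial : ℝ)) * (A ^ l / (l.factorial : ℝ)) := by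
      rw [Finset.sum_mul_sum]
    have e2 : (∑ i ∈ Finset.range (M + 1), (i : ℝ) * (A ^ i / (i.factorial : ℝ)))
        * ∑ l ∈ Finset.range (M + 1), A ^ l / (l.factorial : ℝ)
        = ∑ i ∈ Finset.range (M + 1), ∑ l ∈ Finset.range (M + 1),
          (A ^ i / (i.factorial : ℝ)) * ((l : ℝ) * (A ^ l / (l.factorial : ℝ))) := by
      rw [mul_comm, Finset.sum_mul_sum]
    have e3 : 2 * ((∑ i ∈ Finset.range (M + 1), (i : ℝ) * (A ^ i / (i.factorial : ℝ)))
        * ∑ l ∈ Finset.range (M + 1), A ^ l / (l.factorial : ℝ))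
        = ∑ i ∈ Finset.range (M + 1), ∑ l ∈ Finset.range (M + 1),
          (A ^ i / (i.factorial : ℝ)) * (A ^ l / (l.factorial : ℝ)) * (i + l) := by
      rw [two_mul]
      nth_rewrite 1 [e1]
      rw [e2, ← Finset.sum_add_distrib]
      refine Finset.sum_congr rfl fun i _ => ?_
      rw [← Finset.sum_add_distrib]
      refine Finset.sum_congr rfl fun l _ => ?_
      ring
    rw [e3, Finset.mul_sum]
    refine Finset.sum_congr rfl fun i _ => ?_
    rw [Finset.mul_sum]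
    refine Finset.sum_congr rfl fun l _ => ?_
    ring
  rw [h2]
  have h3 := sum_mul_exp_le hA M
  have h4 : ∑ l ∈ Finset.range (M + 1), A ^ l / (l.factorial : ℝ) ≤ Real.exp A :=
    Real.sum_le_exp_of_nonneg hA _
  have h5 : 0 ≤ ∑ l ∈ Finset.range (M + 1), A ^ l / (l.factorial : ℝ) :=
    Finset.sum_nonneg fun l _ => by positivity
  calc ((p : ℝ)⁻¹ * Real.log p) * (2 * ((∑ i ∈ Finset.range (M + 1), (i : ℝ) * (A ^ i / (i.factorial : ℝ)))
        * ∑ l ∈ Finset.range (M + 1), A ^ l / (l.factorial : ℝ)))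
      ≤ ((p : ℝ)⁻¹ * Real.log p) * (2 * ((A * Real.exp A) * Real.exp A)) := by gcongr
    _ = _ := by
        have : Real.exp (2 * A) = Real.exp A * Real.exp A := by rw [← Real.exp_add]; congr 1; ring
        rw [this]; ring

end Pool.Agent.Lib.MP_f9aece_nt_h40
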