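import Mathlib
import Pool.Agent.Lib.MP_f9aece_nt_h40.FormsTwoA

/-!
Quadratic forms at products of up to three truncated exponentials: blocks.
-/

set_option autoImplicit false

namespace Pool.Agent.Lib.MP_f9aece_nt_h40

open MeasureTheory Set Filter Topology Complex
open Pool.Agent.Lib.MP_f9aece_nt
open Pool.Agent.Lib.MP_f9aece_nt_h97

lemma Cf.mono {A B c : ℝ} {Q : Polynomial ℝ} (h : Cf A c Q) (hAB : A ≤ B) : Cf B c Q := by
  have hA := h.nonneg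
  exact ⟨h.zero, h.one, fun i => (h.le i).trans (by gcongr)⟩

/-- product over the primes of a block -/
noncomputable def FQ (Q : Polynomial ℝ) (I : Finset ℕ) : DP := ∏ p ∈ I, loc p Q

lemma FQ_mul (Q R : Polynomial ℝ) (I : Finset ℕ) : FQ (Q * R) I = FQ Q I * FQ R I := by
  unfold FQ
  rw [← Finset.prod_mul_distrib]
  exact Finset.prod_congr rfl fun p _ => loc_mul p Q R

lemma FQ_TE (c : ℝ) (M : ℕ) (I : Finset ℕ) : FQ (TE c M) I = FF c M I := by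
  unfold FQ FF
  exact Finset.prod_congr rfl fun p _ => loc_TE p c M

lemma mk_K2 : MK K2 := by
  refine ⟨K2_nonneg, fun _ _ => le_rfl, by simp [K2], ?_⟩
  intro A B hAB a ha a' ha' b hb b' hb'
  exact K2_mul hAB ha ha' hb hb'

lemma K2_p1 {p : ℕ} (hp : p.Prime) : K2 p 1 = (p : ℝ)⁻¹ := by
  have := K2_pow hp 1 0
  simpa using this

lemma K2_1p {p : ℕ} (hp : p.Prime) : K2 1 p = (p : ℝ)⁻¹ := by
  have := K2_pow hp 0 1
  simpa using this

lemma K2_pp {p : ℕ} (hp : p.Prime) : K2 p p = (p : ℝ)⁻¹ := by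
  have := K2_pow hp 1 1
  simpa using this

lemma inv_le_half {p : ℕ} (hp : p.Prime) : (p : ℝ)⁻¹ ≤ 1 / 2 := by
  have hp2 : (2 : ℝ) ≤ p := by exact_mod_cast hp.two_le
  rw [one_div]; exact inv_anti₀ (by norm_num) hp2

lemma exp_neg_half : (1 : ℝ) / 2 ≤ Real.exp (-(1 / 2)) := by
  have := Real.add_one_le_exp (-(1 / 2) : ℝ)
  linarith

/-- upper bounds for both forms of a product of local factors -/
lemma FQ_K2L {L : ℕ → ℕ → ℝ} (hL : LogKer L) {I : Finset ℕ} (hI : ∀ p ∈ I, p.Prime) {A c : ℝ}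
    {Q : Polynomial ℝ} (hQ : Cf A c Q) :
    |BK K2 (FQ Q I) (FQ Q I)| ≤ Real.exp ((2 * c + c ^ 2) * VV I + Real.exp (2 * A) * V2 I) ∧
    |BK L (FQ Q I) (FQ Q I)| ≤ 4 * A * Real.exp (2 * A) * LL I
      * Real.exp ((2 * c + c ^ 2) * VV I + Real.exp (2 * A) * V2 I) := by
  have hA := hQ.nonneg
  have hc : -1 ≤ 2 * c + c ^ 2 := by nlinarith [sq_nonneg (c + 1)]
  have h := prod_boundsL hL I (fun p => {p}) disj_single (fun p => loc p Q)
    (fun p hp => sup_loc' (hI p hp) Q)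
    (fun p => Real.exp ((2 * c + c ^ 2) * (p : ℝ)⁻¹ + Real.exp (2 * A) * ((p : ℝ)⁻¹) ^ 2))
    (fun p => 4 * A * Real.exp (2 * A) * ((p : ℝ)⁻¹ * Real.log p))
    (fun p _ => (Real.exp_pos _).le)
    (fun p _ => mul_nonneg (by positivity) (mul_nonneg (by positivity) (Real.log_natCast_nonneg p)))
    ?_ ?_
  · rw [← Real.exp_sum, Finset.sum_add_distrib, ← Finset.mul_sum, ← Finset.mul_sum,
      ← Finset.mul_sum] at h
    exact h
  · intro p hp
    have hpp := hI p hp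
    have h1 := local_form mk_K2 hpp hQ hQ
    rw [K2_p1 hpp, K2_1p hpp, K2_pp hpp] at h1
    have hq1 := inv_le_half hpp
    have hq0 : (0 : ℝ) < (p : ℝ)⁻¹ := by have := hpp.pos; positivity
    set q := (p : ℝ)⁻¹ with hq
    have e : A + A = 2 * A := by ring
    rw [e, abs_le] at h1
    have h2 := Real.add_one_le_exp ((2 * c + c ^ 2) * q + Real.exp (2 * A) * q ^ 2)
    have h3 : 0 ≤ 1 + (2 * c + c ^ 2) * q := by nlinarith
    rw [abs_le]
    constructor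
    · nlinarith [h1.1]
    · nlinarith [h1.2]
  · intro p hp
    have hpp := hI p hp
    have h1 := local_formL hL hpp hQ
    refine h1.trans ?_
    have hq1 := inv_le_half hpp
    have hlog : 0 ≤ Real.log p := Real.log_natCast_nonneg p
    have hq0 : (0 : ℝ) < (p : ℝ)⁻¹ := by have := hpp.pos; positivity
    set q := (p : ℝ)⁻¹ with hq
    have h3 : (1 : ℝ) / 2 ≤ Real.exp ((2 * c + c ^ 2) * q + Real.exp (2 * A) * q ^ 2) := by
      refine exp_neg_half.trans (Real.exp_le_exp.mpr ?_)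
      have : 0 ≤ Real.exp (2 * A) * q ^ 2 := by positivity
      nlinarith
    calc 2 * A * Real.exp (2 * A) * (q * Real.log p)
        = 4 * A * Real.exp (2 * A) * (q * Real.log p) * (1 / 2) := by ring
      _ ≤ _ := by gcongr

/-- two-sided bound of one local factor -/
lemma loc_two {q κ x E : ℝ} (hq0 : 0 < q) (hE : 0 ≤ E) (hq : (E + 1) * q ≤ 1 / 2) (hκ0 : 0 ≤ κ)
    (hκ : κ ≤ 1) (hx : |x - (1 + κ * q)| ≤ E * q ^ 2) :
    Real.exp (κ * q - (E + 2) * q ^ 2) ≤ x ∧ x ≤ Real.exp (κ * q + E * q ^ 2) := by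
  rw [abs_le] at hx
  set y := κ * q - E * q ^ 2 with hy
  have hEq : E * q ≤ 1 / 2 := by nlinarith
  have hq2 : q ≤ 1 / 2 := by nlinarith
  have h0 : 0 ≤ κ * q := by positivity
  have h1 : -q ≤ y := by
    have : E * q ^ 2 ≤ q := by nlinarith
    linarith
  have h2 : y ≤ q := by
    have : 0 ≤ E * q ^ 2 := by positivity
    nlinarith
  have h5 : y ^ 2 ≤ q ^ 2 := sq_le_sq' h1 h2
  constructor
  · have h4 := exp_sub_two_sq_le (x := y) (by linarith)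
    refine le_trans ?_ (h4.trans (by linarith [hx.1]))
    apply Real.exp_le_exp.mpr
    nlinarith
  · have h3 := Real.add_one_le_exp (κ * q + E * q ^ 2)
    linarith [hx.2]

/-- two-sided bound of a multiplicative form at products of local factors -/
lemma FQ_two {K : ℕ → ℕ → ℝ} (hK : MK K) {I : Finset ℕ} (hI : ∀ p ∈ I, p.Prime) {A B c d κ : ℝ}
    {Q R : Polynomial ℝ} (hQ : Cf A c Q) (hR : Cf B d R)
    (hq : ∀ p ∈ I, (Real.exp (A + B) + 1) * (p : ℝ)⁻¹ ≤ 1 / 2) (hκ0 : 0 ≤ κ) (hκ : κ ≤ 1)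
    (hloc : ∀ p ∈ I, c * K p 1 + d * K 1 p + c * d * K p p = κ * (p : ℝ)⁻¹) :
    Real.exp (κ * VV I - (Real.exp (A + B) + 2) * V2 I) ≤ BK K (FQ Q I) (FQ R I) ∧
    BK K (FQ Q I) (FQ R I) ≤ Real.exp (κ * VV I + Real.exp (A + B) * V2 I) := by
  unfold FQ
  rw [BK_prod_MK hK I (fun p => {p}) disj_single _ _ (fun p hp => sup_loc' (hI p hp) Q)
    (fun p hp => sup_loc' (hI p hp) R)]
  have key : ∀ p ∈ I, Real.exp (κ * (p : ℝ)⁻¹ - (Real.exp (A + B) + 2) * ((p : ℝ)⁻¹) ^ 2)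
      ≤ BK K (loc p Q) (loc p R) ∧
      BK K (loc p Q) (loc p R) ≤ Real.exp (κ * (p : ℝ)⁻¹ + Real.exp (A + B) * ((p : ℝ)⁻¹) ^ 2) := by
    intro p hp
    have hpp := hI p hp
    have h1 := local_form hK hpp hQ hR
    have e : 1 + c * K p 1 + d * K 1 p + c * d * K p p = 1 + κ * (p : ℝ)⁻¹ := by
      have := hloc p hp
      linarith
    rw [e] at h1
    exact loc_two (by have := hpp.pos; positivity) (Real.exp_pos _).le (hq p hp) hκ0 hκ h1
  unfold VV V2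
  constructor
  · rw [Finset.mul_sum, Finset.mul_sum, ← Finset.sum_sub_distrib, Real.exp_sum]
    exact Finset.prod_le_prod (fun p _ => (Real.exp_pos _).le) fun p hp => (key p hp).1
  · rw [Finset.mul_sum, Finset.mul_sum, ← Finset.sum_add_distrib, Real.exp_sum]
    exact Finset.prod_le_prod (fun p hp => (Real.exp_pos _).le.trans (key p hp).1)
      fun p hp => (key p hp).2

/-! ### truncation -/

/-- product of three truncated exponentials -/
noncomputable def E3 (c1 c2 c3 : ℝ) (M : ℕ) (I : Finset ℕ) : DP :=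
  expo c1 M I * expo c2 M I * expo c3 M I

/-- product of three local products -/
noncomputable def F3 (c1 c2 c3 : ℝ) (M : ℕ) (I : Finset ℕ) : DP :=
  FF c1 M I * FF c2 M I * FF c3 M I

/-- the polynomial of `F3` -/
noncomputable def Q3 (c1 c2 c3 : ℝ) (M : ℕ) : Polynomial ℝ := TE c1 M * TE c2 M * TE c3 M

lemma F3_eq (c1 c2 c3 : ℝ) (M : ℕ) (I : Finset ℕ) : F3 c1 c2 c3 M I = FQ (Q3 c1 c2 c3 M) I := by
  unfold F3 Q3
  rw [FQ_mul, FQ_mul, FQ_TE, FQ_TE, FQ_TE]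

lemma cf_Q3 {c1 c2 c3 : ℝ} {M : ℕ} (hM : 1 ≤ M) :
    Cf (|c1| + |c2| + |c3|) (c1 + c2 + c3) (Q3 c1 c2 c3 M) :=
  ((cf_TE c1 hM).mul (cf_TE c2 hM)).mul (cf_TE c3 hM)

lemma dom_mono {f g : DP} {c d : ℝ} (h : Dom f (c • g)) (hcd : c ≤ d) (hg : ∀ n, 0 ≤ g.coeff n) :
    Dom f (d • g) := h.trans' hcd hg

section trunc

variable {I : Finset ℕ} {c1 c2 c3 d1 d2 d3 : ℝ}

lemma dom_expo2 (hI : ∀ p ∈ I, p.Prime) {c : ℝ} (hc : |c| ≤ 1) (M : ℕ) :
    Dom (expo c M I) ((2 : ℝ) • FF 2 M I) := by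
  have h1 : Dom (FF c M I) (FF 2 M I) := dom_FF hI (by linarith) M
  have h2 := dom_diff hI hc M M le_rfl
  have hG : ∀ n, 0 ≤ (FF 2 M I).coeff n := h1.nonneg
  have h3 : |c| / 2 ^ M ≤ 1 := by
    rw [div_le_one (by positivity)]
    exact hc.trans (one_le_pow₀ (by norm_num))
  intro n
  have a1 := h1 n
  have a2 := h2 n
  have a3 := hG n
  rw [MonoidAlgebra.coeff_smul, Finsupp.smul_apply, smul_eq_mul] at a2 ⊢
  rw [MonoidAlgebra.coeff_sub, Finsupp.sub_apply] at a2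
  have a4 : |c| / 2 ^ M * (FF 2 M I).coeff n ≤ 1 * (FF 2 M I).coeff n := by gcongr
  rw [abs_le] at a1 a2 ⊢
  constructor <;> linarith [a1.1, a1.2, a2.1, a2.2]

lemma dom_F3 (hI : ∀ p ∈ I, p.Prime) (h1 : |c1| ≤ 1) (h2 : |c2| ≤ 1) (h3 : |c3| ≤ 1) (M : ℕ) :
    Dom (F3 c1 c2 c3 M I) (F3 2 2 2 M I) :=
  ((dom_FF hI (by linarith) M).mul (dom_FF hI (by linarith) M)).mul (dom_FF hI (by linarith) M)

lemma dom_diff3 (hI : ∀ p ∈ I, p.Prime) (h1 : |c1| ≤ 1) (h2 : |c2| ≤ 1) (h3 : |c3| ≤ 1) (M : ℕ) :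
    Dom (F3 c1 c2 c3 M I - E3 c1 c2 c3 M I) ((7 * (1 / 2 ^ M : ℝ)) • F3 2 2 2 M I) := by
  set G := FF 2 M I with hG
  have hGn : ∀ n, 0 ≤ G.coeff n := (dom_FF hI (c := 2) (d := 2) (by norm_num) M).nonneg
  set δ : ℝ := 1 / 2 ^ M with hδ
  have hR : ∀ c : ℝ, |c| ≤ 1 → Dom (FF c M I - expo c M I) (δ • G) := fun c hc =>
    (dom_diff hI hc M M le_rfl).trans' (by rw [hδ]; gcongr) hGn
  have hF : ∀ c : ℝ, |c| ≤ 1 → Dom (FF c M I) G := fun c hc => dom_FF hI (by linarith) M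
  have hE : ∀ c : ℝ, |c| ≤ 1 → Dom (expo c M I) ((2 : ℝ) • G) := fun c hc => dom_expo2 hI hc M
  have e : F3 c1 c2 c3 M I - E3 c1 c2 c3 M I
      = (FF c1 M I - expo c1 M I) * FF c2 M I * FF c3 M I
        + expo c1 M I * (FF c2 M I - expo c2 M I) * FF c3 M I
        + expo c1 M I * expo c2 M I * (FF c3 M I - expo c3 M I) := by
    unfold F3 E3
    ring
  have t : (7 * δ) • F3 2 2 2 M I = (δ • G) * G * G + ((2 : ℝ) • G) * (δ • G) * G
      + ((2 : ℝ) • G) * ((2 : ℝ) • G) * (δ • G) := by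
    unfold F3
    rw [← hG]
    simp only [smul_mul_assoc, mul_smul_comm, smul_smul]
    rw [← add_smul, ← add_smul]
    congr 1
    ring
  rw [e, t]
  exact ((((hR c1 h1).mul (hF c2 h2)).mul (hF c3 h3)).add
    (((hE c1 h1).mul (hR c2 h2)).mul (hF c3 h3))).add (((hE c1 h1).mul (hE c2 h2)).mul (hR c3 h3))

lemma trunc3 {K : ℕ → ℕ → ℝ} (hK0 : ∀ a b, 0 ≤ K a b) (hI : ∀ p ∈ I, p.Prime)
    (h1 : |c1| ≤ 1) (h2 : |c2| ≤ 1) (h3 : |c3| ≤ 1) (k1 : |d1| ≤ 1) (k2 : |d2| ≤ 1) (k3 : |d3| ≤ 1)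
    (M : ℕ) :
    |BK K (E3 c1 c2 c3 M I) (E3 d1 d2 d3 M I) - BK K (F3 c1 c2 c3 M I) (F3 d1 d2 d3 M I)|
      ≤ 63 / 2 ^ M * |BK K (F3 2 2 2 M I) (F3 2 2 2 M I)| := by
  set G := F3 2 2 2 M I with hG
  set δ : ℝ := 1 / 2 ^ M with hδ
  have hδ0 : 0 ≤ δ := by positivity
  have hδ1 : δ ≤ 1 := by
    rw [hδ, div_le_one (by positivity)]
    exact one_le_pow₀ (by norm_num)
  have hdc := dom_diff3 hI h1 h2 h3 M
  have hdd := dom_diff3 hI k1 k2 k3 M
  have hFc := dom_F3 hI h1 h2 h3 M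
  have hFd := dom_F3 hI k1 k2 k3 M
  rw [← hδ, ← hG] at hdc hdd
  rw [← hG] at hFc hFd
  set A := F3 c1 c2 c3 M I with hA
  set B := F3 d1 d2 d3 M I with hB
  set R := A - E3 c1 c2 c3 M I with hR
  set R' := B - E3 d1 d2 d3 M I with hR'
  have e1 : E3 c1 c2 c3 M I = A + (-1 : ℝ) • R := by rw [hR, neg_one_smul]; abel
  have e2 : E3 d1 d2 d3 M I = B + (-1 : ℝ) • R' := by rw [hR', neg_one_smul]; abel
  have e3 : BK K (E3 c1 c2 c3 M I) (E3 d1 d2 d3 M I) - BK K A B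
      = - BK K A R' - BK K R B + BK K R R' := by
    rw [e1, e2, BK_add_left, BK_add_right, BK_add_right, BK_smul_left, BK_smul_right, BK_smul_left,
      BK_smul_right]
    ring
  set g := |BK K G G| with hg
  have hg0 : 0 ≤ g := abs_nonneg _
  have hgg : BK K G G ≤ g := le_abs_self _
  have a1 : |BK K A R'| ≤ 7 * δ * g := by
    have := abs_BK_le_of_dom hK0 hFc hdd
    rw [BK_smul_right] at this
    refine this.trans (by gcongr)
  have a2 : |BK K R B| ≤ 7 * δ * g := by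
    have := abs_BK_le_of_dom hK0 hdc hFd
    rw [BK_smul_left] at this
    refine this.trans (by gcongr)
  have a3 : |BK K R R'| ≤ 49 * δ * g := by
    have := abs_BK_le_of_dom hK0 hdc hdd
    rw [BK_smul_left, BK_smul_right] at this
    refine this.trans ?_
    calc 7 * δ * (7 * δ * BK K G G) ≤ 7 * δ * (7 * δ * g) := by gcongr
      _ = 49 * δ * g * δ := by ring
      _ ≤ 49 * δ * g * 1 := by gcongr
      _ = _ := by ring
  rw [e3]
  have h4 : |-BK K A R' - BK K R B + BK K R R'|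
      ≤ |BK K A R'| + |BK K R B| + |BK K R R'| := by
    refine (abs_add_le _ _).trans ?_
    gcongr
    refine (abs_sub _ _).trans ?_
    rw [abs_neg]
  refine h4.trans ?_
  have e5 : 63 / 2 ^ M * g = 63 * δ * g := by rw [hδ]; ring
  rw [e5]
  linarith

end trunc

/-- bound of the dominating forms on a block -/
noncomputable def E0 : ℝ := Real.exp (12 * (48 + Real.exp 12))

lemma E0_pos : 0 < E0 := Real.exp_pos _

lemma G3_bounds {L : ℕ → ℕ → ℝ} (hL : LogKer L) {I : Finset ℕ} (hI : ∀ p ∈ I, p.Prime) {M : ℕ}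
    (hM : 1 ≤ M) (hV : VV I ≤ 12) :
    |BK K2 (F3 2 2 2 M I) (F3 2 2 2 M I)| ≤ E0 ∧
    |BK L (F3 2 2 2 M I) (F3 2 2 2 M I)| ≤ 24 * Real.exp 12 * LL I * E0 := by
  have hQ : Cf 6 6 (Q3 2 2 2 M) := by
    have := cf_Q3 (c1 := 2) (c2 := 2) (c3 := 2) hM
    norm_num at this
    exact this
  obtain ⟨h1, h2⟩ := FQ_K2L hL hI hQ
  rw [← F3_eq] at h1 h2
  have hVn := VV_nonneg I
  have hV2 := V2_nonneg I
  have hV2' := V2_le_VV hI
  have hLL := LL_nonneg I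
  have h3 : Real.exp ((2 * 6 + 6 ^ 2) * VV I + Real.exp (2 * 6) * V2 I) ≤ E0 := by
    unfold E0
    apply Real.exp_le_exp.mpr
    have e : (2 : ℝ) * 6 = 12 := by norm_num
    rw [e]
    have hE := Real.exp_pos 12
    calc (12 + 6 ^ 2) * VV I + Real.exp 12 * V2 I ≤ (12 + 6 ^ 2) * 12 + Real.exp 12 * 12 := by
          gcongr
          linarith
      _ = _ := by ring
  refine ⟨h1.trans h3, h2.trans ?_⟩
  have e : (2 : ℝ) * 6 = 12 := by norm_num
  rw [e] at h3 ⊢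
  have e2 : (4 : ℝ) * 6 = 24 := by norm_num
  rw [e2]
  gcongr

lemma cone_F3 {I : Finset ℕ} (hI : ∀ p ∈ I, p.Prime) {c : ℝ} (hc : 0 ≤ c) (M : ℕ) :
    Cone (Smo I) (F3 c c c M I) :=
  ((cone_FF hI hc M).mul (cone_FF hI hc M) fun _ ha _ hb => mul_mem_Smo ha hb).mul (cone_FF hI hc M)
    fun _ ha _ hb => mul_mem_Smo ha hb

lemma G3_MK {K : ℕ → ℕ → ℝ} (hK : MK K) {I : Finset ℕ} (hI : ∀ p ∈ I, p.Prime) {M : ℕ}
    (hM : 1 ≤ M) (hV : VV I ≤ 12) : |BK K (F3 2 2 2 M I) (F3 2 2 2 M I)| ≤ E0 := by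
  have hc := cone_F3 hI (c := 2) (by norm_num) M
  rw [abs_of_nonneg (BK_nonneg hc hc hK.1)]
  exact (BK_le_K2 hK hc hc).trans ((le_abs_self _).trans (G3_bounds logKer_Kg hI hM hV).1)

end Pool.Agent.Lib.MP_f9aece_nt_h40
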