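import Mathlib
import Pool.Agent.Lib.MP_f9aece_nt_h40.FormsTwoB

/-!
Quadratic forms at products of up to three truncated exponentials: truncated blocks.
-/

set_option autoImplicit false

namespace Pool.Agent.Lib.MP_f9aece_nt_h40

open MeasureTheory Set Filter Topology Complex
open Pool.Agent.Lib.MP_f9aece_nt
open Pool.Agent.Lib.MP_f9aece_nt_h97

/-- constant for the squared reciprocals -/
noncomputable def E6 : ℝ := Real.exp 6

lemma E6_pos : 0 < E6 := Real.exp_pos _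

/-- truncation constant -/
noncomputable def C6 : ℝ := 126 * E0 * Real.exp (12 * (E6 + 2))

lemma C6_pos : 0 < C6 := by unfold C6; have := E0_pos; positivity

/-- error of a block -/
noncomputable def ta (M : ℕ) : ℝ := C6 / 2 ^ M

lemma ta_pos (M : ℕ) : 0 < ta M := by unfold ta; have := C6_pos; positivity

section blocks

variable {I : Finset ℕ} {c1 c2 c3 d1 d2 d3 : ℝ} {M : ℕ}

lemma cf3 (hM : 1 ≤ M) (h1 : |c1| ≤ 1) (h2 : |c2| ≤ 1) (h3 : |c3| ≤ 1) :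
    Cf 3 (c1 + c2 + c3) (Q3 c1 c2 c3 M) :=
  (cf_Q3 hM).mono (by linarith)

lemma small_le {x : ℝ} (hx : -12 * (E6 + 2) ≤ x) :
    63 / 2 ^ M * E0 ≤ Real.exp x * (ta M / 2) := by
  have h1 : 1 ≤ Real.exp x * Real.exp (12 * (E6 + 2)) := by
    rw [← Real.exp_add]
    exact Real.one_le_exp (by linarith)
  have h0 := E0_pos
  unfold ta C6
  calc 63 / 2 ^ M * E0 = 63 / 2 ^ M * E0 * 1 := by ring
    _ ≤ 63 / 2 ^ M * E0 * (Real.exp x * Real.exp (12 * (E6 + 2))) := by gcongr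
    _ = _ := by ring

/-- two-sided bound of a multiplicative form at a block -/
lemma block_two {K : ℕ → ℕ → ℝ} (hK : MK K) (hI : ∀ p ∈ I, p.Prime)
    (h1 : |c1| ≤ 1) (h2 : |c2| ≤ 1) (h3 : |c3| ≤ 1) (k1 : |d1| ≤ 1) (k2 : |d2| ≤ 1) (k3 : |d3| ≤ 1)
    {κ : ℝ} (hq : ∀ p ∈ I, (E6 + 1) * (p : ℝ)⁻¹ ≤ 1 / 2) (hκ0 : 0 ≤ κ) (hκ : κ ≤ 1)
    (hloc : ∀ p ∈ I, (c1 + c2 + c3) * K p 1 + (d1 + d2 + d3) * K 1 p
      + (c1 + c2 + c3) * (d1 + d2 + d3) * K p p = κ * (p : ℝ)⁻¹)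
    (hV : VV I ≤ 12) (hM : 1 ≤ M) (hMt : ta M ≤ 1) :
    Real.exp (κ * VV I - (E6 + 2) * V2 I - ta M) ≤ BK K (E3 c1 c2 c3 M I) (E3 d1 d2 d3 M I) ∧
    BK K (E3 c1 c2 c3 M I) (E3 d1 d2 d3 M I) ≤ Real.exp (κ * VV I + E6 * V2 I + ta M) := by
  have e6 : Real.exp (3 + 3) = E6 := by unfold E6; norm_num
  obtain ⟨f1, f2⟩ := FQ_two hK hI (cf3 hM h1 h2 h3) (cf3 hM k1 k2 k3) (κ := κ)
    (by rw [e6]; exact hq) hκ0 hκ hloc
  rw [e6, ← F3_eq, ← F3_eq] at f1 f2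
  have ht := trunc3 hK.1 hI h1 h2 h3 k1 k2 k3 M
  have hG := G3_MK hK hI hM hV
  have hVn := VV_nonneg I
  have hV2 := V2_nonneg I
  have hV2' := V2_le_VV hI
  have h6 := E6_pos
  have ht' := ht.trans (mul_le_mul_of_nonneg_left hG (by positivity))
  rw [abs_le] at ht'
  have hta := ta_pos M
  have hκV : 0 ≤ κ * VV I := by positivity
  constructor
  · set X := Real.exp (κ * VV I - (E6 + 2) * V2 I) with hX
    have hXp : 0 < X := Real.exp_pos _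
    have hs : 63 / 2 ^ M * E0 ≤ X * (ta M / 2) := small_le (by nlinarith)
    have h5 : X * (1 - ta M / 2) ≤ BK K (E3 c1 c2 c3 M I) (E3 d1 d2 d3 M I) := by
      linarith [ht'.1]
    refine le_trans ?_ h5
    rw [sub_eq_add_neg (κ * VV I - (E6 + 2) * V2 I), Real.exp_add]
    refine mul_le_mul_of_nonneg_left ?_ hXp.le
    have h7 := exp_sub_two_sq_le (x := -(ta M / 2)) (by linarith)
    refine le_trans (Real.exp_le_exp.mpr ?_) (h7.trans (le_of_eq (by ring)))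
    nlinarith
  · set X := Real.exp (κ * VV I + E6 * V2 I) with hX
    have hXp : 0 < X := Real.exp_pos _
    have hs : 63 / 2 ^ M * E0 ≤ X * (ta M / 2) := small_le (by nlinarith [mul_nonneg h6.le hV2])
    rw [Real.exp_add]
    have h4 := Real.add_one_le_exp (ta M)
    calc BK K (E3 c1 c2 c3 M I) (E3 d1 d2 d3 M I) ≤ X + X * (ta M / 2) := by linarith [ht'.2]
      _ ≤ X + X * ta M := by nlinarith
      _ = X * (ta M + 1) := by ring
      _ ≤ _ := by gcongr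

/-- constant for the derivation forms -/
noncomputable def CL : ℝ := 12 * E6 + 24 * Real.exp 12

lemma CL_pos : 0 < CL := by unfold CL; have := E6_pos; positivity

/-- upper bounds for both forms at a block -/
lemma block_K2L {L : ℕ → ℕ → ℝ} (hL : LogKer L) (hI : ∀ p ∈ I, p.Prime)
    (h1 : |c1| ≤ 1) (h2 : |c2| ≤ 1) (h3 : |c3| ≤ 1) {c : ℝ} (hc : c = c1 + c2 + c3)
    (hV : VV I ≤ 12) (hM : 1 ≤ M) (hMt : ta M ≤ 1) :
    |BK K2 (E3 c1 c2 c3 M I) (E3 c1 c2 c3 M I)|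
      ≤ Real.exp ((2 * c + c ^ 2) * VV I + E6 * V2 I + ta M) ∧
    |BK L (E3 c1 c2 c3 M I) (E3 c1 c2 c3 M I)|
      ≤ CL * LL I * Real.exp ((2 * c + c ^ 2) * VV I + E6 * V2 I + ta M) := by
  have e6 : Real.exp (2 * 3) = E6 := by unfold E6; norm_num
  obtain ⟨f1, f2⟩ := FQ_K2L hL hI (cf3 hM h1 h2 h3)
  rw [e6, ← F3_eq, ← hc] at f1 f2
  have t1 := trunc3 K2_nonneg hI h1 h2 h3 h1 h2 h3 M
  have t2 := trunc3 hL.nonneg hI h1 h2 h3 h1 h2 h3 M
  obtain ⟨g1, g2⟩ := G3_bounds hL hI hM hV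
  have hVn := VV_nonneg I
  have hV2 := V2_nonneg I
  have hLL := LL_nonneg I
  have h6 := E6_pos
  have hta := ta_pos M
  have hc1 : -1 ≤ 2 * c + c ^ 2 := by nlinarith [sq_nonneg (c + 1)]
  set X := Real.exp ((2 * c + c ^ 2) * VV I + E6 * V2 I) with hX
  have hXp : 0 < X := Real.exp_pos _
  have hs : 63 / 2 ^ M * E0 ≤ X * (ta M / 2) := small_le (by nlinarith [mul_nonneg h6.le hV2])
  rw [Real.exp_add]
  have h4 := Real.add_one_le_exp (ta M)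
  constructor
  · have t3 := abs_sub_abs_le_abs_sub (BK K2 (E3 c1 c2 c3 M I) (E3 c1 c2 c3 M I))
      (BK K2 (F3 c1 c2 c3 M I) (F3 c1 c2 c3 M I))
    have t4 : 63 / 2 ^ M * |BK K2 (F3 2 2 2 M I) (F3 2 2 2 M I)| ≤ 63 / 2 ^ M * E0 := by gcongr
    calc |BK K2 (E3 c1 c2 c3 M I) (E3 c1 c2 c3 M I)| ≤ X + X * (ta M / 2) := by linarith
      _ ≤ X + X * ta M := by nlinarith
      _ = X * (ta M + 1) := by ring
      _ ≤ _ := by gcongr
  · have t3 := abs_sub_abs_le_abs_sub (BK L (E3 c1 c2 c3 M I) (E3 c1 c2 c3 M I))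
      (BK L (F3 c1 c2 c3 M I) (F3 c1 c2 c3 M I))
    have t4 : 63 / 2 ^ M * |BK L (F3 2 2 2 M I) (F3 2 2 2 M I)|
        ≤ 24 * Real.exp 12 * LL I * (63 / 2 ^ M * E0) := by
      calc 63 / 2 ^ M * |BK L (F3 2 2 2 M I) (F3 2 2 2 M I)|
          ≤ 63 / 2 ^ M * (24 * Real.exp 12 * LL I * E0) := by gcongr
        _ = _ := by ring
    have t5 : 24 * Real.exp 12 * LL I * (63 / 2 ^ M * E0)
        ≤ 24 * Real.exp 12 * LL I * (X * (1 / 2)) := by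
      have : X * (ta M / 2) ≤ X * (1 / 2) := by gcongr
      exact mul_le_mul_of_nonneg_left (hs.trans this) (by positivity)
    have t6 : 4 * 3 * E6 * LL I * X = 12 * E6 * LL I * X := by ring
    rw [t6] at f2
    have hE : 1 ≤ Real.exp (ta M) := Real.one_le_exp hta.le
    have hLX : 0 ≤ LL I * X := by positivity
    calc |BK L (E3 c1 c2 c3 M I) (E3 c1 c2 c3 M I)|
        ≤ 12 * E6 * LL I * X + 24 * Real.exp 12 * LL I * (X * (1 / 2)) := by linarith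
      _ ≤ CL * LL I * (X * 1) := by
          unfold CL
          have : 0 ≤ Real.exp 12 * (LL I * X) := by positivity
          nlinarith
      _ ≤ _ := by
          have := CL_pos
          gcongr

end blocks

lemma logKer_KL : LogKer KL where
  nonneg := KL_nonneg
  le := fun a b ha hb => KL_le ha hb
  one := by simp [KL_eq]
  mul := by
    intro A B hAB a ha a' ha' b hb b' hb'
    exact KL_mul hAB ha ha' hb hb'

section scales

variable {m p0 J : ℕ} {Y : ℝ} {c1 c2 c3 d1 d2 d3 : ℝ}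

lemma expo_zero (M : ℕ) (I : Finset ℕ) : expo 0 M I = 1 := by
  unfold expo
  rw [Finset.sum_range_succ']
  have : ∀ r ∈ Finset.range M, ((0 : ℝ) ^ (r + 1) / ((r + 1).factorial : ℝ)) • PP I ^ (r + 1) = 0 := by
    intro r _
    simp
  rw [Finset.sum_eq_zero this]
  simp

lemma DD_zero (m p0 : ℕ) (Y : ℝ) (J : ℕ) : DD m p0 0 Y J = 1 := by
  unfold DD
  exact Finset.prod_eq_one fun j _ => expo_zero _ _

lemma DD3_eq : DD m p0 c1 Y J * DD m p0 c2 Y J * DD m p0 c3 Y J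
    = ∏ j ∈ Finset.range J, E3 c1 c2 c3 (Mm m j) (sc Y p0 j) := by
  unfold DD E3
  rw [Finset.prod_mul_distrib, Finset.prod_mul_distrib]

lemma sup_E3 {I : Finset ℕ} (hI : ∀ p ∈ I, p.Prime) (c1 c2 c3 : ℝ) (M : ℕ) :
    Sup (Smo I) (E3 c1 c2 c3 M I) :=
  ((sup_expo hI c1 M).mul (sup_expo hI c2 M) fun _ ha _ hb => mul_mem_Smo ha hb).mul
    (sup_expo hI c3 M) fun _ ha _ hb => mul_mem_Smo ha hb

lemma ta_Mm_le {m : ℕ} (hm : 1 ≤ m) (j : ℕ) : ta (Mm m j) ≤ 2 * C6 / 2 ^ m * (1 / 2) ^ (j + 1) := by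
  have hC := C6_pos
  unfold ta Mm
  have h1 : m + j ≤ m * 2 ^ j := by
    have h2 : j + 1 ≤ 2 ^ j := Nat.lt_two_pow_self
    calc m + j ≤ m + m * j := by
          have : j ≤ m * j := Nat.le_mul_of_pos_left j hm
          omega
      _ = m * (j + 1) := by ring
      _ ≤ _ := Nat.mul_le_mul_left m h2
  have h3 : (2 : ℝ) ^ (m + j) ≤ 2 ^ (m * 2 ^ j) := pow_le_pow_right₀ (by norm_num) h1
  calc C6 / 2 ^ (m * 2 ^ j) ≤ C6 / 2 ^ (m + j) := by gcongr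
    _ = _ := by
        rw [pow_add 2 m j, one_div, inv_pow, pow_succ]
        field_simp

lemma sum_ta_le {m : ℕ} (hm : 1 ≤ m) (J : ℕ) :
    ∑ j ∈ Finset.range J, ta (Mm m j) ≤ 2 * C6 / 2 ^ m := by
  have hC := C6_pos
  calc ∑ j ∈ Finset.range J, ta (Mm m j) ≤ ∑ j ∈ Finset.range J, 2 * C6 / 2 ^ m * (1 / 2) ^ (j + 1) :=
        Finset.sum_le_sum fun j _ => ta_Mm_le hm j
    _ = 2 * C6 / 2 ^ m * ∑ j ∈ Finset.range J, (1 / 2 : ℝ) ^ (j + 1) := by rw [Finset.mul_sum]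
    _ ≤ 2 * C6 / 2 ^ m * 1 := by
        have := sum_half_le J
        gcongr
    _ = _ := mul_one _

lemma ta_Mm_le_one {m : ℕ} (hm : 1 ≤ m) (hm2 : 2 * C6 / 2 ^ m ≤ 1) (j : ℕ) : ta (Mm m j) ≤ 1 := by
  refine (ta_Mm_le hm j).trans ?_
  have hC := C6_pos
  have h2 : (1 / 2 : ℝ) ^ (j + 1) ≤ 1 := pow_le_one₀ (by norm_num) (by norm_num)
  calc 2 * C6 / 2 ^ m * (1 / 2) ^ (j + 1) ≤ 1 * 1 := by gcongr
    _ = 1 := by ring

lemma Mm_pos' (hm : 1 ≤ m) (j : ℕ) : 1 ≤ Mm m j := by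
  unfold Mm
  exact Nat.mul_pos hm (by positivity)

lemma sc_small (hp0 : 2 * (E6 + 1) ≤ p0) (j : ℕ) : ∀ p ∈ sc Y p0 j, (E6 + 1) * (p : ℝ)⁻¹ ≤ 1 / 2 := by
  intro p hp
  have h1 : p0 < p := (mem_sc.mp hp).2.2.1
  have h2 : (p0 : ℝ) ≤ p := by exact_mod_cast h1.le
  have h3 := E6_pos
  have hp' : (0 : ℝ) < p := by linarith
  rw [mul_inv_le_iff₀ hp']
  linarith

/-- total error -/
noncomputable def er (m p0 : ℕ) : ℝ := (E6 + 2) / p0 + 2 * C6 / 2 ^ m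

/-- two-sided bound of a multiplicative form at the product over all scales -/
lemma DD3_two {K : ℕ → ℕ → ℝ} (hK : MK K) (hY : 0 < Y)
    (h1 : |c1| ≤ 1) (h2 : |c2| ≤ 1) (h3 : |c3| ≤ 1) (k1 : |d1| ≤ 1) (k2 : |d2| ≤ 1) (k3 : |d3| ≤ 1)
    {κ : ℝ} (hκ0 : 0 ≤ κ) (hκ : κ ≤ 1)
    (hloc : ∀ p : ℕ, p.Prime → (c1 + c2 + c3) * K p 1 + (d1 + d2 + d3) * K 1 p
      + (c1 + c2 + c3) * (d1 + d2 + d3) * K p p = κ * (p : ℝ)⁻¹)
    (hm : 1 ≤ m) (hm2 : 2 * C6 / 2 ^ m ≤ 1) (hp0 : 2 * (E6 + 1) ≤ p0) :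
    Real.exp (κ * ∑ j ∈ Finset.range J, VV (sc Y p0 j) - er m p0)
      ≤ BK K (DD m p0 c1 Y J * DD m p0 c2 Y J * DD m p0 c3 Y J)
        (DD m p0 d1 Y J * DD m p0 d2 Y J * DD m p0 d3 Y J) ∧
    BK K (DD m p0 c1 Y J * DD m p0 c2 Y J * DD m p0 c3 Y J)
        (DD m p0 d1 Y J * DD m p0 d2 Y J * DD m p0 d3 Y J)
      ≤ Real.exp (κ * ∑ j ∈ Finset.range J, VV (sc Y p0 j) + er m p0) := by
  have h6 := E6_pos
  have hp1 : 1 ≤ p0 := by
    have : (1 : ℝ) ≤ p0 := by linarith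
    exact_mod_cast this
  rw [DD3_eq, DD3_eq, BK_prod_MK hK (Finset.range J) (sc Y p0) (fun _ _ _ _ h => sc_disjoint hY h)
    _ _ (fun j _ => sup_E3 (fun p hp => sc_prime hp) _ _ _ _)
    (fun j _ => sup_E3 (fun p hp => sc_prime hp) _ _ _ _)]
  have key := fun j : ℕ => block_two hK (I := sc Y p0 j) (fun p hp => sc_prime hp) h1 h2 h3 k1 k2 k3
    (sc_small hp0 j) hκ0 hκ (fun p hp => hloc p (sc_prime hp)) (VV_sc_le hY p0 j) (Mm_pos' hm j)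
    (ta_Mm_le_one hm hm2 j)
  have hV2 := sum_sq_sc_le hY hp1 J
  have hta := sum_ta_le hm J
  have hV2' : ∑ j ∈ Finset.range J, V2 (sc Y p0 j) ≤ 1 / p0 := hV2
  have hp0' : (0 : ℝ) < p0 := by exact_mod_cast hp1
  have hS : 0 ≤ ∑ j ∈ Finset.range J, V2 (sc Y p0 j) := Finset.sum_nonneg fun j _ => V2_nonneg _
  have e1 : (E6 + 2) * ∑ j ∈ Finset.range J, V2 (sc Y p0 j) ≤ (E6 + 2) / p0 := by
    calc (E6 + 2) * ∑ j ∈ Finset.range J, V2 (sc Y p0 j) ≤ (E6 + 2) * (1 / p0) := by gcongr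
      _ = _ := by ring
  constructor
  · refine le_trans ?_ (Finset.prod_le_prod (fun j _ => (Real.exp_pos _).le) fun j _ => (key j).1)
    rw [← Real.exp_sum, Finset.sum_sub_distrib, Finset.sum_sub_distrib, ← Finset.mul_sum,
      ← Finset.mul_sum]
    apply Real.exp_le_exp.mpr
    unfold er
    linarith
  · refine (Finset.prod_le_prod (fun j _ => (Real.exp_pos _).le.trans (key j).1)
      fun j _ => (key j).2).trans ?_
    rw [← Real.exp_sum, Finset.sum_add_distrib, Finset.sum_add_distrib, ← Finset.mul_sum,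
      ← Finset.mul_sum]
    apply Real.exp_le_exp.mpr
    unfold er
    have e2 : E6 * ∑ j ∈ Finset.range J, V2 (sc Y p0 j) ≤ (E6 + 2) * ∑ j ∈ Finset.range J, V2 (sc Y p0 j) := by
      gcongr
      linarith
    linarith

/-- upper bounds for `K2` and a derivation form at the product over all scales -/
lemma DD3_K2L {L : ℕ → ℕ → ℝ} (hL : LogKer L) (hY : 0 < Y)
    (h1 : |c1| ≤ 1) (h2 : |c2| ≤ 1) (h3 : |c3| ≤ 1) {c : ℝ} (hc : c = c1 + c2 + c3)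
    (hm : 1 ≤ m) (hm2 : 2 * C6 / 2 ^ m ≤ 1) (hp0 : 1 ≤ p0) :
    |BK K2 (DD m p0 c1 Y J * DD m p0 c2 Y J * DD m p0 c3 Y J)
        (DD m p0 c1 Y J * DD m p0 c2 Y J * DD m p0 c3 Y J)|
      ≤ Real.exp ((2 * c + c ^ 2) * ∑ j ∈ Finset.range J, VV (sc Y p0 j) + er m p0) ∧
    |BK L (DD m p0 c1 Y J * DD m p0 c2 Y J * DD m p0 c3 Y J)
        (DD m p0 c1 Y J * DD m p0 c2 Y J * DD m p0 c3 Y J)|
      ≤ CL * (Y + 2) * Real.exp ((2 * c + c ^ 2) * ∑ j ∈ Finset.range J, VV (sc Y p0 j) + er m p0) := by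
  have h6 := E6_pos
  have hCL := CL_pos
  rw [DD3_eq]
  obtain ⟨a1, a2⟩ := prod_boundsL hL (Finset.range J) (sc Y p0)
    (fun _ _ _ _ h => sc_disjoint hY h) (fun j => E3 c1 c2 c3 (Mm m j) (sc Y p0 j))
    (fun j _ => sup_E3 (fun p hp => sc_prime hp) _ _ _ _)
    (fun j => Real.exp ((2 * c + c ^ 2) * VV (sc Y p0 j) + E6 * V2 (sc Y p0 j) + ta (Mm m j)))
    (fun j => CL * LL (sc Y p0 j)) (fun j _ => (Real.exp_pos _).le)
    (fun j _ => mul_nonneg hCL.le (LL_nonneg _))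
    (fun j _ => (block_K2L hL (fun p hp => sc_prime hp) h1 h2 h3 hc (VV_sc_le hY p0 j) (Mm_pos' hm j)
      (ta_Mm_le_one hm hm2 j)).1)
    (fun j _ => (block_K2L hL (fun p hp => sc_prime hp) h1 h2 h3 hc (VV_sc_le hY p0 j) (Mm_pos' hm j)
      (ta_Mm_le_one hm hm2 j)).2)
  have hV2' : ∑ j ∈ Finset.range J, V2 (sc Y p0 j) ≤ 1 / p0 := sum_sq_sc_le hY hp0 J
  have hta := sum_ta_le hm J
  have hp0' : (0 : ℝ) < p0 := by exact_mod_cast hp0
  have hP : ∏ j ∈ Finset.range J, Real.exp ((2 * c + c ^ 2) * VV (sc Y p0 j) + E6 * V2 (sc Y p0 j)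
      + ta (Mm m j)) ≤ Real.exp ((2 * c + c ^ 2) * ∑ j ∈ Finset.range J, VV (sc Y p0 j) + er m p0) := by
    rw [← Real.exp_sum, Finset.sum_add_distrib, Finset.sum_add_distrib, ← Finset.mul_sum,
      ← Finset.mul_sum]
    apply Real.exp_le_exp.mpr
    have e1 : E6 * ∑ j ∈ Finset.range J, V2 (sc Y p0 j) ≤ (E6 + 2) / p0 := by
      calc E6 * ∑ j ∈ Finset.range J, V2 (sc Y p0 j) ≤ E6 * (1 / p0) := by gcongr
        _ ≤ (E6 + 2) * (1 / p0) := by gcongr; linarith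
        _ = _ := by ring
    unfold er
    linarith
  have hP0 : 0 ≤ ∏ j ∈ Finset.range J, Real.exp ((2 * c + c ^ 2) * VV (sc Y p0 j) + E6 * V2 (sc Y p0 j)
      + ta (Mm m j)) := Finset.prod_nonneg fun j _ => (Real.exp_pos _).le
  refine ⟨a1.trans hP, a2.trans ?_⟩
  have hs : ∑ j ∈ Finset.range J, CL * LL (sc Y p0 j) ≤ CL * (Y + 2) := by
    rw [← Finset.mul_sum]
    have := sum_LL_sc_le hY p0 J
    gcongr
  gcongr

end scales

end Pool.Agent.Lib.MP_f9aece_nt_h40
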