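import Mathlib
import Pool.Agent.Lib.MP_f9aece_nt_h40.FormsTwoC

/-!
The indicator polynomial of the integers composed of primes of a block with few prime factors.
-/

set_option autoImplicit false

namespace Pool.Agent.Lib.MP_f9aece_nt_h40

open MeasureTheory Set Filter Topology Complex
open Pool.Agent.Lib.MP_f9aece_nt
open Pool.Agent.Lib.MP_f9aece_nt_h97
open scoped ArithmeticFunction.Omega

lemma le_prod_pow {I : Finset ℕ} (hI : ∀ p ∈ I, p.Prime) {n M : ℕ} (hn : n ∈ Smo (I : Set ℕ))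
    (hO : Ω n ≤ M) : n ≤ (∏ p ∈ I, p) ^ M := by
  set P := ∏ p ∈ I, p with hP
  have hP1 : 1 ≤ P := Finset.prod_pos fun p hp => (hI p hp).pos
  have hle : ∀ p ∈ (I : Set ℕ), Real.log p ≤ Real.log P := by
    intro p hp
    apply Real.log_le_log (by exact_mod_cast (hI p hp).pos)
    exact_mod_cast Finset.single_le_prod' (f := fun p => p) (fun q hq => (hI q hq).one_le) hp
  have h1 := log_le_of_Omega hle (Real.log_natCast_nonneg _) hn hO
  have hn0 : (0 : ℝ) < n := by exact_mod_cast Nat.pos_of_ne_zero hn.1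
  have hP0 : (0 : ℝ) < P := by exact_mod_cast hP1
  have h2 : Real.log n ≤ Real.log (P ^ M : ℝ) := by
    rw [Real.log_pow]; exact h1
  rw [Real.log_le_log_iff hn0 (by positivity)] at h2
  exact_mod_cast h2

open Classical in
/-- integers composed of primes of `I` with at most `M` prime factors -/
noncomputable def indS (M : ℕ) (I : Finset ℕ) : Finset ℕ :=
  (Finset.Icc 1 ((∏ p ∈ I, p) ^ M)).filter (fun n => n ∈ Smo (I : Set ℕ) ∧ Ω n ≤ M)

lemma mem_indS {I : Finset ℕ} (hI : ∀ p ∈ I, p.Prime) {M n : ℕ} :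
    n ∈ indS M I ↔ n ∈ Smo (I : Set ℕ) ∧ Ω n ≤ M := by
  classical
  unfold indS
  rw [Finset.mem_filter, Finset.mem_Icc]
  constructor
  · exact fun h => h.2
  · exact fun h => ⟨⟨Smo_pos h.1, le_prod_pow hI h.1 h.2⟩, h⟩

/-- indicator polynomial -/
noncomputable def ind (M : ℕ) (I : Finset ℕ) : DP := ∑ n ∈ indS M I, MonoidAlgebra.single n 1

lemma pair_ind (φ : ℕ → ℝ) (M : ℕ) (I : Finset ℕ) : pair φ (ind M I) = ∑ n ∈ indS M I, φ n := by
  unfold ind
  rw [pair_sum]
  simp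

lemma coeff_ind (M : ℕ) (I : Finset ℕ) (n : ℕ) :
    (ind M I).coeff n = if n ∈ indS M I then 1 else 0 := by
  rw [coeff_eq_pair, pair_ind]
  simp

lemma cone_ind {I : Finset ℕ} (hI : ∀ p ∈ I, p.Prime) (M : ℕ) :
    Cone {n | n ∈ Smo (I : Set ℕ) ∧ Ω n ≤ M} (ind M I) := by
  unfold ind
  refine Cone.sum _ fun n hn => Cone.single ?_ zero_le_one
  rwa [mem_indS hI] at hn

/-- truncated sum of reciprocals -/
noncomputable def TK (K : ℕ) (I : Finset ℕ) : ℝ := ∑ n ∈ indS K I, (n : ℝ)⁻¹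

/-- Euler product -/
noncomputable def WW (t : ℝ) (I : Finset ℕ) : ℝ := ∏ p ∈ I, (1 - t * (p : ℝ)⁻¹)⁻¹

/-- the recursion of the truncated sums -/
lemma TK_insert {I : Finset ℕ} {p : ℕ} (hp : p ∉ I) (hI : ∀ q ∈ insert p I, q.Prime) (K : ℕ) :
    TK (K + 1) (insert p I) = TK (K + 1) I + (p : ℝ)⁻¹ * TK K (insert p I) := by
  classical
  have hpp : p.Prime := hI p (Finset.mem_insert_self _ _)
  have hI' : ∀ q ∈ I, q.Prime := fun q hq => hI q (Finset.mem_insert_of_mem hq)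
  unfold TK
  rw [← Finset.sum_filter_add_sum_filter_not (indS (K + 1) (insert p I)) (fun n => ¬ p ∣ n)]
  congr 1
  · refine Finset.sum_congr ?_ fun _ _ => rfl
    ext n
    rw [Finset.mem_filter, mem_indS hI, mem_indS hI']
    constructor
    · rintro ⟨⟨h1, h2⟩, h3⟩
      refine ⟨⟨h1.1, fun q hq hqn => ?_⟩, h2⟩
      have := h1.2 q hq hqn
      rw [Finset.mem_coe, Finset.mem_insert] at this
      rcases this with h | h
      · exact absurd (h ▸ hqn) h3
      · exact h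
    · rintro ⟨h1, h2⟩
      refine ⟨⟨Smo_mono ?_ h1, h2⟩, fun h => hp (h1.2 p hpp h)⟩
      intro q hq
      exact Finset.mem_coe.2 (Finset.mem_insert_of_mem hq)
  · rw [Finset.mul_sum]
    symm
    refine Finset.sum_bij (fun n _ => p * n) ?_ ?_ ?_ ?_
    · intro n hn
      rw [mem_indS hI] at hn
      rw [Finset.mem_filter, mem_indS hI, not_not]
      refine ⟨⟨mul_mem_Smo (prime_mem_Smo hpp (by simp)) hn.1, ?_⟩, dvd_mul_right _ _⟩
      rw [ArithmeticFunction.cardFactors_mul hpp.ne_zero hn.1.1,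
        ArithmeticFunction.cardFactors_apply_prime hpp]
      have := hn.2
      omega
    · intro a _ b _ h
      exact Nat.eq_of_mul_eq_mul_left hpp.pos h
    · intro n hn
      rw [Finset.mem_filter, mem_indS hI, not_not] at hn
      obtain ⟨⟨h1, h2⟩, c, rfl⟩ := hn
      have hc : c ≠ 0 := right_ne_zero_of_mul h1.1
      refine ⟨c, ?_, rfl⟩
      rw [mem_indS hI]
      refine ⟨⟨hc, fun q hq hqc => h1.2 q hq (hqc.mul_left p)⟩, ?_⟩
      rw [ArithmeticFunction.cardFactors_mul hpp.ne_zero hc,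
        ArithmeticFunction.cardFactors_apply_prime hpp] at h2
      omega
    · intro n _
      push_cast
      rw [mul_inv]

lemma indS_empty (K : ℕ) : indS K ∅ = {1} := by
  ext n
  rw [mem_indS (by simp), Finset.mem_singleton]
  constructor
  · rintro ⟨h1, _⟩
    by_contra hn
    obtain ⟨q, hq, hqn⟩ := Nat.exists_prime_and_dvd hn
    have := h1.2 q hq hqn
    simp at this
  · rintro rfl
    exact ⟨one_mem_Smo _, by simp⟩

lemma indS_zero {I : Finset ℕ} (hI : ∀ p ∈ I, p.Prime) : indS 0 I = {1} := by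
  ext n
  rw [mem_indS hI, Finset.mem_singleton]
  constructor
  · rintro ⟨h1, h2⟩
    have h3 : Ω n = 0 := by omega
    rw [ArithmeticFunction.cardFactors_eq_zero_iff_eq_zero_or_one] at h3
    rcases h3 with h | h
    · exact absurd h h1.1
    · exact h
  · rintro rfl
    exact ⟨one_mem_Smo _, by simp⟩

lemma one_le_TK {I : Finset ℕ} (hI : ∀ p ∈ I, p.Prime) (K : ℕ) : 1 ≤ TK K I := by
  have h1 : 1 ∈ indS K I := (mem_indS hI).2 ⟨one_mem_Smo _, by simp⟩
  unfold TK
  calc (1 : ℝ) = ((1 : ℕ) : ℝ)⁻¹ := by simp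
    _ ≤ _ := Finset.single_le_sum (f := fun n : ℕ => (n : ℝ)⁻¹) (fun n _ => by positivity) h1

section euler

variable {I : Finset ℕ} {t : ℝ}

lemma WW_factor_pos {p : ℕ} (hp : 2 * t ≤ p) (hp0 : 0 < p) : 1 / 2 ≤ 1 - t * (p : ℝ)⁻¹ := by
  have hp' : (0 : ℝ) < p := by exact_mod_cast hp0
  have : t * (p : ℝ)⁻¹ ≤ 1 / 2 := by
    rw [mul_inv_le_iff₀ hp']
    linarith
  linarith

lemma one_le_WW (ht0 : 0 ≤ t) (hI : ∀ p ∈ I, p.Prime) (hp : ∀ p ∈ I, 2 * t ≤ (p : ℝ)) : 1 ≤ WW t I := by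
  unfold WW
  have h0 : ∏ _p ∈ I, (1 : ℝ) ≤ ∏ p ∈ I, (1 - t * (p : ℝ)⁻¹)⁻¹ := by
    refine Finset.prod_le_prod (fun _ _ => zero_le_one) fun p hpI => ?_
    have h1 := WW_factor_pos (hp p hpI) (hI p hpI).pos
    have h2 : 0 ≤ t * (p : ℝ)⁻¹ := by positivity
    rw [one_le_inv₀ (by linarith)]
    linarith
  rwa [Finset.prod_const_one] at h0

lemma WW_mono (hI : ∀ p ∈ I, p.Prime) (hp : ∀ p ∈ I, (4 : ℝ) ≤ (p : ℝ)) : WW 1 I ≤ WW 2 I := by
  unfold WW
  refine Finset.prod_le_prod (fun p hpI => ?_) fun p hpI => ?_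
  · have h1 := WW_factor_pos (t := 1) (p := p) (by linarith [hp p hpI]) (hI p hpI).pos
    exact inv_nonneg.2 (by linarith)
  · have h1 := WW_factor_pos (t := 2) (p := p) (by linarith [hp p hpI]) (hI p hpI).pos
    have h2 : 0 ≤ (p : ℝ)⁻¹ := by positivity
    exact inv_anti₀ (by linarith) (by linarith)

lemma WW_le_exp (ht0 : 0 ≤ t) (hI : ∀ p ∈ I, p.Prime) (hp : ∀ p ∈ I, 2 * t ≤ (p : ℝ)) :
    WW t I ≤ Real.exp (2 * t * VV I) := by
  unfold WW VV
  rw [Finset.mul_sum, Real.exp_sum]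
  refine Finset.prod_le_prod (fun p hpI => ?_) fun p hpI => ?_
  · have h1 := WW_factor_pos (hp p hpI) (hI p hpI).pos
    exact inv_nonneg.2 (by linarith)
  · have h1 := WW_factor_pos (hp p hpI) (hI p hpI).pos
    have h2 : 0 ≤ t * (p : ℝ)⁻¹ := by positivity
    have h3 := Real.add_one_le_exp (2 * t * (p : ℝ)⁻¹)
    refine le_trans ?_ h3
    rw [inv_le_iff_one_le_mul₀ (by linarith)]
    nlinarith

lemma WW_insert {p : ℕ} (hp : p ∉ I) : WW t (insert p I) = (1 - t * (p : ℝ)⁻¹)⁻¹ * WW t I := by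
  unfold WW
  rw [Finset.prod_insert hp]

/-- tail of the Euler product -/
lemma WW_sub_TK (hI : ∀ p ∈ I, p.Prime) (hp : ∀ p ∈ I, (4 : ℝ) ≤ (p : ℝ)) :
    ∀ K : ℕ, 0 ≤ WW 1 I - TK K I ∧ WW 1 I - TK K I ≤ WW 2 I / 2 ^ K := by
  classical
  induction I using Finset.induction_on with
  | empty =>
    intro K
    have h1 : TK K ∅ = 1 := by unfold TK; rw [indS_empty]; simp
    have h2 : ∀ t : ℝ, WW t ∅ = 1 := fun t => by unfold WW; simp
    rw [h1, h2, h2]
    constructor
    · simp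
    · simp
  | insert p I hpI ih =>
    have hI' : ∀ q ∈ I, q.Prime := fun q hq => hI q (Finset.mem_insert_of_mem hq)
    have hp' : ∀ q ∈ I, (4 : ℝ) ≤ (q : ℝ) := fun q hq => hp q (Finset.mem_insert_of_mem hq)
    have hpp : p.Prime := hI p (Finset.mem_insert_self _ _)
    have hp4 : (4 : ℝ) ≤ p := hp p (Finset.mem_insert_self _ _)
    have ih' := ih hI' hp'
    have f1 := WW_factor_pos (t := 1) (p := p) (by linarith) hpp.pos
    have f2 := WW_factor_pos (t := 2) (p := p) (by linarith) hpp.pos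
    have w1 : (1 - 1 * (p : ℝ)⁻¹) * WW 1 (insert p I) = WW 1 I := by
      rw [WW_insert hpI, ← mul_assoc, mul_inv_cancel₀ (by linarith), one_mul]
    have w2 : (1 - 2 * (p : ℝ)⁻¹) * WW 2 (insert p I) = WW 2 I := by
      rw [WW_insert hpI, ← mul_assoc, mul_inv_cancel₀ (by linarith), one_mul]
    have hW1 := one_le_WW (t := 1) zero_le_one hI (fun q hq => by linarith [hp q hq])
    have hmono := WW_mono hI hp
    have hq0 : 0 < (p : ℝ)⁻¹ := by positivity
    intro K
    induction K with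
    | zero =>
      have h1 : TK 0 (insert p I) = 1 := by unfold TK; rw [indS_zero hI]; simp
      rw [h1, pow_zero, div_one]
      constructor
      · linarith
      · linarith
    | succ K ihK =>
      rw [TK_insert hpI hI]
      obtain ⟨a1, a2⟩ := ih' (K + 1)
      obtain ⟨b1, b2⟩ := ihK
      have e : WW 1 (insert p I) - (TK (K + 1) I + (p : ℝ)⁻¹ * TK K (insert p I))
          = (WW 1 I - TK (K + 1) I) + (p : ℝ)⁻¹ * (WW 1 (insert p I) - TK K (insert p I)) := by
        rw [← w1]; ring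
      rw [e]
      constructor
      · positivity
      · have e2 : WW 2 (insert p I) / 2 ^ (K + 1)
            = WW 2 I / 2 ^ (K + 1) + (p : ℝ)⁻¹ * (WW 2 (insert p I) / 2 ^ K) := by
          rw [← w2, pow_succ]
          field_simp
          ring
        rw [e2]
        gcongr

end euler

end Pool.Agent.Lib.MP_f9aece_nt_h40
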