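import Mathlib
import Pool.Agent.Lib.MP_f9aece_nt_h40.RightA

/-!
The comparison of the cross form, the diagonal form and the `lcm` form at a block.
-/

set_option autoImplicit false

namespace Pool.Agent.Lib.MP_f9aece_nt_h40

open MeasureTheory Set Filter Topology Complex
open Pool.Agent.Lib.MP_f9aece_nt
open Pool.Agent.Lib.MP_f9aece_nt_h97
open scoped ArithmeticFunction.Omega

lemma BK_swap (K : ℕ → ℕ → ℝ) (f g : DP) : BK K f g = pair (fun b => pair (fun a => K a b) f) g := by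
  unfold BK
  simp only [pair_def, Finset.mul_sum]
  rw [Finset.sum_comm]
  exact Finset.sum_congr rfl fun b _ => Finset.sum_congr rfl fun a _ => by ring

lemma pair_sum_fun {ι : Type} (s : Finset ι) (φ : ι → ℕ → ℝ) (f : DP) :
    pair (fun a => ∑ i ∈ s, φ i a) f = ∑ i ∈ s, pair (φ i) f := by
  simp only [pair_def, Finset.mul_sum]
  rw [Finset.sum_comm]

lemma BK_sum_fun {ι : Type} (s : Finset ι) (K : ι → ℕ → ℕ → ℝ) (f g : DP) :
    BK (fun a b => ∑ i ∈ s, K i a b) f g = ∑ i ∈ s, BK (K i) f g := by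
  unfold BK
  simp only [pair_sum_fun]

lemma sum_le_pair {A : Set ℕ} {f : DP} (hf : Cone A f) {φ : ℕ → ℝ} (hφ : ∀ a, 0 ≤ φ a) (S : Finset ℕ) :
    ∑ B ∈ S, f.coeff B * φ B ≤ pair φ f := by
  classical
  rw [pair_def]
  have h1 : ∑ B ∈ S, f.coeff B * φ B ≤ ∑ B ∈ S ∪ f.coeff.support, f.coeff B * φ B :=
    Finset.sum_le_sum_of_subset_of_nonneg Finset.subset_union_left fun B _ _ =>
      mul_nonneg (hf B).1 (hφ B)
  refine h1.trans (le_of_eq ?_)
  symm
  refine Finset.sum_subset Finset.subset_union_right fun B _ hB => ?_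
  rw [Finsupp.notMem_support_iff] at hB
  rw [hB, zero_mul]

/-- the divisor sum of the coefficients -/
noncomputable def uu (n : DP) (B : ℕ) : ℝ := pair (fun a => if a ∣ B then 1 else 0) n

lemma uu_nonneg {A : Set ℕ} {n : DP} (hn : Cone A n) (B : ℕ) : 0 ≤ uu n B :=
  pair_nonneg hn fun a _ => by split_ifs <;> simp

section block

variable {I : Finset ℕ} (hI : ∀ p ∈ I, p.Prime) {M : ℕ} {n : DP}

include hI

omit hI in
lemma coeff_mul_ind (hn : Sup (Smo (I : Set ℕ)) n) (B : ℕ) : (ind M I * n).coeff B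
    = pair (fun a => if a ∣ B ∧ B / a ∈ indS M I then 1 else 0) n := by
  classical
  rw [coeff_eq_pair, mul_comm, pair_mul]
  refine pair_congr n fun a ha => ?_
  rw [pair_ind]
  have ha0 : 0 < a := Nat.pos_of_ne_zero (hn a ha).1
  by_cases h : a ∣ B
  · obtain ⟨c, rfl⟩ := h
    rw [Nat.mul_div_cancel_left c ha0]
    have h1 : ∀ x ∈ indS M I, (if a * x = a * c then (1 : ℝ) else 0) = if x = c then 1 else 0 := by
      intro x _
      by_cases hx : x = c
      · rw [if_pos hx, if_pos (by rw [hx])]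
      · rw [if_neg hx, if_neg (fun h => hx (Nat.eq_of_mul_eq_mul_left ha0 h))]
    rw [Finset.sum_congr rfl h1, Finset.sum_ite_eq']
    simp
  · rw [if_neg (fun h' => h h'.1)]
    refine Finset.sum_eq_zero fun x _ => ?_
    rw [if_neg]
    rintro rfl
    exact h (dvd_mul_right _ _)

omit hI in
lemma coeff_le_uu (hn : Cone (Smo (I : Set ℕ)) n) (B : ℕ) : (ind M I * n).coeff B ≤ uu n B := by
  rw [coeff_mul_ind (sup_of_cone hn)]
  refine pair_mono hn fun a _ => ?_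
  by_cases h : a ∣ B
  · rw [if_pos h]
    split_ifs <;> simp
  · rw [if_neg h, if_neg (fun h' => h h'.1)]

lemma coeff_eq_uu (hn : Cone (Smo (I : Set ℕ)) n) {B : ℕ} (hB : B ∈ indS M I) :
    (ind M I * n).coeff B = uu n B := by
  rw [coeff_mul_ind (sup_of_cone hn)]
  refine pair_congr n fun a ha => ?_
  by_cases h : a ∣ B
  · rw [if_pos h, if_pos]
    refine ⟨h, ?_⟩
    obtain ⟨c, rfl⟩ := h
    rw [mem_indS hI] at hB ⊢
    have ha0 : a ≠ 0 := left_ne_zero_of_mul hB.1.1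
    have hc0 : c ≠ 0 := right_ne_zero_of_mul hB.1.1
    rw [Nat.mul_div_cancel_left c (Nat.pos_of_ne_zero ha0)]
    refine ⟨⟨hc0, fun q hq hqc => hB.1.2 q hq (hqc.mul_left a)⟩, ?_⟩
    have h2 := hB.2
    rw [ArithmeticFunction.cardFactors_mul ha0 hc0] at h2
    omega
  · rw [if_neg h, if_neg (fun h' => h h'.1)]

lemma cone_ind_mul (hn : Cone (Smo (I : Set ℕ)) n) : Cone (Smo (I : Set ℕ)) (ind M I * n) :=
  (((cone_ind hI M).mono fun _ h => h.1).mul hn fun _ ha _ hb => mul_mem_Smo ha hb)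

omit hI in
lemma cross_eq (n g : DP) : BK (Kcs 1) n g = pair (fun B => uu n B * (B : ℝ)⁻¹) g := by
  rw [BK_swap]
  congr 1
  funext B
  unfold uu
  rw [← pair_mul_const]
  congr 1
  funext a
  unfold Kcs
  rw [Real.rpow_neg_one]
  split_ifs <;> ring

lemma diag_le_cross (hn : Cone (Smo (I : Set ℕ)) n) :
    BK K1 (ind M I * n) (ind M I * n) ≤ BK (Kcs 1) n (ind M I * n) := by
  rw [cross_eq, BK_K1_eq]
  refine pair_mono (cone_ind_mul hI hn) fun B _ => ?_
  exact mul_le_mul_of_nonneg_right (coeff_le_uu hn B) (by positivity)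

omit hI in
/-- the kernel of a finite sum of squares of divisor sums -/
noncomputable def KS (S : Finset ℕ) (a b : ℕ) : ℝ :=
  ∑ B ∈ S, if a ∣ B ∧ b ∣ B then (B : ℝ)⁻¹ else 0

omit hI in
lemma sum_uu_sq (n : DP) (S : Finset ℕ) :
    ∑ B ∈ S, uu n B * (uu n B * (B : ℝ)⁻¹) = BK (KS S) n n := by
  unfold KS
  rw [BK_sum_fun]
  refine Finset.sum_congr rfl fun B _ => ?_
  unfold uu BK
  have h1 : ∀ a : ℕ, pair (fun b => if a ∣ B ∧ b ∣ B then (B : ℝ)⁻¹ else 0) n
      = (if a ∣ B then 1 else 0) * (pair (fun b => if b ∣ B then 1 else 0) n * (B : ℝ)⁻¹) := by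
    intro a
    rw [← pair_mul_const, ← pair_const_mul]
    congr 1
    funext b
    by_cases h1 : a ∣ B <;> by_cases h2 : b ∣ B <;> simp [h1, h2]
  simp only [h1]
  rw [pair_mul_const]

/-- sums over multiples -/
lemma sum_mult_le {L : ℕ} (hL : L ∈ Smo (I : Set ℕ)) (hO : Ω L ≤ M) :
    ∑ B ∈ indS M I, (if L ∣ B then (B : ℝ)⁻¹ else 0) = (L : ℝ)⁻¹ * TK (M - Ω L) I := by
  classical
  unfold TK
  rw [← Finset.sum_filter, Finset.mul_sum]
  symm
  have hL0 : L ≠ 0 := hL.1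
  refine Finset.sum_bij (fun n _ => L * n) ?_ ?_ ?_ ?_
  · intro n hn
    rw [mem_indS hI] at hn
    rw [Finset.mem_filter, mem_indS hI]
    refine ⟨⟨mul_mem_Smo hL hn.1, ?_⟩, dvd_mul_right _ _⟩
    rw [ArithmeticFunction.cardFactors_mul hL0 hn.1.1]
    have := hn.2
    omega
  · intro a _ b _ h
    exact Nat.eq_of_mul_eq_mul_left (Nat.pos_of_ne_zero hL0) h
  · intro n hn
    rw [Finset.mem_filter, mem_indS hI] at hn
    obtain ⟨⟨h1, h2⟩, c, rfl⟩ := hn
    have hc : c ≠ 0 := right_ne_zero_of_mul h1.1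
    refine ⟨c, ?_, rfl⟩
    rw [mem_indS hI]
    refine ⟨⟨hc, fun q hq hqc => h1.2 q hq (hqc.mul_left L)⟩, ?_⟩
    rw [ArithmeticFunction.cardFactors_mul hL0 hc] at h2
    omega
  · intro n _
    push_cast
    rw [mul_inv]

lemma sum_mult_gt {L : ℕ} (hO : M < Ω L) :
    ∑ B ∈ indS M I, (if L ∣ B then (B : ℝ)⁻¹ else 0) = 0 := by
  refine Finset.sum_eq_zero fun B hB => ?_
  rw [if_neg]
  rintro ⟨c, rfl⟩
  rw [mem_indS hI] at hB
  have hL0 : L ≠ 0 := left_ne_zero_of_mul hB.1.1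
  have hc0 : c ≠ 0 := right_ne_zero_of_mul hB.1.1
  have h2 := hB.2
  rw [ArithmeticFunction.cardFactors_mul hL0 hc0] at h2
  omega

omit hI in
lemma KS_eq (S : Finset ℕ) (a b : ℕ) :
    KS S a b = ∑ B ∈ S, if Nat.lcm a b ∣ B then (B : ℝ)⁻¹ else 0 := by
  unfold KS
  refine Finset.sum_congr rfl fun B _ => ?_
  simp only [Nat.lcm_dvd_iff]

omit hI in
lemma lcm_mem_Smo {A : Set ℕ} {a b : ℕ} (ha : a ∈ Smo A) (hb : b ∈ Smo A) : Nat.lcm a b ∈ Smo A := by
  refine ⟨Nat.lcm_ne_zero ha.1 hb.1, fun q hq hqd => ?_⟩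
  have h1 : q ∣ a * b := hqd.trans (Nat.lcm_dvd_mul a b)
  rcases (hq.dvd_mul).mp h1 with h | h
  · exact ha.2 q hq h
  · exact hb.2 q hq h

omit hI in
lemma Omega_lcm_le {a b : ℕ} (ha : a ≠ 0) (hb : b ≠ 0) : Ω (Nat.lcm a b) ≤ Ω a + Ω b := by
  rw [← ArithmeticFunction.cardFactors_mul ha hb]
  obtain ⟨c, hc⟩ := Nat.lcm_dvd_mul a b
  have hab : a * b ≠ 0 := mul_ne_zero ha hb
  have hl : Nat.lcm a b ≠ 0 := Nat.lcm_ne_zero ha hb
  have hc0 : c ≠ 0 := by rintro rfl; rw [mul_zero] at hc; exact hab hc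
  rw [hc, ArithmeticFunction.cardFactors_mul hl hc0]
  omega

lemma KS_le (hp : ∀ p ∈ I, (4 : ℝ) ≤ (p : ℝ)) {a b : ℕ} (ha : a ∈ Smo (I : Set ℕ))
    (hb : b ∈ Smo (I : Set ℕ)) : KS (indS M I) a b ≤ WW 1 I * K2 a b := by
  rw [KS_eq]
  have hL := lcm_mem_Smo ha hb
  have hW := one_le_WW (t := 1) zero_le_one hI (fun q hq => by linarith [hp q hq])
  have hK := K2_nonneg a b
  rcases le_or_gt (Ω (Nat.lcm a b)) M with h | h
  · rw [sum_mult_le hI hL h, K2_eq_inv_lcm ha.1 hb.1, mul_comm]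
    have := (WW_sub_TK hI hp (M - Ω (Nat.lcm a b))).1
    refine mul_le_mul_of_nonneg_right (by linarith) (by positivity)
  · rw [sum_mult_gt hI h]
    positivity

lemma KS_ge (hp : ∀ p ∈ I, (4 : ℝ) ≤ (p : ℝ)) {a b : ℕ} (ha : a ∈ Smo (I : Set ℕ))
    (hb : b ∈ Smo (I : Set ℕ)) :
    WW 1 I * K2 a b - WW 2 I / 2 ^ M * ((2 : ℝ) ^ (Ω a) * (2 : ℝ) ^ (Ω b) * K2 a b)
      ≤ KS (indS M I) a b := by
  rw [KS_eq]
  have hL := lcm_mem_Smo ha hb
  have hW1 := one_le_WW (t := 1) zero_le_one hI (fun q hq => by linarith [hp q hq])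
  have hW2 := one_le_WW (t := 2) zero_le_two hI (fun q hq => by linarith [hp q hq])
  have hmono := WW_mono hI hp
  have hK := K2_nonneg a b
  have hO := Omega_lcm_le ha.1 hb.1
  have h2O : (2 : ℝ) ^ (Ω (Nat.lcm a b)) ≤ (2 : ℝ) ^ (Ω a) * (2 : ℝ) ^ (Ω b) := by
    rw [← pow_add]
    exact pow_le_pow_right₀ one_le_two hO
  set L := Nat.lcm a b with hLd
  have key : WW 1 I * K2 a b - WW 2 I / 2 ^ M * ((2 : ℝ) ^ (Ω a) * (2 : ℝ) ^ (Ω b) * K2 a b)
      ≤ (WW 1 I - WW 2 I / 2 ^ M * (2 : ℝ) ^ (Ω L)) * K2 a b := by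
    have h1 : WW 2 I / 2 ^ M * ((2 : ℝ) ^ (Ω L) * K2 a b)
        ≤ WW 2 I / 2 ^ M * ((2 : ℝ) ^ (Ω a) * (2 : ℝ) ^ (Ω b) * K2 a b) := by gcongr
    linarith
  refine key.trans ?_
  rcases le_or_gt (Ω L) M with h | h
  · rw [sum_mult_le hI hL h, K2_eq_inv_lcm ha.1 hb.1, ← hLd, mul_comm]
    have h1 := (WW_sub_TK hI hp (M - Ω L)).2
    have h2 : WW 2 I / 2 ^ (M - Ω L) = WW 2 I / 2 ^ M * (2 : ℝ) ^ (Ω L) := by
      have : (2 : ℝ) ^ M = 2 ^ (M - Ω L) * 2 ^ (Ω L) := by rw [← pow_add]; congr 1; omega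
      rw [this]
      field_simp
    rw [h2] at h1
    refine mul_le_mul_of_nonneg_left (by linarith) (by positivity)
  · rw [sum_mult_gt hI h]
    refine mul_nonpos_of_nonpos_of_nonneg ?_ hK
    have h1 : (2 : ℝ) ^ M ≤ 2 ^ (Ω L) := pow_le_pow_right₀ one_le_two h.le
    have h2 : WW 2 I * 1 ≤ WW 2 I / 2 ^ M * 2 ^ (Ω L) := by
      rw [div_mul_eq_mul_div, mul_div_assoc]
      refine mul_le_mul_of_nonneg_left ?_ (by linarith)
      rw [one_le_div (by positivity)]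
      exact h1
    linarith

/-- upper bound for the cross form -/
lemma cross_le_WS (hp : ∀ p ∈ I, (4 : ℝ) ≤ (p : ℝ)) (hn : Cone (Smo (I : Set ℕ)) n) :
    BK (Kcs 1) n (ind M I * n) ≤ WW 1 I * BK K2 n n := by
  classical
  rw [cross_eq, pair_def]
  set f := ind M I * n with hf
  have hc := cone_ind_mul (M := M) hI hn
  rw [← hf] at hc
  set T := f.coeff.support with hT
  set N := T.sup (fun B => Ω B) with hN
  have hTN : T ⊆ indS N I := by
    intro B hB
    rw [mem_indS hI]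
    refine ⟨(hc B).2 (Finsupp.mem_support_iff.mp hB), ?_⟩
    exact Finset.le_sup (f := fun B => Ω B) hB
  have h1 : ∑ B ∈ T, f.coeff B * (uu n B * (B : ℝ)⁻¹) ≤ ∑ B ∈ indS N I, uu n B * (uu n B * (B : ℝ)⁻¹) := by
    refine (Finset.sum_le_sum fun B _ => ?_).trans
      (Finset.sum_le_sum_of_subset_of_nonneg hTN fun B _ _ => ?_)
    · exact mul_le_mul_of_nonneg_right (coeff_le_uu hn B)
        (mul_nonneg (uu_nonneg hn B) (by positivity))
    · exact mul_nonneg (uu_nonneg hn B) (mul_nonneg (uu_nonneg hn B) (by positivity))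
  refine h1.trans ?_
  rw [sum_uu_sq]
  unfold BK
  rw [← pair_const_mul]
  refine pair_mono hn fun a ha => ?_
  rw [← pair_const_mul]
  exact pair_mono hn fun b hb => KS_le hI hp ha hb

/-- lower bound for the cross form -/
lemma cross_ge_WS (hp : ∀ p ∈ I, (4 : ℝ) ≤ (p : ℝ)) (hn : Cone (Smo (I : Set ℕ)) n) :
    WW 1 I * BK K2 n n
      - WW 2 I / 2 ^ M * BK (fun a b => (2 : ℝ) ^ (Ω a) * (2 : ℝ) ^ (Ω b) * K2 a b) n n
      ≤ BK (Kcs 1) n (ind M I * n) := by
  classical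
  rw [cross_eq]
  have hc := cone_ind_mul (M := M) hI hn
  have h1 := sum_le_pair hc (φ := fun B => uu n B * (B : ℝ)⁻¹)
    (fun B => mul_nonneg (uu_nonneg hn B) (by positivity)) (indS M I)
  refine le_trans ?_ h1
  have h2 : ∑ B ∈ indS M I, (ind M I * n).coeff B * (uu n B * (B : ℝ)⁻¹) = BK (KS (indS M I)) n n := by
    rw [← sum_uu_sq]
    refine Finset.sum_congr rfl fun B hB => ?_
    rw [coeff_eq_uu hI hn hB]
  rw [h2]
  have h3 : WW 1 I * BK K2 n n
      - WW 2 I / 2 ^ M * BK (fun a b => (2 : ℝ) ^ (Ω a) * (2 : ℝ) ^ (Ω b) * K2 a b) n n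
      = BK (fun a b => WW 1 I * K2 a b
        + (-(WW 2 I / 2 ^ M)) * ((2 : ℝ) ^ (Ω a) * (2 : ℝ) ^ (Ω b) * K2 a b)) n n := by
    unfold BK
    simp only [pair_add_fun, pair_const_mul]
    ring
  rw [h3]
  unfold BK
  refine pair_mono hn fun a ha => ?_
  refine pair_mono hn fun b hb => ?_
  have := KS_ge (M := M) hI hp ha hb
  linarith

lemma BK_twist_expo (c : ℝ) (M' : ℕ) :
    BK (fun a b => (2 : ℝ) ^ (Ω a) * (2 : ℝ) ^ (Ω b) * K2 a b) (expo c M' I) (expo c M' I)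
      = BK K2 (expo (2 * c) M' I) (expo (2 * c) M' I) := by
  unfold expo
  rw [BK_sum_left, BK_sum_left]
  refine Finset.sum_congr rfl fun r _ => ?_
  rw [BK_sum_right, BK_sum_right]
  refine Finset.sum_congr rfl fun s _ => ?_
  rw [BK_smul_left, BK_smul_right, BK_smul_left, BK_smul_right]
  have h1 : BK (fun a b => (2 : ℝ) ^ (Ω a) * (2 : ℝ) ^ (Ω b) * K2 a b) (PP I ^ r) (PP I ^ s)
      = 2 ^ r * 2 ^ s * BK K2 (PP I ^ r) (PP I ^ s) := by
    unfold BK
    rw [← pair_const_mul]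
    refine pair_congr _ fun a ha => ?_
    rw [← pair_const_mul]
    refine pair_congr _ fun b hb => ?_
    beta_reduce
    rw [((cone_PP_pow hI r a).2 ha).2, ((cone_PP_pow hI s b).2 hb).2]
  rw [h1, mul_pow, mul_pow]
  ring

omit hI in
/-- error constant -/
noncomputable def C7 : ℝ := 4 * Real.exp 696

omit hI in
lemma C7_pos : 0 < C7 := by unfold C7; positivity

/-- comparison of the three forms at a block -/
theorem block_E1 (hp : ∀ p ∈ I, (4 : ℝ) ≤ (p : ℝ)) (hV : VV I ≤ 12) {b : ℝ} (hb0 : 0 ≤ b)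
    (hb : b ≤ 1 / 2) (M : ℕ) :
    0 ≤ BK K1 (ind M I * expo b M I) (ind M I * expo b M I) ∧
    BK K1 (ind M I * expo b M I) (ind M I * expo b M I) ≤ BK (Kcs 1) (expo b M I) (ind M I * expo b M I) ∧
    BK (Kcs 1) (expo b M I) (ind M I * expo b M I) ≤ WW 1 I * BK K2 (expo b M I) (expo b M I) ∧
    WW 1 I * BK K2 (expo b M I) (expo b M I) * (1 - C7 / 2 ^ M)
      ≤ BK (Kcs 1) (expo b M I) (ind M I * expo b M I) ∧
    1 ≤ BK K2 (expo b M I) (expo b M I) := by
  set n := expo b M I with hn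
  have hc : Cone (Smo (I : Set ℕ)) n := (cone_expo hI hb0 M).mono fun _ h => h.1
  have hci := cone_ind_mul (M := M) hI hc
  have h1S : 1 ≤ BK K2 n n := by
    have h1 : n.coeff 1 = 1 := by
      have e : n = 1 + ∑ r ∈ Finset.range M, (b ^ (r + 1) / ((r + 1).factorial : ℝ)) • (PP I) ^ (r + 1) := by
        rw [hn, expo, Finset.sum_range_succ']
        simp [add_comm]
      rw [e, MonoidAlgebra.coeff_add, Finsupp.add_apply, MonoidAlgebra.coeff_sum,
        Finsupp.finsetSum_apply, Finset.sum_eq_zero]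
      · rw [MonoidAlgebra.one_def, MonoidAlgebra.coeff_single, Finsupp.single_apply]
        simp
      · intro r _
        rw [MonoidAlgebra.coeff_smul, Finsupp.smul_apply, smul_eq_mul]
        have : (PP I ^ (r + 1)).coeff 1 = 0 := by
          by_contra h
          have := ((cone_PP_pow hI (r + 1) 1).2 h).2
          simp at this
        rw [this, mul_zero]
    have h2 : ∀ m, (1 : DP).coeff m ≤ n.coeff m := by
      intro m
      rw [MonoidAlgebra.one_def, MonoidAlgebra.coeff_single, Finsupp.single_apply]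
      split_ifs with h
      · rw [← h, h1]
      · exact (hc m).1
    have h3 : ∀ m, 0 ≤ (1 : DP).coeff m := by
      intro m
      rw [MonoidAlgebra.one_def, MonoidAlgebra.coeff_single, Finsupp.single_apply]
      split_ifs <;> simp
    have h4 := BK_mono (K := K2) h3 h2 h3 h2 K2_nonneg
    have h5 : BK K2 1 1 = 1 := by
      rw [MonoidAlgebra.one_def, BK_single]
      simp [K2]
    rw [h5] at h4
    exact h4
  refine ⟨BK_nonneg hci hci K1_nonneg, diag_le_cross hI hc, cross_le_WS hI hp hc, ?_, h1S⟩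
  refine le_trans ?_ (cross_ge_WS hI hp hc)
  rw [hn, BK_twist_expo hI]
  rw [← hn]
  have hW1 := one_le_WW (t := 1) zero_le_one hI (fun q hq => by linarith [hp q hq])
  have hW2 := one_le_WW (t := 2) zero_le_two hI (fun q hq => by linarith [hp q hq])
  have hW2' : WW 2 I ≤ Real.exp 48 := by
    refine (WW_le_exp (t := 2) zero_le_two hI (fun q hq => by linarith [hp q hq])).trans ?_
    apply Real.exp_le_exp.mpr
    linarith
  have hF : BK K2 (expo (2 * b) M I) (expo (2 * b) M I) ≤ 4 * Real.exp 648 := by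
    have hd := dom_expo2 hI (c := 2 * b) (by rw [abs_of_nonneg (by linarith)]; linarith) M
    have h1 := abs_BK_le_of_dom K2_nonneg hd hd
    rw [BK_smul_left, BK_smul_right] at h1
    have h2 := (FF_bounds_two hI M).1
    have h3 : Real.exp (54 * VV I) ≤ Real.exp 648 := Real.exp_le_exp.mpr (by linarith)
    have h4 := le_abs_self (BK K2 (expo (2 * b) M I) (expo (2 * b) M I))
    have h5 := le_abs_self (BK K2 (FF 2 M I) (FF 2 M I))
    linarith
  have hF0 : 0 ≤ BK K2 (expo (2 * b) M I) (expo (2 * b) M I) := by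
    have hc2 : Cone (Smo (I : Set ℕ)) (expo (2 * b) M I) :=
      (cone_expo hI (by linarith) M).mono fun _ h => h.1
    exact BK_nonneg hc2 hc2 K2_nonneg
  have h6 : WW 2 I / 2 ^ M * BK K2 (expo (2 * b) M I) (expo (2 * b) M I) ≤ C7 / 2 ^ M := by
    calc WW 2 I / 2 ^ M * BK K2 (expo (2 * b) M I) (expo (2 * b) M I)
        ≤ Real.exp 48 / 2 ^ M * (4 * Real.exp 648) := by gcongr
      _ = C7 / 2 ^ M := by
          unfold C7
          have : Real.exp 696 = Real.exp 48 * Real.exp 648 := by rw [← Real.exp_add]; norm_num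
          rw [this]; ring
  have h7 : 1 ≤ WW 1 I * BK K2 n n := one_le_mul_of_one_le_of_one_le hW1 h1S
  have h8 : C7 / 2 ^ M ≤ WW 1 I * BK K2 n n * (C7 / 2 ^ M) := by
    have : 0 ≤ C7 / 2 ^ M := by have := C7_pos; positivity
    nlinarith
  linarith

end block

end Pool.Agent.Lib.MP_f9aece_nt_h40
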