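import Mathlib
import Pool.Agent.Lib.MP_f9aece_nt_h40.RightA

/-!
Local factors with geometrically bounded coefficients.
-/

set_option autoImplicit false

namespace Pool.Agent.Lib.MP_f9aece_nt_h40

open MeasureTheory Set Filter Topology Complex
open Pool.Agent.Lib.MP_f9aece_nt
open Pool.Agent.Lib.MP_f9aece_nt_h97
open scoped ArithmeticFunction.Omega

/-- polynomials whose coefficients are bounded by those of `1 / (1 - A X)` -/
structure Cg (A c : ℝ) (Q : Polynomial ℝ) : Prop where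
  zero : Q.coeff 0 = 1
  one : Q.coeff 1 = c
  le : ∀ i, |Q.coeff i| ≤ A ^ i

lemma Cg.nonneg {A c : ℝ} {Q : Polynomial ℝ} (h : Cg A c Q) : 0 ≤ A := by
  have := (abs_nonneg _).trans (h.le 1)
  simpa using this

lemma Cg.mono {A B c : ℝ} {Q : Polynomial ℝ} (h : Cg A c Q) (hAB : A ≤ B) : Cg B c Q := by
  have hA := h.nonneg
  exact ⟨h.zero, h.one, fun i => (h.le i).trans (by gcongr)⟩

lemma Cf.cg {A c : ℝ} {Q : Polynomial ℝ} (h : Cf A c Q) : Cg A c Q := by
  have hA := h.nonneg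
  refine ⟨h.zero, h.one, fun i => (h.le i).trans ?_⟩
  exact div_le_self (by positivity) (by exact_mod_cast Nat.one_le_iff_ne_zero.2 (Nat.factorial_ne_zero i))

lemma Cg.mul {A B c d : ℝ} {Q R : Polynomial ℝ} (hQ : Cg A c Q) (hR : Cg B d R) :
    Cg (A + B) (c + d) (Q * R) := by
  refine ⟨?_, ?_, ?_⟩
  · rw [Polynomial.mul_coeff_zero, hQ.zero, hR.zero, one_mul]
  · rw [Polynomial.coeff_mul, Finset.Nat.antidiagonal_succ]
    simp [hQ.zero, hR.zero, hQ.one, hR.one]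
    ring
  · intro i
    rw [Polynomial.coeff_mul]
    refine (Finset.abs_sum_le_sum_abs _ _).trans ?_
    have hA := hQ.nonneg
    have hB := hR.nonneg
    rw [(Commute.all A B).add_pow']
    refine Finset.sum_le_sum fun x hx => ?_
    rw [Finset.HasAntidiagonal.mem_antidiagonal] at hx
    rw [abs_mul, nsmul_eq_mul]
    have h1 : (1 : ℝ) ≤ (i.choose x.1 : ℝ) := by
      exact_mod_cast Nat.choose_pos (by omega)
    calc |Q.coeff x.1| * |R.coeff x.2| ≤ A ^ x.1 * B ^ x.2 :=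
          mul_le_mul (hQ.le _) (hR.le _) (abs_nonneg _) (by positivity)
      _ = 1 * (A ^ x.1 * B ^ x.2) := (one_mul _).symm
      _ ≤ _ := by gcongr

/-- truncated geometric polynomial -/
noncomputable def GE (t : ℝ) (M : ℕ) : Polynomial ℝ :=
  ∑ r ∈ Finset.range (M + 1), Polynomial.monomial r (t ^ r)

lemma coeff_GE (t : ℝ) (M i : ℕ) : (GE t M).coeff i = if i ≤ M then t ^ i else 0 := by
  unfold GE
  rw [Polynomial.finsetSum_coeff]
  simp_rw [Polynomial.coeff_monomial]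
  by_cases h : i ≤ M
  · rw [if_pos h, Finset.sum_eq_single i]
    · simp
    · intro b _ hb
      rw [if_neg hb]
    · intro h1
      exact absurd (Finset.mem_range.mpr (by omega)) h1
  · rw [if_neg h]
    refine Finset.sum_eq_zero fun r hr => ?_
    rw [Finset.mem_range] at hr
    rw [if_neg (by omega)]

lemma cg_GE {t : ℝ} (ht : 0 ≤ t) {M : ℕ} (hM : 1 ≤ M) : Cg t t (GE t M) := by
  refine ⟨?_, ?_, ?_⟩
  · rw [coeff_GE, if_pos (by omega)]; simp
  · rw [coeff_GE, if_pos hM]; simp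
  · intro i
    rw [coeff_GE]
    split_ifs with h
    · rw [abs_of_nonneg (by positivity)]
    · rw [abs_zero]; positivity

/-! ### numerical lemmas -/

lemma geo_gen {A q : ℝ} (hA : 1 ≤ A) (hq0 : 0 ≤ q) (hq : q * (2 * A) ^ 2 ≤ 1) {i l k μ : ℕ}
    (hk : k ≤ μ) (hμ : i + l ≤ 2 * μ) :
    A ^ i * A ^ l * q ^ μ ≤ ((2 * A) ^ 2) ^ k * q ^ k * ((1 / 2) ^ i * (1 / 2) ^ l) := by
  have h1 : q ^ μ * (2 * A) ^ (i + l) ≤ q ^ k * ((2 * A) ^ 2) ^ k := by
    obtain ⟨e, rfl⟩ := Nat.exists_eq_add_of_le hk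
    have h2 : (2 * A) ^ (i + l) ≤ ((2 * A) ^ 2) ^ (k + e) := by
      rw [← pow_mul]
      exact pow_le_pow_right₀ (by linarith) hμ
    have h3 : (q * (2 * A) ^ 2) ^ e ≤ 1 := pow_le_one₀ (by positivity) hq
    calc q ^ (k + e) * (2 * A) ^ (i + l) ≤ q ^ (k + e) * ((2 * A) ^ 2) ^ (k + e) := by gcongr
      _ = q ^ k * ((2 * A) ^ 2) ^ k * (q * (2 * A) ^ 2) ^ e := by rw [pow_add, pow_add, mul_pow]; ring
      _ ≤ q ^ k * ((2 * A) ^ 2) ^ k * 1 := by gcongr
      _ = _ := mul_one _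
  have h4 : A ^ i * A ^ l * q ^ μ = q ^ μ * (2 * A) ^ (i + l) * ((1 / 2) ^ i * (1 / 2) ^ l) := by
    rw [← pow_add, ← pow_add, mul_pow, one_div, inv_pow]
    field_simp
  rw [h4]
  have h5 : (0 : ℝ) ≤ (1 / 2) ^ i * (1 / 2) ^ l := by positivity
  calc q ^ μ * (2 * A) ^ (i + l) * ((1 / 2) ^ i * (1 / 2) ^ l)
      ≤ q ^ k * ((2 * A) ^ 2) ^ k * ((1 / 2) ^ i * (1 / 2) ^ l) := mul_le_mul_of_nonneg_right h1 h5
    _ = _ := by ring

lemma sum_half_le_two (N : ℕ) : ∑ i ∈ Finset.range N, (1 / 2 : ℝ) ^ i ≤ 2 := by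
  have h : ∑ i ∈ Finset.range N, (1 / 2 : ℝ) ^ i = 2 - 2 * (1 / 2) ^ N := by
    induction N with
    | zero => simp
    | succ N ih => rw [Finset.sum_range_succ, ih]; ring
  rw [h]
  have : (0 : ℝ) ≤ 2 * (1 / 2) ^ N := by positivity
  linarith

lemma sum_i_half_le_two (N : ℕ) : ∑ i ∈ Finset.range N, (i : ℝ) * (1 / 2 : ℝ) ^ i ≤ 2 := by
  have h : ∑ i ∈ Finset.range N, (i : ℝ) * (1 / 2 : ℝ) ^ i = 2 - (N + 1) * 2 * (1 / 2) ^ N := by
    induction N with
    | zero => simp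
    | succ N ih => rw [Finset.sum_range_succ, ih]; push_cast; ring
  rw [h]
  have : (0 : ℝ) ≤ (N + 1) * 2 * (1 / 2) ^ N := by positivity
  linarith

/-- local factor of a multiplicative form -/
lemma local_formG {K : ℕ → ℕ → ℝ} (hK : MK K) {p : ℕ} (hp : p.Prime) {A c d : ℝ} {Q R : Polynomial ℝ}
    (hQ : Cg A c Q) (hR : Cg A d R) (hA : 1 ≤ A) (hpA : (2 * A) ^ 2 ≤ p) :
    |BK K (loc p Q) (loc p R) - (1 + c * K p 1 + d * K 1 p + c * d * K p p)|
      ≤ 64 * A ^ 4 * ((p : ℝ)⁻¹) ^ 2 := by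
  have hp0 : (0 : ℝ) < p := by exact_mod_cast hp.pos
  have hq : (p : ℝ)⁻¹ * (2 * A) ^ 2 ≤ 1 := by
    rw [inv_mul_le_iff₀ hp0]; linarith
  have hq0 : 0 ≤ (p : ℝ)⁻¹ := by positivity
  rw [BK_loc K p Q R (N := max Q.natDegree R.natDegree + 2) (by omega) (by omega)]
  set N := max Q.natDegree R.natDegree + 2 with hN
  set q := (p : ℝ)⁻¹ with hqd
  set t : ℕ × ℕ → ℝ := fun x => Q.coeff x.1 * R.coeff x.2 * K (p ^ x.1) (p ^ x.2) with ht
  have e1 : ∑ i ∈ Finset.range N, ∑ l ∈ Finset.range N, Q.coeff i * R.coeff l * K (p ^ i) (p ^ l)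
      = ∑ x ∈ Finset.range N ×ˢ Finset.range N, t x := by
    rw [Finset.sum_product]
  rw [e1]
  have hsub : Finset.range 2 ×ˢ Finset.range 2 ⊆ Finset.range N ×ˢ Finset.range N := by
    apply Finset.product_subset_product <;> exact Finset.range_subset_range.mpr (by omega)
  rw [← Finset.sum_sdiff hsub]
  have e2 : ∑ x ∈ Finset.range 2 ×ˢ Finset.range 2, t x
      = 1 + c * K p 1 + d * K 1 p + c * d * K p p := by
    rw [Finset.sum_product]
    simp [ht, Finset.sum_range_succ, hQ.zero, hQ.one, hR.zero, hR.one, hK.2.2.1]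
    ring
  rw [e2, add_sub_cancel_right]
  have h1 : ∀ x ∈ (Finset.range N ×ˢ Finset.range N) \ (Finset.range 2 ×ˢ Finset.range 2),
      |t x| ≤ 16 * A ^ 4 * q ^ 2 * ((1 / 2) ^ x.1 * (1 / 2) ^ x.2) := by
    intro x hx
    rw [Finset.mem_sdiff, Finset.mem_product, Finset.mem_product] at hx
    simp only [Finset.mem_range] at hx
    rw [ht]
    simp only
    rw [abs_mul, abs_mul, abs_of_nonneg (hK.1 _ _)]
    have h2 := hK.2.1 (p ^ x.1) (p ^ x.2)
    rw [K2_pow hp, ← hqd] at h2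
    have h3 := geo_gen (A := A) (q := q) hA hq0 hq (i := x.1) (l := x.2) (k := 2) (μ := max x.1 x.2)
      (by omega) (by omega)
    calc |Q.coeff x.1| * |R.coeff x.2| * K (p ^ x.1) (p ^ x.2)
        ≤ A ^ x.1 * A ^ x.2 * q ^ max x.1 x.2 :=
          mul_le_mul (mul_le_mul (hQ.le _) (hR.le _) (abs_nonneg _) (by positivity)) h2
            (hK.1 _ _) (by positivity)
      _ ≤ _ := h3
      _ = _ := by ring
  refine (Finset.abs_sum_le_sum_abs _ _).trans ((Finset.sum_le_sum h1).trans ?_)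
  rw [← Finset.mul_sum]
  have h2 : ∑ x ∈ (Finset.range N ×ˢ Finset.range N) \ (Finset.range 2 ×ˢ Finset.range 2),
      ((1 / 2 : ℝ) ^ x.1 * (1 / 2) ^ x.2) ≤ 2 * 2 := by
    refine (Finset.sum_le_sum_of_subset_of_nonneg Finset.sdiff_subset
      fun x _ _ => by positivity).trans ?_
    rw [Finset.sum_product]
    have h3 : ∑ i ∈ Finset.range N, ∑ l ∈ Finset.range N, ((1 / 2 : ℝ) ^ i * (1 / 2) ^ l)
        = (∑ i ∈ Finset.range N, (1 / 2 : ℝ) ^ i) * ∑ l ∈ Finset.range N, (1 / 2 : ℝ) ^ l := by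
      rw [Finset.sum_mul_sum]
    rw [h3]
    exact mul_le_mul (sum_half_le_two N) (sum_half_le_two N)
      (Finset.sum_nonneg fun i _ => by positivity) (by norm_num)
  calc 16 * A ^ 4 * q ^ 2 * ∑ x ∈ (Finset.range N ×ˢ Finset.range N) \ (Finset.range 2 ×ˢ Finset.range 2),
      ((1 / 2 : ℝ) ^ x.1 * (1 / 2) ^ x.2) ≤ 16 * A ^ 4 * q ^ 2 * (2 * 2) := by gcongr
    _ = _ := by ring

/-- local factor of a derivation form -/
lemma local_formLG {L : ℕ → ℕ → ℝ} (hL : LogKer L) {p : ℕ} (hp : p.Prime) {A c : ℝ} {Q : Polynomial ℝ}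
    (hQ : Cg A c Q) (hA : 1 ≤ A) (hpA : (2 * A) ^ 2 ≤ p) :
    |BK L (loc p Q) (loc p Q)| ≤ 32 * A ^ 2 * ((p : ℝ)⁻¹ * Real.log p) := by
  have hp0 : (0 : ℝ) < p := by exact_mod_cast hp.pos
  have hq : (p : ℝ)⁻¹ * (2 * A) ^ 2 ≤ 1 := by
    rw [inv_mul_le_iff₀ hp0]; linarith
  have hq0 : 0 ≤ (p : ℝ)⁻¹ := by positivity
  have hlog : 0 ≤ Real.log p := Real.log_nonneg (by exact_mod_cast hp.one_le)
  rw [BK_loc L p Q Q (N := Q.natDegree + 1) (by omega) (by omega)]
  set N := Q.natDegree + 1 with hN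
  set q := (p : ℝ)⁻¹ with hqd
  have h1 : |∑ i ∈ Finset.range N, ∑ l ∈ Finset.range N, Q.coeff i * Q.coeff l * L (p ^ i) (p ^ l)|
      ≤ ∑ i ∈ Finset.range N, ∑ l ∈ Finset.range N,
        (4 * A ^ 2 * (q * Real.log p)) * ((i + l) * ((1 / 2) ^ i * (1 / 2) ^ l)) := by
    refine (Finset.abs_sum_le_sum_abs _ _).trans (Finset.sum_le_sum fun i _ => ?_)
    refine (Finset.abs_sum_le_sum_abs _ _).trans (Finset.sum_le_sum fun l _ => ?_)
    rw [abs_mul, abs_mul, abs_of_nonneg (hL.nonneg _ _)]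
    have h2 := hL.le (p ^ i) (p ^ l) (Nat.one_le_pow _ _ hp.pos) (Nat.one_le_pow _ _ hp.pos)
    rw [K2_pow hp, ← hqd] at h2
    push_cast at h2
    rw [Real.log_pow, Real.log_pow] at h2
    have h4 : |Q.coeff i| * |Q.coeff l| * L (p ^ i) (p ^ l)
        ≤ A ^ i * A ^ l * (q ^ max i l * (i * Real.log p + l * Real.log p)) :=
      mul_le_mul (mul_le_mul (hQ.le _) (hQ.le _) (abs_nonneg _) (by positivity)) h2
        (hL.nonneg _ _) (by positivity)
    refine h4.trans ?_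
    rcases Nat.eq_zero_or_pos (max i l) with h | h
    · have hi : i = 0 := by omega
      have hl : l = 0 := by omega
      subst hi; subst hl
      simp
    · have h3 := geo_gen (A := A) (q := q) hA hq0 hq (i := i) (l := l) (k := 1) (μ := max i l)
        (by omega) (by omega)
      calc A ^ i * A ^ l * (q ^ max i l * (i * Real.log p + l * Real.log p))
          = (A ^ i * A ^ l * q ^ max i l) * ((i + l) * Real.log p) := by ring
        _ ≤ (((2 * A) ^ 2) ^ 1 * q ^ 1 * ((1 / 2) ^ i * (1 / 2) ^ l)) * ((i + l) * Real.log p) := by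
            gcongr
        _ = _ := by ring
  refine h1.trans ?_
  have h2 : ∑ i ∈ Finset.range N, ∑ l ∈ Finset.range N,
        (4 * A ^ 2 * (q * Real.log p)) * (((i : ℝ) + l) * ((1 / 2) ^ i * (1 / 2) ^ l))
      = (4 * A ^ 2 * (q * Real.log p)) * (2 * ((∑ i ∈ Finset.range N, (i : ℝ) * (1 / 2) ^ i)
        * ∑ l ∈ Finset.range N, (1 / 2 : ℝ) ^ l)) := by
    have e1 : (∑ i ∈ Finset.range N, (i : ℝ) * (1 / 2) ^ i) * ∑ l ∈ Finset.range N, (1 / 2 : ℝ) ^ l
        = ∑ i ∈ Finset.range N, ∑ l ∈ Finset.range N, (i : ℝ) * (1 / 2) ^ i * (1 / 2 : ℝ) ^ l := by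
      rw [Finset.sum_mul_sum]
    have e2 : (∑ i ∈ Finset.range N, (i : ℝ) * (1 / 2) ^ i) * ∑ l ∈ Finset.range N, (1 / 2 : ℝ) ^ l
        = ∑ i ∈ Finset.range N, ∑ l ∈ Finset.range N, (1 / 2 : ℝ) ^ i * ((l : ℝ) * (1 / 2) ^ l) := by
      rw [mul_comm, Finset.sum_mul_sum]
    rw [two_mul]
    nth_rewrite 1 [e1]
    rw [e2, ← Finset.sum_add_distrib, Finset.mul_sum]
    refine Finset.sum_congr rfl fun i _ => ?_
    rw [← Finset.sum_add_distrib, Finset.mul_sum]
    refine Finset.sum_congr rfl fun l _ => ?_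
    ring
  rw [h2]
  have h3 := sum_half_le_two N
  have h4 := sum_i_half_le_two N
  have h5 : 0 ≤ ∑ l ∈ Finset.range N, (1 / 2 : ℝ) ^ l := Finset.sum_nonneg fun l _ => by positivity
  calc (4 * A ^ 2 * (q * Real.log p)) * (2 * ((∑ i ∈ Finset.range N, (i : ℝ) * (1 / 2) ^ i)
        * ∑ l ∈ Finset.range N, (1 / 2 : ℝ) ^ l)) ≤ (4 * A ^ 2 * (q * Real.log p)) * (2 * (2 * 2)) := by
        gcongr
    _ = _ := by ring

/-- upper bounds for both forms of a product of local factors -/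
lemma FQ_K2LG {L : ℕ → ℕ → ℝ} (hL : LogKer L) {I : Finset ℕ} (hI : ∀ p ∈ I, p.Prime) {A c : ℝ}
    {Q : Polynomial ℝ} (hQ : Cg A c Q) (hA : 1 ≤ A) (hpA : ∀ p ∈ I, (2 * A) ^ 2 ≤ (p : ℝ)) :
    |BK K2 (FQ Q I) (FQ Q I)| ≤ Real.exp ((2 * c + c ^ 2) * VV I + 64 * A ^ 4 * V2 I) ∧
    |BK L (FQ Q I) (FQ Q I)| ≤ 64 * A ^ 2 * LL I
      * Real.exp ((2 * c + c ^ 2) * VV I + 64 * A ^ 4 * V2 I) := by
  have hc : -1 ≤ 2 * c + c ^ 2 := by nlinarith [sq_nonneg (c + 1)]
  have h := prod_boundsL hL I (fun p => {p}) disj_single (fun p => loc p Q)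
    (fun p hp => sup_loc' (hI p hp) Q)
    (fun p => Real.exp ((2 * c + c ^ 2) * (p : ℝ)⁻¹ + 64 * A ^ 4 * ((p : ℝ)⁻¹) ^ 2))
    (fun p => 64 * A ^ 2 * ((p : ℝ)⁻¹ * Real.log p))
    (fun p _ => (Real.exp_pos _).le)
    (fun p _ => mul_nonneg (by positivity) (mul_nonneg (by positivity) (Real.log_natCast_nonneg p)))
    ?_ ?_
  · rw [← Real.exp_sum, Finset.sum_add_distrib, ← Finset.mul_sum, ← Finset.mul_sum,
      ← Finset.mul_sum] at h
    exact h
  · intro p hp
    have hpp := hI p hp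
    have h1 := local_formG mk_K2 hpp hQ hQ hA (hpA p hp)
    rw [K2_p1 hpp, K2_1p hpp, K2_pp hpp] at h1
    have hq1 := inv_le_half hpp
    have hq0 : (0 : ℝ) < (p : ℝ)⁻¹ := by have := hpp.pos; positivity
    set q := (p : ℝ)⁻¹ with hq
    rw [abs_le] at h1
    have h2 := Real.add_one_le_exp ((2 * c + c ^ 2) * q + 64 * A ^ 4 * q ^ 2)
    have h3 : 0 ≤ 1 + (2 * c + c ^ 2) * q := by nlinarith
    rw [abs_le]
    constructor
    · nlinarith [h1.1]
    · nlinarith [h1.2]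
  · intro p hp
    have hpp := hI p hp
    have h1 := local_formLG hL hpp hQ hA (hpA p hp)
    refine h1.trans ?_
    have hq1 := inv_le_half hpp
    have hlog : 0 ≤ Real.log p := Real.log_natCast_nonneg p
    have hq0 : (0 : ℝ) < (p : ℝ)⁻¹ := by have := hpp.pos; positivity
    set q := (p : ℝ)⁻¹ with hq
    have h3 : (1 : ℝ) / 2 ≤ Real.exp ((2 * c + c ^ 2) * q + 64 * A ^ 4 * q ^ 2) := by
      refine exp_neg_half.trans (Real.exp_le_exp.mpr ?_)
      have : 0 ≤ 64 * A ^ 4 * q ^ 2 := by positivity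
      nlinarith
    calc 32 * A ^ 2 * (q * Real.log p)
        = 64 * A ^ 2 * (q * Real.log p) * (1 / 2) := by ring
      _ ≤ _ := by gcongr

/-! ### coefficients of products of local factors -/

lemma coeff_loc_mul {p : ℕ} (hp : p.Prime) (Q : Polynomial ℝ) {f : DP} {A : Set ℕ}
    (hf : Sup (Smo A) f) (hpA : p ∉ A) {n : ℕ} (hn : n ≠ 0) :
    (loc p Q * f).coeff n = Q.coeff (n.factorization p) * f.coeff (n / p ^ n.factorization p) := by
  rw [loc_eq_sum p Q (N := Q.natDegree + 1) (by omega), Finset.sum_mul, MonoidAlgebra.coeff_sum,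
    Finsupp.finsetSum_apply]
  have hterm : ∀ i, ((Q.coeff i • MonoidAlgebra.single (p ^ i) (1 : ℝ)) * f).coeff n
      = Q.coeff i * (if p ^ i ∣ n then f.coeff (n / p ^ i) else 0) := by
    intro i
    rw [smul_mul_assoc, MonoidAlgebra.coeff_smul, Finsupp.smul_apply, smul_eq_mul,
      coeff_single_mul _ (pow_ne_zero _ hp.ne_zero)]
  set v := n.factorization p with hv
  have hlt : ∀ i, i ≠ v → (if p ^ i ∣ n then f.coeff (n / p ^ i) else 0) = 0 := by
    intro i hi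
    split_ifs with h
    · by_contra h0
      have h1 := hf _ h0
      have h2 : i ≤ v := (hp.pow_dvd_iff_le_factorization hn).1 h
      have h3 : p ^ (i + 1) ∣ n := (hp.pow_dvd_iff_le_factorization hn).2 (by omega)
      have h4 : p ∣ n / p ^ i := by
        obtain ⟨c, hc⟩ := h3
        refine ⟨c, ?_⟩
        rw [hc, pow_succ, mul_assoc, Nat.mul_div_cancel_left _ (pow_pos hp.pos _)]
      exact hpA (h1.2 p hp h4)
    · rfl
  simp only [hterm]
  rcases Nat.lt_or_ge v (Q.natDegree + 1) with h | h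
  · rw [Finset.sum_eq_single v]
    · rw [if_pos ((hp.pow_dvd_iff_le_factorization hn).2 le_rfl)]
    · intro i _ hi
      rw [hlt i hi, mul_zero]
    · intro h1
      exact absurd (Finset.mem_range.mpr h) h1
  · rw [Polynomial.coeff_eq_zero_of_natDegree_lt (by omega), zero_mul]
    refine Finset.sum_eq_zero fun i hi => ?_
    rw [Finset.mem_range] at hi
    rw [hlt i (by omega), mul_zero]

lemma sup_FQ {I : Finset ℕ} (hI : ∀ p ∈ I, p.Prime) (Q : Polynomial ℝ) :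
    Sup (Smo (I : Set ℕ)) (FQ Q I) := by
  unfold FQ
  refine Sup.prod I (fun p hp => (sup_loc' (hI p hp) Q).mono (Smo_mono ?_)) (one_mem_Smo _)
    (fun a ha b hb => mul_mem_Smo ha hb)
  intro q hq
  rw [Finset.mem_coe, Finset.mem_singleton] at hq
  rw [hq]; exact Finset.mem_coe.2 hp

lemma coeff_FQ (Q : Polynomial ℝ) {I : Finset ℕ} (hI : ∀ p ∈ I, p.Prime) {n : ℕ}
    (hn : n ∈ Smo (I : Set ℕ)) : (FQ Q I).coeff n = ∏ p ∈ I, Q.coeff (n.factorization p) := by
  classical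
  induction I using Finset.induction_on generalizing n with
  | empty =>
    have h1 : n = 1 := by
      by_contra h
      obtain ⟨q, hq, hqn⟩ := Nat.exists_prime_and_dvd h
      have := hn.2 q hq hqn
      simp at this
    subst h1
    unfold FQ
    rw [Finset.prod_empty, Finset.prod_empty, MonoidAlgebra.one_def, MonoidAlgebra.coeff_single,
      Finsupp.single_apply]
    simp
  | insert p I hpI ih =>
    have hpp : p.Prime := hI p (Finset.mem_insert_self _ _)
    have hI' : ∀ q ∈ I, q.Prime := fun q hq => hI q (Finset.mem_insert_of_mem hq)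
    have e : FQ Q (insert p I) = loc p Q * FQ Q I := by unfold FQ; rw [Finset.prod_insert hpI]
    rw [e, coeff_loc_mul hpp Q (sup_FQ hI' Q) (by exact_mod_cast hpI) hn.1, Finset.prod_insert hpI]
    congr 1
    have hd : p ^ n.factorization p ∣ n := Nat.ordProj_dvd n p
    have hn' : n / p ^ n.factorization p ∈ Smo (I : Set ℕ) := by
      refine ⟨(Nat.div_pos (Nat.le_of_dvd (Nat.pos_of_ne_zero hn.1) hd) (pow_pos hpp.pos _)).ne', ?_⟩
      intro q hq hqd
      have h1 := hn.2 q hq (hqd.trans (Nat.div_dvd_of_dvd hd))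
      rw [Finset.mem_coe, Finset.mem_insert] at h1
      rcases h1 with h | h
      · exfalso
        subst h
        exact Nat.not_dvd_ordCompl hq hn.1 hqd
      · exact Finset.mem_coe.2 h
    rw [ih hI' hn']
    refine Finset.prod_congr rfl fun q hq => ?_
    have hqp : q ≠ p := by rintro rfl; exact hpI hq
    congr 1
    rw [Nat.factorization_ordCompl, Finsupp.erase_ne hqp]

lemma Omega_eq_sum {I : Finset ℕ} {n : ℕ} (hn : n ∈ Smo (I : Set ℕ)) :
    Ω n = ∑ p ∈ I, n.factorization p := by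
  rw [ArithmeticFunction.cardFactors_eq_sum_factorization, Finsupp.sum]
  refine Finset.sum_subset ?_ fun p _ hp => Finsupp.notMem_support_iff.mp hp
  intro p hp
  rw [Nat.support_factorization] at hp
  exact Finset.mem_coe.1 (hn.2 p (Nat.prime_of_mem_primeFactors hp) (Nat.dvd_of_mem_primeFactors hp))

lemma coeff_FQ_GE (t : ℝ) (M : ℕ) {I : Finset ℕ} (hI : ∀ p ∈ I, p.Prime) {n : ℕ}
    (hn : n ∈ Smo (I : Set ℕ)) : (FQ (GE t M) I).coeff n
      = if ∀ p ∈ I, n.factorization p ≤ M then t ^ Ω n else 0 := by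
  rw [coeff_FQ _ hI hn]
  split_ifs with h
  · rw [Omega_eq_sum hn, ← Finset.prod_pow_eq_pow_sum]
    refine Finset.prod_congr rfl fun p hp => ?_
    rw [coeff_GE, if_pos (h p hp)]
  · push Not at h
    obtain ⟨p, hp, h⟩ := h
    refine Finset.prod_eq_zero hp ?_
    rw [coeff_GE, if_neg (by omega)]

lemma fact_le_Omega {I : Finset ℕ} {n : ℕ} (hn : n ∈ Smo (I : Set ℕ)) {p : ℕ} (hp : p ∈ I) :
    n.factorization p ≤ Ω n := by
  rw [Omega_eq_sum hn]
  exact Finset.single_le_sum (f := fun p => n.factorization p) (fun _ _ => Nat.zero_le _) hp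

section doms

variable {I : Finset ℕ} (hI : ∀ p ∈ I, p.Prime) (M : ℕ)

include hI

lemma dom_ind_diff : Dom (FQ (GE 1 M) I - ind M I) ((1 / 2 ^ M : ℝ) • FQ (GE 2 M) I) := by
  intro n
  rw [MonoidAlgebra.coeff_sub, Finsupp.sub_apply, MonoidAlgebra.coeff_smul, Finsupp.smul_apply,
    smul_eq_mul, coeff_ind]
  by_cases hn : n ∈ Smo (I : Set ℕ)
  · rw [coeff_FQ_GE _ _ hI hn, coeff_FQ_GE _ _ hI hn]
    by_cases hv : ∀ p ∈ I, n.factorization p ≤ M
    · rw [if_pos hv, if_pos hv, one_pow]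
      by_cases hO : Ω n ≤ M
      · rw [if_pos ((mem_indS hI).2 ⟨hn, hO⟩), sub_self, abs_zero]
        positivity
      · rw [if_neg (fun h => hO ((mem_indS hI).1 h).2), sub_zero, abs_one, one_div_mul_eq_div,
          one_le_div (by positivity)]
        exact pow_le_pow_right₀ one_le_two (by omega)
    · rw [if_neg hv, if_neg hv, mul_zero, if_neg, sub_zero, abs_zero]
      intro h
      push Not at hv
      obtain ⟨p, hp, hv⟩ := hv
      have h1 := fact_le_Omega hn hp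
      have h2 := ((mem_indS hI).1 h).2
      omega
  · have h1 : (FQ (GE 1 M) I).coeff n = 0 := by
      by_contra h; exact hn (sup_FQ hI _ n h)
    have h2 : (FQ (GE 2 M) I).coeff n = 0 := by
      by_contra h; exact hn (sup_FQ hI _ n h)
    rw [h1, h2, if_neg (fun h => hn ((mem_indS hI).1 h).1)]
    simp

lemma dom_GE12 : Dom (FQ (GE 1 M) I) (FQ (GE 2 M) I) := by
  intro n
  by_cases hn : n ∈ Smo (I : Set ℕ)
  · rw [coeff_FQ_GE _ _ hI hn, coeff_FQ_GE _ _ hI hn]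
    split_ifs
    · rw [one_pow, abs_one]
      exact one_le_pow₀ one_le_two
    · simp
  · have h1 : (FQ (GE 1 M) I).coeff n = 0 := by
      by_contra h; exact hn (sup_FQ hI _ n h)
    have h2 : (FQ (GE 2 M) I).coeff n = 0 := by
      by_contra h; exact hn (sup_FQ hI _ n h)
    rw [h1, h2, abs_zero]

lemma dom_ind_GE2 : Dom (ind M I) (FQ (GE 2 M) I) := by
  intro n
  rw [coeff_ind]
  by_cases hn : n ∈ indS M I
  · have h := (mem_indS hI).1 hn
    rw [if_pos hn, coeff_FQ_GE _ _ hI h.1, if_pos fun p hp => (fact_le_Omega h.1 hp).trans h.2,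
      abs_one]
    exact one_le_pow₀ one_le_two
  · rw [if_neg hn, abs_zero]
    exact (dom_GE12 hI M).nonneg n

end doms

end Pool.Agent.Lib.MP_f9aece_nt_h40
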