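import Mathlib
import Pool.Agent.Lib.MP_f9aece_nt_h40.RightB
import Pool.Agent.Lib.MP_f9aece_nt_h40.RightC

/-!
Forms of the product of the indicator polynomial and two truncated exponentials; assembly over
the scales.
-/

set_option autoImplicit false

namespace Pool.Agent.Lib.MP_f9aece_nt_h40

open MeasureTheory Set Filter Topology Complex
open Pool.Agent.Lib.MP_f9aece_nt
open Pool.Agent.Lib.MP_f9aece_nt_h97
open scoped ArithmeticFunction.Omega

/-- block of `EI * n * d` -/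
noncomputable def EG (b : ℝ) (M : ℕ) (I : Finset ℕ) : DP := ind M I * expo b M I * expo (-1) M I

/-- product of local factors -/
noncomputable def FG (b : ℝ) (M : ℕ) (I : Finset ℕ) : DP := FQ (GE 1 M) I * FF b M I * FF (-1) M I

/-- dominating product -/
noncomputable def GG (M : ℕ) (I : Finset ℕ) : DP := FQ (GE 2 M) I * FF 2 M I * FF 2 M I

/-- bound of the dominating forms -/
noncomputable def E8 : ℝ := Real.exp (12 * (48 + 82944))

lemma E8_pos : 0 < E8 := Real.exp_pos _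

/-- error of a block -/
noncomputable def tg (M : ℕ) : ℝ := 24 * E8 / 2 ^ M

lemma tg_nonneg (M : ℕ) : 0 ≤ tg M := by unfold tg; have := E8_pos; positivity

section block

variable {I : Finset ℕ} (hI : ∀ p ∈ I, p.Prime) {b : ℝ} {M : ℕ}

include hI

omit hI in
lemma FG_eq : FG b M I = FQ (GE 1 M * TE b M * TE (-1) M) I := by
  unfold FG
  rw [FQ_mul, FQ_mul, FQ_TE, FQ_TE]

omit hI in
lemma GG_eq : GG M I = FQ (GE 2 M * TE 2 M * TE 2 M) I := by
  unfold GG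
  rw [FQ_mul, FQ_mul, FQ_TE]

lemma dom_FG (hb : |b| ≤ 1) : Dom (FG b M I) (GG M I) :=
  ((dom_GE12 hI M).mul (dom_FF hI (by linarith) M)).mul (dom_FF hI (by norm_num) M)

lemma dom_diffG (hb : |b| ≤ 1) : Dom (FG b M I - EG b M I) ((4 * (1 / 2 ^ M : ℝ)) • GG M I) := by
  set G1 := FQ (GE 2 M) I with hG1
  set G := FF 2 M I with hG
  have hGn : ∀ n, 0 ≤ G.coeff n := (dom_FF hI (c := 2) (d := 2) (by norm_num) M).nonneg
  set δ : ℝ := 1 / 2 ^ M with hδ
  have hR : ∀ c : ℝ, |c| ≤ 1 → Dom (FF c M I - expo c M I) (δ • G) := fun c hc =>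
    (dom_diff hI hc M M le_rfl).trans' (by rw [hδ]; gcongr) hGn
  have hF : ∀ c : ℝ, |c| ≤ 1 → Dom (FF c M I) G := fun c hc => dom_FF hI (by linarith) M
  have hE : ∀ c : ℝ, |c| ≤ 1 → Dom (expo c M I) ((2 : ℝ) • G) := fun c hc => dom_expo2 hI hc M
  have h1 : |(-1 : ℝ)| ≤ 1 := by simp
  have e : FG b M I - EG b M I
      = (FQ (GE 1 M) I - ind M I) * FF b M I * FF (-1) M I
        + ind M I * (FF b M I - expo b M I) * FF (-1) M I
        + ind M I * expo b M I * (FF (-1) M I - expo (-1) M I) := by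
    unfold FG EG
    ring
  have t : (4 * δ) • GG M I = (δ • G1) * G * G + G1 * (δ • G) * G + G1 * ((2 : ℝ) • G) * (δ • G) := by
    unfold GG
    rw [← hG, ← hG1]
    simp only [smul_mul_assoc, mul_smul_comm, smul_smul]
    rw [← add_smul, ← add_smul]
    congr 1
    ring
  rw [e, t]
  exact ((((dom_ind_diff hI M).mul (hF b hb)).mul (hF _ h1)).add
    (((dom_ind_GE2 hI M).mul (hR b hb)).mul (hF _ h1))).add
    (((dom_ind_GE2 hI M).mul (hE b hb)).mul (hR _ h1))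

lemma truncG {K : ℕ → ℕ → ℝ} (hK0 : ∀ a b, 0 ≤ K a b) (hb : |b| ≤ 1) :
    |BK K (EG b M I) (EG b M I) - BK K (FG b M I) (FG b M I)|
      ≤ 24 / 2 ^ M * |BK K (GG M I) (GG M I)| := by
  set G := GG M I with hG
  set δ : ℝ := 1 / 2 ^ M with hδ
  have hδ0 : 0 ≤ δ := by positivity
  have hδ1 : δ ≤ 1 := by
    rw [hδ, div_le_one (by positivity)]
    exact one_le_pow₀ (by norm_num)
  have hd := dom_diffG (M := M) hI hb
  have hF := dom_FG (M := M) hI hb
  rw [← hδ, ← hG] at hd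
  rw [← hG] at hF
  set A := FG b M I with hA
  set R := A - EG b M I with hR
  have e1 : EG b M I = A + (-1 : ℝ) • R := by rw [hR, neg_one_smul]; abel
  have e3 : BK K (EG b M I) (EG b M I) - BK K A A = - BK K A R - BK K R A + BK K R R := by
    rw [e1, BK_add_left, BK_add_right, BK_add_right, BK_smul_left, BK_smul_right, BK_smul_left,
      BK_smul_right]
    ring
  set g := |BK K G G| with hg
  have hg0 : 0 ≤ g := abs_nonneg _
  have hgg : BK K G G ≤ g := le_abs_self _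
  have a1 : |BK K A R| ≤ 4 * δ * g := by
    have := abs_BK_le_of_dom hK0 hF hd
    rw [BK_smul_right] at this
    refine this.trans (by gcongr)
  have a2 : |BK K R A| ≤ 4 * δ * g := by
    have := abs_BK_le_of_dom hK0 hd hF
    rw [BK_smul_left] at this
    refine this.trans (by gcongr)
  have a3 : |BK K R R| ≤ 16 * δ * g := by
    have := abs_BK_le_of_dom hK0 hd hd
    rw [BK_smul_left, BK_smul_right] at this
    refine this.trans ?_
    calc 4 * δ * (4 * δ * BK K G G) ≤ 4 * δ * (4 * δ * g) := by gcongr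
      _ = 16 * δ * g * δ := by ring
      _ ≤ 16 * δ * g * 1 := by gcongr
      _ = _ := by ring
  rw [e3]
  have h4 : |-BK K A R - BK K R A + BK K R R| ≤ |BK K A R| + |BK K R A| + |BK K R R| := by
    refine (abs_add_le _ _).trans ?_
    gcongr
    refine (abs_sub _ _).trans ?_
    rw [abs_neg]
  refine h4.trans ?_
  have e5 : 24 / 2 ^ M * g = 24 * δ * g := by rw [hδ]; ring
  rw [e5]
  linarith

lemma GG_bounds {L : ℕ → ℕ → ℝ} (hL : LogKer L) (hp : ∀ p ∈ I, (144 : ℝ) ≤ (p : ℝ)) (hM : 1 ≤ M)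
    (hV : VV I ≤ 12) :
    |BK K2 (GG M I) (GG M I)| ≤ E8 ∧ |BK L (GG M I) (GG M I)| ≤ 2304 * LL I * E8 := by
  have hQ : Cg 6 6 (GE 2 M * TE 2 M * TE 2 M) := by
    have := ((cg_GE (t := 2) zero_le_two hM).mul (cf_TE 2 hM).cg).mul (cf_TE 2 hM).cg
    norm_num at this
    exact this
  obtain ⟨h1, h2⟩ := FQ_K2LG hL hI hQ (by norm_num) (fun p hpI => by
    have h := hp p hpI
    have e : (2 * (6 : ℝ)) ^ 2 = 144 := by norm_num
    rw [e]
    exact h)
  rw [← GG_eq] at h1 h2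
  have hVn := VV_nonneg I
  have hV2 := V2_nonneg I
  have hV2' := V2_le_VV hI
  have hLL := LL_nonneg I
  have h3 : Real.exp ((2 * 6 + 6 ^ 2) * VV I + 64 * 6 ^ 4 * V2 I) ≤ E8 := by
    unfold E8
    apply Real.exp_le_exp.mpr
    norm_num
    linarith
  refine ⟨h1.trans h3, h2.trans ?_⟩
  have e2 : (64 : ℝ) * 6 ^ 2 = 2304 := by norm_num
  rw [e2]
  gcongr

/-- forms of a block of `EI * n * d` -/
lemma blockG {L : ℕ → ℕ → ℝ} (hL : LogKer L) (hp : ∀ p ∈ I, (144 : ℝ) ≤ (p : ℝ)) (hM : 1 ≤ M)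
    (hV : VV I ≤ 12) (hb0 : 0 ≤ b) (hb : b ≤ 1) (ht : tg M ≤ 1) :
    |BK K2 (EG b M I) (EG b M I)| ≤ Real.exp ((2 * b + b ^ 2) * VV I + 5184 * V2 I + tg M) ∧
    |BK L (EG b M I) (EG b M I)|
      ≤ 2880 * LL I * Real.exp ((2 * b + b ^ 2) * VV I + 5184 * V2 I + tg M) := by
  have hbb : |b| ≤ 1 := by rw [abs_of_nonneg hb0]; exact hb
  have hQ : Cg 3 b (GE 1 M * TE b M * TE (-1) M) := by
    have h := ((cg_GE (t := 1) zero_le_one hM).mul (cf_TE b hM).cg).mul (cf_TE (-1) hM).cg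
    have h1 : |(-1 : ℝ)| = 1 := by simp
    rw [h1] at h
    have h2 : 1 + b + -1 = b := by ring
    rw [h2] at h
    exact h.mono (by linarith)
  obtain ⟨f1, f2⟩ := FQ_K2LG hL hI hQ (by norm_num) (fun p hpI => by
    have h := hp p hpI
    have e : (2 * (3 : ℝ)) ^ 2 = 36 := by norm_num
    rw [e]
    linarith)
  rw [← FG_eq] at f1 f2
  have e1 : (64 : ℝ) * 3 ^ 4 = 5184 := by norm_num
  have e2 : (64 : ℝ) * 3 ^ 2 = 576 := by norm_num
  rw [e1] at f1 f2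
  rw [e2] at f2
  have t1 := truncG (M := M) hI K2_nonneg hbb
  have t2 := truncG (M := M) hI hL.nonneg hbb
  obtain ⟨g1, g2⟩ := GG_bounds hI hL hp hM hV
  have hVn := VV_nonneg I
  have hV2 := V2_nonneg I
  have hLL := LL_nonneg I
  have hE8 := E8_pos
  set X := Real.exp ((2 * b + b ^ 2) * VV I + 5184 * V2 I) with hX
  have hX1 : 1 ≤ X := Real.one_le_exp (by positivity)
  rw [Real.exp_add]
  have h4 := Real.add_one_le_exp (tg M)
  have htg := tg_nonneg M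
  have t3 := abs_sub_abs_le_abs_sub (BK K2 (EG b M I) (EG b M I)) (BK K2 (FG b M I) (FG b M I))
  have t4 := abs_sub_abs_le_abs_sub (BK L (EG b M I) (EG b M I)) (BK L (FG b M I) (FG b M I))
  constructor
  · have t5 : 24 / 2 ^ M * |BK K2 (GG M I) (GG M I)| ≤ tg M := by
      unfold tg
      calc 24 / 2 ^ M * |BK K2 (GG M I) (GG M I)| ≤ 24 / 2 ^ M * E8 := by gcongr
        _ = _ := by ring
    calc |BK K2 (EG b M I) (EG b M I)| ≤ X + tg M := by linarith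
      _ ≤ X * (tg M + 1) := by nlinarith
      _ ≤ _ := by gcongr
  · have t5 : 24 / 2 ^ M * |BK L (GG M I) (GG M I)| ≤ 2304 * LL I := by
      calc 24 / 2 ^ M * |BK L (GG M I) (GG M I)| ≤ 24 / 2 ^ M * (2304 * LL I * E8) := by gcongr
        _ = 2304 * LL I * tg M := by unfold tg; ring
        _ ≤ 2304 * LL I * 1 := by gcongr
        _ = _ := mul_one _
    have hE : 1 ≤ Real.exp (tg M) := Real.one_le_exp htg
    calc |BK L (EG b M I) (EG b M I)| ≤ 576 * LL I * X + 2304 * LL I := by linarith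
      _ ≤ 2880 * LL I * (X * 1) := by nlinarith
      _ ≤ _ := by gcongr

end block

/-! ### scales -/

/-- indicator polynomial over all scales -/
noncomputable def EI (m p0 : ℕ) (Y : ℝ) (J : ℕ) : DP :=
  ∏ j ∈ Finset.range J, ind (Mm m j) (sc Y p0 j)

/-- Euler product over the primes of the scales -/
noncomputable def Wsc (p0 : ℕ) (Y : ℝ) (J : ℕ) : ℝ :=
  ∏ p ∈ (Finset.range J).biUnion (sc Y p0), (1 - (p : ℝ)⁻¹)⁻¹

section scales

variable {m p0 J : ℕ} {Y b : ℝ}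

lemma Wsc_eq_prod (hY : 0 < Y) : Wsc p0 Y J = ∏ j ∈ Finset.range J, WW 1 (sc Y p0 j) := by
  unfold Wsc WW
  rw [Finset.prod_biUnion]
  · simp only [one_mul]
  · intro i _ j _ hij
    exact sc_disjoint hY hij

/-- the primes of the scales -/
lemma biUnion_sc_eq (hY : 0 < Y) (hJ : Y / 4 ^ J < Real.log 2) :
    (Finset.range J).biUnion (sc Y p0) = (Finset.Ioc p0 ⌊Real.exp Y⌋₊).filter Nat.Prime := by
  ext p
  rw [Finset.mem_biUnion, Finset.mem_filter, Finset.mem_Ioc]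
  constructor
  · rintro ⟨j, _, hj⟩
    rw [mem_sc, Finset.mem_Icc] at hj
    exact ⟨⟨hj.2.2.1, hj.1.2⟩, hj.2.1⟩
  · rintro ⟨⟨h1, h2⟩, hp⟩
    have hp0' : (0 : ℝ) < p := by exact_mod_cast hp.pos
    have hlogp : Real.log p ≤ Y := by
      rw [Real.log_le_iff_le_exp hp0']
      exact (Nat.le_floor_iff (Real.exp_pos Y).le).mp h2
    have hlog2 : Real.log 2 ≤ Real.log p := by
      apply Real.log_le_log (by norm_num)
      exact_mod_cast hp.two_le
    have hex : ∃ j, Y / 4 ^ (j + 1) < Real.log p := by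
      refine ⟨J, ?_⟩
      have : Y / 4 ^ (J + 1) ≤ Y / 4 ^ J := by
        apply div_le_div_of_nonneg_left hY.le (by positivity)
        exact pow_le_pow_right₀ (by norm_num) (by omega)
      linarith
    classical
    set j := Nat.find hex with hj
    have hj1 : Y / 4 ^ (j + 1) < Real.log p := Nat.find_spec hex
    have hj2 : Real.log p ≤ Y / 4 ^ j := by
      rcases Nat.eq_zero_or_pos j with h0 | h0
      · rw [h0]; simpa using hlogp
      · have := Nat.find_min hex (m := j - 1) (by omega)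
        rw [not_lt] at this
        have e : j - 1 + 1 = j := by omega
        rw [e] at this
        exact this
    have hjJ : j < J := by
      by_contra hcon
      rw [not_lt] at hcon
      have : Y / 4 ^ j ≤ Y / 4 ^ J := by
        apply div_le_div_of_nonneg_left hY.le (by positivity)
        exact pow_le_pow_right₀ (by norm_num) hcon
      linarith
    refine ⟨j, Finset.mem_range.mpr hjJ, ?_⟩
    rw [mem_sc, Finset.mem_Icc]
    exact ⟨⟨hp.one_le, h2⟩, hp, h1, hj1, hj2⟩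

lemma DD_EG : EI m p0 Y J * DD m p0 b Y J * DD m p0 (-1) Y J
    = ∏ j ∈ Finset.range J, EG b (Mm m j) (sc Y p0 j) := by
  unfold DD EG EI
  rw [Finset.prod_mul_distrib, Finset.prod_mul_distrib]

lemma EI_mul_DD : EI m p0 Y J * DD m p0 b Y J
    = ∏ j ∈ Finset.range J, (ind (Mm m j) (sc Y p0 j) * expo b (Mm m j) (sc Y p0 j)) := by
  unfold DD EI
  rw [Finset.prod_mul_distrib]

lemma sup_EG {I : Finset ℕ} (hI : ∀ p ∈ I, p.Prime) (b : ℝ) (M : ℕ) : Sup (Smo I) (EG b M I) :=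
  ((sup_of_cone ((cone_ind hI M).mono fun _ h => h.1)).mul (sup_expo hI b M)
    fun _ ha _ hb => mul_mem_Smo ha hb).mul (sup_expo hI (-1) M) fun _ ha _ hb => mul_mem_Smo ha hb

/-- geometric decay of the block errors -/
lemma geo_Mm {C : ℝ} (hC : 0 ≤ C) (hm : 1 ≤ m) (j : ℕ) :
    C / 2 ^ (Mm m j) ≤ 2 * C / 2 ^ m * (1 / 2) ^ (j + 1) := by
  unfold Mm
  have h1 : m + j ≤ m * 2 ^ j := by
    have h2 : j + 1 ≤ 2 ^ j := Nat.lt_two_pow_self
    calc m + j ≤ m + m * j := by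
          have : j ≤ m * j := Nat.le_mul_of_pos_left j hm
          omega
      _ = m * (j + 1) := by ring
      _ ≤ _ := Nat.mul_le_mul_left m h2
  have h3 : (2 : ℝ) ^ (m + j) ≤ 2 ^ (m * 2 ^ j) := pow_le_pow_right₀ (by norm_num) h1
  calc C / 2 ^ (m * 2 ^ j) ≤ C / 2 ^ (m + j) := by gcongr
    _ = _ := by
        rw [pow_add 2 m j, one_div, inv_pow, pow_succ]
        field_simp

lemma sum_geo_Mm {C : ℝ} (hC : 0 ≤ C) (hm : 1 ≤ m) (J : ℕ) :
    ∑ j ∈ Finset.range J, C / 2 ^ (Mm m j) ≤ 2 * C / 2 ^ m := by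
  calc ∑ j ∈ Finset.range J, C / 2 ^ (Mm m j)
      ≤ ∑ j ∈ Finset.range J, 2 * C / 2 ^ m * (1 / 2) ^ (j + 1) :=
        Finset.sum_le_sum fun j _ => geo_Mm hC hm j
    _ = 2 * C / 2 ^ m * ∑ j ∈ Finset.range J, (1 / 2 : ℝ) ^ (j + 1) := by rw [Finset.mul_sum]
    _ ≤ 2 * C / 2 ^ m * 1 := by
        have := sum_half_le J
        gcongr
    _ = _ := mul_one _

lemma geo_Mm_le {C : ℝ} (hC : 0 ≤ C) (_hm : 1 ≤ m) (j : ℕ) : C / 2 ^ (Mm m j) ≤ C / 2 ^ m := by
  have : m ≤ Mm m j := by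
    unfold Mm
    exact Nat.le_mul_of_pos_right m (by positivity)
  have h3 : (2 : ℝ) ^ m ≤ 2 ^ Mm m j := pow_le_pow_right₀ (by norm_num) this
  gcongr

lemma prod_one_sub_ge (s : Finset ℕ) (x : ℕ → ℝ) (h0 : ∀ i ∈ s, 0 ≤ x i) (h1 : ∀ i ∈ s, x i ≤ 1) :
    1 - ∑ i ∈ s, x i ≤ ∏ i ∈ s, (1 - x i) := by
  classical
  induction s using Finset.induction_on with
  | empty => simp
  | insert a s ha ih =>
    rw [Finset.sum_insert ha, Finset.prod_insert ha]
    have a0 := h0 a (Finset.mem_insert_self _ _)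
    have a1 := h1 a (Finset.mem_insert_self _ _)
    have ih' := ih (fun i hi => h0 i (Finset.mem_insert_of_mem hi))
      (fun i hi => h1 i (Finset.mem_insert_of_mem hi))
    have hP0 : 0 ≤ ∏ i ∈ s, (1 - x i) :=
      Finset.prod_nonneg fun i hi => by linarith [h1 i (Finset.mem_insert_of_mem hi)]
    have hP1 : ∏ i ∈ s, (1 - x i) ≤ 1 :=
      Finset.prod_le_one (fun i hi => by linarith [h1 i (Finset.mem_insert_of_mem hi)])
        fun i hi => by linarith [h0 i (Finset.mem_insert_of_mem hi)]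
    nlinarith

lemma K1s_one_eq' : K1s 1 = K1 := by
  funext a b
  unfold K1s K1
  rw [Real.rpow_neg_one]

lemma sc_ge (hp0 : 144 ≤ p0) (j : ℕ) : ∀ p ∈ sc Y p0 j, (144 : ℝ) ≤ (p : ℝ) := by
  intro p hp
  have h1 : p0 < p := (mem_sc.mp hp).2.2.1
  exact_mod_cast (by omega : 144 ≤ p)

/-- the energy inequality `(E1)` with all intermediate bounds -/
theorem E1_bounds (hY : 0 < Y) (hm : 1 ≤ m) (hm2 : C7 / 2 ^ m ≤ 1) (hp0 : 144 ≤ p0) (hb0 : 0 ≤ b)
    (hb : b ≤ 1 / 2) (J : ℕ) :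
    0 ≤ BK K1 (EI m p0 Y J * DD m p0 b Y J) (EI m p0 Y J * DD m p0 b Y J) ∧
    BK K1 (EI m p0 Y J * DD m p0 b Y J) (EI m p0 Y J * DD m p0 b Y J)
      ≤ BK (Kcs 1) (DD m p0 b Y J) (EI m p0 Y J * DD m p0 b Y J) ∧
    BK (Kcs 1) (DD m p0 b Y J) (EI m p0 Y J * DD m p0 b Y J)
      ≤ Wsc p0 Y J * BK K2 (DD m p0 b Y J) (DD m p0 b Y J) ∧
    Wsc p0 Y J * BK K2 (DD m p0 b Y J) (DD m p0 b Y J) * (1 - 2 * C7 / 2 ^ m)
      ≤ BK (Kcs 1) (DD m p0 b Y J) (EI m p0 Y J * DD m p0 b Y J) ∧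
    1 ≤ BK K2 (DD m p0 b Y J) (DD m p0 b Y J) ∧ 1 ≤ Wsc p0 Y J := by
  have hC7 := C7_pos
  have key := fun j : ℕ => block_E1 (I := sc Y p0 j) (fun p hp => sc_prime hp)
    (fun p hp => by linarith [sc_ge hp0 j p hp]) (VV_sc_le hY p0 j) hb0 hb (Mm m j)
  have hsn : ∀ j ∈ Finset.range J, Sup (Smo (sc Y p0 j)) (expo b (Mm m j) (sc Y p0 j)) :=
    fun j _ => sup_expo (fun p hp => sc_prime hp) _ _
  have hse : ∀ j ∈ Finset.range J,
      Sup (Smo (sc Y p0 j)) (ind (Mm m j) (sc Y p0 j) * expo b (Mm m j) (sc Y p0 j)) :=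
    fun j _ => (sup_of_cone ((cone_ind (fun p hp => sc_prime hp) _).mono fun _ h => h.1)).mul
      (sup_expo (fun p hp => sc_prime hp) _ _) fun _ ha _ hb => mul_mem_Smo ha hb
  have e1 : BK K1 (EI m p0 Y J * DD m p0 b Y J) (EI m p0 Y J * DD m p0 b Y J)
      = ∏ j ∈ Finset.range J, BK K1 (ind (Mm m j) (sc Y p0 j) * expo b (Mm m j) (sc Y p0 j))
        (ind (Mm m j) (sc Y p0 j) * expo b (Mm m j) (sc Y p0 j)) := by
    rw [EI_mul_DD, ← K1s_one_eq', BK_prod_MK (mk_K1s le_rfl) (Finset.range J) (sc Y p0)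
      (fun _ _ _ _ h => sc_disjoint hY h) _ _ hse hse]
  have e2 : BK (Kcs 1) (DD m p0 b Y J) (EI m p0 Y J * DD m p0 b Y J)
      = ∏ j ∈ Finset.range J, BK (Kcs 1) (expo b (Mm m j) (sc Y p0 j))
        (ind (Mm m j) (sc Y p0 j) * expo b (Mm m j) (sc Y p0 j)) := by
    rw [EI_mul_DD]
    unfold DD
    rw [BK_prod_MK (mk_Kcs le_rfl) (Finset.range J) (sc Y p0)
      (fun _ _ _ _ h => sc_disjoint hY h) _ _ hsn hse]
  have e3 : BK K2 (DD m p0 b Y J) (DD m p0 b Y J)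
      = ∏ j ∈ Finset.range J, BK K2 (expo b (Mm m j) (sc Y p0 j)) (expo b (Mm m j) (sc Y p0 j)) := by
    unfold DD
    rw [BK_prod_MK mk_K2 (Finset.range J) (sc Y p0)
      (fun _ _ _ _ h => sc_disjoint hY h) _ _ hsn hsn]
  rw [e1, e2, e3, Wsc_eq_prod hY]
  have hW1 : ∀ j : ℕ, 1 ≤ WW 1 (sc Y p0 j) := fun j =>
    one_le_WW zero_le_one (fun p hp => sc_prime hp) fun p hp => by linarith [sc_ge hp0 j p hp]
  have hS1 : ∀ j : ℕ, 1 ≤ BK K2 (expo b (Mm m j) (sc Y p0 j)) (expo b (Mm m j) (sc Y p0 j)) :=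
    fun j => (key j).2.2.2.2
  have hWp : (1 : ℝ) ≤ ∏ j ∈ Finset.range J, WW 1 (sc Y p0 j) := by
    have h0 : ∏ _j ∈ Finset.range J, (1 : ℝ) ≤ ∏ j ∈ Finset.range J, WW 1 (sc Y p0 j) :=
      Finset.prod_le_prod (fun _ _ => zero_le_one) fun j _ => hW1 j
    rwa [Finset.prod_const_one] at h0
  have hSp : (1 : ℝ) ≤ ∏ j ∈ Finset.range J,
      BK K2 (expo b (Mm m j) (sc Y p0 j)) (expo b (Mm m j) (sc Y p0 j)) := by
    have h0 : ∏ _j ∈ Finset.range J, (1 : ℝ) ≤ ∏ j ∈ Finset.range J,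
        BK K2 (expo b (Mm m j) (sc Y p0 j)) (expo b (Mm m j) (sc Y p0 j)) :=
      Finset.prod_le_prod (fun _ _ => zero_le_one) fun j _ => hS1 j
    rwa [Finset.prod_const_one] at h0
  refine ⟨Finset.prod_nonneg fun j _ => (key j).1,
    Finset.prod_le_prod (fun j _ => (key j).1) fun j _ => (key j).2.1, ?_, ?_, hSp, hWp⟩
  · rw [← Finset.prod_mul_distrib]
    exact Finset.prod_le_prod (fun j _ => (key j).1.trans (key j).2.1) fun j _ => (key j).2.2.1
  · rw [← Finset.prod_mul_distrib]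
    have h1 := prod_one_sub_ge (Finset.range J) (fun j => C7 / 2 ^ (Mm m j))
      (fun j _ => by positivity) (fun j _ => (geo_Mm_le hC7.le hm j).trans hm2)
    have h2 := sum_geo_Mm hC7.le hm J
    have h3 : 1 - 2 * C7 / 2 ^ m ≤ ∏ j ∈ Finset.range J, (1 - C7 / 2 ^ (Mm m j)) := by linarith
    have hPS : 0 ≤ ∏ j ∈ Finset.range J,
        (WW 1 (sc Y p0 j) * BK K2 (expo b (Mm m j) (sc Y p0 j)) (expo b (Mm m j) (sc Y p0 j))) :=
      Finset.prod_nonneg fun j _ => mul_nonneg (by linarith [hW1 j]) (by linarith [hS1 j])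
    refine (mul_le_mul_of_nonneg_left h3 hPS).trans ?_
    rw [← Finset.prod_mul_distrib]
    refine Finset.prod_le_prod (fun j _ => ?_) fun j _ => (key j).2.2.2.1
    refine mul_nonneg (mul_nonneg (by linarith [hW1 j]) (by linarith [hS1 j])) ?_
    linarith [(geo_Mm_le hC7.le hm j).trans hm2]

/-- forms of `EI * n * d` -/
theorem q_bounds {L : ℕ → ℕ → ℝ} (hL : LogKer L) (hY : 0 < Y) (hm : 1 ≤ m)
    (hm2 : 24 * E8 / 2 ^ m ≤ 1) (hp0 : 144 ≤ p0) (hb0 : 0 ≤ b) (hb : b ≤ 1) (J : ℕ) :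
    |BK K2 (EI m p0 Y J * DD m p0 b Y J * DD m p0 (-1) Y J)
        (EI m p0 Y J * DD m p0 b Y J * DD m p0 (-1) Y J)|
      ≤ Real.exp ((2 * b + b ^ 2) * ∑ j ∈ Finset.range J, VV (sc Y p0 j)
        + (5184 / p0 + 2 * (24 * E8) / 2 ^ m)) ∧
    |BK L (EI m p0 Y J * DD m p0 b Y J * DD m p0 (-1) Y J)
        (EI m p0 Y J * DD m p0 b Y J * DD m p0 (-1) Y J)|
      ≤ 2880 * (Y + 2) * Real.exp ((2 * b + b ^ 2) * ∑ j ∈ Finset.range J, VV (sc Y p0 j)
        + (5184 / p0 + 2 * (24 * E8) / 2 ^ m)) := by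
  have hE8 := E8_pos
  rw [DD_EG]
  have hbk := fun j : ℕ => blockG (I := sc Y p0 j) (fun p hp => sc_prime hp) hL (sc_ge hp0 j)
    (Mm_pos' hm j) (VV_sc_le hY p0 j) hb0 hb
    (show tg (Mm m j) ≤ 1 from (geo_Mm_le (by positivity) hm j).trans hm2)
  obtain ⟨a1, a2⟩ := prod_boundsL hL (Finset.range J) (sc Y p0)
    (fun _ _ _ _ h => sc_disjoint hY h) (fun j => EG b (Mm m j) (sc Y p0 j))
    (fun j _ => sup_EG (fun p hp => sc_prime hp) _ _)
    (fun j => Real.exp ((2 * b + b ^ 2) * VV (sc Y p0 j) + 5184 * V2 (sc Y p0 j) + tg (Mm m j)))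
    (fun j => 2880 * LL (sc Y p0 j)) (fun j _ => (Real.exp_pos _).le)
    (fun j _ => mul_nonneg (by norm_num) (LL_nonneg _))
    (fun j _ => (hbk j).1) (fun j _ => (hbk j).2)
  have hV2' : ∑ j ∈ Finset.range J, V2 (sc Y p0 j) ≤ 1 / p0 := sum_sq_sc_le hY (by omega) J
  have hta : ∑ j ∈ Finset.range J, tg (Mm m j) ≤ 2 * (24 * E8) / 2 ^ m :=
    sum_geo_Mm (by positivity) hm J
  have hP : ∏ j ∈ Finset.range J, Real.exp ((2 * b + b ^ 2) * VV (sc Y p0 j) + 5184 * V2 (sc Y p0 j)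
      + tg (Mm m j)) ≤ Real.exp ((2 * b + b ^ 2) * ∑ j ∈ Finset.range J, VV (sc Y p0 j)
        + (5184 / p0 + 2 * (24 * E8) / 2 ^ m)) := by
    rw [← Real.exp_sum, Finset.sum_add_distrib, Finset.sum_add_distrib, ← Finset.mul_sum,
      ← Finset.mul_sum]
    apply Real.exp_le_exp.mpr
    have e1 : 5184 * ∑ j ∈ Finset.range J, V2 (sc Y p0 j) ≤ 5184 / p0 := by
      calc 5184 * ∑ j ∈ Finset.range J, V2 (sc Y p0 j) ≤ 5184 * (1 / p0) := by gcongr
        _ = _ := by ring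
    linarith
  have hP0 : 0 ≤ ∏ j ∈ Finset.range J, Real.exp ((2 * b + b ^ 2) * VV (sc Y p0 j)
      + 5184 * V2 (sc Y p0 j) + tg (Mm m j)) := Finset.prod_nonneg fun j _ => (Real.exp_pos _).le
  refine ⟨a1.trans hP, a2.trans ?_⟩
  have hs : ∑ j ∈ Finset.range J, 2880 * LL (sc Y p0 j) ≤ 2880 * (Y + 2) := by
    rw [← Finset.mul_sum]
    have := sum_LL_sc_le hY p0 J
    gcongr
  gcongr

/-! ### length and total mass -/

lemma aug_ind_le {I : Finset ℕ} (hI : ∀ p ∈ I, p.Prime) (M : ℕ) {y : ℝ} (hy : 0 ≤ y)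
    (hyI : ∀ p ∈ (I : Set ℕ), Real.log p ≤ y) : aug (ind M I) ≤ Real.exp (M * y) := by
  unfold aug
  rw [pair_ind, Finset.sum_const, nsmul_eq_mul, mul_one]
  refine card_le_exp fun n hn => ?_
  rw [mem_indS hI] at hn
  exact ⟨Smo_pos hn.1, log_le_of_Omega hyI hy hn.1 hn.2⟩

lemma cone_ind_len {I : Finset ℕ} (hI : ∀ p ∈ I, p.Prime) (M : ℕ) {y : ℝ} (hy : 0 ≤ y)
    (hyI : ∀ p ∈ (I : Set ℕ), Real.log p ≤ y) : Cone (Len (M * y)) (ind M I) :=
  (cone_ind hI M).mono fun _ hn => ⟨Smo_pos hn.1, log_le_of_Omega hyI hy hn.1 hn.2⟩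

lemma cone_EI_len (hY : 0 < Y) : Cone (Len (2 * m * Y)) (EI m p0 Y J) := by
  unfold EI
  refine (cone_len_prod _ _ (fun j => (Mm m j : ℝ) * (Y / 4 ^ j)) fun j _ => ?_).mono
    (Len.mono (sum_lenm m hY J))
  exact cone_ind_len (fun p hp => sc_prime hp) _ (by positivity) fun p hp => sc_log_le hp

lemma cone_EI_Smo : Cone (Smo (⋃ j ∈ Finset.range J, (sc Y p0 j : Set ℕ))) (EI m p0 Y J) := by
  unfold EI
  refine Cone.prod _ (fun j hj => ?_) (one_mem_Smo _) (fun a ha b hb => mul_mem_Smo ha hb)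
  refine (cone_ind (fun p hp => sc_prime hp) _).mono fun n hn => Smo_mono ?_ hn.1
  exact Set.subset_biUnion_of_mem (u := fun j => (sc Y p0 j : Set ℕ)) hj

lemma aug_EI_le (hY : 0 < Y) : aug (EI m p0 Y J) ≤ Real.exp (2 * m * Y) := by
  unfold EI
  rw [aug_prod]
  calc ∏ j ∈ Finset.range J, aug (ind (Mm m j) (sc Y p0 j))
      ≤ ∏ j ∈ Finset.range J, Real.exp ((Mm m j : ℝ) * (Y / 4 ^ j)) :=
        Finset.prod_le_prod (fun j _ => aug_nonneg' (cone_ind (fun p hp => sc_prime hp) (Mm m j)))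
          fun j _ => aug_ind_le (fun p hp => sc_prime hp) _ (by positivity) fun p hp => sc_log_le hp
    _ = Real.exp (∑ j ∈ Finset.range J, (Mm m j : ℝ) * (Y / 4 ^ j)) := by rw [Real.exp_sum]
    _ ≤ _ := Real.exp_le_exp.mpr (sum_lenm m hY J)

end scales

end Pool.Agent.Lib.MP_f9aece_nt_h40
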