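import Mathlib
import Pool.Agent.Lib.MP_f9aece_nt_h40.RightD

/-!
The quadratic forms needed to the right of the second moment.
-/

set_option autoImplicit false

namespace Pool.Agent.Lib.MP_f9aece_nt_h40

open MeasureTheory Set Filter Topology Complex
open Pool.Agent.Lib.MP_f9aece_nt
open Pool.Agent.Lib.MP_f9aece_nt_h97

/-- the forms needed to the right of the second moment; `n = DD b`, `d = DD (-1)`, `q = EI * n * d`,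
`V = ∑ j < J, VV (sc Y p0 j)`, `S = BK K2 n n` -/
structure FR (C ε : ℝ) (m p0 : ℕ) (b Y : ℝ) (J : ℕ) : Prop where
  s_one : 1 ≤ BK K2 (DD m p0 b Y J) (DD m p0 b Y J)
  s_ge : Real.exp ((2 * b + b ^ 2) * ∑ j ∈ Finset.range J, VV (sc Y p0 j) - ε)
    ≤ BK K2 (DD m p0 b Y J) (DD m p0 b Y J)
  s_le : BK K2 (DD m p0 b Y J) (DD m p0 b Y J)
    ≤ Real.exp ((2 * b + b ^ 2) * ∑ j ∈ Finset.range J, VV (sc Y p0 j) + ε)
  kln_nonneg : 0 ≤ BK KL (DD m p0 b Y J) (DD m p0 b Y J)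
  kln : BK KL (DD m p0 b Y J) (DD m p0 b Y J)
    ≤ C * (1 + Y) * Real.exp ((2 * b + b ^ 2) * ∑ j ∈ Finset.range J, VV (sc Y p0 j))
  kgn_nonneg : 0 ≤ BK Kg (DD m p0 b Y J) (DD m p0 b Y J)
  kgn : BK Kg (DD m p0 b Y J) (DD m p0 b Y J)
    ≤ C * (1 + Y) * Real.exp ((2 * b + b ^ 2) * ∑ j ∈ Finset.range J, VV (sc Y p0 j))
  w_one : 1 ≤ Wsc p0 Y J
  e1 : (1 - C / 2 ^ m) * (Wsc p0 Y J * BK K2 (DD m p0 b Y J) (DD m p0 b Y J))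
    ≤ 2 * BK (Kcs 1) (DD m p0 b Y J) (EI m p0 Y J * DD m p0 b Y J)
      - BK K1 (EI m p0 Y J * DD m p0 b Y J) (EI m p0 Y J * DD m p0 b Y J)
  diag_nonneg : 0 ≤ BK K1 (EI m p0 Y J * DD m p0 b Y J) (EI m p0 Y J * DD m p0 b Y J)
  diag_le_cross : BK K1 (EI m p0 Y J * DD m p0 b Y J) (EI m p0 Y J * DD m p0 b Y J)
    ≤ BK (Kcs 1) (DD m p0 b Y J) (EI m p0 Y J * DD m p0 b Y J)
  cross_le : BK (Kcs 1) (DD m p0 b Y J) (EI m p0 Y J * DD m p0 b Y J)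
    ≤ Wsc p0 Y J * BK K2 (DD m p0 b Y J) (DD m p0 b Y J)
  k2q : |BK K2 (EI m p0 Y J * DD m p0 b Y J * DD m p0 (-1) Y J)
      (EI m p0 Y J * DD m p0 b Y J * DD m p0 (-1) Y J)|
    ≤ Real.exp ((2 * b + b ^ 2) * ∑ j ∈ Finset.range J, VV (sc Y p0 j) + ε)
  klq : |BK KL (EI m p0 Y J * DD m p0 b Y J * DD m p0 (-1) Y J)
      (EI m p0 Y J * DD m p0 b Y J * DD m p0 (-1) Y J)|
    ≤ C * (1 + Y) * Real.exp ((2 * b + b ^ 2) * ∑ j ∈ Finset.range J, VV (sc Y p0 j))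
  kgq : |BK Kg (EI m p0 Y J * DD m p0 b Y J * DD m p0 (-1) Y J)
      (EI m p0 Y J * DD m p0 b Y J * DD m p0 (-1) Y J)|
    ≤ C * (1 + Y) * Real.exp ((2 * b + b ^ 2) * ∑ j ∈ Finset.range J, VV (sc Y p0 j))
  lenn : ∀ k, (DD m p0 b Y J).coeff k ≠ 0 → 1 ≤ k ∧ (k : ℝ) ≤ Real.exp (2 * m * Y)
  nrmn : nrm (DD m p0 b Y J) ≤ Real.exp (J + 2 * m * Y)
  lenEI : ∀ k, (EI m p0 Y J).coeff k ≠ 0 → 1 ≤ k ∧ (k : ℝ) ≤ Real.exp (2 * m * Y)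
  nrmEI : nrm (EI m p0 Y J) ≤ Real.exp (2 * m * Y)
  lenEn : ∀ k, (EI m p0 Y J * DD m p0 b Y J).coeff k ≠ 0 → 1 ≤ k ∧ (k : ℝ) ≤ Real.exp (4 * m * Y)
  nrmEn : nrm (EI m p0 Y J * DD m p0 b Y J) ≤ Real.exp (J + 4 * m * Y)
  lenq : ∀ k, (EI m p0 Y J * DD m p0 b Y J * DD m p0 (-1) Y J).coeff k ≠ 0 →
    1 ≤ k ∧ (k : ℝ) ≤ Real.exp (6 * m * Y)
  nrmq : nrm (EI m p0 Y J * DD m p0 b Y J * DD m p0 (-1) Y J) ≤ Real.exp (2 * J + 6 * m * Y)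

/-- domination data for `EI` (this is `DLB (EI m p0 Y J) (2 * m * Y) (2 * m * Y)`) -/
lemma dlb_EI {m p0 J : ℕ} {Y : ℝ} (hY : 0 < Y) :
    ∃ g : DP, Dom (EI m p0 Y J) g ∧ Cone (Len (2 * m * Y)) g ∧ aug g ≤ Real.exp (2 * m * Y) :=
  ⟨EI m p0 Y J, dom_self cone_EI_Smo, cone_EI_len hY, aug_EI_le hY⟩

lemma len_nrm_dom {f g : DP} {lam mu : ℝ} (h : Dom f g) (hg : Cone (Len lam) g)
    (ha : aug g ≤ Real.exp mu) {lam' mu' : ℝ} (hl : lam ≤ lam') (hm : mu ≤ mu') :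
    (∀ n, f.coeff n ≠ 0 → 1 ≤ n ∧ (n : ℝ) ≤ Real.exp lam') ∧ nrm f ≤ Real.exp mu' := by
  refine ⟨fun n hn => ?_, (nrm_le_aug h).trans (ha.trans (Real.exp_le_exp.mpr hm))⟩
  obtain ⟨h1, h2⟩ := sup_len_floor (h.sup hg) n hn
  exact ⟨h1, h2.trans (Real.exp_le_exp.mpr hl)⟩

lemma cone_DD_nonneg {m p0 J : ℕ} {Y b : ℝ} (hb : 0 ≤ b) :
    Cone (Smo (⋃ j ∈ Finset.range J, (sc Y p0 j : Set ℕ))) (DD m p0 b Y J) := by
  unfold DD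
  refine Cone.prod _ (fun j hj => ?_) (one_mem_Smo _) (fun a ha b hb => mul_mem_Smo ha hb)
  refine (cone_expo (fun p hp => sc_prime hp) hb _).mono fun n hn => Smo_mono ?_ hn.1
  exact Set.subset_biUnion_of_mem (u := fun j => (sc Y p0 j : Set ℕ)) hj

section

variable {m p0 J : ℕ} {Y b : ℝ}

lemma lens_right (hY0 : 0 < Y) (hbb : |b| ≤ 1) :
    ((∀ k, (DD m p0 b Y J).coeff k ≠ 0 → 1 ≤ k ∧ (k : ℝ) ≤ Real.exp (2 * m * Y)) ∧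
      nrm (DD m p0 b Y J) ≤ Real.exp (J + 2 * m * Y)) ∧
    ((∀ k, (EI m p0 Y J).coeff k ≠ 0 → 1 ≤ k ∧ (k : ℝ) ≤ Real.exp (2 * m * Y)) ∧
      nrm (EI m p0 Y J) ≤ Real.exp (2 * m * Y)) ∧
    ((∀ k, (EI m p0 Y J * DD m p0 b Y J).coeff k ≠ 0 → 1 ≤ k ∧ (k : ℝ) ≤ Real.exp (4 * m * Y)) ∧
      nrm (EI m p0 Y J * DD m p0 b Y J) ≤ Real.exp (J + 4 * m * Y)) ∧
    ((∀ k, (EI m p0 Y J * DD m p0 b Y J * DD m p0 (-1) Y J).coeff k ≠ 0 →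
      1 ≤ k ∧ (k : ℝ) ≤ Real.exp (6 * m * Y)) ∧
      nrm (EI m p0 Y J * DD m p0 b Y J * DD m p0 (-1) Y J) ≤ Real.exp (2 * J + 6 * m * Y)) := by
  have c1 := cone_DD1 m p0 hY0 J
  have g1 := aug_DD1 m p0 hY0 J
  have g0 := aug_nonneg' c1
  have dn := dom_DD m p0 hbb Y J
  have dM := dom_DD m p0 (c := -1) (by simp) Y J
  have cE := cone_EI_len (m := m) (p0 := p0) (J := J) hY0
  have gE := aug_EI_le (m := m) (p0 := p0) (J := J) hY0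
  have dE : Dom (EI m p0 Y J) (EI m p0 Y J) := dom_self cE
  have gE0 := aug_nonneg' cE
  set G := DD m p0 1 Y J with hG
  set E := EI m p0 Y J with hE
  have cc2 : Cone (Len (2 * m * Y + 2 * m * Y)) (E * G) := cE.mul c1 fun x hx y hy => Len.mul hx hy
  have cc3 : Cone (Len (2 * m * Y + 2 * m * Y + 2 * m * Y)) (E * G * G) :=
    cc2.mul c1 fun x hx y hy => Len.mul hx hy
  have gg2 : aug (E * G) ≤ Real.exp ((2 * m * Y) + (J + 2 * m * Y)) := by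
    rw [aug_mul, Real.exp_add]
    exact mul_le_mul gE g1 g0 (Real.exp_pos _).le
  have gg20 := aug_nonneg' cc2
  have gg3 : aug (E * G * G) ≤ Real.exp ((2 * m * Y) + (J + 2 * m * Y) + (J + 2 * m * Y)) := by
    rw [aug_mul, Real.exp_add]
    exact mul_le_mul gg2 g1 g0 (Real.exp_pos _).le
  refine ⟨len_nrm_dom dn c1 g1 le_rfl le_rfl, len_nrm_dom dE cE gE le_rfl le_rfl,
    len_nrm_dom (dE.mul dn) cc2 gg2 (le_of_eq (by ring)) (le_of_eq (by ring)),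
    len_nrm_dom ((dE.mul dn).mul dM) cc3 gg3 (le_of_eq (by ring)) (le_of_eq (by ring))⟩

/-- the constant of `forms_right` -/
noncomputable def C9 : ℝ := 2 * C7 + 2 * CL * Real.exp 1 + 5760 * Real.exp 1

lemma C9_pos : 0 < C9 := by
  have := C7_pos
  have := CL_pos
  unfold C9
  positivity

lemma C9_ge : 2 * C7 ≤ C9 ∧ 2 * CL * Real.exp 1 ≤ C9 ∧ 5760 * Real.exp 1 ≤ C9 := by
  have h1 := C7_pos
  have h2 := CL_pos
  have h3 := Real.exp_pos 1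
  have h4 : 0 < CL * Real.exp 1 := by positivity
  unfold C9
  refine ⟨?_, ?_, ?_⟩ <;> linarith

lemma scal_le {K Z Y x e : ℝ} (hK : 0 ≤ K) (hY : 1 ≤ Y) (he : e ≤ 1) (hZ : 2 * K * Real.exp 1 ≤ Z) :
    K * (Y + 2) * Real.exp (x + e) ≤ Z * (1 + Y) * Real.exp x := by
  rw [Real.exp_add]
  have h1 : Real.exp e ≤ Real.exp 1 := Real.exp_le_exp.mpr he
  calc K * (Y + 2) * (Real.exp x * Real.exp e)
      ≤ K * (2 * (1 + Y)) * (Real.exp x * Real.exp 1) := by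
        gcongr
        linarith
    _ = (2 * K * Real.exp 1) * (1 + Y) * Real.exp x := by ring
    _ ≤ _ := by gcongr

lemma FR_of {ε : ℝ} (hm1 : 1 ≤ m) (q1 : 2 * C6 / 2 ^ m ≤ 1) (q2 : C7 / 2 ^ m ≤ 1)
    (q4 : 24 * E8 / 2 ^ m ≤ 1) (hp0a : 2 * (E6 + 1) ≤ p0) (hp0c : 144 ≤ p0)
    (her : er m p0 ≤ ε) (her1 : er m p0 ≤ 1)
    (her2 : 5184 / (p0 : ℝ) + 2 * (24 * E8) / 2 ^ m ≤ ε)
    (her3 : 5184 / (p0 : ℝ) + 2 * (24 * E8) / 2 ^ m ≤ 1)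
    (hb0 : 0 ≤ b) (hb1 : b ≤ 1 / 4) (hY : 1 ≤ Y) (J : ℕ) : FR C9 ε m p0 b Y J := by
  have hY0 : 0 < Y := by linarith only [hY]
  have hbb : |b| ≤ 1 := by rw [abs_of_nonneg hb0]; linarith only [hb1]
  have hb2 : b ≤ 1 / 2 := by linarith only [hb1]
  have hb3 : b ≤ 1 := by linarith only [hb1]
  have hκ0 : 0 ≤ 2 * b + b ^ 2 := by positivity
  have hκ1 : 2 * b + b ^ 2 ≤ 1 := by nlinarith only [hb0, hb1]
  have hS := DD3_two (J := J) mk_K2 hY0 (c1 := b) (c2 := 0) (c3 := 0)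
    (d1 := b) (d2 := 0) (d3 := 0) (κ := 2 * b + b ^ 2) hbb (by simp) (by simp) hbb (by simp) (by simp)
    hκ0 hκ1 (by
      intro p hpp
      rw [K2_p1 hpp, K2_1p hpp, K2_pp hpp]
      ring) hm1 q1 hp0a
  rw [DD_zero, mul_one, mul_one] at hS
  have hc' : b = b + 0 + 0 := by ring
  have hKLn := DD3_K2L (m := m) (p0 := p0) (J := J) logKer_KL hY0 (c1 := b) (c2 := 0) (c3 := 0)
    hbb (by simp) (by simp) hc' hm1 q1 (by omega)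
  have hKgn := DD3_K2L (m := m) (p0 := p0) (J := J) logKer_Kg hY0 (c1 := b) (c2 := 0) (c3 := 0)
    hbb (by simp) (by simp) hc' hm1 q1 (by omega)
  rw [DD_zero, mul_one, mul_one] at hKLn hKgn
  obtain ⟨C9a, C9b, C9c⟩ := C9_ge
  have hL := scal_le (x := (2 * b + b ^ 2) * ∑ j ∈ Finset.range J, VV (sc Y p0 j)) CL_pos.le hY
    her1 C9b
  have hL2 := scal_le (x := (2 * b + b ^ 2) * ∑ j ∈ Finset.range J, VV (sc Y p0 j))
    (K := 2880) (by norm_num) hY her3 (by linarith only [C9c] : 2 * 2880 * Real.exp 1 ≤ C9)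
  obtain ⟨r1, r2, r3, r4, r5, r6⟩ := E1_bounds (m := m) (p0 := p0) (b := b) hY0 hm1 q2
    hp0c hb0 hb2 J
  have hqL := q_bounds (m := m) (p0 := p0) (b := b) logKer_KL hY0 hm1 q4 hp0c hb0 hb3 J
  have hqg := q_bounds (m := m) (p0 := p0) (b := b) logKer_Kg hY0 hm1 q4 hp0c hb0 hb3 J
  have hcn := cone_DD_nonneg (m := m) (p0 := p0) (J := J) (Y := Y) hb0
  obtain ⟨⟨ln, nn⟩, ⟨lE, nE⟩, ⟨l2, n2⟩, ⟨l3, n3⟩⟩ := lens_right (m := m) (p0 := p0) (J := J) hY0 hbb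
  refine ⟨r5, ?_, ?_, BK_nonneg hcn hcn KL_nonneg, ?_, BK_nonneg hcn hcn logKer_Kg.nonneg, ?_, r6,
    ?_, r1, r2, r3, ?_, ?_, ?_, ln, nn, lE, nE, l2, n2, l3, n3⟩
  · exact le_trans (Real.exp_le_exp.mpr (sub_le_sub_left her _)) hS.1
  · exact hS.2.trans (Real.exp_le_exp.mpr (add_le_add_right her _))
  · exact (le_abs_self _).trans (hKLn.2.trans hL)
  · exact (le_abs_self _).trans (hKgn.2.trans hL)
  · have hWS : 0 ≤ Wsc p0 Y J * BK K2 (DD m p0 b Y J) (DD m p0 b Y J) :=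
      mul_nonneg (zero_le_one.trans r6) (zero_le_one.trans r5)
    have h1 : 2 * C7 / 2 ^ m ≤ C9 / 2 ^ m := by gcongr
    calc (1 - C9 / 2 ^ m) * (Wsc p0 Y J * BK K2 (DD m p0 b Y J) (DD m p0 b Y J))
        ≤ (1 - 2 * C7 / 2 ^ m) * (Wsc p0 Y J * BK K2 (DD m p0 b Y J) (DD m p0 b Y J)) :=
          mul_le_mul_of_nonneg_right (sub_le_sub_left h1 _) hWS
      _ = Wsc p0 Y J * BK K2 (DD m p0 b Y J) (DD m p0 b Y J) * (1 - 2 * C7 / 2 ^ m) := by ring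
      _ ≤ _ := by linarith only [r2, r4]
  · exact hqL.1.trans (Real.exp_le_exp.mpr (add_le_add_right her2 _))
  · exact hqL.2.trans hL2
  · exact hqg.2.trans hL2

end

theorem forms_right : ∃ C : ℝ, 0 ≤ C ∧ ∀ ε : ℝ, 0 < ε → ∃ m1 p1 : ℕ, 4000 ≤ m1 ∧ 144 ≤ p1 ∧
    ∀ m : ℕ, m1 ≤ m → ∀ p0 : ℕ, p1 ≤ p0 → ∀ b : ℝ, 0 ≤ b → b ≤ 1 / 4 → ∀ Y : ℝ, 1 ≤ Y → ∀ J : ℕ,
    FR C ε m p0 b Y J := by
  have hC6 := C6_pos
  have hC7 := C7_pos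
  have hE6 := E6_pos
  have hE8 := E8_pos
  refine ⟨C9, C9_pos.le, fun ε hε => ?_⟩
  set ε' := min ε 1 with hε'
  have hε'0 : 0 < ε' := lt_min hε one_pos
  have hε'1 : ε' ≤ 1 := min_le_right _ _
  have hε'2 : ε' ≤ ε := min_le_left _ _
  -- choice of m1
  obtain ⟨n1, hn1⟩ := exists_pow_lt_of_lt_one (K := ℝ)
    (show 0 < ε' / 2 / (2 * C6 + C7 + 48 * E8) by positivity) (show (1 / 2 : ℝ) < 1 by norm_num)
  obtain ⟨p1, hp1⟩ := exists_nat_ge (2 * (E6 + 2 + 5184) / ε' + 2 * (E6 + 1) + 144)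
  have hpp : 0 ≤ 2 * (E6 + 2 + 5184) / ε' := by positivity
  refine ⟨max n1 4000, p1, by omega, ?_, ?_⟩
  · have : (144 : ℝ) ≤ p1 := by linarith only [hp1, hpp, hE6]
    exact_mod_cast this
  intro m hm p0 hp0 b hb0 hb1 Y hY J
  have hm4 : 4000 ≤ m := le_trans (le_max_right _ _) hm
  have hm1 : 1 ≤ m := by omega
  have hpow : (1 / 2 : ℝ) ^ m ≤ ε' / 2 / (2 * C6 + C7 + 48 * E8) := by
    refine le_trans ?_ hn1.le
    exact pow_le_pow_of_le_one (by norm_num) (by norm_num) (le_trans (le_max_left _ _) hm)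
  rw [le_div_iff₀ (by positivity)] at hpow
  have hpm : (1 / 2 : ℝ) ^ m = 1 / 2 ^ m := by rw [one_div, one_div, inv_pow]
  rw [hpm] at hpow
  have i1 : 0 ≤ 1 / 2 ^ m * (2 * C6) := by positivity
  have i2 : 0 ≤ 1 / 2 ^ m * C7 := by positivity
  have i3 : 0 ≤ 1 / 2 ^ m * (48 * E8) := by positivity
  have q1 : 2 * C6 / 2 ^ m ≤ ε' / 2 := by
    calc 2 * C6 / 2 ^ m = 1 / 2 ^ m * (2 * C6) := by ring
      _ ≤ _ := by linarith only [hpow, i1, i2, i3]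
  have q2 : C7 / 2 ^ m ≤ ε' / 2 := by
    calc C7 / 2 ^ m = 1 / 2 ^ m * C7 := by ring
      _ ≤ _ := by linarith only [hpow, i1, i2, i3]
  have q3 : 2 * (24 * E8) / 2 ^ m ≤ ε' / 2 := by
    calc 2 * (24 * E8) / 2 ^ m = 1 / 2 ^ m * (48 * E8) := by ring
      _ ≤ _ := by linarith only [hpow, i1, i2, i3]
  have q4 : 24 * E8 / 2 ^ m ≤ 1 := by
    have : 24 * E8 / 2 ^ m = (2 * (24 * E8) / 2 ^ m) / 2 := by ring
    rw [this]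
    linarith only [q3, hε'1]
  have hp0r : 2 * (E6 + 2 + 5184) / ε' + 2 * (E6 + 1) + 144 ≤ p0 := hp1.trans (by exact_mod_cast hp0)
  have hp0a : 2 * (E6 + 1) ≤ p0 := by linarith only [hp0r, hpp]
  have hp0b : 2 * (E6 + 2 + 5184) / ε' ≤ p0 := by linarith only [hp0r, hE6]
  have hp0d : (144 : ℝ) ≤ p0 := by linarith only [hp0r, hpp, hE6]
  have hp0pos : (0 : ℝ) < p0 := by linarith only [hp0d]
  have hp0c : 144 ≤ p0 := by exact_mod_cast hp0d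
  rw [div_le_iff₀ hε'0] at hp0b
  have q5 : (E6 + 2) / p0 ≤ ε' / 2 := by
    rw [div_le_iff₀ hp0pos]
    linarith only [hp0b]
  have q6 : 5184 / (p0 : ℝ) ≤ ε' / 2 := by
    rw [div_le_iff₀ hp0pos]
    linarith only [hp0b, hE6]
  have her : er m p0 ≤ ε' := by unfold er; linarith only [q1, q5]
  have her2 : 5184 / (p0 : ℝ) + 2 * (24 * E8) / 2 ^ m ≤ ε' := by linarith only [q3, q6]
  exact FR_of hm1 (by linarith only [q1, hε'1]) (by linarith only [q2, hε'1]) q4 hp0a hp0c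
    (her.trans hε'2) (her.trans hε'1) (her2.trans hε'2) (her2.trans hε'1) hb0 hb1 hY J

end Pool.Agent.Lib.MP_f9aece_nt_h40
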