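import Mathlib
import Pool.Agent.Lib.MP_f9aece_nt_h40.RightForms

/-!
The forms at two consecutive levels: the indicator polynomial and `d` at level `l - 1`, the
polynomial `n` at level `l`.
-/

set_option autoImplicit false

namespace Pool.Agent.Lib.MP_f9aece_nt_h40

open MeasureTheory Set Filter Topology Complex
open Pool.Agent.Lib.MP_f9aece_nt
open Pool.Agent.Lib.MP_f9aece_nt_h97

section shift

lemma Mm_succ (m j : ℕ) : Mm m (j + 1) = Mm (2 * m) j := by unfold Mm; ring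

lemma Mm_shift (m j l : ℕ) : Mm m (j + l) = Mm (m * 2 ^ l) j := by unfold Mm; ring

lemma sc_succ {Y : ℝ} (hY : 0 < Y) (p0 j : ℕ) : sc Y p0 (j + 1) = sc (Y / 4) p0 j := by
  ext p
  rw [mem_sc, mem_sc, Finset.mem_Icc, Finset.mem_Icc]
  have e1 : Y / 4 / 4 ^ (j + 1) = Y / 4 ^ (j + 1 + 1) := by rw [div_div, pow_succ' 4 (j + 1)]
  have e2 : Y / 4 / 4 ^ j = Y / 4 ^ (j + 1) := by rw [div_div, pow_succ' 4 j]
  rw [e1, e2]
  constructor
  · rintro ⟨⟨h1, _⟩, h3, h4, h5, h6⟩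
    refine ⟨⟨h1, ?_⟩, h3, h4, h5, h6⟩
    apply Nat.le_floor
    have hp : (0 : ℝ) < p := by exact_mod_cast h3.pos
    rw [← Real.log_le_iff_le_exp hp]
    refine h6.trans ?_
    apply div_le_div_of_nonneg_left hY.le (by norm_num)
    calc (4 : ℝ) = 4 ^ 1 := (pow_one _).symm
      _ ≤ 4 ^ (j + 1) := pow_le_pow_right₀ (by norm_num) (by omega)
  · rintro ⟨⟨h1, h2⟩, h3, h4, h5, h6⟩
    refine ⟨⟨h1, h2.trans (Nat.floor_le_floor (Real.exp_le_exp.mpr (by linarith)))⟩, h3, h4, h5, h6⟩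

lemma sc_shift {Y : ℝ} (hY : 0 < Y) (p0 j l : ℕ) : sc Y p0 (j + l) = sc (Y / 4 ^ l) p0 j := by
  induction l generalizing Y with
  | zero => simp
  | succ l ih =>
    have e : j + (l + 1) = (j + l) + 1 := by ring
    rw [e, sc_succ hY, ih (by positivity), div_div, pow_succ']

variable {m p0 J : ℕ} {Y c : ℝ}

lemma DD_succ (hY : 0 < Y) : DD m p0 c Y (J + 1)
    = expo c (Mm m 0) (sc Y p0 0) * DD (2 * m) p0 c (Y / 4) J := by
  unfold DD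
  rw [Finset.prod_range_succ', mul_comm]
  congr 1
  refine Finset.prod_congr rfl fun j _ => ?_
  rw [Mm_succ, sc_succ hY]

lemma EI_succ (hY : 0 < Y) : EI m p0 Y (J + 1)
    = ind (Mm m 0) (sc Y p0 0) * EI (2 * m) p0 (Y / 4) J := by
  unfold EI
  rw [Finset.prod_range_succ', mul_comm]
  congr 1
  refine Finset.prod_congr rfl fun j _ => ?_
  rw [Mm_succ, sc_succ hY]

lemma Wsc_succ (hY : 0 < Y) : Wsc p0 Y (J + 1) = WW 1 (sc Y p0 0) * Wsc p0 (Y / 4) J := by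
  rw [Wsc_eq_prod hY, Wsc_eq_prod (by positivity), Finset.prod_range_succ', mul_comm]
  congr 1
  refine Finset.prod_congr rfl fun j _ => ?_
  rw [sc_succ hY]

lemma sum_VV_succ (hY : 0 < Y) : ∑ j ∈ Finset.range (J + 1), VV (sc Y p0 j)
    = VV (sc Y p0 0) + ∑ j ∈ Finset.range J, VV (sc (Y / 4) p0 j) := by
  rw [Finset.sum_range_succ', add_comm]
  congr 1
  refine Finset.sum_congr rfl fun j _ => ?_
  rw [sc_succ hY]

/-- several levels at once -/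
lemma DD_shift (hY : 0 < Y) (l : ℕ) : DD m p0 c Y (J + l)
    = DD m p0 c Y l * DD (m * 2 ^ l) p0 c (Y / 4 ^ l) J := by
  unfold DD
  rw [add_comm J l, Finset.prod_range_add]
  congr 1
  refine Finset.prod_congr rfl fun j _ => ?_
  rw [add_comm l j, Mm_shift, sc_shift hY]

lemma EI_shift (hY : 0 < Y) (l : ℕ) : EI m p0 Y (J + l)
    = EI m p0 Y l * EI (m * 2 ^ l) p0 (Y / 4 ^ l) J := by
  unfold EI
  rw [add_comm J l, Finset.prod_range_add]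
  congr 1
  refine Finset.prod_congr rfl fun j _ => ?_
  rw [add_comm l j, Mm_shift, sc_shift hY]

lemma sum_VV_shift (hY : 0 < Y) (l : ℕ) : ∑ j ∈ Finset.range (J + l), VV (sc Y p0 j)
    = ∑ j ∈ Finset.range l, VV (sc Y p0 j) + ∑ j ∈ Finset.range J, VV (sc (Y / 4 ^ l) p0 j) := by
  rw [add_comm J l, Finset.sum_range_add]
  congr 1
  refine Finset.sum_congr rfl fun j _ => ?_
  rw [add_comm l j, sc_shift hY]

end shift

/-- product with exponents depending on the scale -/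
noncomputable def DV (β : ℕ → ℝ) (m p0 : ℕ) (Y : ℝ) (J : ℕ) : DP :=
  ∏ j ∈ Finset.range J, expo (β j) (Mm m j) (sc Y p0 j)

section var

variable {m p0 J : ℕ} {Y : ℝ} {β : ℕ → ℝ}

lemma DD_EGv : EI m p0 Y J * DV β m p0 Y J * DD m p0 (-1) Y J
    = ∏ j ∈ Finset.range J, EG (β j) (Mm m j) (sc Y p0 j) := by
  unfold DD EG EI DV
  rw [Finset.prod_mul_distrib, Finset.prod_mul_distrib]

lemma EI_mul_DV : EI m p0 Y J * DV β m p0 Y J
    = ∏ j ∈ Finset.range J, (ind (Mm m j) (sc Y p0 j) * expo (β j) (Mm m j) (sc Y p0 j)) := by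
  unfold DV EI
  rw [Finset.prod_mul_distrib]

/-- the energy inequality with exponents depending on the scale -/
theorem E1_bounds_var (hY : 0 < Y) (hm : 1 ≤ m) (hm2 : C7 / 2 ^ m ≤ 1) (hp0 : 144 ≤ p0)
    (hb0 : ∀ j, 0 ≤ β j) (hb : ∀ j, β j ≤ 1 / 2) (J : ℕ) :
    0 ≤ BK K1 (EI m p0 Y J * DV β m p0 Y J) (EI m p0 Y J * DV β m p0 Y J) ∧
    BK K1 (EI m p0 Y J * DV β m p0 Y J) (EI m p0 Y J * DV β m p0 Y J)
      ≤ BK (Kcs 1) (DV β m p0 Y J) (EI m p0 Y J * DV β m p0 Y J) ∧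
    BK (Kcs 1) (DV β m p0 Y J) (EI m p0 Y J * DV β m p0 Y J)
      ≤ Wsc p0 Y J * BK K2 (DV β m p0 Y J) (DV β m p0 Y J) ∧
    Wsc p0 Y J * BK K2 (DV β m p0 Y J) (DV β m p0 Y J) * (1 - 2 * C7 / 2 ^ m)
      ≤ BK (Kcs 1) (DV β m p0 Y J) (EI m p0 Y J * DV β m p0 Y J) ∧
    1 ≤ BK K2 (DV β m p0 Y J) (DV β m p0 Y J) ∧ 1 ≤ Wsc p0 Y J := by
  have hC7 := C7_pos
  have key := fun j : ℕ => block_E1 (I := sc Y p0 j) (fun p hp => sc_prime hp)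
    (fun p hp => by linarith [sc_ge hp0 j p hp]) (VV_sc_le hY p0 j) (hb0 j) (hb j) (Mm m j)
  have hsn : ∀ j ∈ Finset.range J, Sup (Smo (sc Y p0 j)) (expo (β j) (Mm m j) (sc Y p0 j)) :=
    fun j _ => sup_expo (fun p hp => sc_prime hp) _ _
  have hse : ∀ j ∈ Finset.range J,
      Sup (Smo (sc Y p0 j)) (ind (Mm m j) (sc Y p0 j) * expo (β j) (Mm m j) (sc Y p0 j)) :=
    fun j _ => (sup_of_cone ((cone_ind (fun p hp => sc_prime hp) _).mono fun _ h => h.1)).mul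
      (sup_expo (fun p hp => sc_prime hp) _ _) fun _ ha _ hb => mul_mem_Smo ha hb
  have e1 : BK K1 (EI m p0 Y J * DV β m p0 Y J) (EI m p0 Y J * DV β m p0 Y J)
      = ∏ j ∈ Finset.range J, BK K1 (ind (Mm m j) (sc Y p0 j) * expo (β j) (Mm m j) (sc Y p0 j))
        (ind (Mm m j) (sc Y p0 j) * expo (β j) (Mm m j) (sc Y p0 j)) := by
    rw [EI_mul_DV, ← K1s_one_eq', BK_prod_MK (mk_K1s le_rfl) (Finset.range J) (sc Y p0)
      (fun _ _ _ _ h => sc_disjoint hY h) _ _ hse hse]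
  have e2 : BK (Kcs 1) (DV β m p0 Y J) (EI m p0 Y J * DV β m p0 Y J)
      = ∏ j ∈ Finset.range J, BK (Kcs 1) (expo (β j) (Mm m j) (sc Y p0 j))
        (ind (Mm m j) (sc Y p0 j) * expo (β j) (Mm m j) (sc Y p0 j)) := by
    rw [EI_mul_DV]
    unfold DV
    rw [BK_prod_MK (mk_Kcs le_rfl) (Finset.range J) (sc Y p0)
      (fun _ _ _ _ h => sc_disjoint hY h) _ _ hsn hse]
  have e3 : BK K2 (DV β m p0 Y J) (DV β m p0 Y J)
      = ∏ j ∈ Finset.range J,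
        BK K2 (expo (β j) (Mm m j) (sc Y p0 j)) (expo (β j) (Mm m j) (sc Y p0 j)) := by
    unfold DV
    rw [BK_prod_MK mk_K2 (Finset.range J) (sc Y p0)
      (fun _ _ _ _ h => sc_disjoint hY h) _ _ hsn hsn]
  rw [e1, e2, e3, Wsc_eq_prod hY]
  have hW1 : ∀ j : ℕ, 1 ≤ WW 1 (sc Y p0 j) := fun j =>
    one_le_WW zero_le_one (fun p hp => sc_prime hp) fun p hp => by linarith [sc_ge hp0 j p hp]
  have hS1 : ∀ j : ℕ,
      1 ≤ BK K2 (expo (β j) (Mm m j) (sc Y p0 j)) (expo (β j) (Mm m j) (sc Y p0 j)) :=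
    fun j => (key j).2.2.2.2
  have hWp : (1 : ℝ) ≤ ∏ j ∈ Finset.range J, WW 1 (sc Y p0 j) := by
    have h0 : ∏ _j ∈ Finset.range J, (1 : ℝ) ≤ ∏ j ∈ Finset.range J, WW 1 (sc Y p0 j) :=
      Finset.prod_le_prod (fun _ _ => zero_le_one) fun j _ => hW1 j
    rwa [Finset.prod_const_one] at h0
  have hSp : (1 : ℝ) ≤ ∏ j ∈ Finset.range J,
      BK K2 (expo (β j) (Mm m j) (sc Y p0 j)) (expo (β j) (Mm m j) (sc Y p0 j)) := by
    have h0 : ∏ _j ∈ Finset.range J, (1 : ℝ) ≤ ∏ j ∈ Finset.range J,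
        BK K2 (expo (β j) (Mm m j) (sc Y p0 j)) (expo (β j) (Mm m j) (sc Y p0 j)) :=
      Finset.prod_le_prod (fun _ _ => zero_le_one) fun j _ => hS1 j
    rwa [Finset.prod_const_one] at h0
  refine ⟨Finset.prod_nonneg fun j _ => (key j).1,
    Finset.prod_le_prod (fun j _ => (key j).1) fun j _ => (key j).2.1, ?_, ?_, hSp, hWp⟩
  · rw [← Finset.prod_mul_distrib]
    exact Finset.prod_le_prod (fun j _ => (key j).1.trans (key j).2.1) fun j _ => (key j).2.2.1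
  · rw [← Finset.prod_mul_distrib]
    have h1 := prod_one_sub_ge (Finset.range J) (fun j => C7 / 2 ^ (Mm m j))
      (fun j _ => by positivity) (fun j _ => (geo_Mm_le hC7.le hm j).trans hm2)
    have h2 := sum_geo_Mm hC7.le hm J
    have h3 : 1 - 2 * C7 / 2 ^ m ≤ ∏ j ∈ Finset.range J, (1 - C7 / 2 ^ (Mm m j)) := by linarith
    have hPS : 0 ≤ ∏ j ∈ Finset.range J,
        (WW 1 (sc Y p0 j) * BK K2 (expo (β j) (Mm m j) (sc Y p0 j)) (expo (β j) (Mm m j) (sc Y p0 j))) :=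
      Finset.prod_nonneg fun j _ => mul_nonneg (by linarith [hW1 j]) (by linarith [hS1 j])
    refine (mul_le_mul_of_nonneg_left h3 hPS).trans ?_
    rw [← Finset.prod_mul_distrib]
    refine Finset.prod_le_prod (fun j _ => ?_) fun j _ => (key j).2.2.2.1
    refine mul_nonneg (mul_nonneg (by linarith [hW1 j]) (by linarith [hS1 j])) ?_
    linarith [(geo_Mm_le hC7.le hm j).trans hm2]

/-- forms of `EI * n * d` with exponents depending on the scale -/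
theorem q_bounds_var {L : ℕ → ℕ → ℝ} (hL : LogKer L) (hY : 0 < Y) (hm : 1 ≤ m)
    (hm2 : 24 * E8 / 2 ^ m ≤ 1) (hp0 : 144 ≤ p0) (hb0 : ∀ j, 0 ≤ β j) (hb : ∀ j, β j ≤ 1) (J : ℕ) :
    |BK K2 (EI m p0 Y J * DV β m p0 Y J * DD m p0 (-1) Y J)
        (EI m p0 Y J * DV β m p0 Y J * DD m p0 (-1) Y J)|
      ≤ Real.exp (∑ j ∈ Finset.range J, (2 * β j + β j ^ 2) * VV (sc Y p0 j)
        + (5184 / p0 + 2 * (24 * E8) / 2 ^ m)) ∧
    |BK L (EI m p0 Y J * DV β m p0 Y J * DD m p0 (-1) Y J)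
        (EI m p0 Y J * DV β m p0 Y J * DD m p0 (-1) Y J)|
      ≤ 2880 * (Y + 2) * Real.exp (∑ j ∈ Finset.range J, (2 * β j + β j ^ 2) * VV (sc Y p0 j)
        + (5184 / p0 + 2 * (24 * E8) / 2 ^ m)) := by
  have hE8 := E8_pos
  rw [DD_EGv]
  have hbk := fun j : ℕ => blockG (I := sc Y p0 j) (fun p hp => sc_prime hp) hL (sc_ge hp0 j)
    (Mm_pos' hm j) (VV_sc_le hY p0 j) (hb0 j) (hb j)
    (show tg (Mm m j) ≤ 1 from (geo_Mm_le (by positivity) hm j).trans hm2)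
  obtain ⟨a1, a2⟩ := prod_boundsL hL (Finset.range J) (sc Y p0)
    (fun _ _ _ _ h => sc_disjoint hY h) (fun j => EG (β j) (Mm m j) (sc Y p0 j))
    (fun j _ => sup_EG (fun p hp => sc_prime hp) _ _)
    (fun j => Real.exp ((2 * β j + β j ^ 2) * VV (sc Y p0 j) + 5184 * V2 (sc Y p0 j) + tg (Mm m j)))
    (fun j => 2880 * LL (sc Y p0 j)) (fun j _ => (Real.exp_pos _).le)
    (fun j _ => mul_nonneg (by norm_num) (LL_nonneg _))
    (fun j _ => (hbk j).1) (fun j _ => (hbk j).2)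
  have hV2' : ∑ j ∈ Finset.range J, V2 (sc Y p0 j) ≤ 1 / p0 := sum_sq_sc_le hY (by omega) J
  have hta : ∑ j ∈ Finset.range J, tg (Mm m j) ≤ 2 * (24 * E8) / 2 ^ m :=
    sum_geo_Mm (by positivity) hm J
  have hP : ∏ j ∈ Finset.range J, Real.exp ((2 * β j + β j ^ 2) * VV (sc Y p0 j)
      + 5184 * V2 (sc Y p0 j) + tg (Mm m j))
      ≤ Real.exp (∑ j ∈ Finset.range J, (2 * β j + β j ^ 2) * VV (sc Y p0 j)
        + (5184 / p0 + 2 * (24 * E8) / 2 ^ m)) := by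
    rw [← Real.exp_sum, Finset.sum_add_distrib, Finset.sum_add_distrib, ← Finset.mul_sum]
    apply Real.exp_le_exp.mpr
    have e1 : 5184 * ∑ j ∈ Finset.range J, V2 (sc Y p0 j) ≤ 5184 / p0 := by
      calc 5184 * ∑ j ∈ Finset.range J, V2 (sc Y p0 j) ≤ 5184 * (1 / p0) := by gcongr
        _ = _ := by ring
    linarith
  have hP0 : 0 ≤ ∏ j ∈ Finset.range J, Real.exp ((2 * β j + β j ^ 2) * VV (sc Y p0 j)
      + 5184 * V2 (sc Y p0 j) + tg (Mm m j)) := Finset.prod_nonneg fun j _ => (Real.exp_pos _).le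
  refine ⟨a1.trans hP, a2.trans ?_⟩
  have hs : ∑ j ∈ Finset.range J, 2880 * LL (sc Y p0 j) ≤ 2880 * (Y + 2) := by
    rw [← Finset.mul_sum]
    have := sum_LL_sc_le hY p0 J
    gcongr
  gcongr

end var

/-- the forms at two consecutive levels; level `l - 1` is `(m, Y, J + 1)`, level `l` is
`(2 m, Y / 4, J)`; `n = DD (2 m) b` at level `l`, `E = EI`, `D = DD (-1)` at level `l - 1`,
`V = ∑ j < J, VV (sc (Y / 4) p0 j)` -/
structure FS (C ε : ℝ) (m p0 : ℕ) (b Y : ℝ) (J : ℕ) : Prop where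
  e1 : (1 - C / 2 ^ m) * (Wsc p0 Y (J + 1) * BK K2 (DD (2 * m) p0 b (Y / 4) J) (DD (2 * m) p0 b (Y / 4) J))
    ≤ 2 * BK (Kcs 1) (DD (2 * m) p0 b (Y / 4) J) (EI m p0 Y (J + 1) * DD (2 * m) p0 b (Y / 4) J)
      - BK K1 (EI m p0 Y (J + 1) * DD (2 * m) p0 b (Y / 4) J)
        (EI m p0 Y (J + 1) * DD (2 * m) p0 b (Y / 4) J)
  diag_nonneg : 0 ≤ BK K1 (EI m p0 Y (J + 1) * DD (2 * m) p0 b (Y / 4) J)
        (EI m p0 Y (J + 1) * DD (2 * m) p0 b (Y / 4) J)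
  diag_le_cross : BK K1 (EI m p0 Y (J + 1) * DD (2 * m) p0 b (Y / 4) J)
        (EI m p0 Y (J + 1) * DD (2 * m) p0 b (Y / 4) J)
    ≤ BK (Kcs 1) (DD (2 * m) p0 b (Y / 4) J) (EI m p0 Y (J + 1) * DD (2 * m) p0 b (Y / 4) J)
  cross_le : BK (Kcs 1) (DD (2 * m) p0 b (Y / 4) J) (EI m p0 Y (J + 1) * DD (2 * m) p0 b (Y / 4) J)
    ≤ Wsc p0 Y (J + 1) * BK K2 (DD (2 * m) p0 b (Y / 4) J) (DD (2 * m) p0 b (Y / 4) J)
  k2q : |BK K2 (EI m p0 Y (J + 1) * DD (2 * m) p0 b (Y / 4) J * DD m p0 (-1) Y (J + 1))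
      (EI m p0 Y (J + 1) * DD (2 * m) p0 b (Y / 4) J * DD m p0 (-1) Y (J + 1))|
    ≤ Real.exp ((2 * b + b ^ 2) * ∑ j ∈ Finset.range J, VV (sc (Y / 4) p0 j) + ε)
  klq : |BK KL (EI m p0 Y (J + 1) * DD (2 * m) p0 b (Y / 4) J * DD m p0 (-1) Y (J + 1))
      (EI m p0 Y (J + 1) * DD (2 * m) p0 b (Y / 4) J * DD m p0 (-1) Y (J + 1))|
    ≤ C * (1 + Y) * Real.exp ((2 * b + b ^ 2) * ∑ j ∈ Finset.range J, VV (sc (Y / 4) p0 j))
  kgq : |BK Kg (EI m p0 Y (J + 1) * DD (2 * m) p0 b (Y / 4) J * DD m p0 (-1) Y (J + 1))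
      (EI m p0 Y (J + 1) * DD (2 * m) p0 b (Y / 4) J * DD m p0 (-1) Y (J + 1))|
    ≤ C * (1 + Y) * Real.exp ((2 * b + b ^ 2) * ∑ j ∈ Finset.range J, VV (sc (Y / 4) p0 j))
  lenEn : ∀ k, (EI m p0 Y (J + 1) * DD (2 * m) p0 b (Y / 4) J).coeff k ≠ 0 →
    1 ≤ k ∧ (k : ℝ) ≤ Real.exp (4 * m * Y)
  nrmEn : nrm (EI m p0 Y (J + 1) * DD (2 * m) p0 b (Y / 4) J) ≤ Real.exp (J + 4 * m * Y)
  lenq : ∀ k, (EI m p0 Y (J + 1) * DD (2 * m) p0 b (Y / 4) J * DD m p0 (-1) Y (J + 1)).coeff k ≠ 0 →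
    1 ≤ k ∧ (k : ℝ) ≤ Real.exp (6 * m * Y)
  nrmq : nrm (EI m p0 Y (J + 1) * DD (2 * m) p0 b (Y / 4) J * DD m p0 (-1) Y (J + 1))
    ≤ Real.exp (2 * J + 1 + 6 * m * Y)
  supn : Sup (Smo (⋃ j ∈ Finset.range (J + 1), (sc Y p0 j : Set ℕ))) (DD (2 * m) p0 b (Y / 4) J)
  supE : Sup (Smo (⋃ j ∈ Finset.range (J + 1), (sc Y p0 j : Set ℕ))) (EI m p0 Y (J + 1))
  supD : Sup (Smo (⋃ j ∈ Finset.range (J + 1), (sc Y p0 j : Set ℕ))) (DD m p0 (-1) Y (J + 1))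

/-- exponents vanishing at the first scale -/
noncomputable def bet (b : ℝ) (j : ℕ) : ℝ := if j = 0 then 0 else b

section

variable {m p0 J : ℕ} {Y b : ℝ}

lemma DV_bet (hY : 0 < Y) : DV (bet b) m p0 Y (J + 1) = DD (2 * m) p0 b (Y / 4) J := by
  unfold DV DD
  rw [Finset.prod_range_succ']
  have h0 : bet b 0 = 0 := by simp [bet]
  rw [h0, expo_zero, mul_one]
  refine Finset.prod_congr rfl fun j _ => ?_
  have h1 : bet b (j + 1) = b := by simp [bet]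
  rw [h1, Mm_succ, sc_succ hY]

lemma sum_bet (hY : 0 < Y) : ∑ j ∈ Finset.range (J + 1), (2 * bet b j + bet b j ^ 2) * VV (sc Y p0 j)
    = (2 * b + b ^ 2) * ∑ j ∈ Finset.range J, VV (sc (Y / 4) p0 j) := by
  rw [Finset.sum_range_succ', Finset.mul_sum]
  have h0 : bet b 0 = 0 := by simp [bet]
  rw [h0]
  simp only [mul_zero, ne_eq, OfNat.ofNat_ne_zero, not_false_eq_true, zero_pow, add_zero, zero_mul]
  refine Finset.sum_congr rfl fun j _ => ?_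
  have h1 : bet b (j + 1) = b := by simp [bet]
  rw [h1, sc_succ hY]

lemma lens_split (hY0 : 0 < Y) (hbb : |b| ≤ 1) :
    ((∀ k, (EI m p0 Y (J + 1) * DD (2 * m) p0 b (Y / 4) J).coeff k ≠ 0 →
        1 ≤ k ∧ (k : ℝ) ≤ Real.exp (4 * m * Y)) ∧
      nrm (EI m p0 Y (J + 1) * DD (2 * m) p0 b (Y / 4) J) ≤ Real.exp (J + 4 * m * Y)) ∧
    ((∀ k, (EI m p0 Y (J + 1) * DD (2 * m) p0 b (Y / 4) J * DD m p0 (-1) Y (J + 1)).coeff k ≠ 0 →
      1 ≤ k ∧ (k : ℝ) ≤ Real.exp (6 * m * Y)) ∧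
      nrm (EI m p0 Y (J + 1) * DD (2 * m) p0 b (Y / 4) J * DD m p0 (-1) Y (J + 1))
        ≤ Real.exp (2 * J + 1 + 6 * m * Y)) := by
  have hY4 : 0 < Y / 4 := by positivity
  have c1 := cone_DD1 (2 * m) p0 hY4 J
  have g1 := aug_DD1 (2 * m) p0 hY4 J
  have g0 := aug_nonneg' c1
  have c2 := cone_DD1 m p0 hY0 (J + 1)
  have g2 := aug_DD1 m p0 hY0 (J + 1)
  have g20 := aug_nonneg' c2
  have dn := dom_DD (2 * m) p0 hbb (Y / 4) J
  have dM := dom_DD m p0 (c := -1) (by simp) Y (J + 1)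
  have cE := cone_EI_len (m := m) (p0 := p0) (J := J + 1) hY0
  have gE := aug_EI_le (m := m) (p0 := p0) (J := J + 1) hY0
  have dE : Dom (EI m p0 Y (J + 1)) (EI m p0 Y (J + 1)) := dom_self cE
  have gE0 := aug_nonneg' cE
  set G := DD (2 * m) p0 1 (Y / 4) J with hG
  set G' := DD m p0 1 Y (J + 1) with hG'
  set E := EI m p0 Y (J + 1) with hE
  have cc2 : Cone (Len (2 * m * Y + 2 * (2 * m : ℕ) * (Y / 4))) (E * G) :=
    cE.mul c1 fun x hx y hy => Len.mul hx hy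
  have cc3 : Cone (Len (2 * m * Y + 2 * (2 * m : ℕ) * (Y / 4) + 2 * m * Y)) (E * G * G') :=
    cc2.mul c2 fun x hx y hy => Len.mul hx hy
  have gg2 : aug (E * G) ≤ Real.exp ((2 * m * Y) + (J + 2 * (2 * m : ℕ) * (Y / 4))) := by
    rw [aug_mul, Real.exp_add]
    exact mul_le_mul gE g1 g0 (Real.exp_pos _).le
  have gg3 : aug (E * G * G') ≤ Real.exp ((2 * m * Y) + (J + 2 * (2 * m : ℕ) * (Y / 4))
      + ((J + 1 : ℕ) + 2 * m * Y)) := by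
    rw [aug_mul, Real.exp_add]
    exact mul_le_mul gg2 g2 g20 (Real.exp_pos _).le
  have hmY : 0 ≤ (m : ℝ) * Y := by positivity
  have t1 : 2 * m * Y + 2 * ((2 * m : ℕ) : ℝ) * (Y / 4) ≤ 4 * m * Y := by
    push_cast
    linarith only [hmY]
  refine ⟨len_nrm_dom (dE.mul dn) cc2 gg2 t1 ?_,
    len_nrm_dom ((dE.mul dn).mul dM) cc3 gg3 ?_ ?_⟩
  · linarith only [t1]
  · linarith only [t1]
  · push_cast at t1 ⊢
    linarith only [t1]

lemma FS_of {ε : ℝ} (hm1 : 1 ≤ m) (q2 : C7 / 2 ^ m ≤ 1)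
    (q4 : 24 * E8 / 2 ^ m ≤ 1) (hp0c : 144 ≤ p0)
    (her2 : 5184 / (p0 : ℝ) + 2 * (24 * E8) / 2 ^ m ≤ ε)
    (her3 : 5184 / (p0 : ℝ) + 2 * (24 * E8) / 2 ^ m ≤ 1)
    (hb0 : 0 ≤ b) (hb1 : b ≤ 1 / 4) (hY : 1 ≤ Y) (J : ℕ) : FS C9 ε m p0 b Y J := by
  have hY0 : 0 < Y := by linarith only [hY]
  have hY4 : 0 < Y / 4 := by positivity
  have hbb : |b| ≤ 1 := by rw [abs_of_nonneg hb0]; linarith only [hb1]
  have hβ0 : ∀ j, 0 ≤ bet b j := fun j => by unfold bet; split_ifs; exacts [le_rfl, hb0]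
  have hβ1 : ∀ j, bet b j ≤ 1 / 2 := fun j => by
    unfold bet; split_ifs
    · norm_num
    · linarith only [hb1]
  have hβ2 : ∀ j, bet b j ≤ 1 := fun j => (hβ1 j).trans (by norm_num)
  obtain ⟨C9a, C9b, C9c⟩ := C9_ge
  have hL2 := scal_le (x := (2 * b + b ^ 2) * ∑ j ∈ Finset.range J, VV (sc (Y / 4) p0 j))
    (K := 2880) (by norm_num) hY her3 (by linarith only [C9c] : 2 * 2880 * Real.exp 1 ≤ C9)
  obtain ⟨r1, r2, r3, r4, r5, r6⟩ := E1_bounds_var (m := m) (p0 := p0) (β := bet b) hY0 hm1 q2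
    hp0c hβ0 hβ1 (J + 1)
  have hqL := q_bounds_var (m := m) (p0 := p0) (β := bet b) logKer_KL hY0 hm1 q4 hp0c hβ0 hβ2 (J + 1)
  have hqg := q_bounds_var (m := m) (p0 := p0) (β := bet b) logKer_Kg hY0 hm1 q4 hp0c hβ0 hβ2 (J + 1)
  rw [DV_bet hY0] at r1 r2 r3 r4 r5 hqL hqg
  rw [sum_bet hY0] at hqL hqg
  obtain ⟨⟨l2, n2⟩, ⟨l3, n3⟩⟩ := lens_split (m := m) (p0 := p0) (J := J) hY0 hbb
  have hsub : (⋃ j ∈ Finset.range J, (sc (Y / 4) p0 j : Set ℕ))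
      ⊆ ⋃ j ∈ Finset.range (J + 1), (sc Y p0 j : Set ℕ) := by
    intro p hp
    rw [Set.mem_iUnion₂] at hp ⊢
    obtain ⟨j, hj, hp⟩ := hp
    rw [Finset.mem_range] at hj
    exact ⟨j + 1, Finset.mem_range.mpr (by omega), by rw [sc_succ hY0]; exact hp⟩
  refine ⟨?_, r1, r2, r3, ?_, ?_, ?_, l2, n2, l3, n3, (sup_DD _ _ _ _ _).mono (Smo_mono hsub),
    sup_of_cone cone_EI_Smo, sup_DD _ _ _ _ _⟩
  · have hWS : 0 ≤ Wsc p0 Y (J + 1) * BK K2 (DD (2 * m) p0 b (Y / 4) J) (DD (2 * m) p0 b (Y / 4) J) :=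
      mul_nonneg (zero_le_one.trans r6) (zero_le_one.trans r5)
    have h1 : 2 * C7 / 2 ^ m ≤ C9 / 2 ^ m := by gcongr
    calc (1 - C9 / 2 ^ m) * (Wsc p0 Y (J + 1)
          * BK K2 (DD (2 * m) p0 b (Y / 4) J) (DD (2 * m) p0 b (Y / 4) J))
        ≤ (1 - 2 * C7 / 2 ^ m) * (Wsc p0 Y (J + 1)
          * BK K2 (DD (2 * m) p0 b (Y / 4) J) (DD (2 * m) p0 b (Y / 4) J)) :=
          mul_le_mul_of_nonneg_right (sub_le_sub_left h1 _) hWS
      _ = Wsc p0 Y (J + 1) * BK K2 (DD (2 * m) p0 b (Y / 4) J) (DD (2 * m) p0 b (Y / 4) J)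
          * (1 - 2 * C7 / 2 ^ m) := by ring
      _ ≤ _ := by linarith only [r2, r4]
  · exact hqL.1.trans (Real.exp_le_exp.mpr (add_le_add_right her2 _))
  · exact hqL.2.trans hL2
  · exact hqg.2.trans hL2

end

/-- the forms at two consecutive levels -/
theorem forms_split : ∃ C : ℝ, 0 ≤ C ∧ ∀ ε : ℝ, 0 < ε → ∃ m1 p1 : ℕ, 4000 ≤ m1 ∧ 144 ≤ p1 ∧
    ∀ m : ℕ, m1 ≤ m → ∀ p0 : ℕ, p1 ≤ p0 → ∀ b : ℝ, 0 ≤ b → b ≤ 1 / 4 → ∀ Y : ℝ, 1 ≤ Y → ∀ J : ℕ,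
    FS C ε m p0 b Y J := by
  have hC7 := C7_pos
  have hE8 := E8_pos
  refine ⟨C9, C9_pos.le, fun ε hε => ?_⟩
  set ε' := min ε 1 with hε'
  have hε'0 : 0 < ε' := lt_min hε one_pos
  have hε'1 : ε' ≤ 1 := min_le_right _ _
  have hε'2 : ε' ≤ ε := min_le_left _ _
  obtain ⟨n1, hn1⟩ := exists_pow_lt_of_lt_one (K := ℝ)
    (show 0 < ε' / 2 / (C7 + 48 * E8) by positivity) (show (1 / 2 : ℝ) < 1 by norm_num)
  obtain ⟨p1, hp1⟩ := exists_nat_ge (2 * 5184 / ε' + 144)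
  have hpp : 0 ≤ 2 * 5184 / ε' := by positivity
  refine ⟨max n1 4000, p1, by omega, ?_, ?_⟩
  · have : (144 : ℝ) ≤ p1 := by linarith only [hp1, hpp]
    exact_mod_cast this
  intro m hm p0 hp0 b hb0 hb1 Y hY J
  have hm1 : 1 ≤ m := by
    have := le_trans (le_max_right _ _) hm
    omega
  have hpow : (1 / 2 : ℝ) ^ m ≤ ε' / 2 / (C7 + 48 * E8) := by
    refine le_trans ?_ hn1.le
    exact pow_le_pow_of_le_one (by norm_num) (by norm_num) (le_trans (le_max_left _ _) hm)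
  rw [le_div_iff₀ (by positivity)] at hpow
  have hpm : (1 / 2 : ℝ) ^ m = 1 / 2 ^ m := by rw [one_div, one_div, inv_pow]
  rw [hpm] at hpow
  have i2 : 0 ≤ 1 / 2 ^ m * C7 := by positivity
  have i3 : 0 ≤ 1 / 2 ^ m * (48 * E8) := by positivity
  have q2 : C7 / 2 ^ m ≤ ε' / 2 := by
    calc C7 / 2 ^ m = 1 / 2 ^ m * C7 := by ring
      _ ≤ _ := by linarith only [hpow, i2, i3]
  have q3 : 2 * (24 * E8) / 2 ^ m ≤ ε' / 2 := by
    calc 2 * (24 * E8) / 2 ^ m = 1 / 2 ^ m * (48 * E8) := by ring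
      _ ≤ _ := by linarith only [hpow, i2, i3]
  have q4 : 24 * E8 / 2 ^ m ≤ 1 := by
    have : 24 * E8 / 2 ^ m = (2 * (24 * E8) / 2 ^ m) / 2 := by ring
    rw [this]
    linarith only [q3, hε'1]
  have hp0r : 2 * 5184 / ε' + 144 ≤ p0 := hp1.trans (by exact_mod_cast hp0)
  have hp0b : 2 * 5184 / ε' ≤ p0 := by linarith only [hp0r]
  have hp0d : (144 : ℝ) ≤ p0 := by linarith only [hp0r, hpp]
  have hp0pos : (0 : ℝ) < p0 := by linarith only [hp0d]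
  have hp0c : 144 ≤ p0 := by exact_mod_cast hp0d
  rw [div_le_iff₀ hε'0] at hp0b
  have q6 : 5184 / (p0 : ℝ) ≤ ε' / 2 := by
    rw [div_le_iff₀ hp0pos]
    linarith only [hp0b]
  have her2 : 5184 / (p0 : ℝ) + 2 * (24 * E8) / 2 ^ m ≤ ε' := by linarith only [q3, q6]
  exact FS_of hm1 (by linarith only [q2, hε'1]) q4 hp0c (her2.trans hε'2) (her2.trans hε'1)
    hb0 hb1 hY J

end Pool.Agent.Lib.MP_f9aece_nt_h40
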