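import Mathlib
import Pool.Agent.Lib.MP_f9aece_nt_h40.FormsTwoC

/-!
The quadratic forms needed near the second moment.
-/

set_option autoImplicit false

namespace Pool.Agent.Lib.MP_f9aece_nt_h40

open MeasureTheory Set Filter Topology Complex
open Pool.Agent.Lib.MP_f9aece_nt
open Pool.Agent.Lib.MP_f9aece_nt_h97

lemma K1s_one_eq : K1s 1 = K1 := by
  funext a b
  unfold K1s K1
  rw [Real.rpow_neg_one]

lemma aeval_TE (c : ℝ) (M : ℕ) (I : Finset ℕ) : Polynomial.aeval (PP I) (TE c M) = expo c M I := by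
  unfold TE expo
  rw [map_sum]
  refine Finset.sum_congr rfl fun r _ => ?_
  rw [Polynomial.aeval_monomial, Algebra.smul_def]

lemma natDegree_TE (c : ℝ) (M : ℕ) : (TE c M).natDegree ≤ M := by
  rw [Polynomial.natDegree_le_iff_coeff_eq_zero]
  intro n hn
  rw [coeff_TE, if_neg (by omega)]

/-- the product of two truncated exponentials is dominated by one truncated exponential -/
lemma dom_mul_expo {I : Finset ℕ} (hI : ∀ p ∈ I, p.Prime) {c d : ℝ} {M : ℕ} (hM : 1 ≤ M) :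
    Dom (expo c M I * expo d M I) (expo (|c| + |d|) (2 * M) I) := by
  have hcf := (cf_TE c hM).mul (cf_TE d hM)
  have hdeg : (TE c M * TE d M).natDegree < 2 * M + 1 := by
    have h1 := Polynomial.natDegree_mul_le (p := TE c M) (q := TE d M)
    have h2 := natDegree_TE c M
    have h3 := natDegree_TE d M
    omega
  rw [← aeval_TE c, ← aeval_TE d, ← map_mul, Polynomial.aeval_eq_sum_range' hdeg]
  unfold expo
  exact Dom.sum _ fun r _ => (dom_self (cone_PP_pow hI r)).smul (hcf.le r)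

/-- the diagonal form at a truncated exponential times a high power -/
lemma K1_expo_pow {I : Finset ℕ} (hI : ∀ p ∈ I, p.Prime) (hV : VV I ≤ 12) (M N : ℕ) :
    BK K1 (expo 2 N I * PP I ^ M) (expo 2 N I * PP I ^ M)
      ≤ (M.factorial : ℝ) * 24 ^ M * Real.exp 96 := by
  have hVn := VV_nonneg I
  have e : expo 2 N I * PP I ^ M
      = ∑ r ∈ Finset.range (N + 1), ((2 : ℝ) ^ r / (r.factorial : ℝ)) • PP I ^ (r + M) := by
    unfold expo
    rw [Finset.sum_mul]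
    refine Finset.sum_congr rfl fun r _ => ?_
    rw [smul_mul_assoc, pow_add]
  rw [e, BK_sum_left]
  have h1 : ∀ r ∈ Finset.range (N + 1),
      BK K1 (((2 : ℝ) ^ r / (r.factorial : ℝ)) • PP I ^ (r + M))
        (∑ s ∈ Finset.range (N + 1), ((2 : ℝ) ^ s / (s.factorial : ℝ)) • PP I ^ (s + M))
      ≤ (M.factorial : ℝ) * 24 ^ M * (96 ^ r / (r.factorial : ℝ)) := by
    intro r hr
    rw [BK_sum_right, Finset.sum_eq_single r]
    · rw [BK_smul_left, BK_smul_right]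
      have h2 := BK_PP_pow_self hI (r + M)
      have h3 : (0 : ℝ) < r.factorial := by positivity
      have h4 : ((r + M).factorial : ℝ) ≤ 2 ^ (r + M) * r.factorial * M.factorial := by
        have h5 := Nat.add_choose_mul_factorial_mul_factorial r M
        have h6 : (r + M).choose r ≤ 2 ^ (r + M) := Nat.choose_le_two_pow _ _
        have h6' : (r + M).choose M ≤ 2 ^ (r + M) := Nat.choose_le_two_pow _ _
        have h7 : (r + M).factorial ≤ 2 ^ (r + M) * r.factorial * M.factorial := by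
          rw [← h5]
          gcongr
        exact_mod_cast h7
      have h8 : VV I ^ (r + M) ≤ 12 ^ (r + M) := by gcongr
      calc 2 ^ r / (r.factorial : ℝ) * (2 ^ r / (r.factorial : ℝ)
            * BK K1 (PP I ^ (r + M)) (PP I ^ (r + M)))
          = (2 ^ r / (r.factorial : ℝ)) ^ 2 * BK K1 (PP I ^ (r + M)) (PP I ^ (r + M)) := by ring
        _ ≤ (2 ^ r / (r.factorial : ℝ)) ^ 2
            * ((2 ^ (r + M) * r.factorial * M.factorial) * 12 ^ (r + M)) := by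
            refine mul_le_mul_of_nonneg_left (h2.trans ?_) (by positivity)
            gcongr
        _ = _ := by
            have e1 : (96 : ℝ) ^ r = 4 ^ r * 24 ^ r := by rw [← mul_pow]; norm_num
            have e2 : (24 : ℝ) ^ (r + M) = 2 ^ (r + M) * 12 ^ (r + M) := by rw [← mul_pow]; norm_num
            have e3 : (4 : ℝ) ^ r = (2 ^ r) ^ 2 := by rw [← pow_mul, mul_comm r 2, pow_mul]; norm_num
            rw [e1, e3]
            have e4 : (24 : ℝ) ^ (r + M) = 24 ^ r * 24 ^ M := pow_add _ _ _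
            field_simp
            rw [← e2, e4]
            ring
    · intro s _ hs
      rw [BK_smul_left, BK_smul_right, BK_PP_pow_ne hI (by omega)]
      simp
    · intro h; exact absurd hr h
  refine (Finset.sum_le_sum h1).trans ?_
  rw [← Finset.mul_sum]
  gcongr
  exact Real.sum_le_exp_of_nonneg (by norm_num) _

/-- one block of the large value sum -/
lemma block_large {I : Finset ℕ} (hI : ∀ p ∈ I, p.Prime) (hV : VV I ≤ 12) {a : ℝ} (ha : |a| ≤ 1)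
    {M : ℕ} (hM : 4800 ≤ M) :
    |BK K1 (expo 1 M I * expo (-a) M I * PP I ^ M) (expo 1 M I * expo (-a) M I * PP I ^ M)|
      / ((M : ℝ) / 10) ^ (2 * M) ≤ Real.exp 96 / 2 ^ M := by
  have hM1 : 1 ≤ M := by omega
  have hd : Dom (expo 1 M I * expo (-a) M I * PP I ^ M) (expo 2 (2 * M) I * PP I ^ M) := by
    refine Dom.mul ?_ (dom_self (cone_PP_pow hI M))
    intro n
    refine (dom_mul_expo hI hM1 n).trans ?_
    have h1 : Dom (expo (|1| + |-a|) (2 * M) I) (expo 2 (2 * M) I) := by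
      refine dom_expo hI ?_ _
      rw [abs_neg, abs_one, abs_of_nonneg (by positivity)]
      linarith
    exact (le_abs_self _).trans (h1 n)
  have h1 := (abs_BK_le_of_dom K1_nonneg hd hd).trans (K1_expo_pow hI hV M (2 * M))
  have hM0 : (0 : ℝ) < M := by exact_mod_cast (by omega : 0 < M)
  have hM4 : (4800 : ℝ) ≤ M := by exact_mod_cast hM
  rw [div_le_iff₀ (by positivity)]
  refine h1.trans ?_
  have h2 : (M.factorial : ℝ) ≤ M ^ M := by exact_mod_cast Nat.factorial_le_pow M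
  have h3 : (2 : ℝ) ^ M * ((M : ℝ) ^ M * 24 ^ M) ≤ ((M : ℝ) / 10) ^ (2 * M) := by
    rw [pow_mul, ← mul_pow, ← mul_pow]
    apply pow_le_pow_left₀ (by positivity)
    nlinarith
  have h4 : (M.factorial : ℝ) * 24 ^ M ≤ ((M : ℝ) / 10) ^ (2 * M) / 2 ^ M := by
    rw [le_div_iff₀ (by positivity)]
    refine le_trans ?_ h3
    calc (M.factorial : ℝ) * 24 ^ M * 2 ^ M ≤ (M : ℝ) ^ M * 24 ^ M * 2 ^ M := by gcongr
      _ = _ := by ring
  calc (M.factorial : ℝ) * 24 ^ M * Real.exp 96 ≤ ((M : ℝ) / 10) ^ (2 * M) / 2 ^ M * Real.exp 96 := by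
        gcongr
    _ = _ := by ring

section scales

variable {m p0 J : ℕ} {Y : ℝ}

/-- the large value sum -/
lemma large_sum (hY : 0 < Y) {a : ℝ} (ha0 : 0 ≤ a) (ha : a ≤ 1) (hm : 4800 ≤ m)
    (hm2 : 2 * C6 / 2 ^ m ≤ 1) (hp0 : 2 * (E6 + 1) ≤ p0) :
    ∑ j ∈ Finset.range J,
      BK (K1s 1) (DD m p0 1 Y J * DD m p0 (-a) Y J * PP (sc Y p0 j) ^ Mm m j)
        (DD m p0 1 Y J * DD m p0 (-a) Y J * PP (sc Y p0 j) ^ Mm m j)
        / ((Mm m j : ℝ) / 10) ^ (2 * Mm m j)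
      ≤ 2 * Real.exp 96 / 2 ^ m
        * Real.exp ((1 - a) ^ 2 * ∑ j ∈ Finset.range J, VV (sc Y p0 j) + er m p0) := by
  classical
  have h6 := E6_pos
  have hm1 : 1 ≤ m := by omega
  have hp1 : 1 ≤ p0 := by
    have : (1 : ℝ) ≤ p0 := by linarith
    exact_mod_cast this
  have haa : |(-a)| ≤ 1 := by rw [abs_neg, abs_of_nonneg ha0]; exact ha
  have haa' : |a| ≤ 1 := by rw [abs_of_nonneg ha0]; exact ha
  have hk1 : (1 - a) ^ 2 ≤ 1 := pow_le_one₀ (sub_nonneg.2 ha) (sub_le_self 1 ha0)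
  have hMK := mk_K1s (le_refl (1 : ℝ))
  set X := Real.exp ((1 - a) ^ 2 * ∑ j ∈ Finset.range J, VV (sc Y p0 j) + er m p0) with hX
  have hX0 : 0 < X := Real.exp_pos _
  -- block bounds
  have hblock := fun i : ℕ => block_two hMK (I := sc Y p0 i) (M := Mm m i) (c1 := 1) (c2 := -a)
    (c3 := 0) (d1 := 1) (d2 := -a) (d3 := 0) (κ := (1 - a) ^ 2)
    (fun p hp => sc_prime hp) (by simp) haa (by simp) (by simp) haa (by simp)
    (sc_small hp0 i) (by positivity) hk1 (by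
      intro p hp
      have hpp := sc_prime hp
      have k1 : K1s 1 p 1 = 0 := by unfold K1s; rw [if_neg hpp.one_lt.ne']
      have k2 : K1s 1 1 p = 0 := by unfold K1s; rw [if_neg hpp.one_lt.ne]
      have k3 : K1s 1 p p = (p : ℝ)⁻¹ := by unfold K1s; rw [if_pos rfl, Real.rpow_neg_one]
      rw [k1, k2, k3]
      ring) (VV_sc_le hY p0 i) (Mm_pos' hm1 i) (ta_Mm_le_one hm1 hm2 i)
  set U : ℕ → ℝ := fun i => Real.exp ((1 - a) ^ 2 * VV (sc Y p0 i) + E6 * V2 (sc Y p0 i) + ta (Mm m i))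
    with hU
  have hU1 : ∀ i, 1 ≤ U i := by
    intro i
    apply Real.one_le_exp
    have := VV_nonneg (sc Y p0 i)
    have := V2_nonneg (sc Y p0 i)
    have := ta_pos (Mm m i)
    positivity
  have hUX : ∏ i ∈ Finset.range J, U i ≤ X := by
    rw [hU, hX, ← Real.exp_sum, Finset.sum_add_distrib, Finset.sum_add_distrib, ← Finset.mul_sum,
      ← Finset.mul_sum]
    apply Real.exp_le_exp.mpr
    have hV2' : ∑ j ∈ Finset.range J, V2 (sc Y p0 j) ≤ 1 / p0 := sum_sq_sc_le hY hp1 J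
    have hta := sum_ta_le hm1 J
    have hp0' : (0 : ℝ) < p0 := by exact_mod_cast hp1
    have e1 : E6 * ∑ j ∈ Finset.range J, V2 (sc Y p0 j) ≤ (E6 + 2) / p0 := by
      calc E6 * ∑ j ∈ Finset.range J, V2 (sc Y p0 j) ≤ E6 * (1 / p0) := by gcongr
        _ ≤ (E6 + 2) * (1 / p0) := by gcongr; linarith
        _ = _ := by ring
    unfold er
    linarith
  have hterm : ∀ j ∈ Finset.range J,
      BK (K1s 1) (DD m p0 1 Y J * DD m p0 (-a) Y J * PP (sc Y p0 j) ^ Mm m j)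
        (DD m p0 1 Y J * DD m p0 (-a) Y J * PP (sc Y p0 j) ^ Mm m j)
        / ((Mm m j : ℝ) / 10) ^ (2 * Mm m j)
      ≤ (2 * Real.exp 96 / 2 ^ m * (1 / 2) ^ (j + 1)) * X := by
    intro j hj
    have hMj : 4800 ≤ Mm m j := by
      unfold Mm
      exact hm.trans (Nat.le_mul_of_pos_right m (Nat.two_pow_pos j))
    have hMj0 : (0 : ℝ) < Mm m j := by exact_mod_cast (by omega : 0 < Mm m j)
    set D : ℝ := ((Mm m j : ℝ) / 10) ^ (2 * Mm m j) with hD
    have hD0 : 0 < D := by positivity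
    set g : ℕ → DP := fun i => if i = j then PP (sc Y p0 j) ^ Mm m j else 1 with hg
    have hgp : ∏ i ∈ Finset.range J, g i = PP (sc Y p0 j) ^ Mm m j := by
      rw [hg, Finset.prod_ite_eq' (Finset.range J) j, if_pos hj]
    set f : ℕ → DP := fun i => expo 1 (Mm m i) (sc Y p0 i) * expo (-a) (Mm m i) (sc Y p0 i) * g i with hf
    have e1 : DD m p0 1 Y J * DD m p0 (-a) Y J * PP (sc Y p0 j) ^ Mm m j
        = ∏ i ∈ Finset.range J, f i := by
      rw [hf, Finset.prod_mul_distrib, Finset.prod_mul_distrib, hgp]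
      rfl
    have hsup : ∀ i ∈ Finset.range J, Sup (Smo (sc Y p0 i : Set ℕ)) (f i) := by
      intro i _
      have hpr : ∀ p ∈ sc Y p0 i, p.Prime := fun p hp => sc_prime hp
      refine ((sup_expo hpr _ _).mul (sup_expo hpr _ _) fun _ ha _ hb => mul_mem_Smo ha hb).mul
        ?_ fun _ ha _ hb => mul_mem_Smo ha hb
      rw [hg]
      simp only
      split_ifs with h
      · subst h
        exact (sup_of_cone (cone_PP_pow hpr _)).mono fun n hn => hn.1
      · exact Sup.one (one_mem_Smo _)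
    rw [e1, BK_prod_MK hMK (Finset.range J) (sc Y p0) (fun _ _ _ _ h => sc_disjoint hY h) _ _ hsup hsup,
      ← Finset.mul_prod_erase _ _ hj]
    have hj1 : |BK (K1s 1) (f j) (f j)| / D ≤ Real.exp 96 / 2 ^ Mm m j := by
      have := block_large (I := sc Y p0 j) (fun p hp => sc_prime hp) (VV_sc_le hY p0 j) haa' hMj
      rw [K1s_one_eq, hf, hg]
      simpa using this
    have hrest : |∏ i ∈ (Finset.range J).erase j, BK (K1s 1) (f i) (f i)| ≤ X := by
      rw [Finset.abs_prod]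
      have h1 : ∏ i ∈ (Finset.range J).erase j, |BK (K1s 1) (f i) (f i)|
          ≤ ∏ i ∈ (Finset.range J).erase j, U i := by
        refine Finset.prod_le_prod (fun i _ => abs_nonneg _) fun i hi => ?_
        have hij := Finset.ne_of_mem_erase hi
        have e2 : f i = E3 1 (-a) 0 (Mm m i) (sc Y p0 i) := by
          rw [hf, hg]
          simp only
          rw [if_neg hij]
          unfold E3
          rw [expo_zero]
        rw [e2, abs_of_nonneg ((Real.exp_pos _).le.trans (hblock i).1)]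
        exact (hblock i).2
      refine h1.trans (le_trans ?_ hUX)
      rw [← Finset.mul_prod_erase _ _ hj]
      have h2 : 0 ≤ ∏ i ∈ (Finset.range J).erase j, U i := Finset.prod_nonneg fun i _ => (Real.exp_pos _).le
      calc ∏ i ∈ (Finset.range J).erase j, U i = 1 * ∏ i ∈ (Finset.range J).erase j, U i := (one_mul _).symm
        _ ≤ _ := by
            have := hU1 j
            gcongr
    have h2j : Real.exp 96 / 2 ^ Mm m j ≤ 2 * Real.exp 96 / 2 ^ m * (1 / 2) ^ (j + 1) := by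
      unfold Mm
      have h1 : m + j ≤ m * 2 ^ j := by
        have h2 : j + 1 ≤ 2 ^ j := Nat.lt_two_pow_self
        calc m + j ≤ m + m * j := by
              have : j ≤ m * j := Nat.le_mul_of_pos_left j hm1
              omega
          _ = m * (j + 1) := by ring
          _ ≤ _ := Nat.mul_le_mul_left m h2
      have h3 : (2 : ℝ) ^ (m + j) ≤ 2 ^ (m * 2 ^ j) := pow_le_pow_right₀ (by norm_num) h1
      calc Real.exp 96 / 2 ^ (m * 2 ^ j) ≤ Real.exp 96 / 2 ^ (m + j) := by gcongr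
        _ = _ := by
            rw [pow_add 2 m j, one_div, inv_pow, pow_succ]
            field_simp
    have h4 : BK (K1s 1) (f j) (f j) * (∏ i ∈ (Finset.range J).erase j, BK (K1s 1) (f i) (f i))
        ≤ |BK (K1s 1) (f j) (f j)| * |∏ i ∈ (Finset.range J).erase j, BK (K1s 1) (f i) (f i)| := by
      rw [← abs_mul]
      exact le_abs_self _
    calc (BK (K1s 1) (f j) (f j) * (∏ i ∈ (Finset.range J).erase j, BK (K1s 1) (f i) (f i))) / D
        ≤ (|BK (K1s 1) (f j) (f j)| * |∏ i ∈ (Finset.range J).erase j, BK (K1s 1) (f i) (f i)|) / D := by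
          gcongr
      _ = (|BK (K1s 1) (f j) (f j)| / D)
          * |∏ i ∈ (Finset.range J).erase j, BK (K1s 1) (f i) (f i)| := by ring
      _ ≤ (2 * Real.exp 96 / 2 ^ m * (1 / 2) ^ (j + 1)) * X :=
          mul_le_mul (hj1.trans h2j) hrest (abs_nonneg _) (by positivity)
  refine (Finset.sum_le_sum hterm).trans ?_
  rw [← Finset.sum_mul, ← Finset.mul_sum]
  have := sum_half_le J
  have h7 : 2 * Real.exp 96 / 2 ^ m * ∑ j ∈ Finset.range J, (1 / 2 : ℝ) ^ (j + 1)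
      ≤ 2 * Real.exp 96 / 2 ^ m * 1 := by gcongr
  rw [mul_one] at h7
  exact mul_le_mul_of_nonneg_right h7 hX0.le

/-! ### lengths and norms -/

/-- support and norm bounds from a dominating polynomial -/
lemma len_nrm_of_dom {f g : DP} {lam mu : ℝ} (h : Dom f g) (hg : Cone (Len lam) g)
    (ha : aug g ≤ Real.exp mu) {lam' mu' : ℝ} (hl : lam ≤ lam') (hm : mu ≤ mu') :
    (∀ n, f.coeff n ≠ 0 → 1 ≤ n ∧ (n : ℝ) ≤ Real.exp lam') ∧ nrm f ≤ Real.exp mu' := by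
  refine ⟨fun n hn => ?_, (nrm_le_aug h).trans (ha.trans (Real.exp_le_exp.mpr hm))⟩
  obtain ⟨h1, h2⟩ := sup_len_floor (h.sup hg) n hn
  exact ⟨h1, h2.trans (Real.exp_le_exp.mpr hl)⟩

lemma cone_PPs (hY : 0 < Y) (m p0 j : ℕ) : Cone (Len (m * Y)) (PP (sc Y p0 j) ^ Mm m j) := by
  refine (cone_PP_pow (fun p hp => sc_prime hp) (Mm m j)).mono fun n hn => ?_
  have h1 := log_le_of_Omega (I := (sc Y p0 j : Set ℕ)) (fun p hp => sc_log_le hp)
    (by positivity : 0 ≤ Y / 4 ^ j) hn.1 hn.2.le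
  refine ⟨Smo_pos hn.1, h1.trans ?_⟩
  unfold Mm
  push_cast
  have h2 : (2 : ℝ) ^ j ≤ 4 ^ j := by gcongr; norm_num
  calc (m : ℝ) * 2 ^ j * (Y / 4 ^ j) = m * Y * (2 ^ j / 4 ^ j) := by ring
    _ ≤ m * Y * 1 := by
        gcongr
        rw [div_le_one (by positivity)]
        exact h2
    _ = _ := mul_one _

lemma aug_PPs (hY : 0 < Y) (m p0 j : ℕ) : aug (PP (sc Y p0 j) ^ Mm m j) ≤ Real.exp (m * Y) := by
  rw [aug_pow, aug_PP]
  have h1 : ((sc Y p0 j).card : ℝ) ≤ Real.exp (Y / 4 ^ j) :=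
    card_le_exp fun p hp => ⟨(sc_prime hp).one_le, sc_log_le hp⟩
  calc ((sc Y p0 j).card : ℝ) ^ Mm m j ≤ Real.exp (Y / 4 ^ j) ^ Mm m j := by gcongr
    _ = Real.exp (Mm m j * (Y / 4 ^ j)) := by rw [← Real.exp_nat_mul]
    _ ≤ _ := by
        apply Real.exp_le_exp.mpr
        unfold Mm
        push_cast
        have h2 : (2 : ℝ) ^ j ≤ 4 ^ j := by gcongr; norm_num
        calc (m : ℝ) * 2 ^ j * (Y / 4 ^ j) = m * Y * (2 ^ j / 4 ^ j) := by ring
          _ ≤ m * Y * 1 := by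
              gcongr
              rw [div_le_one (by positivity)]
              exact h2
          _ = _ := mul_one _

end scales

/-- the forms needed near the second moment; `e = DD 1`, `da = DD (-a)`, `d = DD (-1)` -/
structure FT (C ε : ℝ) (m p0 : ℕ) (a Y : ℝ) (J : ℕ) : Prop where
  cross_ge : Real.exp ((1 - a) ^ 2 * ∑ j ∈ Finset.range J, VV (sc Y p0 j) - ε)
    ≤ BK (Kcs 1) (DD m p0 (-a) Y J) (DD m p0 1 Y J * DD m p0 (-a) Y J)
  cross_le : BK (Kcs 1) (DD m p0 (-a) Y J) (DD m p0 1 Y J * DD m p0 (-a) Y J)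
    ≤ Real.exp ((1 - a) ^ 2 * ∑ j ∈ Finset.range J, VV (sc Y p0 j) + ε)
  diag_ge : Real.exp ((1 - a) ^ 2 * ∑ j ∈ Finset.range J, VV (sc Y p0 j) - ε)
    ≤ BK (K1s 1) (DD m p0 1 Y J * DD m p0 (-a) Y J) (DD m p0 1 Y J * DD m p0 (-a) Y J)
  diag_le : BK (K1s 1) (DD m p0 1 Y J * DD m p0 (-a) Y J) (DD m p0 1 Y J * DD m p0 (-a) Y J)
    ≤ Real.exp ((1 - a) ^ 2 * ∑ j ∈ Finset.range J, VV (sc Y p0 j) + ε)
  k2 : |BK K2 (DD m p0 1 Y J * DD m p0 (-a) Y J * DD m p0 (-1) Y J)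
      (DD m p0 1 Y J * DD m p0 (-a) Y J * DD m p0 (-1) Y J)|
    ≤ Real.exp (((1 - a) ^ 2 - 1) * ∑ j ∈ Finset.range J, VV (sc Y p0 j) + ε)
  kl : |BK KL (DD m p0 1 Y J * DD m p0 (-a) Y J * DD m p0 (-1) Y J)
      (DD m p0 1 Y J * DD m p0 (-a) Y J * DD m p0 (-1) Y J)|
    ≤ C * (1 + Y) * Real.exp (((1 - a) ^ 2 - 1) * ∑ j ∈ Finset.range J, VV (sc Y p0 j))
  kg : |BK Kg (DD m p0 1 Y J * DD m p0 (-a) Y J * DD m p0 (-1) Y J)
      (DD m p0 1 Y J * DD m p0 (-a) Y J * DD m p0 (-1) Y J)|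
    ≤ C * (1 + Y) * Real.exp (((1 - a) ^ 2 - 1) * ∑ j ∈ Finset.range J, VV (sc Y p0 j))
  k2a : |BK K2 (DD m p0 (-a) Y J) (DD m p0 (-a) Y J)|
    ≤ Real.exp (((1 - a) ^ 2 - 1) * ∑ j ∈ Finset.range J, VV (sc Y p0 j) + ε)
  kla : |BK KL (DD m p0 (-a) Y J) (DD m p0 (-a) Y J)|
    ≤ C * (1 + Y) * Real.exp (((1 - a) ^ 2 - 1) * ∑ j ∈ Finset.range J, VV (sc Y p0 j))
  kga : |BK Kg (DD m p0 (-a) Y J) (DD m p0 (-a) Y J)|
    ≤ C * (1 + Y) * Real.exp (((1 - a) ^ 2 - 1) * ∑ j ∈ Finset.range J, VV (sc Y p0 j))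
  large : ∑ j ∈ Finset.range J,
      BK (K1s 1) (DD m p0 1 Y J * DD m p0 (-a) Y J * PP (sc Y p0 j) ^ Mm m j)
        (DD m p0 1 Y J * DD m p0 (-a) Y J * PP (sc Y p0 j) ^ Mm m j)
        / ((Mm m j : ℝ) / 10) ^ (2 * Mm m j)
    ≤ ε * Real.exp ((1 - a) ^ 2 * ∑ j ∈ Finset.range J, VV (sc Y p0 j))
  len3 : ∀ n, (DD m p0 1 Y J * DD m p0 (-a) Y J * DD m p0 (-1) Y J).coeff n ≠ 0 →
    1 ≤ n ∧ (n : ℝ) ≤ Real.exp (6 * m * Y)
  nrm3 : nrm (DD m p0 1 Y J * DD m p0 (-a) Y J * DD m p0 (-1) Y J) ≤ Real.exp (3 * J + 6 * m * Y)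
  len2 : ∀ n, (DD m p0 1 Y J * DD m p0 (-a) Y J).coeff n ≠ 0 →
    1 ≤ n ∧ (n : ℝ) ≤ Real.exp (6 * m * Y)
  nrm2 : nrm (DD m p0 1 Y J * DD m p0 (-a) Y J) ≤ Real.exp (3 * J + 6 * m * Y)
  lenP : ∀ j n, (DD m p0 1 Y J * DD m p0 (-a) Y J * PP (sc Y p0 j) ^ Mm m j).coeff n ≠ 0 →
    1 ≤ n ∧ (n : ℝ) ≤ Real.exp (6 * m * Y)
  nrmP : ∀ j, nrm (DD m p0 1 Y J * DD m p0 (-a) Y J * PP (sc Y p0 j) ^ Mm m j)
    ≤ Real.exp (3 * J + 6 * m * Y)

theorem forms_two : ∃ C : ℝ, 0 ≤ C ∧ ∀ ε : ℝ, 0 < ε → ∃ m1 p1 : ℕ, 4000 ≤ m1 ∧ 2 ≤ p1 ∧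
    ∀ m : ℕ, m1 ≤ m → ∀ p0 : ℕ, p1 ≤ p0 → ∀ a : ℝ, 0 ≤ a → a ≤ 1 → ∀ Y : ℝ, 1 ≤ Y → ∀ J : ℕ,
    FT C ε m p0 a Y J := by
  have hCL := CL_pos
  have hC6 := C6_pos
  have hE6 := E6_pos
  refine ⟨2 * CL * Real.exp 1, by positivity, fun ε hε => ?_⟩
  set ε' := min ε 1 with hε'
  have hε'0 : 0 < ε' := lt_min hε one_pos
  have hε'1 : ε' ≤ 1 := min_le_right _ _
  have hε'2 : ε' ≤ ε := min_le_left _ _
  -- choice of m1
  obtain ⟨n1, hn1⟩ := exists_pow_lt_of_lt_one (K := ℝ)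
    (show 0 < ε' / 2 / (2 * C6 + 2 * Real.exp 97) by positivity) (show (1 / 2 : ℝ) < 1 by norm_num)
  obtain ⟨p1, hp1⟩ := exists_nat_ge (2 * (E6 + 2) / ε' + 2 * (E6 + 1) + 2)
  refine ⟨max n1 4800, p1, by omega, ?_, ?_⟩
  · have : (2 : ℝ) ≤ p1 := by
      have : 0 ≤ 2 * (E6 + 2) / ε' + 2 * (E6 + 1) := by positivity
      linarith
    exact_mod_cast this
  intro m hm p0 hp0 a ha0 ha1 Y hY J
  have hY0 : 0 < Y := by linarith
  have hm4 : 4800 ≤ m := le_trans (le_max_right _ _) hm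
  have hm1 : 1 ≤ m := by omega
  have hpow : (1 / 2 : ℝ) ^ m ≤ ε' / 2 / (2 * C6 + 2 * Real.exp 97) := by
    refine le_trans ?_ hn1.le
    exact pow_le_pow_of_le_one (by norm_num) (by norm_num) (le_trans (le_max_left _ _) hm)
  rw [le_div_iff₀ (by positivity)] at hpow
  have hpm : (1 / 2 : ℝ) ^ m = 1 / 2 ^ m := by rw [one_div, one_div, inv_pow]
  rw [hpm] at hpow
  have q1 : 2 * C6 / 2 ^ m ≤ ε' / 2 := by
    have : 0 ≤ 1 / 2 ^ m * (2 * Real.exp 97) := by positivity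
    calc 2 * C6 / 2 ^ m = 1 / 2 ^ m * (2 * C6) := by ring
      _ ≤ _ := by linarith
  have q2 : 2 * Real.exp 97 / 2 ^ m ≤ ε' := by
    have : 0 ≤ 1 / 2 ^ m * (2 * C6) := by positivity
    calc 2 * Real.exp 97 / 2 ^ m = 1 / 2 ^ m * (2 * Real.exp 97) := by ring
      _ ≤ _ := by linarith
  have hm2 : 2 * C6 / 2 ^ m ≤ 1 := by linarith
  have hp0r : 2 * (E6 + 2) / ε' + 2 * (E6 + 1) + 2 ≤ p0 := hp1.trans (by exact_mod_cast hp0)
  have hp0a : 2 * (E6 + 1) ≤ p0 := by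
    have : 0 ≤ 2 * (E6 + 2) / ε' := by positivity
    linarith
  have hp0b : 2 * (E6 + 2) / ε' ≤ p0 := by linarith
  have hp0pos : (0 : ℝ) < p0 := by linarith
  have hp0one : 1 ≤ p0 := by
    have : (1 : ℝ) ≤ p0 := by linarith
    exact_mod_cast this
  have q3 : (E6 + 2) / p0 ≤ ε' / 2 := by
    rw [div_le_iff₀ hε'0] at hp0b
    rw [div_le_iff₀ hp0pos]
    linarith
  have her : er m p0 ≤ ε' := by unfold er; linarith
  have herε : er m p0 ≤ ε := her.trans hε'2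
  have her1 : er m p0 ≤ 1 := her.trans hε'1
  have haa : |(-a)| ≤ 1 := by rw [abs_neg, abs_of_nonneg ha0]; exact ha1
  have hk1 : (1 - a) ^ 2 ≤ 1 := pow_le_one₀ (sub_nonneg.2 ha1) (sub_le_self 1 ha0)
  have hk0 : 0 ≤ (1 - a) ^ 2 := sq_nonneg _
  set V := ∑ j ∈ Finset.range J, VV (sc Y p0 j) with hV
  -- cross form
  have hcross := DD3_two (J := J) (mk_Kcs (le_refl (1 : ℝ))) hY0 (c1 := -a) (c2 := 0) (c3 := 0)
    (d1 := 1) (d2 := -a) (d3 := 0) (κ := (1 - a) ^ 2) haa (by simp) (by simp) (by simp) haa (by simp)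
    hk0 hk1 (by
      intro p hpp
      have k1 : Kcs 1 p 1 = 0 := by
        unfold Kcs; rw [if_neg]; intro h; exact hpp.one_lt.ne' (Nat.dvd_one.mp h)
      have k2 : Kcs 1 1 p = (p : ℝ)⁻¹ := by unfold Kcs; rw [if_pos (one_dvd _), Real.rpow_neg_one]
      have k3 : Kcs 1 p p = (p : ℝ)⁻¹ := by unfold Kcs; rw [if_pos dvd_rfl, Real.rpow_neg_one]
      rw [k1, k2, k3]
      ring) hm1 hm2 hp0a
  rw [DD_zero, mul_one, mul_one, mul_one, ← hV] at hcross
  have hdiag := DD3_two (J := J) (mk_K1s (le_refl (1 : ℝ))) hY0 (c1 := 1) (c2 := -a) (c3 := 0)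
    (d1 := 1) (d2 := -a) (d3 := 0) (κ := (1 - a) ^ 2) (by simp) haa (by simp) (by simp) haa (by simp)
    hk0 hk1 (by
      intro p hpp
      have k1 : K1s 1 p 1 = 0 := by unfold K1s; rw [if_neg hpp.one_lt.ne']
      have k2 : K1s 1 1 p = 0 := by unfold K1s; rw [if_neg hpp.one_lt.ne]
      have k3 : K1s 1 p p = (p : ℝ)⁻¹ := by unfold K1s; rw [if_pos rfl, Real.rpow_neg_one]
      rw [k1, k2, k3]
      ring) hm1 hm2 hp0a
  rw [DD_zero, mul_one, ← hV] at hdiag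
  have hc : -a = 1 + -a + -1 := by ring
  have ek : 2 * -a + (-a) ^ 2 = (1 - a) ^ 2 - 1 := by ring
  have hKL := DD3_K2L (m := m) (p0 := p0) (J := J) logKer_KL hY0 (c1 := 1) (c2 := -a) (c3 := -1)
    (by simp) haa (by simp) hc hm1 hm2 hp0one
  have hKg := DD3_K2L (m := m) (p0 := p0) (J := J) logKer_Kg hY0 (c1 := 1) (c2 := -a) (c3 := -1)
    (by simp) haa (by simp) hc hm1 hm2 hp0one
  rw [ek, ← hV] at hKL hKg
  have hc' : -a = -a + 0 + 0 := by ring
  have hKLa := DD3_K2L (m := m) (p0 := p0) (J := J) logKer_KL hY0 (c1 := -a) (c2 := 0) (c3 := 0)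
    haa (by simp) (by simp) hc' hm1 hm2 hp0one
  have hKga := DD3_K2L (m := m) (p0 := p0) (J := J) logKer_Kg hY0 (c1 := -a) (c2 := 0) (c3 := 0)
    haa (by simp) (by simp) hc' hm1 hm2 hp0one
  rw [ek, DD_zero, mul_one, mul_one, ← hV] at hKLa hKga
  have hL : CL * (Y + 2) * Real.exp (((1 - a) ^ 2 - 1) * V + er m p0)
      ≤ 2 * CL * Real.exp 1 * (1 + Y) * Real.exp (((1 - a) ^ 2 - 1) * V) := by
    rw [Real.exp_add]
    have h1 : Real.exp (er m p0) ≤ Real.exp 1 := Real.exp_le_exp.mpr her1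
    calc CL * (Y + 2) * (Real.exp (((1 - a) ^ 2 - 1) * V) * Real.exp (er m p0))
        ≤ CL * (2 * (1 + Y)) * (Real.exp (((1 - a) ^ 2 - 1) * V) * Real.exp 1) := by
          gcongr
          linarith
      _ = _ := by ring
  -- lengths
  have c1 := cone_DD1 m p0 hY0 J
  have g1 := aug_DD1 m p0 hY0 J
  have g0 := aug_nonneg' c1
  have dE := dom_DD m p0 (c := 1) (by simp) Y J
  have dA := dom_DD m p0 haa Y J
  have dM := dom_DD m p0 (c := -1) (by simp) Y J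
  set G := DD m p0 1 Y J with hG
  have cc2 : Cone (Len (2 * m * Y + 2 * m * Y)) (G * G) := c1.mul c1 fun x hx y hy => Len.mul hx hy
  have cc3 : Cone (Len (2 * m * Y + 2 * m * Y + 2 * m * Y)) (G * G * G) :=
    cc2.mul c1 fun x hx y hy => Len.mul hx hy
  have gg2 : aug (G * G) ≤ Real.exp ((J + 2 * m * Y) + (J + 2 * m * Y)) := by
    rw [aug_mul, Real.exp_add]
    gcongr
  have gg20 := aug_nonneg' cc2
  have gg3 : aug (G * G * G) ≤ Real.exp ((J + 2 * m * Y) + (J + 2 * m * Y) + (J + 2 * m * Y)) := by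
    rw [aug_mul, Real.exp_add]
    gcongr
  have hmY : 0 ≤ (m : ℝ) * Y := by positivity
  have hJ0 : (0 : ℝ) ≤ J := Nat.cast_nonneg _
  obtain ⟨l3, n3⟩ := len_nrm_of_dom ((dE.mul dA).mul dM) cc3 gg3 (lam' := 6 * m * Y)
    (mu' := 3 * J + 6 * m * Y) (by linarith) (by linarith)
  obtain ⟨l2, n2⟩ := len_nrm_of_dom (dE.mul dA) cc2 gg2 (lam' := 6 * m * Y)
    (mu' := 3 * J + 6 * m * Y) (by linarith) (by linarith)
  have hP : ∀ j : ℕ, (∀ n, (G * DD m p0 (-a) Y J * PP (sc Y p0 j) ^ Mm m j).coeff n ≠ 0 →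
      1 ≤ n ∧ (n : ℝ) ≤ Real.exp (6 * m * Y)) ∧
      nrm (G * DD m p0 (-a) Y J * PP (sc Y p0 j) ^ Mm m j) ≤ Real.exp (3 * J + 6 * m * Y) := by
    intro j
    have cP := cone_PPs hY0 m p0 j
    have gP := aug_PPs hY0 m p0 j
    have gP0 := aug_nonneg' cP
    have cc : Cone (Len (2 * m * Y + 2 * m * Y + m * Y)) (G * G * PP (sc Y p0 j) ^ Mm m j) :=
      cc2.mul cP fun x hx y hy => Len.mul hx hy
    have gg : aug (G * G * PP (sc Y p0 j) ^ Mm m j)
        ≤ Real.exp ((J + 2 * m * Y) + (J + 2 * m * Y) + m * Y) := by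
      rw [aug_mul, Real.exp_add (_ + _) (m * Y)]
      gcongr
    exact len_nrm_of_dom ((dE.mul dA).mul (dom_self (cone_PP_pow (fun p hp => sc_prime hp) _))) cc gg
      (by linarith) (by linarith)
  have hlarge := large_sum (J := J) hY0 ha0 ha1 hm4 hm2 hp0a
  rw [← hV] at hlarge
  refine ⟨?_, ?_, ?_, ?_, ?_, ?_, ?_, ?_, ?_, ?_, ?_, l3, n3, l2, n2, fun j => (hP j).1, fun j => (hP j).2⟩
  · exact le_trans (Real.exp_le_exp.mpr (by linarith)) hcross.1
  · exact hcross.2.trans (Real.exp_le_exp.mpr (by linarith))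
  · exact le_trans (Real.exp_le_exp.mpr (by linarith)) hdiag.1
  · exact hdiag.2.trans (Real.exp_le_exp.mpr (by linarith))
  · exact hKL.1.trans (Real.exp_le_exp.mpr (by linarith))
  · exact hKL.2.trans hL
  · exact hKg.2.trans hL
  · exact hKLa.1.trans (Real.exp_le_exp.mpr (by linarith))
  · exact hKLa.2.trans hL
  · exact hKga.2.trans hL
  · refine hlarge.trans ?_
    rw [Real.exp_add]
    have h1 : Real.exp (er m p0) ≤ Real.exp 1 := Real.exp_le_exp.mpr her1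
    have h2 : Real.exp 97 = Real.exp 96 * Real.exp 1 := by rw [← Real.exp_add]; norm_num
    calc 2 * Real.exp 96 / 2 ^ m * (Real.exp ((1 - a) ^ 2 * V) * Real.exp (er m p0))
        ≤ 2 * Real.exp 96 / 2 ^ m * (Real.exp ((1 - a) ^ 2 * V) * Real.exp 1) := by gcongr
      _ = 2 * Real.exp 97 / 2 ^ m * Real.exp ((1 - a) ^ 2 * V) := by rw [h2]; ring
      _ ≤ ε * Real.exp ((1 - a) ^ 2 * V) := by
          have := q2.trans hε'2
          gcongr

end Pool.Agent.Lib.MP_f9aece_nt_h40
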