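import Mathlib

/-!
`‖f‖^p` is subharmonic for analytic `f` (sub-mean value property over circles).
-/

set_option autoImplicit false

namespace Pool.Agent.Lib.MP_f9aece_nt_h40

open Complex Set Filter Topology Real Metric MeasureTheory MeromorphicOn

lemma log_norm_le_circleAverage {c : ℂ} {R : ℝ} {f : ℂ → ℂ} (hR : 0 < R)
    (hf : AnalyticOnNhd ℂ f (closedBall c |R|)) (hfc : f c ≠ 0) :
    Real.log ‖f c‖ ≤ circleAverage (Real.log ‖f ·‖) c R := by
  rw [AnalyticOnNhd.circleAverage_log_norm hR.ne' hf hfc]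
  have : 0 ≤ ∑ᶠ u, divisor f (closedBall c |R|) u * Real.log (R * ‖c - u‖⁻¹) := by
    apply finsum_nonneg
    intro u
    by_cases hu : u ∈ closedBall c |R|
    · refine mul_nonneg (mod_cast hf.divisor_nonneg u) ?_
      rcases eq_or_ne c u with rfl | hcu
      · simp
      · have h1 : 0 < ‖c - u‖ := norm_pos_iff.mpr (sub_ne_zero.mpr hcu)
        apply Real.log_nonneg
        rw [← div_eq_mul_inv, one_le_div h1]
        rw [mem_closedBall, dist_comm, dist_eq_norm, abs_of_pos hR] at hu
        exact hu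
    · rw [Function.locallyFinsuppWithin.apply_eq_zero_of_notMem _ hu]
      simp
  linarith

lemma norm_rpow_le_circleAverage {c : ℂ} {R p : ℝ} {f : ℂ → ℂ} (hR : 0 < R) (hp : 0 < p)
    (hf : AnalyticOnNhd ℂ f (closedBall c |R|)) :
    ‖f c‖ ^ p ≤ circleAverage (fun z => ‖f z‖ ^ p) c R := by
  have hcont : ContinuousOn (fun z => ‖f z‖ ^ p) (sphere c |R|) := by
    intro z hz
    have h1 : ContinuousAt f z := (hf z (sphere_subset_closedBall hz)).continuousAt
    exact (h1.norm.rpow_const (Or.inr hp.le)).continuousWithinAt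
  have hint : CircleIntegrable (fun z => ‖f z‖ ^ p) c R :=
    ContinuousOn.circleIntegrable' hcont
  set M := circleAverage (fun z => ‖f z‖ ^ p) c R with hM
  have hM0 : 0 ≤ M := circleAverage_nonneg_of_nonneg (fun z _ => by positivity)
  by_cases hfc : f c = 0
  · rw [hfc, norm_zero, Real.zero_rpow hp.ne']
    exact hM0
  refine le_of_forall_pos_le_add (fun ε hε => ?_)
  set d := M + ε with hd
  have hd0 : 0 < d := by positivity
  have hfc0 : 0 < ‖f c‖ := norm_pos_iff.mpr hfc
  have h1 := log_norm_le_circleAverage hR hf hfc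
  have hlogint : CircleIntegrable (Real.log ‖f ·‖) c R :=
    MeromorphicOn.circleIntegrable_log_norm
      (fun z hz => (hf z (sphere_subset_closedBall hz)).meromorphicAt)
  -- replacement of the logarithm
  set h : ℂ → ℝ := fun z => if f z = 0 then Real.log d - 1 else p * Real.log ‖f z‖ with hh
  have hcod : (fun z => p * Real.log ‖f z‖) =ᶠ[codiscreteWithin (sphere c |R|)] h := by
    have h2 : f ⁻¹' {0}ᶜ ∈ codiscreteWithin (closedBall c |R|) := by
      apply AnalyticOnNhd.preimage_zero_mem_codiscreteWithin hf hfc (by simp)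
      exact ⟨⟨c, by simp⟩, (convex_closedBall c |R|).isPreconnected⟩
    have h3 := codiscreteWithin_mono (sphere_subset_closedBall : sphere c |R| ⊆ closedBall c |R|) h2
    filter_upwards [h3] with z hz
    have hz' : f z ≠ 0 := by simpa using hz
    simp only [hh]
    rw [if_neg hz']
  have hlogint' : CircleIntegrable (fun z => p * Real.log ‖f z‖) c R := hlogint.const_mul p
  have hint_h : CircleIntegrable h c R := CircleIntegrable.congr_codiscreteWithin hcod hlogint'
  have hle : ∀ z ∈ sphere c |R|, h z ≤ ‖f z‖ ^ p * d⁻¹ + (Real.log d - 1) := by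
    intro z _
    simp only [hh]
    by_cases hz : f z = 0
    · rw [if_pos hz, hz, norm_zero, Real.zero_rpow hp.ne', zero_mul, zero_add]
    · rw [if_neg hz]
      have hz0 : 0 < ‖f z‖ := norm_pos_iff.mpr hz
      have hz1 : 0 < ‖f z‖ ^ p := Real.rpow_pos_of_pos hz0 _
      rw [← Real.log_rpow hz0]
      have := Real.log_le_sub_one_of_pos (x := ‖f z‖ ^ p * d⁻¹) (by positivity)
      rw [Real.log_mul hz1.ne' (by positivity), Real.log_inv] at this
      linarith
  have hintd : CircleIntegrable (fun z => ‖f z‖ ^ p * d⁻¹) c R := hint.mul_const d⁻¹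
  have hintc : CircleIntegrable (fun _ : ℂ => (Real.log d - 1)) c R := circleIntegrable_const _ _ _
  have hint2 : CircleIntegrable (fun z => ‖f z‖ ^ p * d⁻¹ + (Real.log d - 1)) c R :=
    hintd.add hintc
  have h4 : circleAverage h c R ≤ circleAverage (fun z => ‖f z‖ ^ p * d⁻¹ + (Real.log d - 1)) c R :=
    circleAverage_mono hint_h hint2 hle
  have h5 : circleAverage (fun z => ‖f z‖ ^ p * d⁻¹ + (Real.log d - 1)) c R
      = M * d⁻¹ + (Real.log d - 1) := by
    rw [circleAverage_fun_add hintd hintc, circleAverage_const]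
    congr 1
    rw [hM]
    have : (fun z => ‖f z‖ ^ p * d⁻¹) = fun z => d⁻¹ • (‖f z‖ ^ p) := by
      funext z; rw [smul_eq_mul, mul_comm]
    rw [this, circleAverage_fun_smul, smul_eq_mul, mul_comm]
  have h6 : circleAverage h c R = p * circleAverage (Real.log ‖f ·‖) c R := by
    rw [← circleAverage_congr_codiscreteWithin hcod hR.ne']
    have : (fun z => p * Real.log ‖f z‖) = fun z => p • (Real.log ‖f z‖) := by
      funext z; rw [smul_eq_mul]
    rw [this, circleAverage_fun_smul, smul_eq_mul]
  have h7 : p * Real.log ‖f c‖ ≤ Real.log d := by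
    have h8 : p * Real.log ‖f c‖ ≤ p * circleAverage (Real.log ‖f ·‖) c R := by gcongr
    have h9 : M * d⁻¹ ≤ 1 := by
      rw [← div_eq_mul_inv, div_le_one hd0]
      linarith
    rw [← h6] at h8
    linarith
  rw [← Real.log_rpow hfc0] at h7
  exact (Real.log_le_log_iff (Real.rpow_pos_of_pos hfc0 _) hd0).mp h7

end Pool.Agent.Lib.MP_f9aece_nt_h40
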