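import Mathlib
import Pool.Agent.Lib.MP_f9aece_nt_h40.Subharm

/-!
Poisson inequality for `‖F‖^p` on the half plane `Re s ≥ 1/2`, in the angular variable.
-/

set_option autoImplicit false

namespace Pool.Agent.Lib.MP_f9aece_nt_h40

open Complex Set Filter Topology Metric MeasureTheory

lemma sin_half_pos {θ : ℝ} (h0 : 0 < θ) (h1 : θ < 2 * Real.pi) : 0 < Real.sin (θ / 2) :=
  Real.sin_pos_of_pos_of_lt_pi (by linarith) (by linarith)

lemma sin_half_rpow_le {θ a : ℝ} (ha : 0 ≤ a) (h0 : 0 < θ) (h1 : θ < 2 * Real.pi) :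
    |Real.sin (θ / 2)| ^ (-a) ≤ Real.pi ^ a * θ ^ (-a) + Real.pi ^ a * (2 * Real.pi - θ) ^ (-a) := by
  have hpi := Real.pi_pos
  have hs := sin_half_pos h0 h1
  rw [abs_of_pos hs]
  have key : ∀ x : ℝ, 0 < x → x ≤ Real.pi → x / Real.pi ≤ Real.sin (x / 2) := by
    intro x hx hx1
    have := Real.mul_le_sin (x := x / 2) (by linarith) (by linarith)
    calc x / Real.pi = 2 / Real.pi * (x / 2) := by ring
      _ ≤ _ := this
  have key2 : ∀ x : ℝ, 0 < x → x ≤ Real.pi → Real.sin (x / 2) ^ (-a) ≤ Real.pi ^ a * x ^ (-a) := by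
    intro x hx hx1
    calc Real.sin (x / 2) ^ (-a) ≤ (x / Real.pi) ^ (-a) :=
          Real.rpow_le_rpow_of_nonpos (by positivity) (key x hx hx1) (by linarith)
      _ = Real.pi ^ a * x ^ (-a) := by
          rw [Real.div_rpow hx.le hpi.le, Real.rpow_neg hpi.le, div_inv_eq_mul, mul_comm]
  rcases le_total θ Real.pi with h | h
  · have h2 : 0 ≤ Real.pi ^ a * (2 * Real.pi - θ) ^ (-a) := by
      have : 0 ≤ 2 * Real.pi - θ := by linarith
      positivity
    linarith [key2 θ h0 h]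
  · have h2 : 0 ≤ Real.pi ^ a * θ ^ (-a) := by positivity
    have h3 : Real.sin (θ / 2) = Real.sin ((2 * Real.pi - θ) / 2) := by
      rw [← Real.sin_pi_sub]
      congr 1
      ring
    rw [h3]
    linarith [key2 (2 * Real.pi - θ) (by linarith) (by linarith)]

lemma sin_half_integrable {a : ℝ} (ha : 0 ≤ a) (ha1 : a < 1) :
    IntervalIntegrable (fun θ : ℝ => |Real.sin (θ / 2)| ^ (-a)) volume 0 (2 * Real.pi) := by
  have h1 : IntervalIntegrable (fun θ : ℝ => θ ^ (-a)) volume 0 (2 * Real.pi) :=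
    intervalIntegral.intervalIntegrable_rpow' (by linarith)
  have h2 : IntervalIntegrable (fun θ : ℝ => (2 * Real.pi - θ) ^ (-a)) volume 0 (2 * Real.pi) := by
    have := (h1.comp_sub_left (2 * Real.pi)).symm
    simpa using this
  have h3 := (h1.const_mul (Real.pi ^ a)).add (h2.const_mul (Real.pi ^ a))
  refine h3.mono_fun ?_ ?_
  · apply Measurable.aestronglyMeasurable
    fun_prop
  · rw [uIoc_of_le (by positivity)]
    have hne : ∀ᵐ θ : ℝ ∂(volume.restrict (Ioc 0 (2 * Real.pi))), θ ≠ 2 * Real.pi :=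
      ae_restrict_of_ae (by simp [ae_iff])
    filter_upwards [ae_restrict_mem measurableSet_Ioc, hne] with θ hθ hθ2
    have hθ3 : θ < 2 * Real.pi := lt_of_le_of_ne hθ.2 hθ2
    rw [Real.norm_of_nonneg (by positivity), Real.norm_of_nonneg]
    · exact sin_half_rpow_le ha hθ.1 hθ3
    · have : 0 ≤ 2 * Real.pi - θ := by linarith
      have := hθ.1.le
      positivity

/-- the boundary value of the Cayley transform -/
lemma cayley_boundary {θ : ℝ} (h : Real.sin (θ / 2) ≠ 0) :
    (1 + circleMap 0 1 θ) / (1 - circleMap 0 1 θ)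
      = ((Real.cos (θ / 2) / Real.sin (θ / 2) : ℝ) : ℂ) * I := by
  have e1 : circleMap 0 1 θ = Complex.cos θ + Complex.sin θ * I := by
    rw [circleMap, ← Complex.exp_mul_I]
    simp
  have hc : Complex.cos θ = 2 * Complex.cos (θ / 2) ^ 2 - 1 := by
    rw [← Complex.cos_two_mul]
    congr 1
    ring
  have hs : Complex.sin θ = 2 * Complex.sin (θ / 2) * Complex.cos (θ / 2) := by
    rw [← Complex.sin_two_mul]
    congr 1
    ring
  have hp := Complex.sin_sq_add_cos_sq (θ / 2 : ℂ)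
  have hS : Complex.sin (θ / 2 : ℂ) ≠ 0 := by
    intro h0
    apply h
    have : ((Real.sin (θ / 2) : ℝ) : ℂ) = 0 := by push_cast; exact h0
    exact_mod_cast this
  have hE : Complex.cos (θ / 2 : ℂ) + Complex.sin (θ / 2 : ℂ) * I ≠ 0 := by
    rw [← Complex.exp_mul_I]
    exact Complex.exp_ne_zero _
  have hden : (1 : ℂ) - circleMap 0 1 θ
      = -2 * I * Complex.sin (θ / 2) * (Complex.cos (θ / 2 : ℂ) + Complex.sin (θ / 2 : ℂ) * I) := by
    rw [e1, hc, hs]
    linear_combination (-2 : ℂ) * hp + (2 * Complex.sin (θ / 2 : ℂ) ^ 2) * I_sq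
  have hnum : (1 : ℂ) + circleMap 0 1 θ
      = 2 * Complex.cos (θ / 2) * (Complex.cos (θ / 2 : ℂ) + Complex.sin (θ / 2 : ℂ) * I) := by
    rw [e1, hc, hs]
    ring
  rw [hden, hnum]
  push_cast
  rw [div_eq_iff]
  · field_simp
    linear_combination (Complex.cos (θ / 2 : ℂ)) * I_sq
  · have := I_ne_zero
    simp only [ne_eq, mul_eq_zero, not_or]
    refine ⟨⟨⟨by norm_num, this⟩, hS⟩, hE⟩

lemma norm_one_sub_circleMap {r θ : ℝ} (hr : 1 / 4 ≤ r) :
    |Real.sin (θ / 2)| ≤ ‖1 - circleMap 0 r θ‖ := by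
  rw [← sq_le_sq₀ (abs_nonneg _) (norm_nonneg _), sq_abs, ← Complex.normSq_eq_norm_sq,
    Complex.normSq_apply]
  have e1 : (1 - circleMap 0 r θ).re = 1 - r * Real.cos θ := by
    simp [circleMap, Complex.exp_ofReal_mul_I_re]
  have e2 : (1 - circleMap 0 r θ).im = - (r * Real.sin θ) := by
    simp [circleMap, Complex.exp_ofReal_mul_I_im]
  rw [e1, e2]
  have hc : Real.cos θ = 1 - 2 * Real.sin (θ / 2) ^ 2 := by
    have := Real.cos_two_mul (θ / 2)
    rw [show 2 * (θ / 2) = θ by ring] at this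
    rw [this]
    have := Real.sin_sq_add_cos_sq (θ / 2)
    linarith
  have hp := Real.sin_sq_add_cos_sq θ
  have h3 : (1 - r * Real.cos θ) * (1 - r * Real.cos θ) + -(r * Real.sin θ) * -(r * Real.sin θ)
      = (1 - r) ^ 2 + 4 * r * Real.sin (θ / 2) ^ 2 := by
    have : (1 - r * Real.cos θ) * (1 - r * Real.cos θ) + -(r * Real.sin θ) * -(r * Real.sin θ)
      = 1 - 2 * r * Real.cos θ + r ^ 2 * (Real.sin θ ^ 2 + Real.cos θ ^ 2) := by ring
    rw [this, hp, hc]
    ring
  rw [h3]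
  nlinarith [sq_nonneg (1 - r), sq_nonneg (Real.sin (θ / 2))]

lemma cayley_re {z : ℂ} (hz : ‖z‖ < 1) : 0 < ((1 + z) / (1 - z)).re := by
  have hne : (1 : ℂ) - z ≠ 0 := by
    intro h
    have : z = 1 := by linear_combination -h
    rw [this, norm_one] at hz
    exact lt_irrefl _ hz
  have h1 : 0 < Complex.normSq (1 - z) := Complex.normSq_pos.mpr hne
  rw [Complex.div_re, ← add_div]
  apply div_pos _ h1
  have h2 : z.re ^ 2 + z.im ^ 2 < 1 := by
    have : Complex.normSq z < 1 := by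
      rw [Complex.normSq_eq_norm_sq]
      nlinarith [norm_nonneg z]
    rw [Complex.normSq_apply] at this
    nlinarith
  simp
  nlinarith

/-- the Poisson inequality in the half plane `Re s ≥ 1/2` -/
theorem poisson_ineq {F : ℂ → ℂ} (hF : ∀ s : ℂ, 1 / 2 ≤ s.re → AnalyticAt ℂ F s)
    {K a p : ℝ} (hp : 0 < p) (ha : 0 ≤ a) (ha1 : a < 1) (hK : 0 ≤ K)
    (hb : ∀ s : ℂ, 1 / 2 ≤ s.re → ‖F s‖ ^ p ≤ K * (1 + ‖s‖) ^ a)
    {δ : ℝ} (hδ : 0 < δ) (t : ℝ) :
    ‖F (1 / 2 + (δ : ℂ) + t * I)‖ ^ p ≤ (2 * Real.pi)⁻¹ *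
      ∫ θ in (0 : ℝ)..(2 * Real.pi),
        ‖F (1 / 2 + ((t + δ * (Real.cos (θ / 2) / Real.sin (θ / 2)) : ℝ) : ℂ) * I)‖ ^ p := by
  set c : ℂ := 1 / 2 + t * I with hc
  set σ : ℂ → ℂ := fun z => c + δ * ((1 + z) / (1 - z)) with hσ
  have hpi := Real.pi_pos
  have hre : ∀ z : ℂ, ‖z‖ < 1 → 1 / 2 ≤ (σ z).re := by
    intro z hz
    have h1 := cayley_re hz
    have h2 : (σ z).re = 1 / 2 + δ * ((1 + z) / (1 - z)).re := by
      simp only [hσ, hc]
      rw [Complex.add_re, Complex.re_ofReal_mul]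
      simp
    rw [h2]
    have : 0 ≤ δ * ((1 + z) / (1 - z)).re := by positivity
    linarith
  have hσan : ∀ z : ℂ, ‖z‖ < 1 → AnalyticAt ℂ σ z := by
    intro z hz
    have hne : (1 : ℂ) - z ≠ 0 := by
      intro h
      have : z = 1 := by linear_combination -h
      rw [this, norm_one] at hz
      exact lt_irrefl _ hz
    simp only [hσ]
    fun_prop (disch := exact hne)
  -- step 1: fixed radius
  have step1 : ∀ r : ℝ, 0 < r → r < 1 → ‖F (1 / 2 + (δ : ℂ) + t * I)‖ ^ p ≤ (2 * Real.pi)⁻¹ *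
      ∫ θ in (0 : ℝ)..(2 * Real.pi), ‖F (σ (circleMap 0 r θ))‖ ^ p := by
    intro r hr0 hr1
    have han : AnalyticOnNhd ℂ (fun z => F (σ z)) (closedBall 0 |r|) := by
      intro z hz
      have hz1 : ‖z‖ < 1 := by
        rw [mem_closedBall, dist_zero_right, abs_of_pos hr0] at hz
        linarith
      exact (hF _ (hre z hz1)).comp (hσan z hz1)
    have := norm_rpow_le_circleAverage hr0 hp han
    rw [Real.circleAverage, smul_eq_mul] at this
    have e : σ 0 = 1 / 2 + (δ : ℂ) + t * I := by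
      simp only [hσ, hc]
      ring_nf
    rw [e] at this
    exact this
  -- step 2: limit
  have hlim : Tendsto (fun r : ℝ => ∫ θ in (0 : ℝ)..(2 * Real.pi), ‖F (σ (circleMap 0 r θ))‖ ^ p)
      (𝓝[<] 1) (𝓝 (∫ θ in (0 : ℝ)..(2 * Real.pi),
        ‖F (1 / 2 + ((t + δ * (Real.cos (θ / 2) / Real.sin (θ / 2)) : ℝ) : ℂ) * I)‖ ^ p)) := by
    have hr1 : ∀ᶠ r : ℝ in 𝓝[<] 1, r < 1 := self_mem_nhdsWithin
    have hr2 : ∀ᶠ r : ℝ in 𝓝[<] 1, 1 / 4 < r :=
      nhdsWithin_le_nhds (lt_mem_nhds (by norm_num))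
    have hnorm : ∀ r θ : ℝ, 0 < r → r < 1 → ‖circleMap 0 r θ‖ < 1 := by
      intro r θ h0 h1
      rw [norm_circleMap_zero, abs_of_pos h0]
      exact h1
    refine intervalIntegral.tendsto_integral_filter_of_dominated_convergence
      (fun θ => K * (1 + ‖c‖ + 2 * δ) ^ a * |Real.sin (θ / 2)| ^ (-a)) ?_ ?_ ?_ ?_
    · filter_upwards [hr1, hr2] with r h1 h2
      apply Continuous.aestronglyMeasurable
      rw [continuous_iff_continuousAt]
      intro θ
      have h3 := hnorm r θ (by linarith) h1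
      have h4 : ContinuousAt (fun θ : ℝ => F (σ (circleMap 0 r θ))) θ := by
        have h5 : ContinuousAt (fun z => F (σ z)) (circleMap 0 r θ) :=
          ((hF _ (hre _ h3)).comp (hσan _ h3)).continuousAt
        exact ContinuousAt.comp (f := fun θ : ℝ => circleMap 0 r θ) h5
          (continuous_circleMap 0 r).continuousAt
      exact h4.norm.rpow_const (Or.inr hp.le)
    · filter_upwards [hr1, hr2] with r h1 h2
      have hne : ∀ᵐ θ : ℝ, θ ≠ 2 * Real.pi := by simp [ae_iff]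
      filter_upwards [hne] with θ hθ2 hθ
      rw [uIoc_of_le (by positivity)] at hθ
      have hθ3 : θ < 2 * Real.pi := lt_of_le_of_ne hθ.2 hθ2
      have hs := sin_half_pos hθ.1 hθ3
      have hs1 : Real.sin (θ / 2) ≤ 1 := Real.sin_le_one _
      have h3 := hnorm r θ (by linarith) h1
      rw [Real.norm_of_nonneg (by positivity)]
      refine (hb _ (hre _ h3)).trans ?_
      rw [mul_assoc]
      refine mul_le_mul_of_nonneg_left ?_ hK
      have h4 := norm_one_sub_circleMap (r := r) (θ := θ) h2.le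
      rw [abs_of_pos hs] at h4
      have h5 : ‖(1 + circleMap 0 r θ) / (1 - circleMap 0 r θ)‖ ≤ 2 / Real.sin (θ / 2) := by
        rw [norm_div]
        have h6 : ‖1 + circleMap 0 r θ‖ ≤ 2 := by
          refine (norm_add_le _ _).trans ?_
          rw [norm_one]
          linarith
        gcongr
      have h6 : 1 + ‖σ (circleMap 0 r θ)‖ ≤ (1 + ‖c‖ + 2 * δ) / Real.sin (θ / 2) := by
        calc 1 + ‖σ (circleMap 0 r θ)‖
            ≤ 1 + (‖c‖ + ‖(δ : ℂ) * ((1 + circleMap 0 r θ) / (1 - circleMap 0 r θ))‖) := by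
              gcongr
              exact norm_add_le _ _
          _ ≤ 1 + (‖c‖ + δ * (2 / Real.sin (θ / 2))) := by
              rw [norm_mul, Complex.norm_real, Real.norm_of_nonneg hδ.le]
              gcongr
          _ = (1 + ‖c‖) + 2 * δ / Real.sin (θ / 2) := by ring
          _ ≤ (1 + ‖c‖) / Real.sin (θ / 2) + 2 * δ / Real.sin (θ / 2) := by
              gcongr
              rw [le_div_iff₀ hs]
              have : 0 ≤ 1 + ‖c‖ := by positivity
              nlinarith
          _ = _ := by ring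
      calc (1 + ‖σ (circleMap 0 r θ)‖) ^ a ≤ ((1 + ‖c‖ + 2 * δ) / Real.sin (θ / 2)) ^ a :=
            Real.rpow_le_rpow (by positivity) h6 ha
        _ = (1 + ‖c‖ + 2 * δ) ^ a * |Real.sin (θ / 2)| ^ (-a) := by
            rw [abs_of_pos hs, Real.div_rpow (by positivity) hs.le, Real.rpow_neg hs.le]
            rfl
    · exact (sin_half_integrable ha ha1).const_mul _
    · have hne : ∀ᵐ θ : ℝ, θ ≠ 2 * Real.pi := by simp [ae_iff]
      filter_upwards [hne] with θ hθ2 hθ
      rw [uIoc_of_le (by positivity)] at hθ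
      have hθ3 : θ < 2 * Real.pi := lt_of_le_of_ne hθ.2 hθ2
      have hs := sin_half_pos hθ.1 hθ3
      have hcb := cayley_boundary hs.ne'
      have hne1 : (1 : ℂ) - circleMap 0 1 θ ≠ 0 := by
        have h4 := norm_one_sub_circleMap (r := 1) (θ := θ) (by norm_num)
        rw [abs_of_pos hs] at h4
        exact norm_pos_iff.mp (lt_of_lt_of_le hs h4)
      have hσ1 : σ (circleMap 0 1 θ)
          = 1 / 2 + ((t + δ * (Real.cos (θ / 2) / Real.sin (θ / 2)) : ℝ) : ℂ) * I := by
        simp only [hσ, hc]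
        rw [hcb]
        push_cast
        ring
      have hcσ : ContinuousAt σ (circleMap 0 1 θ) := by
        simp only [hσ]
        fun_prop (disch := exact hne1)
      have hcF : ContinuousAt F (σ (circleMap 0 1 θ)) := by
        apply (hF _ _).continuousAt
        rw [hσ1, Complex.add_re, Complex.re_ofReal_mul]
        simp
      have hcm : ContinuousAt (fun r : ℝ => circleMap 0 r θ) 1 := by
        unfold circleMap
        fun_prop
      have h7 : ContinuousAt (fun r : ℝ => ‖F (σ (circleMap 0 r θ))‖ ^ p) 1 := by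
        have h8 : ContinuousAt (fun r : ℝ => σ (circleMap 0 r θ)) 1 :=
          ContinuousAt.comp (f := fun r : ℝ => circleMap 0 r θ) hcσ hcm
        have h9 : ContinuousAt (fun r : ℝ => F (σ (circleMap 0 r θ))) 1 :=
          ContinuousAt.comp (f := fun r : ℝ => σ (circleMap 0 r θ)) hcF h8
        exact h9.norm.rpow_const (Or.inr hp.le)
      have h10 := h7.tendsto
      simp only [hσ1] at h10
      exact h10.mono_left nhdsWithin_le_nhds
  have hlim2 := hlim.const_mul (2 * Real.pi)⁻¹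
  refine ge_of_tendsto hlim2 ?_
  have hr1 : ∀ᶠ r : ℝ in 𝓝[<] 1, r < 1 := self_mem_nhdsWithin
  have hr2 : ∀ᶠ r : ℝ in 𝓝[<] 1, 1 / 4 < r :=
    nhdsWithin_le_nhds (lt_mem_nhds (by norm_num))
  filter_upwards [hr1, hr2] with r h1 h2
  exact step1 r (by linarith) h1

end Pool.Agent.Lib.MP_f9aece_nt_h40
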