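import Mathlib
import Pool.Agent.Lib.MP_f9aece_nt_h40.Poisson

/-!
Transfer of `∫ ‖F‖^p` from the line `Re s = 1/2` to the line `Re s = 1/2 + δ`.
-/

set_option autoImplicit false

namespace Pool.Agent.Lib.MP_f9aece_nt_h40

open Complex Set Filter Topology Metric MeasureTheory

lemma shift_le {g : ℝ → ℝ} (hg : Continuous g) (hg0 : ∀ u, 0 ≤ g u) {M T h : ℝ} (hT : 0 ≤ T)
    (hM : ∀ u, |u| ≤ T + |h| → g u ≤ M) :
    ∫ t in (0 : ℝ)..T, g (t + h) ≤ (∫ t in (0 : ℝ)..T, g t) + min |h| T * M := by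
  have hint : ∀ a b : ℝ, IntervalIntegrable g volume a b := fun a b => hg.intervalIntegrable a b
  have hM0 : 0 ≤ M := (hg0 0).trans (hM 0 (by simp; positivity))
  rw [intervalIntegral.integral_comp_add_right, zero_add]
  have hsup : ∀ x y : ℝ, x ≤ y → |x| ≤ T + |h| → |y| ≤ T + |h| → ∫ t in x..y, g t ≤ M * (y - x) := by
    intro x y hxy hx hy
    have h1 : ‖∫ t in x..y, g t‖ ≤ M * |y - x| := by
      apply intervalIntegral.norm_integral_le_of_norm_le_const
      intro u hu
      rw [uIoc_of_le hxy] at hu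
      rw [Real.norm_of_nonneg (hg0 u)]
      apply hM
      rw [abs_le] at hx hy ⊢
      constructor
      · linarith [hu.1, hx.1]
      · linarith [hu.2, hy.2]
    rw [abs_of_nonneg (by linarith : 0 ≤ y - x)] at h1
    exact (Real.le_norm_self _).trans h1
  have hnn : ∀ x y : ℝ, x ≤ y → 0 ≤ ∫ t in x..y, g t := fun x y hxy =>
    intervalIntegral.integral_nonneg hxy (fun u _ => hg0 u)
  rcases le_total T |h| with hc | hc
  · rw [min_eq_right hc]
    have h1 := hsup h (T + h) (by linarith) (by linarith [abs_nonneg h])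
      ((abs_add_le _ _).trans (by rw [abs_of_nonneg hT]))
    have h2 := hnn 0 T hT
    nlinarith
  · rw [min_eq_left hc]
    rcases le_total 0 h with h0 | h0
    · rw [abs_of_nonneg h0] at hc ⊢
      rw [abs_of_nonneg h0] at hsup
      have e1 : ∫ t in h..(T + h), g t = (∫ t in (0 : ℝ)..T, g t) + (∫ t in T..(T + h), g t)
          - ∫ t in (0 : ℝ)..h, g t := by
        have a1 := intervalIntegral.integral_add_adjacent_intervals (hint 0 h) (hint h (T + h))
        have a2 := intervalIntegral.integral_add_adjacent_intervals (hint 0 T) (hint T (T + h))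
        linarith
      have h1 := hsup T (T + h) (by linarith) (by rw [abs_of_nonneg hT]; linarith)
        (by rw [abs_of_nonneg (by linarith)])
      have h2 := hnn 0 h h0
      rw [e1]
      nlinarith
    · rw [abs_of_nonpos h0] at hc ⊢
      rw [abs_of_nonpos h0] at hsup
      have e1 : ∫ t in h..(T + h), g t = (∫ t in (0 : ℝ)..T, g t) + (∫ t in h..0, g t)
          - ∫ t in (T + h)..T, g t := by
        have a1 := intervalIntegral.integral_add_adjacent_intervals (hint h 0) (hint 0 T)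
        have a2 := intervalIntegral.integral_add_adjacent_intervals (hint h (T + h)) (hint (T + h) T)
        linarith
      have h1 := hsup h 0 h0 (by rw [abs_of_nonpos h0]; linarith) (by simp; linarith)
      have h2 := hnn (T + h) T (by linarith)
      rw [e1]
      nlinarith

/-- the constant -/
noncomputable def J (a : ℝ) : ℝ :=
  (2 * Real.pi)⁻¹ * ∫ θ in (0 : ℝ)..(2 * Real.pi), |Real.sin (θ / 2)| ^ (-(1 / 2 + a))

lemma J_nonneg (a : ℝ) : 0 ≤ J a := by
  unfold J
  have : 0 ≤ ∫ θ in (0 : ℝ)..(2 * Real.pi), |Real.sin (θ / 2)| ^ (-(1 / 2 + a)) :=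
    intervalIntegral.integral_nonneg (by positivity) (fun θ _ => by positivity)
  positivity

/-- transfer inequality for a general function on the half plane -/
theorem transfer_gen {F : ℂ → ℂ} (hF : ∀ s : ℂ, 1 / 2 ≤ s.re → AnalyticAt ℂ F s)
    {K a p : ℝ} (hp : 0 < p) (ha : 0 ≤ a) (ha1 : a < 1 / 2) (hK : 0 ≤ K)
    (hb : ∀ s : ℂ, 1 / 2 ≤ s.re → ‖F s‖ ^ p ≤ K * (1 + ‖s‖) ^ a)
    {δ : ℝ} (hδ : 0 < δ) (hδ1 : δ ≤ 1) {T : ℝ} (hT : 1 ≤ T) :
    ∫ t in (0 : ℝ)..T, ‖F (1 / 2 + (δ : ℂ) + t * I)‖ ^ p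
      ≤ (∫ t in (0 : ℝ)..T, ‖F (1 / 2 + t * I)‖ ^ p) + K * 4 ^ a * J a * T ^ (1 / 2 + a) := by
  have hpi := Real.pi_pos
  have hT0 : 0 < T := by linarith
  set g : ℝ → ℝ := fun u => ‖F (1 / 2 + (u : ℂ) * I)‖ ^ p with hg
  set h : ℝ → ℝ := fun θ => δ * (Real.cos (θ / 2) / Real.sin (θ / 2)) with hh
  set S : ℝ → ℝ := fun θ => |Real.sin (θ / 2)|⁻¹ with hS
  have hgc : Continuous g := by
    rw [continuous_iff_continuousAt]
    intro u
    have h1 : ContinuousAt F (1 / 2 + (u : ℂ) * I) := by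
      apply (hF _ _).continuousAt
      rw [Complex.add_re, Complex.re_ofReal_mul]
      simp
    have h2 : ContinuousAt (fun u : ℝ => (1 / 2 + (u : ℂ) * I)) u := by fun_prop
    exact (ContinuousAt.comp (f := fun u : ℝ => (1 / 2 + (u : ℂ) * I)) h1 h2).norm.rpow_const
      (Or.inr hp.le)
  have hg0 : ∀ u, 0 ≤ g u := fun u => by simp only [hg]; positivity
  have hS1 : ∀ θ : ℝ, 0 < θ → θ < 2 * Real.pi → 1 ≤ S θ := by
    intro θ h0 h1
    have hs := sin_half_pos h0 h1
    simp only [hS]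
    rw [abs_of_pos hs, one_le_inv₀ hs]
    exact Real.sin_le_one _
  have hhS : ∀ θ : ℝ, |h θ| ≤ S θ := by
    intro θ
    simp only [hh, hS]
    rw [abs_mul, abs_div, abs_of_pos hδ]
    calc δ * (|Real.cos (θ / 2)| / |Real.sin (θ / 2)|) ≤ 1 * (1 / |Real.sin (θ / 2)|) := by
          gcongr
          exact Real.abs_cos_le_one _
      _ = |Real.sin (θ / 2)|⁻¹ := by rw [one_mul, one_div]
  have hSr : ∀ (θ b : ℝ), S θ ^ b = |Real.sin (θ / 2)| ^ (-b) := by
    intro θ b
    simp only [hS]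
    rw [Real.rpow_neg_eq_inv_rpow]
  -- pointwise bound of g
  have hgM : ∀ θ : ℝ, 0 < θ → θ < 2 * Real.pi → ∀ u : ℝ, |u| ≤ T + |h θ| →
      g u ≤ K * (4 * T * S θ) ^ a := by
    intro θ h0 h1 u hu
    have hs := hS1 θ h0 h1
    have hre : (1 / 2 : ℝ) ≤ (1 / 2 + (u : ℂ) * I).re := by
      rw [Complex.add_re, Complex.re_ofReal_mul]
      simp
    refine (hb _ hre).trans ?_
    have hn : ‖(1 / 2 + (u : ℂ) * I)‖ ≤ 1 / 2 + |u| := by
      refine (norm_add_le _ _).trans ?_
      rw [norm_mul, Complex.norm_real, Complex.norm_I, Real.norm_eq_abs]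
      norm_num
    have h2 := hhS θ
    have h3 : 1 + ‖(1 / 2 + (u : ℂ) * I)‖ ≤ 4 * T * S θ := by
      nlinarith [mul_nonneg (sub_nonneg.mpr hT) (sub_nonneg.mpr hs)]
    gcongr
  set μ : Measure ℝ := volume.restrict (Ioc 0 T) with hμ
  set ν : Measure ℝ := volume.restrict (Ioo 0 (2 * Real.pi)) with hν
  have hsinint : ∀ b : ℝ, 0 ≤ b → b < 1 → Integrable (fun θ : ℝ => |Real.sin (θ / 2)| ^ (-b)) ν := by
    intro b hb0 hb1
    have h1 := (intervalIntegrable_iff_integrableOn_Ioo_of_le (by positivity)).mp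
      (sin_half_integrable hb0 hb1)
    exact h1
  set G : ℝ → ℝ → ℝ := fun t θ => g (t + h θ) with hG
  have hhm : Measurable h := by
    simp only [hh]
    fun_prop
  have hGm : Measurable (Function.uncurry G) := by
    have : Function.uncurry G = fun z : ℝ × ℝ => g (z.1 + h z.2) := by
      funext z
      rfl
    rw [this]
    exact hgc.measurable.comp (measurable_fst.add (hhm.comp measurable_snd))
  have hGint : Integrable (Function.uncurry G) (μ.prod ν) := by
    have h1 : Integrable (fun z : ℝ × ℝ => K * (4 * T) ^ a * |Real.sin (z.2 / 2)| ^ (-a)) (μ.prod ν) :=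
      ((hsinint a ha (by linarith)).const_mul (K * (4 * T) ^ a)).comp_snd μ
    refine h1.mono' hGm.aestronglyMeasurable ?_
    rw [hμ, hν, Measure.prod_restrict]
    filter_upwards [ae_restrict_mem (measurableSet_Ioc.prod measurableSet_Ioo)] with z hz
    obtain ⟨hz1, hz2⟩ := hz
    have hun : Function.uncurry G z = g (z.1 + h z.2) := rfl
    rw [hun, Real.norm_of_nonneg (hg0 _)]
    have h2 := hgM z.2 hz2.1 hz2.2 (z.1 + h z.2) (by
      refine (abs_add_le _ _).trans ?_
      rw [abs_of_pos hz1.1]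
      linarith [hz1.2])
    refine h2.trans (le_of_eq ?_)
    rw [Real.mul_rpow (by positivity) (by positivity), hSr]
    ring
  -- main chain
  have hstep : ∀ t : ℝ, ‖F (1 / 2 + (δ : ℂ) + t * I)‖ ^ p ≤ (2 * Real.pi)⁻¹ * ∫ θ, G t θ ∂ν := by
    intro t
    have h1 := poisson_ineq hF hp ha (by linarith) hK hb hδ t
    rw [intervalIntegral.integral_of_le (by positivity), integral_Ioc_eq_integral_Ioo] at h1
    exact h1
  have hLc : Continuous (fun t : ℝ => ‖F (1 / 2 + (δ : ℂ) + t * I)‖ ^ p) := by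
    rw [continuous_iff_continuousAt]
    intro u
    have h1 : ContinuousAt F (1 / 2 + (δ : ℂ) + u * I) := by
      apply (hF _ _).continuousAt
      rw [Complex.add_re, Complex.re_ofReal_mul]
      simp
      exact hδ.le
    have h2 : ContinuousAt (fun u : ℝ => (1 / 2 + (δ : ℂ) + u * I)) u := by fun_prop
    exact (ContinuousAt.comp (f := fun u : ℝ => (1 / 2 + (δ : ℂ) + u * I)) h1 h2).norm.rpow_const
      (Or.inr hp.le)
  have hL : Integrable (fun t : ℝ => ‖F (1 / 2 + (δ : ℂ) + t * I)‖ ^ p) μ :=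
    (intervalIntegrable_iff_integrableOn_Ioc_of_le hT0.le).mp (hLc.intervalIntegrable 0 T)
  set I0 : ℝ := ∫ t in (0 : ℝ)..T, g t with hI0
  have hinner : ∀ θ ∈ Ioo 0 (2 * Real.pi), ∫ t, G t θ ∂μ
      ≤ I0 + K * 4 ^ a * T ^ (1 / 2 + a) * |Real.sin (θ / 2)| ^ (-(1 / 2 + a)) := by
    intro θ hθ
    have hs := hS1 θ hθ.1 hθ.2
    have hs0 : 0 < S θ := by linarith
    have h1 := shift_le hgc hg0 hT0.le (hgM θ hθ.1 hθ.2)
    rw [intervalIntegral.integral_of_le hT0.le] at h1
    refine h1.trans ?_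
    have hm0 : 0 ≤ min |h θ| T := le_min (abs_nonneg _) hT0.le
    have h2 : min |h θ| T ≤ S θ ^ (1 / 2 : ℝ) * T ^ (1 / 2 : ℝ) := by
      calc min |h θ| T = (min |h θ| T) ^ (1 / 2 : ℝ) * (min |h θ| T) ^ (1 / 2 : ℝ) := by
            rw [← Real.rpow_add' hm0 (by norm_num)]
            norm_num
        _ ≤ S θ ^ (1 / 2 : ℝ) * T ^ (1 / 2 : ℝ) := by
            gcongr
            · exact (min_le_left _ _).trans (hhS θ)
            · exact min_le_right _ _
    have h3 : min |h θ| T * (K * (4 * T * S θ) ^ a)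
        ≤ (S θ ^ (1 / 2 : ℝ) * T ^ (1 / 2 : ℝ)) * (K * (4 * T * S θ) ^ a) := by
      gcongr
    have h4 : (S θ ^ (1 / 2 : ℝ) * T ^ (1 / 2 : ℝ)) * (K * (4 * T * S θ) ^ a)
        = K * 4 ^ a * T ^ (1 / 2 + a) * |Real.sin (θ / 2)| ^ (-(1 / 2 + a)) := by
      rw [← hSr, Real.mul_rpow (by positivity) hs0.le, Real.mul_rpow (by norm_num) hT0.le,
        Real.rpow_add hT0, Real.rpow_add hs0]
      ring
    linarith
  have hJ : ∫ θ, |Real.sin (θ / 2)| ^ (-(1 / 2 + a)) ∂ν = 2 * Real.pi * J a := by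
    unfold J
    rw [intervalIntegral.integral_of_le (by positivity), integral_Ioc_eq_integral_Ioo, ← hν,
      ← mul_assoc, mul_inv_cancel₀ (by positivity), one_mul]
  have hνu : ν.real univ = 2 * Real.pi := by
    rw [hν, measureReal_restrict_apply_univ, Real.volume_real_Ioo_of_le (by positivity)]
    ring
  calc ∫ t in (0 : ℝ)..T, ‖F (1 / 2 + (δ : ℂ) + t * I)‖ ^ p
      = ∫ t, ‖F (1 / 2 + (δ : ℂ) + t * I)‖ ^ p ∂μ := by
        rw [intervalIntegral.integral_of_le hT0.le]
    _ ≤ ∫ t, ((2 * Real.pi)⁻¹ * ∫ θ, G t θ ∂ν) ∂μ := by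
        apply integral_mono hL (hGint.integral_prod_left.const_mul _)
        intro t
        exact hstep t
    _ = (2 * Real.pi)⁻¹ * ∫ t, ∫ θ, G t θ ∂ν ∂μ := integral_const_mul _ _
    _ = (2 * Real.pi)⁻¹ * ∫ θ, ∫ t, G t θ ∂μ ∂ν := by
        rw [integral_integral_swap hGint]
    _ ≤ (2 * Real.pi)⁻¹ * ∫ θ, (I0 + K * 4 ^ a * T ^ (1 / 2 + a)
          * |Real.sin (θ / 2)| ^ (-(1 / 2 + a))) ∂ν := by
        refine mul_le_mul_of_nonneg_left ?_ (by positivity)
        apply integral_mono_ae hGint.integral_prod_right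
          ((integrable_const _).add ((hsinint (1 / 2 + a) (by linarith) (by linarith)).const_mul _))
        filter_upwards [ae_restrict_mem measurableSet_Ioo] with θ hθ
        exact hinner θ hθ
    _ = (2 * Real.pi)⁻¹ * (2 * Real.pi * I0 + K * 4 ^ a * T ^ (1 / 2 + a) * (2 * Real.pi * J a)) := by
        rw [integral_add (integrable_const _)
          ((hsinint (1 / 2 + a) (by linarith) (by linarith)).const_mul _), integral_const,
          integral_const_mul, hJ, hνu, smul_eq_mul]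
    _ = I0 + K * 4 ^ a * J a * T ^ (1 / 2 + a) := by
        field_simp

end Pool.Agent.Lib.MP_f9aece_nt_h40
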