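import Mathlib
import Pool.Agent.Lib.MP_f9aece_nt_h40.Growth
import Pool.Agent.Lib.MP_f9aece_nt_h40.TransferGen

/-!
Transfer of low moments of zeta from the critical line to the line `Re s = 1/2 + δ`.
-/

set_option autoImplicit false

namespace Pool.Agent.Lib.MP_f9aece_nt_h40

open Complex Set Filter Topology Metric MeasureTheory

lemma F_rpow_le {p q : ℝ} (hp : 0 < p) (hpq : p ≤ q) {s : ℂ} (hs : 0 < s.re) :
    ‖F s‖ ^ p ≤ 6 ^ q * (1 + ‖s‖) ^ q := by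
  have h0 : (1 : ℝ) ≤ 6 * (1 + ‖s‖) := by linarith [norm_nonneg s]
  calc ‖F s‖ ^ p ≤ (6 * (1 + ‖s‖)) ^ p := by
        have := F_bound hs
        gcongr
    _ ≤ (6 * (1 + ‖s‖)) ^ q := Real.rpow_le_rpow_of_exponent_le h0 hpq
    _ = _ := Real.mul_rpow (by norm_num) (by positivity)

lemma zeta_le_F {δ t p : ℝ} (hδ : 0 < δ) (hδ1 : δ ≤ 1 / 4) (hp : 0 < p) (hp1 : p ≤ 1 / 4)
    (ht : 0 < t) :
    ‖riemannZeta (1 / 2 + (δ : ℂ) + t * I)‖ ^ p
      ≤ ‖F (1 / 2 + (δ : ℂ) + t * I)‖ ^ p + 120 * t ^ (-(3 / 4) : ℝ) := by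
  set s : ℂ := 1 / 2 + (δ : ℂ) + t * I with hs
  have hre : s.re = 1 / 2 + δ := by
    rw [hs, Complex.add_re, Complex.re_ofReal_mul]
    simp
  have him : s.im = t := by
    rw [hs, Complex.add_im, Complex.im_ofReal_mul]
    simp
  have hre0 : 0 < s.re := by rw [hre]; positivity
  have hs1 : s ≠ 1 := by
    intro h
    rw [h] at him
    simp at him
    linarith
  have hd : 0 < ‖s - 1‖ := norm_pos_iff.mpr (sub_ne_zero.mpr hs1)
  have hp1' : 0 < ‖s + 1‖ := norm_pos_iff.mpr (add_one_ne_zero hre0)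
  have h1 : t ≤ ‖s - 1‖ := by
    have := Complex.abs_im_le_norm (s - 1)
    have h2 : (s - 1).im = t := by simp [him]
    rw [h2, abs_of_pos ht] at this
    exact this
  have h2 : 1 / 4 ≤ ‖s - 1‖ := by
    have := Complex.abs_re_le_norm (s - 1)
    have h2 : (s - 1).re = δ - 1 / 2 := by
      rw [Complex.sub_re, hre]
      simp
      ring
    rw [h2, abs_of_neg (by linarith)] at this
    linarith
  have h3 : (1 + t) / 5 ≤ ‖s - 1‖ := by linarith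
  set w : ℝ := ‖s + 1‖ / ‖s - 1‖ with hw
  have hw1 : 1 ≤ w := by
    rw [hw, one_le_div hd]
    exact norm_sub_one_le hre0
  have hw2 : w ≤ 1 + 10 / (1 + t) := by
    have h5 : ‖s + 1‖ ≤ ‖s - 1‖ + 2 := by
      calc ‖s + 1‖ = ‖(s - 1) + 2‖ := by ring_nf
        _ ≤ ‖s - 1‖ + ‖(2 : ℂ)‖ := norm_add_le _ _
        _ = _ := by simp
    calc w ≤ (‖s - 1‖ + 2) / ‖s - 1‖ := by rw [hw]; gcongr
      _ = 1 + 2 / ‖s - 1‖ := by field_simp
      _ ≤ 1 + 2 / ((1 + t) / 5) := by gcongr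
      _ = 1 + 10 / (1 + t) := by
          field_simp
          ring
  have hz : ‖riemannZeta s‖ = ‖F s‖ * w := by
    rw [F, Z1_eq hs1, norm_div, norm_mul, hw]
    field_simp
  have hFle : ‖F s‖ ^ p ≤ 12 * (1 + t) ^ (1 / 4 : ℝ) := by
    refine (F_rpow_le hp hp1 hre0).trans ?_
    have h6 : 1 + ‖s‖ ≤ 2 * (1 + t) := by
      have : ‖s‖ ≤ (1 / 2 + δ) + t := by
        have := Complex.norm_le_abs_re_add_abs_im s
        rw [hre, him, abs_of_pos (by positivity), abs_of_pos ht] at this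
        exact this
      linarith
    calc (6 : ℝ) ^ (1 / 4 : ℝ) * (1 + ‖s‖) ^ (1 / 4 : ℝ)
        ≤ 6 ^ (1 / 4 : ℝ) * (2 * (1 + t)) ^ (1 / 4 : ℝ) := by gcongr
      _ = (12 : ℝ) ^ (1 / 4 : ℝ) * (1 + t) ^ (1 / 4 : ℝ) := by
          rw [← Real.mul_rpow (by norm_num) (by positivity),
            ← Real.mul_rpow (by norm_num) (by positivity)]
          ring_nf
      _ ≤ 12 * (1 + t) ^ (1 / 4 : ℝ) := by
          gcongr
          calc (12 : ℝ) ^ (1 / 4 : ℝ) ≤ 12 ^ (1 : ℝ) :=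
                Real.rpow_le_rpow_of_exponent_le (by norm_num) (by norm_num)
            _ = 12 := Real.rpow_one _
  have hFn : 0 ≤ ‖F s‖ ^ p := by positivity
  calc ‖riemannZeta s‖ ^ p = ‖F s‖ ^ p * w ^ p := by
        rw [hz, Real.mul_rpow (norm_nonneg _) (by positivity)]
    _ ≤ ‖F s‖ ^ p * w := by
        gcongr
        calc w ^ p ≤ w ^ (1 : ℝ) := Real.rpow_le_rpow_of_exponent_le hw1 (by linarith)
          _ = w := Real.rpow_one _
    _ ≤ ‖F s‖ ^ p * (1 + 10 / (1 + t)) := by gcongr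
    _ = ‖F s‖ ^ p + ‖F s‖ ^ p * (10 / (1 + t)) := by ring
    _ ≤ ‖F s‖ ^ p + (12 * (1 + t) ^ (1 / 4 : ℝ)) * (10 / (1 + t)) := by gcongr
    _ = ‖F s‖ ^ p + 120 * ((1 + t) ^ (1 / 4 : ℝ) / (1 + t)) := by ring
    _ = ‖F s‖ ^ p + 120 * (1 + t) ^ (-(3 / 4) : ℝ) := by
        have h7 : (1 + t) ^ (-(3 / 4) : ℝ) = (1 + t) ^ (1 / 4 : ℝ) / (1 + t) := by
          rw [show (-(3 / 4) : ℝ) = 1 / 4 - 1 by norm_num, Real.rpow_sub (by positivity),
            Real.rpow_one]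
        rw [h7]
    _ ≤ ‖F s‖ ^ p + 120 * t ^ (-(3 / 4) : ℝ) := by
        gcongr ‖F s‖ ^ p + 120 * ?_
        exact Real.rpow_le_rpow_of_nonpos ht (by linarith) (by norm_num)

lemma F_le_zeta {t p : ℝ} (hp : 0 < p) :
    ‖F (1 / 2 + t * I)‖ ^ p ≤ ‖riemannZeta (1 / 2 + t * I)‖ ^ p := by
  set s : ℂ := 1 / 2 + t * I with hs
  have hre : s.re = 1 / 2 := by
    rw [hs, Complex.add_re, Complex.re_ofReal_mul]
    simp
  have hre0 : 0 < s.re := by rw [hre]; norm_num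
  have hs1 : s ≠ 1 := by
    intro h
    rw [h] at hre
    simp at hre
  have hp1' : 0 < ‖s + 1‖ := norm_pos_iff.mpr (add_one_ne_zero hre0)
  have : ‖F s‖ ≤ ‖riemannZeta s‖ := by
    rw [F, Z1_eq hs1, norm_div, norm_mul, div_le_iff₀ hp1', mul_comm]
    gcongr
    exact norm_sub_one_le hre0
  gcongr

lemma zeta_line_continuous {σ : ℝ} (hσ : σ ≠ 1) :
    Continuous (fun t : ℝ => riemannZeta ((σ : ℂ) + t * I)) := by
  rw [continuous_iff_continuousAt]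
  intro t
  have hs1 : (σ : ℂ) + t * I ≠ 1 := by
    intro h
    have := congrArg Complex.re h
    rw [Complex.add_re, Complex.re_ofReal_mul] at this
    simp at this
    exact hσ this
  have h1 : ContinuousAt riemannZeta ((σ : ℂ) + t * I) := (differentiableAt_riemannZeta hs1).continuousAt
  exact ContinuousAt.comp (f := fun t : ℝ => (σ : ℂ) + t * I) h1 (by fun_prop)

theorem transfer : ∃ A : ℝ, ∀ T : ℝ, 1 ≤ T → ∀ δ : ℝ, 0 < δ → δ ≤ 1 / 4 → ∀ p : ℝ, 0 < p → p ≤ 1 / 4 →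
    ∫ t in (0 : ℝ)..T, ‖riemannZeta (1 / 2 + (δ : ℂ) + t * Complex.I)‖ ^ p
      ≤ (∫ t in (0 : ℝ)..T, ‖riemannZeta (1 / 2 + t * Complex.I)‖ ^ p) + A * T ^ (9 / 10 : ℝ) := by
  refine ⟨6 ^ (1 / 4 : ℝ) * 4 ^ (1 / 4 : ℝ) * J (1 / 4) + 480, ?_⟩
  intro T hT δ hδ hδ1 p hp hp1
  have hT0 : 0 < T := by linarith
  have hJ0 := J_nonneg (1 / 4)
  have hF : ∀ s : ℂ, 1 / 2 ≤ s.re → AnalyticAt ℂ F s := fun s hs => F_analyticAt (by linarith)
  have hmain := transfer_gen hF hp (by norm_num : (0 : ℝ) ≤ 1 / 4) (by norm_num)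
    (by positivity : (0 : ℝ) ≤ 6 ^ (1 / 4 : ℝ))
    (fun s hs => F_rpow_le hp hp1 (by linarith)) hδ (by linarith) hT
  -- continuity facts
  have hc1 : Continuous (fun t : ℝ => ‖riemannZeta (1 / 2 + (δ : ℂ) + t * I)‖ ^ p) := by
    have := zeta_line_continuous (σ := 1 / 2 + δ) (by linarith)
    push_cast at this
    exact this.norm.rpow_const (fun _ => Or.inr hp.le)
  have hc2 : Continuous (fun t : ℝ => ‖riemannZeta (1 / 2 + t * I)‖ ^ p) := by
    have := zeta_line_continuous (σ := 1 / 2) (by norm_num)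
    push_cast at this
    exact this.norm.rpow_const (fun _ => Or.inr hp.le)
  have hc3 : Continuous (fun t : ℝ => ‖F (1 / 2 + (δ : ℂ) + t * I)‖ ^ p) := by
    rw [continuous_iff_continuousAt]
    intro u
    have h1 : ContinuousAt F (1 / 2 + (δ : ℂ) + u * I) := by
      apply (hF _ _).continuousAt
      rw [Complex.add_re, Complex.re_ofReal_mul]
      simp
      exact hδ.le
    have h2 : ContinuousAt (fun u : ℝ => (1 / 2 + (δ : ℂ) + u * I)) u := by fun_prop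
    exact (ContinuousAt.comp (f := fun u : ℝ => (1 / 2 + (δ : ℂ) + u * I)) h1 h2).norm.rpow_const
      (Or.inr hp.le)
  have hc4 : Continuous (fun t : ℝ => ‖F (1 / 2 + t * I)‖ ^ p) := by
    rw [continuous_iff_continuousAt]
    intro u
    have h1 : ContinuousAt F (1 / 2 + (u : ℂ) * I) := by
      apply (hF _ _).continuousAt
      rw [Complex.add_re, Complex.re_ofReal_mul]
      simp
    have h2 : ContinuousAt (fun u : ℝ => (1 / 2 + (u : ℂ) * I)) u := by fun_prop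
    exact (ContinuousAt.comp (f := fun u : ℝ => (1 / 2 + (u : ℂ) * I)) h1 h2).norm.rpow_const
      (Or.inr hp.le)
  have hri : IntervalIntegrable (fun t : ℝ => 120 * t ^ (-(3 / 4) : ℝ)) volume 0 T :=
    (intervalIntegral.intervalIntegrable_rpow' (by norm_num)).const_mul _
  have s1 : ∫ t in (0 : ℝ)..T, ‖riemannZeta (1 / 2 + (δ : ℂ) + t * I)‖ ^ p
      ≤ ∫ t in (0 : ℝ)..T, (‖F (1 / 2 + (δ : ℂ) + t * I)‖ ^ p + 120 * t ^ (-(3 / 4) : ℝ)) := by
    apply intervalIntegral.integral_mono_on_of_le_Ioo hT0.le (hc1.intervalIntegrable _ _)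
      ((hc3.intervalIntegrable _ _).add hri)
    intro t ht
    exact zeta_le_F hδ hδ1 hp hp1 ht.1
  have s2 : ∫ t in (0 : ℝ)..T, (‖F (1 / 2 + (δ : ℂ) + t * I)‖ ^ p + 120 * t ^ (-(3 / 4) : ℝ))
      = (∫ t in (0 : ℝ)..T, ‖F (1 / 2 + (δ : ℂ) + t * I)‖ ^ p) + 480 * T ^ (1 / 4 : ℝ) := by
    rw [intervalIntegral.integral_add (hc3.intervalIntegrable _ _) hri,
      intervalIntegral.integral_const_mul, integral_rpow (Or.inl (by norm_num))]
    congr 1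
    rw [Real.zero_rpow (by norm_num), show (-(3 / 4) + 1 : ℝ) = 1 / 4 by norm_num]
    ring
  have s3 : ∫ t in (0 : ℝ)..T, ‖F (1 / 2 + t * I)‖ ^ p
      ≤ ∫ t in (0 : ℝ)..T, ‖riemannZeta (1 / 2 + t * I)‖ ^ p := by
    apply intervalIntegral.integral_mono_on hT0.le (hc4.intervalIntegrable _ _)
      (hc2.intervalIntegrable _ _)
    intro t ht
    exact F_le_zeta hp
  have p1 : T ^ (1 / 4 : ℝ) ≤ T ^ (9 / 10 : ℝ) :=
    Real.rpow_le_rpow_of_exponent_le hT (by norm_num)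
  have p2 : T ^ (1 / 2 + 1 / 4 : ℝ) ≤ T ^ (9 / 10 : ℝ) :=
    Real.rpow_le_rpow_of_exponent_le hT (by norm_num)
  have p3 : 6 ^ (1 / 4 : ℝ) * 4 ^ (1 / 4 : ℝ) * J (1 / 4) * T ^ (1 / 2 + 1 / 4 : ℝ)
      ≤ 6 ^ (1 / 4 : ℝ) * 4 ^ (1 / 4 : ℝ) * J (1 / 4) * T ^ (9 / 10 : ℝ) := by
    gcongr
  rw [add_mul]
  linarith

end Pool.Agent.Lib.MP_f9aece_nt_h40
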